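import Pool.Agent.Helper67.XiB
open Real Set MeasureTheory
open scoped Interval

namespace Pool.Agent.Helper67.Xi

/-- `∫_0^R Φ(t) cosh(ζt) dt`. -/
noncomputable def ff (R : ℝ) (ζ : ℂ) : ℂ :=
  ∫ t in (0 : ℝ)..R, (Phi t : ℂ) * Complex.cosh (ζ * (t : ℂ))

/-- real version. -/
noncomputable def G (R : ℝ) (x : ℝ) : ℝ :=
  ∫ t in (0 : ℝ)..R, Phi t * Real.cosh (x * t)

theorem H_eq (R : ℝ) (ζ : ℂ) : H R (ζ * Complex.I) = ff R ζ := by
  rw [H, ff]
  congr 1
  ext t
  rw [mul_right_comm, Complex.cos_mul_I]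

theorem ff_ofReal (R : ℝ) (x : ℝ) : ff R (x : ℂ) = ((G R x : ℝ) : ℂ) := by
  rw [ff, G, ← intervalIntegral.integral_ofReal]
  congr 1
  ext t
  push_cast
  rfl

theorem Phi_cont_c {R : ℝ} : ContinuousOn (fun t => (Phi t : ℂ)) (Icc 0 R) :=
  Complex.continuous_ofReal.comp_continuousOn (Phi_continuousOn R)

theorem norm_cosh_le (w : ℂ) (hw : 0 ≤ w.re) : ‖Complex.cosh w‖ ≤ exp w.re := by
  rw [Complex.cosh]
  have h1 : ‖Complex.exp w + Complex.exp (-w)‖ ≤ exp w.re + exp (-w.re) := by
    refine (norm_add_le _ _).trans ?_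
    rw [Complex.norm_exp, Complex.norm_exp]; simp
  have h2 : exp (-w.re) ≤ exp w.re := exp_le_exp.2 (by linarith)
  rw [norm_div]
  simp only [Complex.norm_ofNat]
  linarith

theorem ff_differentiable {R : ℝ} (hR : 0 ≤ R) : Differentiable ℂ (ff R) := by
  intro ζ₀
  have hI : Ι (0:ℝ) R ⊆ Icc 0 R := by
    rw [uIoc_of_le hR]; exact Ioc_subset_Icc_self
  have hmeas : ∀ g : ℝ → ℂ, Continuous g →
      AEStronglyMeasurable (fun t => (Phi t : ℂ) * g t) (volume.restrict (Ι (0:ℝ) R)) := by
    intro g hg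
    have h1 : ContinuousOn (fun t => (Phi t : ℂ) * g t) (Icc 0 R) :=
      Phi_cont_c.mul hg.continuousOn
    exact (h1.mono hI).aestronglyMeasurable measurableSet_uIoc
  have key := intervalIntegral.hasDerivAt_integral_of_dominated_loc_of_deriv_le
    (μ := volume) (a := 0) (b := R) (x₀ := ζ₀) (s := Metric.ball ζ₀ 1)
    (F := fun (ζ : ℂ) (t : ℝ) => (Phi t : ℂ) * Complex.cosh (ζ * (t : ℂ)))
    (F' := fun (ζ : ℂ) (t : ℝ) => (Phi t : ℂ) * (Complex.sinh (ζ * (t : ℂ)) * (t : ℂ)))
    (bound := fun t => Phi t * (exp ((‖ζ₀‖ + 1) * R) * R))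
    (Metric.ball_mem_nhds _ one_pos) ?_ ?_ ?_ ?_ ?_ ?_
  · exact key.2.differentiableAt
  · filter_upwards with ζ
    exact hmeas (fun t => Complex.cosh (ζ * (t : ℂ))) (by fun_prop)
  · apply ContinuousOn.intervalIntegrable
    rw [uIcc_of_le hR]
    exact Phi_cont_c.mul (by fun_prop)
  · exact hmeas (fun t => Complex.sinh (ζ₀ * (t : ℂ)) * (t : ℂ)) (by fun_prop)
  · filter_upwards with t ht ζ hζ
    have ht' := hI ht
    have h1 : ‖Complex.sinh (ζ * (t:ℂ))‖ ≤ exp ((‖ζ₀‖ + 1) * R) := by
      have h2 : ‖ζ * (t:ℂ)‖ ≤ (‖ζ₀‖ + 1) * R := by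
        rw [norm_mul, Complex.norm_real, Real.norm_eq_abs, abs_of_nonneg ht'.1]
        have h3 : ‖ζ‖ ≤ ‖ζ₀‖ + 1 := by
          have := mem_ball_iff_norm.1 hζ
          have h4 := norm_sub_norm_le ζ ζ₀
          linarith
        exact mul_le_mul h3 ht'.2 ht'.1 (by positivity)
      rw [Complex.sinh, norm_div]
      simp only [Complex.norm_ofNat]
      have h5 : ‖Complex.exp (ζ * (t:ℂ)) - Complex.exp (-(ζ * (t:ℂ)))‖ ≤
          exp ((‖ζ₀‖ + 1) * R) + exp ((‖ζ₀‖ + 1) * R) := by
        refine (norm_sub_le _ _).trans (add_le_add ?_ ?_)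
        · exact (Complex.norm_exp_le_exp_norm _).trans (exp_le_exp.2 h2)
        · refine (Complex.norm_exp_le_exp_norm _).trans (exp_le_exp.2 ?_)
          rw [norm_neg]; exact h2
      linarith
    rw [norm_mul, norm_mul, Complex.norm_real, Complex.norm_real, Real.norm_eq_abs,
      Real.norm_eq_abs, abs_of_pos (Phi_pos ht'.1), abs_of_nonneg ht'.1]
    have h6 := (Phi_pos ht'.1).le
    have h7 := ht'.1
    have h8 := ht'.2
    gcongr
  · apply ContinuousOn.intervalIntegrable
    rw [uIcc_of_le hR]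
    exact (Phi_continuousOn R).mul (by fun_prop)
  · filter_upwards with t ht ζ hζ
    have h1 : HasDerivAt (fun ζ : ℂ => ζ * (t:ℂ)) (t:ℂ) ζ := by
      simpa using (hasDerivAt_id ζ).mul_const (t:ℂ)
    exact (h1.ccosh).const_mul _

theorem Phi_le' {R t : ℝ} (ht : 0 ≤ t) (htR : t ≤ R) : Phi t ≤ CC * exp (9 * R) := by
  refine (Phi_le ht).trans ?_
  have h2 : exp (-(π * exp (4 * t))) ≤ 1 := by
    apply exp_le_one_iff.2
    have := pi_pos
    have := exp_pos (4 * t)
    nlinarith
  have h3 : exp (9 * t) ≤ exp (9 * R) := exp_le_exp.2 (by linarith)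
  have := CC_pos
  calc CC * (exp (9 * t) * exp (-(π * exp (4 * t)))) ≤ CC * (exp (9 * R) * 1) := by gcongr
    _ = _ := by ring

/-- complex upper bound -/
theorem norm_ff_le {R : ℝ} (hR : 0 ≤ R) {ζ : ℂ} (hζ : 0 ≤ ζ.re) :
    ‖ff R ζ * Complex.exp (-(R * ζ))‖ ≤ R * (CC * exp (9 * R)) := by
  have h1 : ‖ff R ζ‖ ≤ (CC * exp (9 * R) * exp (ζ.re * R)) * |R - 0| := by
    rw [ff]
    apply intervalIntegral.norm_integral_le_of_norm_le_const
    intro t ht
    rw [uIoc_of_le hR] at ht
    rw [norm_mul, Complex.norm_real, Real.norm_eq_abs, abs_of_pos (Phi_pos ht.1.le)]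
    have h2 := Phi_le' ht.1.le ht.2
    have h3 : ‖Complex.cosh (ζ * (t:ℂ))‖ ≤ exp (ζ.re * R) := by
      have h4 : (ζ * (t:ℂ)).re = ζ.re * t := by simp
      refine (norm_cosh_le _ (by rw [h4]; exact mul_nonneg hζ ht.1.le)).trans ?_
      rw [h4]
      apply exp_le_exp.2
      exact mul_le_mul_of_nonneg_left ht.2 hζ
    have := CC_pos
    exact mul_le_mul h2 h3 (norm_nonneg _) (by positivity)
  rw [norm_mul, Complex.norm_exp]
  have h5 : (-(R * ζ)).re = -(R * ζ.re) := by simp
  rw [h5]
  calc _ ≤ ((CC * exp (9 * R) * exp (ζ.re * R)) * |R - 0|) * exp (-(R * ζ.re)) := by gcongr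
    _ = R * (CC * exp (9 * R)) * (exp (ζ.re * R) * exp (-(R * ζ.re))) := by
      rw [sub_zero, abs_of_nonneg hR]; ring
    _ = _ := by
      rw [← exp_add]
      have : ζ.re * R + -(R * ζ.re) = 0 := by ring
      rw [this, exp_zero, mul_one]

/-- real upper bound past the transition -/
theorem G_le {R : ℝ} (hR : 0 ≤ R) {y : ℝ} (hy : 4 * π ≤ y) :
    G R (exp (4 * R) * y) * exp (-(R * (exp (4 * R) * y))) ≤
      R * (CC * exp (9 * R)) * exp (-(π * exp (4 * R))) := by
  set N := exp (4 * R) with hN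
  have hNpos : 0 < N := exp_pos _
  have hy0 : 0 < y := lt_of_lt_of_le (by positivity) hy
  have h1 : G R (N * y) ≤ ∫ t in (0:ℝ)..R, (CC * exp (9 * R)) *
      exp (-(π * N)) * exp (R * (N * y)) := by
    rw [G]
    apply intervalIntegral.integral_mono_on hR
    · apply ContinuousOn.intervalIntegrable
      rw [uIcc_of_le hR]
      exact (Phi_continuousOn R).mul (by fun_prop)
    · simp
    · intro t ht
      have h2 := Phi_le ht.1
      have h3 : Real.cosh (N * y * t) ≤ exp (N * y * t) := by
        rw [Real.cosh_eq]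
        have : exp (-(N * y * t)) ≤ exp (N * y * t) := by
          apply exp_le_exp.2
          have : 0 ≤ N * y * t := by have := ht.1; positivity
          linarith
        linarith
      have h4 : exp (9 * t) ≤ exp (9 * R) := exp_le_exp.2 (by linarith [ht.2])
      have h5 : exp (-(π * exp (4 * t))) * exp (N * y * t) ≤
          exp (-(π * N)) * exp (R * (N * y)) := by
        rw [← exp_add, ← exp_add]
        apply exp_le_exp.2
        have h6 : exp (4 * t) = N * exp (-(4 * (R - t))) := by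
          rw [hN, ← exp_add]; ring_nf
        have h7 : 1 - 4 * (R - t) ≤ exp (-(4 * (R - t))) := by
          have := add_one_le_exp (-(4 * (R - t)))
          linarith
        have h8 : N * (1 - 4 * (R - t)) ≤ exp (4 * t) := by
          rw [h6]; gcongr
        have h9 : 0 ≤ R - t := by linarith [ht.2]
        have h10 : 0 ≤ N * (R - t) := by positivity
        have h11 : π * (N * (1 - 4 * (R - t))) ≤ π * exp (4 * t) := by gcongr
        nlinarith
      have hc := CC_pos
      have hcosh : 0 ≤ Real.cosh (N * y * t) := (Real.cosh_pos _).le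
      calc Phi t * Real.cosh (N * y * t)
          ≤ (CC * (exp (9 * t) * exp (-(π * exp (4 * t))))) * exp (N * y * t) := by
            apply mul_le_mul h2 h3 hcosh (by positivity)
        _ ≤ (CC * (exp (9 * R) * exp (-(π * exp (4 * t))))) * exp (N * y * t) := by gcongr
        _ = CC * exp (9 * R) * (exp (-(π * exp (4 * t))) * exp (N * y * t)) := by ring
        _ ≤ CC * exp (9 * R) * (exp (-(π * N)) * exp (R * (N * y))) := by gcongr
        _ = _ := by ring
  rw [intervalIntegral.integral_const, smul_eq_mul, sub_zero] at h1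
  calc _ ≤ (R * (CC * exp (9 * R) * exp (-(π * N)) * exp (R * (N * y)))) *
        exp (-(R * (N * y))) := by gcongr
    _ = R * (CC * exp (9 * R)) * exp (-(π * N)) * (exp (R * (N * y)) * exp (-(R * (N * y)))) := by
      ring
    _ = _ := by
      rw [← exp_add (R * (N * y))]
      simp

/-- real lower bound -/
theorem G_ge {R : ℝ} {y τ : ℝ} (hy : 0 ≤ y) (hτ : 0 ≤ τ)
    (hτR : τ + exp (-(4 * R)) ≤ R) :
    (exp (-(4 * R)) / 2) *
      exp (-(π * exp (4 * R) * exp (-(4 * τ))) - exp (4 * R) * y * τ - y) ≤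
    G R (exp (4 * R) * y) * exp (-(R * (exp (4 * R) * y))) := by
  set N := exp (4 * R) with hN
  set η := exp (-(4 * R)) with hη
  have hηN : η * N = 1 := by rw [hN, hη, ← exp_add]; simp
  have hNpos : 0 < N := exp_pos _
  have hηpos : 0 < η := exp_pos _
  set a := R - τ - η with ha
  set b := R - τ with hb
  have ha0 : 0 ≤ a := by rw [ha]; linarith
  have hab : a ≤ b := by rw [ha, hb]; linarith
  have hbR : b ≤ R := by rw [hb]; linarith
  have hR : 0 ≤ R := ha0.trans (hab.trans hbR)
  have hint : ∀ a b : ℝ, 0 ≤ a → a ≤ b → b ≤ R →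
      IntervalIntegrable (fun t => Phi t * Real.cosh (N * y * t)) volume a b := by
    intro a b ha hab hb
    apply ContinuousOn.intervalIntegrable
    rw [uIcc_of_le hab]
    apply ContinuousOn.mul
    · exact (Phi_continuousOn R).mono (Icc_subset_Icc ha hb)
    · fun_prop
  have h1 : ∫ t in a..b, Phi t * Real.cosh (N * y * t) ≤ G R (N * y) := by
    rw [G]
    apply intervalIntegral.integral_mono_interval ha0 hab hbR
    · rw [Filter.EventuallyLE, ae_restrict_iff' measurableSet_Ioc]
      filter_upwards with t ht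
      have := (Phi_pos ht.1.le).le
      have := (Real.cosh_pos (N * y * t)).le
      simp only [Pi.zero_apply]
      positivity
    · exact hint 0 R le_rfl hR le_rfl
  have h2 : ∫ t in a..b, (exp (-(π * N * exp (-(4 * τ)))) * (exp (N * y * a) / 2)) ≤
      ∫ t in a..b, Phi t * Real.cosh (N * y * t) := by
    apply intervalIntegral.integral_mono_on hab
    · simp
    · exact hint a b ha0 hab hbR
    · intro t ht
      have ht0 : 0 ≤ t := ha0.trans ht.1
      have h3 : exp (-(π * N * exp (-(4 * τ)))) ≤ Phi t := by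
        refine le_trans ?_ (Phi_ge ht0)
        apply exp_le_exp.2
        have : exp (4 * t) ≤ N * exp (-(4 * τ)) := by
          rw [hN, ← exp_add]
          apply exp_le_exp.2
          have := ht.2
          rw [hb] at this
          linarith
        have hpi := pi_pos
        nlinarith
      have h4 : exp (N * y * a) / 2 ≤ Real.cosh (N * y * t) := by
        rw [Real.cosh_eq]
        have h5 : exp (N * y * a) ≤ exp (N * y * t) := by
          apply exp_le_exp.2
          have := ht.1
          gcongr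
        have h6 := exp_pos (-(N * y * t))
        linarith
      have := (Phi_pos ht0).le
      gcongr
  rw [intervalIntegral.integral_const, smul_eq_mul] at h2
  have hba : b - a = η := by rw [ha, hb]; ring
  rw [hba] at h2
  have h7 := h2.trans h1
  calc _ = (η * (exp (-(π * N * exp (-(4 * τ)))) * (exp (N * y * a) / 2))) *
        exp (-(R * (N * y))) := by
        have h8 : -(π * N * exp (-(4 * τ))) - N * y * τ - y =
            -(π * N * exp (-(4 * τ))) + N * y * a + -(R * (N * y)) := by
          rw [ha]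
          linear_combination y * hηN
        rw [h8, exp_add, exp_add]
        ring
    _ ≤ _ := by gcongr

end Pool.Agent.Helper67.Xi
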