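import Pool.Agent.Helper67.XiEng3

/-! Integration by parts recursion and its ball version. -/

open MeasureTheory Set
open scoped Interval

namespace Pool.Agent.Helper67.Xi

/-- `∫_0^R exp(ct - y e^{4t}) dt` -/
noncomputable def IY (R y : ℝ) (c : ℂ) : ℂ :=
  ∫ t in (0 : ℝ)..R, Complex.exp (c * t - y * Complex.exp (4 * t))

theorem IY_parts (R y : ℝ) (c : ℂ) :
    c * IY R y c = Complex.exp (c * R - y * Complex.exp (4 * R)) - Complex.exp (-y) +
      4 * y * IY R y (c + 4) := by
  have hd : ∀ t : ℝ, HasDerivAt (fun t : ℝ => Complex.exp (c * t - y * Complex.exp (4 * t)))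
      (c * Complex.exp (c * t - y * Complex.exp (4 * t)) -
        4 * y * Complex.exp ((c + 4) * t - y * Complex.exp (4 * t))) t := by
    intro t
    have h1 : HasDerivAt (fun w : ℂ => (4 : ℂ) * w) 4 (t : ℂ) := by
      simpa using (hasDerivAt_id (t : ℂ)).const_mul (4 : ℂ)
    have h2 : HasDerivAt (fun w : ℂ => c * w) c (t : ℂ) := by
      simpa using (hasDerivAt_id (t : ℂ)).const_mul c
    have h3 := ((h2.sub ((h1.cexp).const_mul (y : ℂ))).cexp).comp_ofReal
    refine h3.congr_deriv ?_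
    have h4 : Complex.exp ((c + 4) * t - y * Complex.exp (4 * t)) =
        Complex.exp (4 * t) * Complex.exp (c * t - y * Complex.exp (4 * t)) := by
      rw [← Complex.exp_add]; congr 1; ring
    rw [h4]
    simp only [Pi.sub_apply]
    ring
  have hi : IntervalIntegrable (fun t : ℝ => c * Complex.exp (c * t - y * Complex.exp (4 * t)))
      volume 0 R := by
    apply Continuous.intervalIntegrable; fun_prop
  have hi2 : IntervalIntegrable (fun t : ℝ => 4 * y * Complex.exp ((c + 4) * t -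
      y * Complex.exp (4 * t))) volume 0 R := by
    apply Continuous.intervalIntegrable; fun_prop
  have h := intervalIntegral.integral_eq_sub_of_hasDerivAt (fun t _ => hd t) (hi.sub hi2)
  rw [intervalIntegral.integral_sub hi hi2, intervalIntegral.integral_const_mul,
    intervalIntegral.integral_const_mul] at h
  simp only [Complex.ofReal_zero, mul_zero, Complex.exp_zero, mul_one, zero_sub] at h
  rw [IY, IY]
  linear_combination h

/-- truncated sums -/
noncomputable def Sx (x : ℂ) : ℂ → ℕ → ℂ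
  | _, 0 => 0
  | c, (n + 1) => (1 + x * Sx x (c + 4) n) / c

/-- products -/
noncomputable def Px (x : ℂ) : ℂ → ℕ → ℂ
  | _, 0 => 1
  | c, (n + 1) => x / c * Px x (c + 4) n

theorem IY_chain (R y : ℝ) : ∀ (J : ℕ) (c : ℂ), (∀ i : ℕ, i < J → c + 4 * i ≠ 0) →
    IY R y c = Complex.exp (c * R - y * Complex.exp (4 * R)) *
        Sx (4 * y * Complex.exp (4 * R)) c J - Complex.exp (-y) * Sx (4 * y) c J +
        Px (4 * y) c J * IY R y (c + 4 * J) := by
  intro J
  induction J with
  | zero => intro c _; simp [Sx, Px]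
  | succ J ih =>
    intro c hc
    have hc0 : c ≠ 0 := by simpa using hc 0 (Nat.succ_pos J)
    have h1 := ih (c + 4) (by
      intro i hi h0
      apply hc (i + 1) (by omega)
      push_cast
      linear_combination h0)
    have h2 := IY_parts R y c
    rw [h1] at h2
    have h3 : Complex.exp ((c + 4) * R - y * Complex.exp (4 * R)) =
        Complex.exp (4 * R) * Complex.exp (c * R - y * Complex.exp (4 * R)) := by
      rw [← Complex.exp_add]; congr 1; ring
    rw [h3] at h2
    have h4 : c + 4 + 4 * (J : ℂ) = c + 4 * ((J + 1 : ℕ) : ℂ) := by push_cast; ring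
    rw [h4] at h2
    simp only [Sx, Px]
    have h5 : IY R y c = (Complex.exp (c * R - y * Complex.exp (4 * R)) - Complex.exp (-y) +
      4 * y * (Complex.exp (4 * R) * Complex.exp (c * R - y * Complex.exp (4 * R)) *
        Sx (4 * y * Complex.exp (4 * R)) (c + 4) J - Complex.exp (-y) * Sx (4 * y) (c + 4) J +
        Px (4 * y) (c + 4) J * IY R y (c + 4 * ((J + 1 : ℕ) : ℂ)))) / c := by
      rw [← h2]; field_simp
    rw [h5]
    field_simp
    ring

def CB.four : CB := ⟨4 * SC, 0, 0⟩
def CB.one : CB := ⟨SC, 0, 0⟩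

theorem mem_four : CB.mem 4 CB.four := by
  have := mem_ofInt 4
  simpa [CB.ofInt, CB.four] using this

theorem mem_one : CB.mem 1 CB.one := by
  have := mem_ofInt 1
  simpa [CB.ofInt, CB.one] using this

/-- scaled bound for `|t| / (|s| - |t|)` -/
def qv (B T : CB) : ℕ := ((T.n1 + T.rad) * SC) / ((B.low - B.rad) - (T.n1 + T.rad)) + 1

def stepOk (B T : CB) : Bool := decide (T.n1 + T.rad + B.rad < B.low)

theorem stepOk_spec {B T : CB} (h : stepOk B T = true) {s t : ℂ} (hs : CB.mem s B)
    (ht : CB.mem t T) : B.rad < B.low ∧ ‖t‖ < ‖s‖ ∧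
      ‖t‖ / (‖s‖ - ‖t‖) * (SC : ℝ) ≤ qv B T ∧
      (((B.low - B.rad) - (T.n1 + T.rad) : ℕ) : ℝ) ≤ (‖s‖ - ‖t‖) * SC ∧
      0 < (B.low - B.rad) - (T.n1 + T.rad) := by
  have h0 : T.n1 + T.rad + B.rad < B.low := of_decide_eq_true h
  have hS := SC_pos
  have h1 := norm_le_of_mem ht
  have h2 := low_le B
  have h3 : ‖B.ctr‖ - B.rad ≤ ‖s‖ * (SC : ℝ) := by
    unfold CB.mem at hs
    have : ‖B.ctr‖ - ‖s * (SC : ℂ)‖ ≤ ‖s * (SC : ℂ) - B.ctr‖ := by
      have := norm_sub_norm_le B.ctr (s * (SC : ℂ))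
      rwa [norm_sub_rev] at this
    rw [norm_mul, Complex.norm_natCast] at this
    linarith
  rw [norm_mul, Complex.norm_natCast] at h1
  have h0r : (T.n1 : ℝ) + T.rad + B.rad < B.low := by exact_mod_cast h0
  have h4 : (T.n1 : ℝ) + T.rad < ‖s‖ * SC := by linarith
  have h5 : ‖t‖ < ‖s‖ := by
    by_contra hcon
    push Not at hcon
    nlinarith
  have hsub : (((B.low - B.rad) - (T.n1 + T.rad) : ℕ) : ℝ) =
      (B.low : ℝ) - B.rad - (T.n1 + T.rad) := by
    rw [Nat.cast_sub (by omega), Nat.cast_sub (by omega)]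
    push_cast; ring
  have hpos : 0 < (B.low - B.rad) - (T.n1 + T.rad) := by omega
  have hposr : (0 : ℝ) < (((B.low - B.rad) - (T.n1 + T.rad) : ℕ) : ℝ) := by exact_mod_cast hpos
  have h6 : (((B.low - B.rad) - (T.n1 + T.rad) : ℕ) : ℝ) ≤ (‖s‖ - ‖t‖) * SC := by
    rw [hsub]; nlinarith
  refine ⟨by omega, h5, ?_, h6, hpos⟩
  have h7 := nat_div_ceil ((T.n1 + T.rad) * SC) ((B.low - B.rad) - (T.n1 + T.rad)) hpos
  have h8 : ((qv B T : ℕ) : ℝ) = (((T.n1 + T.rad) * SC) / ((B.low - B.rad) - (T.n1 + T.rad)) : ℕ) + 1 := by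
    rw [qv]; push_cast; ring
  rw [h8]
  refine le_trans ?_ h7
  have h9 : ‖t‖ / (‖s‖ - ‖t‖) * (SC : ℝ) = (‖t‖ * SC) * SC / ((‖s‖ - ‖t‖) * SC) := by
    have : ‖s‖ - ‖t‖ ≠ 0 := by linarith
    field_simp
  rw [h9]
  apply div_le_div₀
  · positivity
  · push_cast
    gcongr
  · exact hposr
  · exact h6

/-- ball version of `Sx` for `c = s + t v` -/
def chainT (X T : CB) (len : ℕ) : CB → ℕ → List CB
  | _, 0 => tZero len
  | B, (n + 1) => tDivLin B.inv T (qv B T) ⟨0, 0, 0⟩
      (tAddC CB.one (tScale X (chainT X T len (B.add CB.four) n)))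

def chainOk (T : CB) : CB → ℕ → Bool
  | _, 0 => true
  | B, (n + 1) => stepOk B T && chainOk T (B.add CB.four) n

theorem chainOk_ne {T : CB} {v t : ℂ} (hv : ‖v‖ ≤ 1) (ht : CB.mem t T) :
    ∀ (n : ℕ) (B : CB) (s : ℂ), chainOk T B n = true → CB.mem s B →
    ∀ i : ℕ, i < n → s + t * v + 4 * i ≠ 0 := by
  intro n
  induction n with
  | zero => intro B s _ _ i hi; omega
  | succ n ih =>
    intro B s h hs i hi
    rw [chainOk, Bool.and_eq_true] at h
    rcases Nat.eq_zero_or_pos i with h0 | h0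
    · subst h0
      have h1 := (stepOk_spec h.1 hs ht).2.1
      have htv : ‖t * v‖ ≤ ‖t‖ := by
        rw [norm_mul]
        calc ‖t‖ * ‖v‖ ≤ ‖t‖ * 1 := by gcongr
          _ = _ := mul_one _
      intro h2
      have h3 : s = -(t * v) := by
        have : s + t * v = 0 := by simpa using h2
        linear_combination this
      rw [h3, norm_neg] at h1
      linarith
    · obtain ⟨j, rfl⟩ : ∃ j, i = j + 1 := ⟨i - 1, by omega⟩
      have h2 := ih (B.add CB.four) (s + 4) h.2 (mem_add hs mem_four) j (by omega)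
      intro h3
      apply h2
      push_cast at h3
      linear_combination h3

theorem chainT_ne (X T : CB) (len : ℕ) (hlen : 0 < len) : ∀ (n : ℕ) (B : CB),
    chainT X T len B n ≠ [] := by
  intro n
  induction n with
  | zero =>
    intro B
    obtain ⟨m, rfl⟩ : ∃ m, len = m + 1 := ⟨len - 1, by omega⟩
    simp [chainT, tZero]
  | succ n ih =>
    intro B
    rw [chainT]
    have h := ih (B.add CB.four)
    generalize chainT X T len (B.add CB.four) n = L at *
    cases L with
    | nil => exact absurd rfl h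
    | cons a L =>
      simp only [tScale, List.map_cons, tAddC]
      cases L <;> simp [tDivLin]

theorem pmem_chain {X T : CB} {len : ℕ} (hlen : 0 < len) {v x t : ℂ} (hv : ‖v‖ ≤ 1)
    (hx : CB.mem x X) (ht : CB.mem t T) : ∀ (n : ℕ) (B : CB) (s : ℂ),
    chainOk T B n = true → CB.mem s B → PMem v (Sx x (s + t * v) n) (chainT X T len B n) := by
  intro n
  induction n with
  | zero => intro B s _ _; simpa [Sx, chainT] using pmem_zero v len
  | succ n ih =>
    intro B s h hs
    rw [chainOk, Bool.and_eq_true] at h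
    have h1 := ih (B.add CB.four) (s + 4) h.2 (mem_add hs mem_four)
    have h2 := pmem_addC mem_one (pmem_scale hx h1)
    obtain ⟨g1, g2, g3, -, -⟩ := stepOk_spec h.1 hs ht
    have h3 := pmem_divLin hv (mem_inv g1 hs) ht g2 g3 (L := tAddC CB.one (tScale X
      (chainT X T len (B.add CB.four) n))) (by
        generalize tScale X (chainT X T len (B.add CB.four) n) = Z
        cases Z <;> simp [tAddC]) h2
    rw [Sx, chainT]
    convert h3 using 3
    ring_nf

/-- bound for the products -/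
def prodB (X T : CB) : CB → ℕ → ℕ
  | _, 0 => SC
  | B, (n + 1) => ((X.n1 + X.rad) * prodB X T (B.add CB.four) n) /
      ((B.low - B.rad) - (T.n1 + T.rad)) + 1

theorem norm_Px_le {X T : CB} {v x t : ℂ} (hv : ‖v‖ ≤ 1)
    (hx : CB.mem x X) (ht : CB.mem t T) : ∀ (n : ℕ) (B : CB) (s : ℂ),
    chainOk T B n = true → CB.mem s B → ‖Px x (s + t * v) n‖ * SC ≤ prodB X T B n := by
  have hS := SC_pos
  intro n
  induction n with
  | zero => intro B s _ _; simp [Px, prodB]
  | succ n ih =>
    intro B s h hs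
    rw [chainOk, Bool.and_eq_true] at h
    have h1 := ih (B.add CB.four) (s + 4) h.2 (mem_add hs mem_four)
    obtain ⟨-, g2, -, g4, g5⟩ := stepOk_spec h.1 hs ht
    have htv : ‖t * v‖ ≤ ‖t‖ := by
      rw [norm_mul]
      calc ‖t‖ * ‖v‖ ≤ ‖t‖ * 1 := by gcongr
        _ = _ := mul_one _
    have hden : ‖s‖ - ‖t‖ ≤ ‖s + t * v‖ := by
      have := norm_sub_norm_le s (-(t * v))
      rw [norm_neg, sub_neg_eq_add] at this
      linarith
    have e1 : s + t * v + 4 = s + 4 + t * v := by ring
    rw [Px, prodB, e1, norm_mul, norm_div]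
    have hxx := norm_le_of_mem hx
    rw [norm_mul, Complex.norm_natCast] at hxx
    have h7 := nat_div_ceil ((X.n1 + X.rad) * prodB X T (B.add CB.four) n)
      ((B.low - B.rad) - (T.n1 + T.rad)) g5
    push_cast at h7 ⊢
    refine le_trans ?_ h7
    have h8 : ‖x‖ / ‖s + t * v‖ * ‖Px x (s + 4 + t * v) n‖ * (SC : ℝ) =
        (‖x‖ * SC) * (‖Px x (s + 4 + t * v) n‖ * SC) / (‖s + t * v‖ * SC) := by
      have : 0 < ‖s + t * v‖ := by linarith
      field_simp
    rw [h8]
    have g5r : (0 : ℝ) < (((B.low - B.rad) - (T.n1 + T.rad) : ℕ) : ℝ) := by exact_mod_cast g5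
    apply div_le_div₀
    · positivity
    · apply mul_le_mul hxx h1 (by positivity) (by positivity)
    · exact g5r
    · refine g4.trans ?_
      gcongr

end Pool.Agent.Helper67.Xi
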