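import Pool.Agent.Helper67.XiEng

/-! Inverse and exponential of complex balls. -/

namespace Pool.Agent.Helper67.Xi

def lowN (a b : ℕ) : ℕ :=
  max (max (max a b) (max ((4 * a + 3 * b) / 5) ((3 * a + 4 * b) / 5)))
    (max ((12 * a + 5 * b) / 13) ((5 * a + 12 * b) / 13))

theorem lowN_aux (a b p q n : ℕ) (hn : 0 < n) (h : p ^ 2 + q ^ 2 = n ^ 2) :
    (((p * a + q * b) / n : ℕ) : ℝ) ≤ Real.sqrt ((a : ℝ) ^ 2 + (b : ℝ) ^ 2) := by
  have hnr : (0 : ℝ) < n := by exact_mod_cast hn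
  have h1 : (((p * a + q * b) / n : ℕ) : ℝ) ≤ ((p * a + q * b : ℕ) : ℝ) / n := Nat.cast_div_le
  refine h1.trans ?_
  apply Real.le_sqrt_of_sq_le
  have h2 : ((p : ℝ)) ^ 2 + (q : ℝ) ^ 2 = (n : ℝ) ^ 2 := by exact_mod_cast h
  rw [div_pow, div_le_iff₀ (by positivity), ← h2]
  push_cast
  nlinarith [sq_nonneg ((p : ℝ) * b - q * a)]

theorem lowN_le (a b : ℕ) : (lowN a b : ℝ) ≤ Real.sqrt ((a : ℝ) ^ 2 + (b : ℝ) ^ 2) := by
  have h1 := lowN_aux a b 1 0 1 one_pos (by norm_num)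
  have h2 := lowN_aux a b 0 1 1 one_pos (by norm_num)
  have h3 := lowN_aux a b 4 3 5 (by norm_num) (by norm_num)
  have h4 := lowN_aux a b 3 4 5 (by norm_num) (by norm_num)
  have h5 := lowN_aux a b 12 5 13 (by norm_num) (by norm_num)
  have h6 := lowN_aux a b 5 12 13 (by norm_num) (by norm_num)
  simp only [one_mul, zero_mul, add_zero, zero_add, Nat.div_one] at h1 h2
  unfold lowN
  push_cast
  simp only [max_le_iff]
  refine ⟨⟨⟨h1, h2⟩, h3, h4⟩, h5, h6⟩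

def CB.low (a : CB) : ℕ := lowN a.re.natAbs a.im.natAbs

theorem low_le (a : CB) : (a.low : ℝ) ≤ ‖a.ctr‖ := by
  have h1 := lowN_le a.re.natAbs a.im.natAbs
  refine h1.trans (le_of_eq ?_)
  rw [CB.ctr, Nat.cast_natAbs, Nat.cast_natAbs]
  have : ((a.re : ℂ) + (a.im : ℂ) * Complex.I) = ((a.re : ℝ) : ℂ) + ((a.im : ℝ) : ℂ) * Complex.I := by
    push_cast; rfl
  rw [this, Complex.norm_add_mul_I]
  push_cast
  rw [sq_abs, sq_abs]

def CB.inv (a : CB) : CB :=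
  ⟨((SC : ℤ) * SC * a.re) / ((a.re.natAbs ^ 2 + a.im.natAbs ^ 2 : ℕ) : ℤ),
   (-((SC : ℤ) * SC * a.im)) / ((a.re.natAbs ^ 2 + a.im.natAbs ^ 2 : ℕ) : ℤ),
   (SC * SC * a.rad) / (a.low * (a.low - a.rad)) + 3⟩

theorem mem_inv {z : ℂ} {a : CB} (h : a.rad < a.low) (hz : CB.mem z a) :
    CB.mem z⁻¹ a.inv := by
  have hS := SC_pos
  have hSc : (SC : ℂ) ≠ 0 := by exact_mod_cast hS.ne'
  have hlow := low_le a
  have hr : (a.rad : ℝ) < a.low := by exact_mod_cast h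
  have hlow0 : (0 : ℝ) < a.low := lt_of_le_of_lt (Nat.cast_nonneg _) hr
  unfold CB.mem at hz
  set δ := z * (SC : ℂ) - a.ctr with hδ
  have hc0 : a.ctr ≠ 0 := by
    intro h0; rw [h0, norm_zero] at hlow; linarith
  have hn : 0 < a.re.natAbs ^ 2 + a.im.natAbs ^ 2 := by
    rcases Nat.eq_zero_or_pos (a.re.natAbs ^ 2 + a.im.natAbs ^ 2) with h0 | h0
    · exfalso
      apply hc0
      have h1 : a.re.natAbs = 0 := by nlinarith [Nat.zero_le (a.re.natAbs ^ 2), Nat.zero_le (a.im.natAbs ^ 2)]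
      have h2 : a.im.natAbs = 0 := by nlinarith [Nat.zero_le (a.re.natAbs ^ 2), Nat.zero_le (a.im.natAbs ^ 2)]
      rw [Int.natAbs_eq_zero] at h1 h2
      rw [CB.ctr, h1, h2]; simp
    · exact h0
  set n := a.re.natAbs ^ 2 + a.im.natAbs ^ 2 with hndef
  have hcd : ‖a.ctr‖ - a.rad ≤ ‖a.ctr + δ‖ := by
    have := norm_sub_norm_le a.ctr (-δ)
    rw [norm_neg, sub_neg_eq_add] at this
    linarith
  have hcd0 : 0 < ‖a.ctr‖ - a.rad := by linarith
  have hcdne : a.ctr + δ ≠ 0 := by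
    intro h0; rw [h0, norm_zero] at hcd; linarith
  have hzz : z = (a.ctr + δ) / (SC : ℂ) := by rw [hδ]; field_simp; ring
  have e1 : z⁻¹ * (SC : ℂ) - a.inv.ctr = -((SC : ℂ) * SC * δ / (a.ctr * (a.ctr + δ))) +
      ((SC : ℂ) * SC / a.ctr - a.inv.ctr) := by
    rw [hzz]
    field_simp
    ring
  have hnn : (a.re : ℂ) ^ 2 + (a.im : ℂ) ^ 2 = (n : ℂ) := by
    have h1 : (a.re : ℤ) ^ 2 + a.im ^ 2 = (n : ℤ) := by
      rw [hndef]; push_cast; rw [sq_abs, sq_abs]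
    exact_mod_cast h1
  have hnc : (n : ℂ) ≠ 0 := by exact_mod_cast hn.ne'
  have e2 : (SC : ℂ) * SC / a.ctr - a.inv.ctr =
      ((((SC : ℤ) * SC * a.re : ℤ) : ℂ) + ((-((SC : ℤ) * SC * a.im) : ℤ) : ℂ) * Complex.I)
        / (n : ℂ) - (((((SC : ℤ) * SC * a.re) / (n : ℤ) : ℤ) : ℂ) +
      (((-((SC : ℤ) * SC * a.im)) / (n : ℤ) : ℤ) : ℂ) * Complex.I) := by
    have h1 : a.inv.ctr = ((((SC : ℤ) * SC * a.re) / (n : ℤ) : ℤ) : ℂ) +
      (((-((SC : ℤ) * SC * a.im)) / (n : ℤ) : ℤ) : ℂ) * Complex.I := by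
      simp only [CB.inv, CB.ctr, ← hndef]
    rw [h1]
    have h2 : (SC : ℂ) * SC / a.ctr =
        ((((SC : ℤ) * SC * a.re : ℤ) : ℂ) + ((-((SC : ℤ) * SC * a.im) : ℤ) : ℂ) * Complex.I)
        / (n : ℂ) := by
      rw [div_eq_div_iff hc0 hnc, ← hnn, CB.ctr]
      push_cast
      have : Complex.I ^ 2 = -1 := Complex.I_sq
      ring_nf
      rw [this]
      ring
    rw [h2]
  have e3 := round_err ((SC : ℤ) * SC * a.re) (-((SC : ℤ) * SC * a.im)) n hn
  rw [← e2] at e3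
  unfold CB.mem
  rw [e1]
  refine (norm_add_le _ _).trans ?_
  rw [norm_neg]
  have hmpos : 0 < a.low * (a.low - a.rad) := by
    apply Nat.mul_pos
    · omega
    · omega
  have e4 : ‖(SC : ℂ) * SC * δ / (a.ctr * (a.ctr + δ))‖ ≤
      ((SC * SC * a.rad : ℕ) : ℝ) / ((a.low * (a.low - a.rad) : ℕ) : ℝ) := by
    rw [norm_div, norm_mul, norm_mul, norm_mul, Complex.norm_natCast]
    have hsub : ((a.low - a.rad : ℕ) : ℝ) = (a.low : ℝ) - a.rad := by
      rw [Nat.cast_sub h.le]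
    rw [Nat.cast_mul a.low, hsub]
    apply div_le_div₀
    · positivity
    · push_cast
      gcongr
    · apply mul_pos hlow0; linarith
    · apply mul_le_mul hlow _ (by linarith) (norm_nonneg _)
      linarith
  have e5 := nat_div_ceil (SC * SC * a.rad) (a.low * (a.low - a.rad)) hmpos
  have e6 : (a.inv.rad : ℝ) = ((SC * SC * a.rad) / (a.low * (a.low - a.rad)) : ℕ) + 3 := by
    simp only [CB.inv]; push_cast; ring
  rw [e6]
  linarith

/-- Horner evaluation of the exponential series -/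
def CB.expAux (z : CB) : ℕ → CB → CB
  | 0, h => h
  | (k + 1), h => CB.expAux z k ((CB.ofInt 1).add ((z.mul h).divNat (k + 1)))

theorem mem_expAux {z : ℂ} {b : CB} (hz : CB.mem z b) : ∀ (k : ℕ) (h : ℂ) (c : CB),
    CB.mem h c → CB.mem (∑ j ∈ Finset.range k, z ^ j / (j.factorial : ℂ) +
      z ^ k / (k.factorial : ℂ) * h) (CB.expAux b k c) := by
  intro k
  induction k with
  | zero => intro h c hc; simpa [CB.expAux] using hc
  | succ k ih =>
    intro h c hc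
    have h1 := ih (1 + z * h / ((k + 1 : ℕ) : ℂ)) ((CB.ofInt 1).add ((b.mul c).divNat (k + 1)))
      (mem_add (by simpa using mem_ofInt 1) (mem_divNat (k + 1) (Nat.succ_pos k) (mem_mul hz hc)))
    rw [CB.expAux]
    convert h1 using 1
    rw [Finset.sum_range_succ, Nat.factorial_succ]
    have : ((k : ℂ) + 1) ≠ 0 := by exact_mod_cast Nat.succ_ne_zero k
    have h2 : (k.factorial : ℂ) ≠ 0 := by exact_mod_cast Nat.factorial_ne_zero k
    push_cast
    field_simp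
    ring

def CB.exp1 (z : CB) : CB := (CB.expAux z 27 (CB.ofInt 1)).widen 1

theorem mem_exp1 {z : ℂ} {b : CB} (hz : CB.mem z b) (hz1 : ‖z‖ ≤ 1) :
    CB.mem (Complex.exp z) (CB.exp1 b) := by
  have h1 := mem_expAux hz 27 1 (CB.ofInt 1) (by simpa using mem_ofInt 1)
  rw [mul_one, ← Finset.sum_range_succ] at h1
  refine mem_widen h1 ?_
  have h2 := Complex.exp_bound hz1 (n := 28) (by norm_num)
  rw [norm_mul, Complex.norm_natCast]
  have h3 : ‖z‖ ^ 28 * ((Nat.succ 28 : ℝ) * ((Nat.factorial 28 : ℝ) * (28 : ℕ))⁻¹) ≤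
      1 * ((Nat.succ 28 : ℝ) * ((Nat.factorial 28 : ℝ) * (28 : ℕ))⁻¹) := by
    gcongr
    exact pow_le_one₀ (norm_nonneg _) hz1
  have h4 := h2.trans h3
  have h5 : (1 * ((Nat.succ 28 : ℝ) * ((Nat.factorial 28 : ℝ) * (28 : ℕ))⁻¹)) * (SC : ℝ) ≤ 1 := by
    norm_num [Nat.factorial, SC]
  calc _ ≤ (1 * ((Nat.succ 28 : ℝ) * ((Nat.factorial 28 : ℝ) * (28 : ℕ))⁻¹)) * (SC : ℝ) := by
        gcongr
    _ ≤ 1 := h5
    _ = ((1 : ℕ) : ℝ) := by norm_num

def CB.sqn : ℕ → CB → CB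
  | 0, b => b
  | (k + 1), b => CB.sqn k (b.mul b)

theorem mem_sqn : ∀ (k : ℕ) {z : ℂ} {b : CB}, CB.mem z b → CB.mem (z ^ (2 ^ k)) (CB.sqn k b) := by
  intro k
  induction k with
  | zero => intro z b h; simpa [CB.sqn] using h
  | succ k ih =>
    intro z b h
    rw [CB.sqn]
    have := ih (mem_mul h h)
    convert this using 1
    rw [pow_succ, pow_mul', ← pow_two]

/-- exponential with `k` halvings -/
def CB.exp (k : ℕ) (b : CB) : CB := CB.sqn k (CB.exp1 (b.divNat (2 ^ k)))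

def CB.expOk (k : ℕ) (b : CB) : Bool := decide ((b.divNat (2 ^ k)).n1 + (b.divNat (2 ^ k)).rad ≤ SC)

theorem mem_exp {z : ℂ} {b : CB} (k : ℕ) (h : CB.expOk k b = true) (hz : CB.mem z b) :
    CB.mem (Complex.exp z) (CB.exp k b) := by
  have h1 := mem_divNat (2 ^ k) (by positivity) hz
  have h2 := norm_le_of_mem h1
  have h3 : ‖z / ((2 ^ k : ℕ) : ℂ)‖ ≤ 1 := by
    rw [norm_mul, Complex.norm_natCast] at h2
    have h4 : ((b.divNat (2 ^ k)).n1 + (b.divNat (2 ^ k)).rad : ℝ) ≤ (SC : ℝ) := by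
      have := of_decide_eq_true h
      exact_mod_cast this
    have h5 := h2.trans h4
    have h6 := SC_pos
    by_contra hcon
    push Not at hcon
    nlinarith
  have h4 := mem_exp1 h1 h3
  have h5 := mem_sqn k h4
  rw [CB.exp]
  convert h5 using 1
  rw [← Complex.exp_nat_mul]
  congr 1
  push_cast
  field_simp

end Pool.Agent.Helper67.Xi
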