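import Pool.Agent.Helper67.XiB
import Pool.Agent.Helper67.XiEng2

/-! The tail of the kernel. -/

open Real Set

namespace Pool.Agent.Helper67.Xi

/-- The part of the kernel with summation index at least two. -/
noncomputable def Psi (t : ℝ) : ℝ := ∑' n : ℕ, trm (n + 1) t

/-- The part of the kernel with summation index at least three. -/
noncomputable def Psi3 (t : ℝ) : ℝ := ∑' n : ℕ, trm (n + 2) t

theorem Phi_split {t : ℝ} (ht : 0 ≤ t) : Phi t = trm 0 t + Psi t := by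
  rw [Phi_eq, Psi, (summable_trm ht).tsum_eq_zero_add]

theorem summable_trm1 {t : ℝ} (ht : 0 ≤ t) : Summable (fun n => trm (n + 1) t) :=
  (summable_nat_add_iff 1).2 (summable_trm ht)

theorem summable_trm2 {t : ℝ} (ht : 0 ≤ t) : Summable (fun n => trm (n + 2) t) :=
  (summable_nat_add_iff 2).2 (summable_trm ht)

theorem Psi_split {t : ℝ} (ht : 0 ≤ t) : Psi t = trm 1 t + Psi3 t := by
  rw [Psi, Psi3, (summable_trm1 ht).tsum_eq_zero_add]

theorem Psi_nonneg {t : ℝ} (ht : 0 ≤ t) : 0 ≤ Psi t := tsum_nonneg fun _ => trm_nonneg _ ht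

theorem Psi3_nonneg {t : ℝ} (ht : 0 ≤ t) : 0 ≤ Psi3 t := tsum_nonneg fun _ => trm_nonneg _ ht

theorem trm_hasDerivAt (n : ℕ) (t : ℝ) : HasDerivAt (trm n)
    (π * ((n : ℝ) + 1) ^ 2 * exp (5 * t) * exp (-(π * ((n : ℝ) + 1) ^ 2 * exp (4 * t))) *
      (-8 * (π * ((n : ℝ) + 1) ^ 2 * exp (4 * t)) ^ 2 +
        30 * (π * ((n : ℝ) + 1) ^ 2 * exp (4 * t)) - 15)) t := by
  have h9 : HasDerivAt (fun t : ℝ => exp (9 * t)) (exp (9 * t) * 9) t := by
    simpa using ((hasDerivAt_id t).const_mul (9 : ℝ)).exp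
  have h5 : HasDerivAt (fun t : ℝ => exp (5 * t)) (exp (5 * t) * 5) t := by
    simpa using ((hasDerivAt_id t).const_mul (5 : ℝ)).exp
  have h4 : HasDerivAt (fun t : ℝ => exp (4 * t)) (exp (4 * t) * 4) t := by
    simpa using ((hasDerivAt_id t).const_mul (4 : ℝ)).exp
  have h := ((h9.const_mul (2 * π ^ 2 * ((n : ℝ) + 1) ^ 4)).sub
    (h5.const_mul (3 * π * ((n : ℝ) + 1) ^ 2))).mul
    ((h4.const_mul (π * ((n : ℝ) + 1) ^ 2)).neg.exp)
  have e9 : exp (9 * t) = exp (5 * t) * exp (4 * t) := by rw [← exp_add]; ring_nf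
  unfold trm
  refine h.congr_deriv ?_
  simp only [Pi.neg_apply, Pi.sub_apply]
  rw [e9]
  ring

theorem trm_antitoneOn (n : ℕ) (hn : 1 ≤ n) : AntitoneOn (trm n) (Ici 0) := by
  apply antitoneOn_of_deriv_nonpos (convex_Ici 0)
  · exact fun t _ => (trm_hasDerivAt n t).continuousAt.continuousWithinAt
  · exact fun t _ => (trm_hasDerivAt n t).differentiableAt.differentiableWithinAt
  · intro t ht
    rw [interior_Ici] at ht
    rw [(trm_hasDerivAt n t).deriv]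
    have h1 := one_le_exp4 (le_of_lt ht)
    have hn' : (1 : ℝ) ≤ n := by exact_mod_cast hn
    have h2 : (4 : ℝ) ≤ ((n : ℝ) + 1) ^ 2 := by nlinarith
    have h3 : (12 : ℝ) ≤ π * ((n : ℝ) + 1) ^ 2 * exp (4 * t) := by
      have : (12 : ℝ) ≤ π * ((n : ℝ) + 1) ^ 2 := by nlinarith [pi_gt_three]
      nlinarith
    have h4 : -8 * (π * ((n : ℝ) + 1) ^ 2 * exp (4 * t)) ^ 2 +
        30 * (π * ((n : ℝ) + 1) ^ 2 * exp (4 * t)) - 15 ≤ 0 := by nlinarith
    apply mul_nonpos_of_nonneg_of_nonpos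
    · have := pi_pos; positivity
    · exact h4

theorem Psi_antitoneOn : AntitoneOn Psi (Ici 0) := by
  intro a ha b hb hab
  exact (summable_trm1 (mem_Ici.1 hb)).tsum_le_tsum
    (fun n => trm_antitoneOn (n + 1) (by omega) ha hb hab) (summable_trm1 (mem_Ici.1 ha))

theorem Psi3_antitoneOn : AntitoneOn Psi3 (Ici 0) := by
  intro a ha b hb hab
  exact (summable_trm2 (mem_Ici.1 hb)).tsum_le_tsum
    (fun n => trm_antitoneOn (n + 2) (by omega) ha hb hab) (summable_trm2 (mem_Ici.1 ha))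

theorem trm_continuous (n : ℕ) : Continuous (trm n) := by
  unfold trm; fun_prop

/-- `exp (-π) ≤ 0.0433` -/
theorem exp_neg_pi_le : exp (-π) ≤ 433 / 10000 := by
  have h1 : exp (3.14159 : ℝ) ≤ exp π := exp_le_exp.2 (by linarith [pi_gt_d6])
  have h2 : (2.7182818283 : ℝ) < exp 1 := exp_one_gt_d9
  have h3 : exp (3.14159 : ℝ) = exp 1 ^ 3 * exp 0.14159 := by
    rw [← exp_nat_mul, ← exp_add]; norm_num
  have h4 : (1.152 : ℝ) ≤ exp 0.14159 := by
    have := quadratic_le_exp_of_nonneg (x := 0.14159) (by norm_num)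
    have h5 : (0.14159 : ℝ) + 1 ≤ exp 0.14159 := add_one_le_exp _
    -- use cubic bound
    have h6 : exp (0.14159 : ℝ) = (exp (0.14159 / 4)) ^ 4 := by
      rw [← exp_nat_mul]; norm_num
    have h7 := quadratic_le_exp_of_nonneg (x := 0.14159 / 4) (by norm_num)
    rw [h6]
    have h8 : (1.03602 : ℝ) ≤ exp (0.14159 / 4) := by
      refine le_trans ?_ h7; norm_num
    calc (1.152 : ℝ) ≤ 1.03602 ^ 4 := by norm_num
      _ ≤ _ := by gcongr
  have h5 : (2.7182818283 : ℝ) ^ 3 * 1.152 ≤ exp π := by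
    rw [h3] at h1
    refine le_trans ?_ h1
    gcongr
  rw [exp_neg]
  rw [inv_le_comm₀ (exp_pos _) (by norm_num)]
  refine le_trans ?_ h5
  norm_num

theorem trm_zero_le (n : ℕ) : trm n 0 ≤ 20 * ((n : ℝ) + 1) ^ 4 * (433 / 10000) ^ ((n + 1) ^ 2) := by
  have hpi := pi_lt_d4
  have hp := pi_pos
  rw [trm, mul_zero, mul_zero, mul_zero, exp_zero]
  have h1 : exp (-(π * ((n : ℝ) + 1) ^ 2 * 1)) = (exp (-π)) ^ ((n + 1) ^ 2) := by
    rw [← exp_nat_mul]; congr 1; push_cast; ring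
  rw [h1]
  have h2 : (exp (-π)) ^ ((n + 1) ^ 2) ≤ (433 / 10000 : ℝ) ^ ((n + 1) ^ 2) :=
    pow_le_pow_left₀ (exp_pos _).le exp_neg_pi_le _
  have h3 : 2 * π ^ 2 ≤ 20 := by nlinarith
  have h4 : (2 * π ^ 2 * ((n : ℝ) + 1) ^ 4 * 1 - 3 * π * ((n : ℝ) + 1) ^ 2 * 1) ≤
      20 * ((n : ℝ) + 1) ^ 4 := by
    have h5 : (0 : ℝ) ≤ 3 * π * ((n : ℝ) + 1) ^ 2 * 1 := by positivity
    have h6 : (0 : ℝ) ≤ ((n : ℝ) + 1) ^ 4 := by positivity
    nlinarith
  calc _ ≤ 20 * ((n : ℝ) + 1) ^ 4 * (exp (-π)) ^ ((n + 1) ^ 2) := by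
        gcongr
    _ ≤ _ := by gcongr

theorem cfb (n : ℕ) : trm (n + 2) 0 ≤ 9 / 10 ^ 10 * (1 / 10) ^ n := by
  refine (trm_zero_le (n + 2)).trans ?_
  have h1 : ∀ n : ℕ, ((((n + 2 : ℕ) : ℝ)) + 1) ^ 4 ≤ 81 * 4 ^ n := by
    intro n
    induction n with
    | zero => norm_num
    | succ m ih =>
      have h2 : ((((m + 1 + 2 : ℕ) : ℝ)) + 1) ^ 4 ≤ 4 * ((((m + 2 : ℕ) : ℝ)) + 1) ^ 4 := by
        push_cast
        have hm : (0 : ℝ) ≤ m := Nat.cast_nonneg m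
        have h3 : ((m : ℝ) + 1 + 2 + 1) ^ 2 ≤ 2 * ((m : ℝ) + 2 + 1) ^ 2 := by nlinarith
        have h4 : (0 : ℝ) ≤ ((m : ℝ) + 1 + 2 + 1) ^ 2 := by positivity
        nlinarith
      have h5 : (4 : ℝ) ^ (m + 1) = 4 ^ m * 4 := pow_succ _ _
      linarith
  have h2 : (433 / 10000 : ℝ) ^ ((n + 2 + 1) ^ 2) ≤ (433 / 10000 : ℝ) ^ (9 + 6 * n) := by
    apply pow_le_pow_of_le_one (by norm_num) (by norm_num)
    nlinarith
  calc _ ≤ 20 * (81 * 4 ^ n) * (433 / 10000 : ℝ) ^ (9 + 6 * n) := by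
        have := h1 n
        gcongr
    _ = 20 * 81 * (433 / 10000 : ℝ) ^ 9 * (4 * (433 / 10000 : ℝ) ^ 6) ^ n := by
        rw [pow_add, pow_mul, mul_pow]; ring
    _ ≤ 9 / 10 ^ 10 * (1 / 10) ^ n := by
        have h3 : 20 * 81 * (433 / 10000 : ℝ) ^ 9 ≤ 9 / 10 ^ 10 := by norm_num
        have h4 : (4 * (433 / 10000 : ℝ) ^ 6) ≤ 1 / 10 := by norm_num
        gcongr

theorem Psi3_le {t : ℝ} (ht : 0 ≤ t) : Psi3 t ≤ 1 / 10 ^ 9 := by
  refine (Psi3_antitoneOn (mem_Ici.2 le_rfl) (mem_Ici.2 ht) ht).trans ?_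
  have h1 : Summable (fun n : ℕ => (9 / 10 ^ 10 : ℝ) * (1 / 10) ^ n) :=
    (summable_geometric_of_lt_one (by norm_num) (by norm_num)).mul_left _
  refine ((summable_trm2 le_rfl).tsum_le_tsum cfb h1).trans ?_
  rw [tsum_mul_left, tsum_geometric_of_lt_one (by norm_num) (by norm_num)]
  norm_num

theorem trm_one_zero_le : trm 1 0 ≤ 978 / 10 ^ 6 := by
  have hpi := pi_lt_d4
  have hpi2 := pi_gt_d4
  have hp := pi_pos
  rw [trm, mul_zero, mul_zero, mul_zero, exp_zero]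
  have h1 : exp (-(π * (((1 : ℕ) : ℝ) + 1) ^ 2 * 1)) = (exp (-π)) ^ 4 := by
    rw [← exp_nat_mul]; congr 1; push_cast; ring
  rw [h1]
  have h2 : (exp (-π)) ^ 4 ≤ (433 / 10000 : ℝ) ^ 4 :=
    pow_le_pow_left₀ (exp_pos _).le exp_neg_pi_le _
  have h4 : (2 * π ^ 2 * (((1 : ℕ) : ℝ) + 1) ^ 4 * 1 - 3 * π * (((1 : ℕ) : ℝ) + 1) ^ 2 * 1) ≤
      2782 / 10 := by
    push_cast
    nlinarith
  calc _ ≤ 2782 / 10 * (exp (-π)) ^ 4 := by gcongr
    _ ≤ 2782 / 10 * (433 / 10000 : ℝ) ^ 4 := by gcongr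
    _ ≤ _ := by norm_num

theorem Psi_le {t : ℝ} (ht : 0 ≤ t) : Psi t ≤ 98 / 10 ^ 5 := by
  refine (Psi_antitoneOn (mem_Ici.2 le_rfl) (mem_Ici.2 ht) ht).trans ?_
  rw [Psi_split le_rfl]
  have h1 := trm_one_zero_le
  have h2 := Psi3_le (le_refl (0 : ℝ))
  linarith

theorem Psi_continuousOn (R : ℝ) : ContinuousOn Psi (Icc 0 R) := by
  have h := (Phi_continuousOn R).sub (trm_continuous 0).continuousOn
  refine h.congr fun t ht => ?_
  have := Phi_split ht.1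
  simp only [Pi.sub_apply]
  linarith

theorem Psi3_continuousOn (R : ℝ) : ContinuousOn Psi3 (Icc 0 R) := by
  have h := (Psi_continuousOn R).sub (trm_continuous 1).continuousOn
  refine h.congr fun t ht => ?_
  have := Psi_split ht.1
  simp only [Pi.sub_apply]
  linarith

end Pool.Agent.Helper67.Xi
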