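import Mathlib

/-! Existence of zeros by the minimum modulus principle. -/

open Set Metric

namespace Pool.Agent.Helper67.Xi

/-- If `|f c| < |f z|` on the circle `|z - c| = r` then `f` has a zero in the open disc. -/
theorem exists_zero_of_min {f : ℂ → ℂ} {c : ℂ} {r : ℝ} (hr : 0 < r)
    (hf : DiffContOnCl ℂ f (ball c r)) (h : ∀ z, ‖z - c‖ = r → ‖f c‖ < ‖f z‖) :
    ∃ z, ‖z - c‖ < r ∧ f z = 0 := by
  by_contra hcon
  push Not at hcon
  have hne : ∀ z ∈ closedBall c r, f z ≠ 0 := by
    intro z hz h0
    rw [mem_closedBall, dist_eq_norm] at hz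
    rcases lt_or_eq_of_le hz with h1 | h1
    · exact hcon z h1 h0
    · have := h z h1
      rw [h0, norm_zero] at this
      exact absurd this (not_lt.2 (norm_nonneg _))
  have hcl : closure (ball c r) = closedBall c r := closure_ball c hr.ne'
  have hfr : frontier (ball c r) = sphere c r := frontier_ball c hr.ne'
  have hd : DiffContOnCl ℂ (fun z => (f z)⁻¹) (ball c r) := by
    refine ⟨?_, ?_⟩
    · exact hf.1.inv fun z hz => hne z (ball_subset_closedBall hz)
    · exact hf.2.inv₀ fun z hz => hne z (by rwa [hcl] at hz)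
  -- the minimum over the sphere
  have hcomp : IsCompact (sphere c r) := isCompact_sphere c r
  have hnes : (sphere c r).Nonempty := NormedSpace.sphere_nonempty.2 hr.le
  have hcont : ContinuousOn (fun z => ‖f z‖) (sphere c r) :=
    (hf.2.mono (by rw [hcl]; exact sphere_subset_closedBall)).norm
  obtain ⟨w, hw, hmin⟩ := hcomp.exists_isMinOn hnes hcont
  have hw1 : ‖f c‖ < ‖f w‖ := h w (by rwa [mem_sphere, dist_eq_norm] at hw)
  have hfw : 0 < ‖f w‖ := lt_of_le_of_lt (norm_nonneg _) hw1
  have hfc : 0 < ‖f c‖ := norm_pos_iff.2 (hne c (mem_closedBall_self hr.le))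
  have hb := Complex.norm_le_of_forall_mem_frontier_norm_le (C := ‖f w‖⁻¹) isBounded_ball hd
    (by
      intro z hz
      rw [hfr] at hz
      rw [norm_inv]
      exact inv_anti₀ hfw (hmin hz)) (subset_closure (mem_ball_self hr))
  rw [norm_inv] at hb
  have := inv_strictAnti₀ hfc hw1
  linarith

end Pool.Agent.Helper67.Xi
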