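import Mathlib

set_option autoImplicit false

namespace Pool.Agent.Helper67

open Polynomial

theorem halg_of_transcendental {K : Type} [Field K] [Algebra ℂ K] [Algebra (RatFunc ℂ) K]
    [IsScalarTower ℂ (RatFunc ℂ) K] [Algebra.IsAlgebraic (RatFunc ℂ) K] {u : K}
    (hu : Transcendental ℂ u) :
    ∀ f : K, ∃ p : Polynomial (Polynomial ℂ), p ≠ 0 ∧
      p.eval₂ ((aeval u : ℂ[X] →ₐ[ℂ] K) : ℂ[X] →+* K) f = 0 := by
  have h1 : Algebra.trdeg ℂ (RatFunc ℂ) = 1 := by
    have e := trdeg_add_eq ℂ ℂ[X] (A := RatFunc ℂ)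
    haveI : Algebra.IsAlgebraic ℂ[X] (RatFunc ℂ) :=
      (IsFractionRing.comap_isAlgebraic_iff (K := RatFunc ℂ)).mpr inferInstance
    rw [Polynomial.trdeg_of_isDomain, trdeg_eq_zero, add_zero] at e
    exact e.symm
  have h2 : Algebra.trdeg ℂ K = 1 := by
    have e := trdeg_add_eq ℂ (RatFunc ℂ) (A := K)
    rw [h1, trdeg_eq_zero, add_zero] at e
    exact e.symm
  have h3 : AlgebraicIndependent ℂ (fun _ : Unit => u) := by
    rw [algebraicIndependent_unique_type_iff]
    exact hu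
  have h4 := h3.isTranscendenceBasis_of_trdeg_le_of_finite (by rw [h2]; simp)
  have h5 := h4.isAlgebraic
  intro f
  obtain ⟨q, hq0, hq⟩ := h5.isAlgebraic f
  have hmem : u ∈ Algebra.adjoin ℂ (Set.range (fun _ : Unit => u)) :=
    Algebra.subset_adjoin ⟨(), rfl⟩
  let φ : ℂ[X] →ₐ[ℂ] Algebra.adjoin ℂ (Set.range (fun _ : Unit => u)) := aeval ⟨u, hmem⟩
  have hval : ∀ r : ℂ[X], ((φ r : Algebra.adjoin ℂ (Set.range (fun _ : Unit => u))) : K) =
      aeval u r := by
    intro r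
    have := Polynomial.aeval_algHom_apply
      (Algebra.adjoin ℂ (Set.range (fun _ : Unit => u))).val ⟨u, hmem⟩ r
    exact this.symm
  have hsurj : Function.Surjective φ := by
    rintro ⟨s, hs⟩
    have hs' : s ∈ Algebra.adjoin ℂ ({u} : Set K) := by
      convert hs using 2
      simp
    rw [Algebra.adjoin_singleton_eq_range_aeval] at hs'
    obtain ⟨r, hr⟩ := hs'
    refine ⟨r, Subtype.ext ?_⟩
    rw [hval]
    exact hr
  obtain ⟨p, hp⟩ := Polynomial.map_surjective (φ : ℂ[X] →+* _) hsurj q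
  refine ⟨p, ?_, ?_⟩
  · rintro rfl
    apply hq0
    rw [← hp, Polynomial.map_zero]
  · rw [← hp, aeval_def, eval₂_map] at hq
    have hcomp : (algebraMap (Algebra.adjoin ℂ (Set.range (fun _ : Unit => u))) K).comp
        (φ : ℂ[X] →+* _) = ((aeval u : ℂ[X] →ₐ[ℂ] K) : ℂ[X] →+* K) := by
      apply RingHom.ext
      intro r
      exact hval r
    rw [hcomp] at hq
    exact hq

theorem exists_ratFunc_hom {K : Type} [Field K] [Algebra ℂ K] {u : K} (hu : Transcendental ℂ u) :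
    ∃ θ : RatFunc ℂ →ₐ[ℂ] K, θ RatFunc.X = u := by
  have hinj : Function.Injective (aeval u : ℂ[X] →ₐ[ℂ] K) :=
    transcendental_iff_injective.mp hu
  refine ⟨RatFunc.liftAlgHom (aeval u)
    (nonZeroDivisors_le_comap_nonZeroDivisors_of_injective _ hinj), ?_⟩
  have h := RatFunc.liftAlgHom_apply_div' (aeval u : ℂ[X] →ₐ[ℂ] K)
    (nonZeroDivisors_le_comap_nonZeroDivisors_of_injective _ hinj) X 1
  simpa using h

theorem hom_aeval {K : Type} [Field K] [Algebra ℂ K] (θ : RatFunc ℂ →ₐ[ℂ] K) (r : ℂ[X]) :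
    θ (algebraMap ℂ[X] (RatFunc ℂ) r) = aeval (θ RatFunc.X) r := by
  have h : (θ.comp (Algebra.ofId ℂ[X] (RatFunc ℂ) |>.restrictScalars ℂ)) = aeval (θ RatFunc.X) := by
    apply Polynomial.algHom_ext
    simp [Algebra.ofId_apply]
  exact DFunLike.congr_fun h r

theorem hom_transcendental {K : Type} [Field K] [Algebra ℂ K] (θ : RatFunc ℂ →ₐ[ℂ] K) :
    Transcendental ℂ (θ RatFunc.X) := by
  rw [transcendental_iff_injective]
  intro a b hab
  rw [← hom_aeval, ← hom_aeval] at hab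
  exact RatFunc.algebraMap_injective ℂ (θ.toRingHom.injective hab)

theorem isAlgebraic_of_halg {K : Type} [Field K] [Algebra ℂ K] (θ : RatFunc ℂ →ₐ[ℂ] K)
    (halg : ∀ f : K, ∃ p : Polynomial (Polynomial ℂ), p ≠ 0 ∧
      p.eval₂ ((aeval (θ RatFunc.X) : ℂ[X] →ₐ[ℂ] K) : ℂ[X] →+* K) f = 0) :
    @Algebra.IsAlgebraic (RatFunc ℂ) K _ _ θ.toRingHom.toAlgebra := by
  letI : Algebra (RatFunc ℂ) K := θ.toRingHom.toAlgebra
  refine ⟨fun f => ?_⟩
  obtain ⟨p, hp0, hp⟩ := halg f
  refine ⟨p.map (algebraMap ℂ[X] (RatFunc ℂ)), ?_, ?_⟩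
  · rwa [Ne, Polynomial.map_eq_zero_iff (RatFunc.algebraMap_injective ℂ)]
  · rw [aeval_def, eval₂_map]
    have : (algebraMap (RatFunc ℂ) K).comp (algebraMap ℂ[X] (RatFunc ℂ)) =
        ((aeval (θ RatFunc.X) : ℂ[X] →ₐ[ℂ] K) : ℂ[X] →+* K) := by
      apply RingHom.ext
      intro r
      exact hom_aeval θ r
    rw [this]
    exact hp

/-- An element which is bounded for every valuation trivial on `ℂ` is a constant. -/
theorem mem_const_of_forall_val {K : Type} [Field K] [Algebra ℂ K] (h : K)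
    (hh : ∀ (Γ : Type) [LinearOrderedCommGroupWithZero Γ] (v : Valuation K Γ),
      (∀ c : ℂ, v (algebraMap ℂ K c) ≤ 1) → v h ≤ 1) : ∃ c : ℂ, h = algebraMap ℂ K c := by
  have h1 : h ∈ (⨅ V : {V : ValuationSubring K // Set.range (algebraMap ℂ K) ⊆ V.toSubring},
      V.1.toSubring) := by
    rw [Subring.mem_iInf]
    rintro ⟨V, hV⟩
    have := hh _ V.valuation (fun c => by
      rw [ValuationSubring.valuation_le_one_iff]
      exact hV ⟨c, rfl⟩)
    rw [ValuationSubring.valuation_le_one_iff] at this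
    exact this
  rw [iInf_valuationSubring_superset] at h1
  have h2 : IsIntegral (Subring.closure (Set.range (algebraMap ℂ K))) h := h1
  have h3 : IsIntegral ℂ h := by
    have hcl : Subring.closure (Set.range (algebraMap ℂ K)) = (algebraMap ℂ K).range := by
      rw [← RingHom.coe_range, Subring.closure_eq]
    rw [hcl] at h2
    obtain ⟨p, hpm, hp⟩ := h2
    obtain ⟨q, hq, -, hqm⟩ := Polynomial.lifts_and_natDegree_eq_and_monic
      (f := (algebraMap ℂ K).rangeRestrict) (p := p) (by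
        rw [Polynomial.lifts_iff_coeff_lifts]
        intro n
        exact (algebraMap ℂ K).rangeRestrict_surjective _) hpm
    refine ⟨q, hqm, ?_⟩
    rw [← hq, eval₂_map] at hp
    exact hp
  have h4 : (minpoly ℂ h).degree = 1 :=
    IsAlgClosed.degree_eq_one_of_irreducible ℂ (minpoly.irreducible h3)
  obtain ⟨c, hc⟩ := minpoly.mem_range_of_degree_eq_one ℂ h h4
  exact ⟨c, hc.symm⟩

end Pool.Agent.Helper67
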