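import Mathlib

set_option autoImplicit false

namespace Pool.Agent.Helper67

open Polynomial

section val

variable {K : Type*} [Field K] [Algebra ℂ K] {Γ : Type*} [LinearOrderedCommGroupWithZero Γ]
  (v : Valuation K Γ) (u : K)

theorem val_const (hC : ∀ c : ℂ, v (algebraMap ℂ K c) ≤ 1) {c : ℂ} (hc : c ≠ 0) :
    v (algebraMap ℂ K c) = 1 := by
  apply le_antisymm (hC c)
  have h := hC c⁻¹
  rw [map_inv₀, map_inv₀] at h
  by_contra hlt
  push Not at hlt
  have hne : v (algebraMap ℂ K c) ≠ 0 := by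
    simp [hc]
  have := (inv_le_one₀ (zero_lt_iff.mpr hne)).mp h
  exact absurd this (not_le.mpr hlt)

theorem val_u_le (hC : ∀ c : ℂ, v (algebraMap ℂ K c) ≤ 1) {p : ℂ}
    (hp : v (u - algebraMap ℂ K p) < 1) : v u ≤ 1 := by
  have : u = (u - algebraMap ℂ K p) + algebraMap ℂ K p := by ring
  rw [this]
  exact (v.map_add _ _).trans (max_le hp.le (hC p))

theorem val_poly_le (hC : ∀ c : ℂ, v (algebraMap ℂ K c) ≤ 1) {p : ℂ}
    (hp : v (u - algebraMap ℂ K p) < 1) (r : ℂ[X]) : v (aeval u r) ≤ 1 := by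
  have hu := val_u_le v u hC hp
  induction r using Polynomial.induction_on with
  | C a => simpa using hC a
  | add a b ha hb =>
    rw [map_add]
    exact (v.map_add _ _).trans (max_le ha hb)
  | monomial n a ih =>
    rw [pow_succ, ← mul_assoc, map_mul, map_mul, aeval_X]
    exact mul_le_one' ih hu

theorem val_poly_eq_one (hC : ∀ c : ℂ, v (algebraMap ℂ K c) ≤ 1) {p : ℂ}
    (hp : v (u - algebraMap ℂ K p) < 1) (r : ℂ[X]) (hr : r.eval p ≠ 0) :
    v (aeval u r) = 1 := by
  obtain ⟨s, hs⟩ := (Polynomial.X_sub_C_dvd_sub_C_eval (a := p) (p := r))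
  have h1 : aeval u r = algebraMap ℂ K (r.eval p) + (u - algebraMap ℂ K p) * aeval u s := by
    have := congrArg (aeval u) hs
    simp only [map_sub, map_mul, aeval_X, aeval_C] at this
    rw [← this]; ring
  have h2 : v ((u - algebraMap ℂ K p) * aeval u s) < 1 := by
    rw [map_mul]
    exact mul_lt_one_of_nonneg_of_lt_one_left zero_le hp (val_poly_le v u hC hp s)
  have h3 : v (algebraMap ℂ K (r.eval p)) = 1 := val_const v hC hr
  rw [h1]
  rw [← h3] at h2
  rw [Valuation.map_add_eq_of_lt_left v h2, h3]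

theorem val_poly_lt_one (hC : ∀ c : ℂ, v (algebraMap ℂ K c) ≤ 1) {p : ℂ}
    (hp : v (u - algebraMap ℂ K p) < 1) (r : ℂ[X]) (hr : r.eval p = 0) :
    v (aeval u r) < 1 := by
  obtain ⟨s, hs⟩ := Polynomial.dvd_iff_isRoot.mpr hr
  have h1 : aeval u r = (u - algebraMap ℂ K p) * aeval u s := by
    have := congrArg (aeval u) hs
    simpa only [map_sub, map_mul, aeval_X, aeval_C] using this
  rw [h1, map_mul]
  exact mul_lt_one_of_nonneg_of_lt_one_left zero_le hp (val_poly_le v u hC hp s)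

theorem val_poly_pow (p : ℂ) (r : ℂ[X]) (hr : r ≠ 0) :
    ∃ k : ℕ, ∀ (v : Valuation K Γ), (∀ c : ℂ, v (algebraMap ℂ K c) ≤ 1) →
      v (u - algebraMap ℂ K p) < 1 → v (aeval u r) = v (u - algebraMap ℂ K p) ^ k := by
  obtain ⟨s, hs, hs'⟩ := Polynomial.exists_eq_pow_rootMultiplicity_mul_and_not_dvd r hr p
  refine ⟨rootMultiplicity p r, fun v hC hp => ?_⟩
  have h1 : aeval u r = (u - algebraMap ℂ K p) ^ (rootMultiplicity p r) * aeval u s := by
    have := congrArg (aeval u) hs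
    simpa only [map_sub, map_mul, map_pow, aeval_X, aeval_C] using this
  have h2 : s.eval p ≠ 0 := fun h => hs' (Polynomial.dvd_iff_isRoot.mpr h)
  rw [h1, map_mul, map_pow, val_poly_eq_one v u hC hp s h2, mul_one]

/-- if a finite sum of terms vanishes and one term is non-zero then two terms with different
indices have the same non-zero valuation -/
theorem exists_val_eq_of_sum_eq_zero {ι : Type*} (s : Finset ι) (x : ι → K)
    (hx : ∑ i ∈ s, x i = 0) (hne : ∃ i ∈ s, x i ≠ 0) :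
    ∃ i ∈ s, ∃ j ∈ s, i ≠ j ∧ x i ≠ 0 ∧ v (x i) = v (x j) := by
  classical
  by_contra hcon
  push Not at hcon
  obtain ⟨i0, hi0, hi0'⟩ := hne
  obtain ⟨i, hi, hmax⟩ := Finset.exists_max_image s (fun i => v (x i)) ⟨i0, hi0⟩
  have hxi : x i ≠ 0 := by
    intro h
    have := hmax i0 hi0
    rw [h, map_zero] at this
    exact hi0' ((map_eq_zero v).mp (le_antisymm this zero_le))
  have hlt : ∀ j ∈ s.erase i, v (x j) < v (x i) := by
    intro j hj
    rw [Finset.mem_erase] at hj
    refine lt_of_le_of_ne (hmax j hj.2) (fun h => ?_)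
    exact hcon i hi j hj.2 (Ne.symm hj.1) hxi h.symm
  have h1 : x i = - ∑ j ∈ s.erase i, x j := by
    rw [← Finset.add_sum_erase s x hi] at hx
    linear_combination hx
  have hpos : v (x i) ≠ 0 := by simpa using hxi
  have h2 : v (∑ j ∈ s.erase i, x j) < v (x i) := Valuation.map_sum_lt v hpos hlt
  rw [h1, Valuation.map_neg] at h2
  exact lt_irrefl _ h2

end val


/-- numerator of the map `A` -/
noncomputable def nP : ℂ[X] := X ^ 4 + 4 * X - 6

/-- denominator of the map `A` -/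
noncomputable def nQ : ℂ[X] := 2 * X ^ 3 - 6 * X + 5

/-- the wronskian -/
noncomputable def nW : ℂ[X] := derivative nP * nQ - nP * derivative nQ

theorem nP_eval (p : ℂ) : nP.eval p = p ^ 4 + 4 * p - 6 := by simp [nP]

theorem nQ_eval (p : ℂ) : nQ.eval p = 2 * p ^ 3 - 6 * p + 5 := by simp [nQ]

theorem deriv_nP : derivative nP = 4 * X ^ 3 + 4 := by
  have h3 : (C (3 : ℂ)) = 3 := map_ofNat C 3
  simp [nP, h3]
  ring

theorem deriv_nQ : derivative nQ = 6 * X ^ 2 - 6 := by
  have h2 : (C (2 : ℂ)) = 2 := map_ofNat C 2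
  simp [nQ, h2]
  ring

theorem nW_eq : nW = 2 * (X - 2) ^ 2 * (X + 1) ^ 2 * (X ^ 2 + 2 * X - 2) := by
  rw [nW, deriv_nP, deriv_nQ, nP, nQ]
  ring

theorem coprime_cert (p : ℂ) (h1 : nP.eval p = 0) (h2 : nQ.eval p = 0) : False := by
  rw [nP_eval] at h1
  rw [nQ_eval] at h2
  have h3 : (1 : ℂ) = 0 := by
    linear_combination (8/27 - 8/27 * p - 4/27 * p^2) * h1 + (5/9 + 2/27 * p + 4/27 * p^2 + 2/27 * p^3) * h2
  exact one_ne_zero h3

section main

variable {K : Type} [Field K] [Algebra ℂ K] {u : K} {L : K →ₐ[ℂ] K} {D : Derivation ℂ K K} {c : ℂ}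

theorem basic_rel (hLu : L u * aeval u nQ = aeval u nP)
    (hD : ∀ f, D (L f) = algebraMap ℂ K c * L (D f)) :
    algebraMap ℂ K c * L (D u) * (aeval u nQ) ^ 2 = aeval u nW * D u := by
  have h1 := congrArg D hLu
  rw [D.leibniz, Derivation.map_aeval, Derivation.map_aeval, hD] at h1
  simp only [smul_eq_mul] at h1
  rw [nW, map_sub, map_mul, map_mul]
  linear_combination (aeval u nQ) * h1 - (aeval u (derivative nQ)) * D u * hLu

theorem aeval_ne_zero (hu : Transcendental ℂ u) {r : ℂ[X]} (hr : r ≠ 0) : aeval u r ≠ 0 := by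
  intro h
  exact hu ⟨r, hr, h⟩

/-- The property that every valuation over `p` takes the same value at `D u` and `u - p`. -/
def Good (u g : K) (p : ℂ) : Prop :=
  ∀ (Γ : Type) [LinearOrderedCommGroupWithZero Γ] (v : Valuation K Γ),
    (∀ c : ℂ, v (algebraMap ℂ K c) ≤ 1) → v (u - algebraMap ℂ K p) < 1 →
      v g = v (u - algebraMap ℂ K p)

theorem comap_const (L : K →ₐ[ℂ] K) {Γ : Type} [LinearOrderedCommGroupWithZero Γ]
    (v : Valuation K Γ) (hC : ∀ c : ℂ, v (algebraMap ℂ K c) ≤ 1) (c : ℂ) :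
    (v.comap L.toRingHom) (algebraMap ℂ K c) ≤ 1 := by
  have : (v.comap L.toRingHom) (algebraMap ℂ K c) = v (algebraMap ℂ K c) := by
    simp [Valuation.comap_apply]
  rw [this]
  exact hC c

theorem u_ne (hu : Transcendental ℂ u) (p : ℂ) : u - algebraMap ℂ K p ≠ 0 := by
  have := aeval_ne_zero hu (r := X - C p) (X_sub_C_ne_zero p)
  simpa using this

theorem good_step (hu : Transcendental ℂ u) (hLu : L u * aeval u nQ = aeval u nP)
    (hD : ∀ f, D (L f) = algebraMap ℂ K c * L (D f)) (hc : c ≠ 0)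
    {p q : ℂ} (hq : Good u (D u) q) (hQp : nQ.eval p ≠ 0) (hP : nP.eval p = q * nQ.eval p) :
    Good u (D u) p := by
  intro Γ _ v hC hp
  set N : ℂ[X] := nP - C q * nQ with hN
  have hN0 : N ≠ 0 := by
    intro h
    have : N.coeff 4 = 0 := by rw [h]; simp
    have h4 : N.coeff 4 = 1 := by
      rw [hN, nP, nQ]
      have h6 : (6 : ℂ[X]) = C 6 := (map_ofNat C 6).symm
      have h5 : (5 : ℂ[X]) = C 5 := (map_ofNat C 5).symm
      have h4 : (4 : ℂ[X]) = C 4 := (map_ofNat C 4).symm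
      have h2 : (2 : ℂ[X]) = C 2 := (map_ofNat C 2).symm
      rw [h6, h5, h4, h2]
      simp [coeff_X, coeff_C, coeff_X_pow]
    rw [h4] at this
    exact one_ne_zero this
  have hNp : N.eval p = 0 := by
    rw [hN, eval_sub, eval_mul, eval_C, hP]; ring
  -- apply the property of `q` to the pulled back valuation
  have hLuq : (L u - algebraMap ℂ K q) * aeval u nQ = aeval u N := by
    rw [hN, map_sub, map_mul, aeval_C, ← hLu]; ring
  have hvQ : v (aeval u nQ) = 1 := val_poly_eq_one v u hC hp nQ hQp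
  have hv1 : v (L u - algebraMap ℂ K q) = v (aeval u N) := by
    have := congrArg v hLuq
    rwa [map_mul, hvQ, mul_one] at this
  have hvL : (v.comap L.toRingHom) (u - algebraMap ℂ K q) = v (aeval u N) := by
    rw [← hv1]
    simp [Valuation.comap_apply]
  have hlt : (v.comap L.toRingHom) (u - algebraMap ℂ K q) < 1 := by
    rw [hvL]
    exact val_poly_lt_one v u hC hp N hNp
  have h1 := hq Γ (v.comap L.toRingHom) (comap_const L v hC) hlt
  rw [hvL] at h1
  have h1' : v (L (D u)) = v (aeval u N) := h1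
  have h2 := congrArg v (basic_rel hLu hD)
  rw [map_mul, map_mul, map_mul, map_pow, hvQ, val_const v hC hc, h1', one_pow, mul_one,
    one_mul] at h2
  -- factor N
  obtain ⟨R, hR, hR'⟩ := Polynomial.exists_eq_pow_rootMultiplicity_mul_and_not_dvd N hN0 p
  set e := rootMultiplicity p N with he
  have hepos : 0 < e := (rootMultiplicity_pos hN0).mpr hNp
  have hRp : R.eval p ≠ 0 := fun h => hR' (Polynomial.dvd_iff_isRoot.mpr h)
  obtain ⟨e', he'⟩ : ∃ e', e = e' + 1 := ⟨e - 1, by omega⟩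
  rw [he'] at hR
  have hW : nW = (X - C p) ^ e' * (C ((e' : ℂ) + 1) * R * nQ + (X - C p) *
      (derivative R * nQ - R * derivative nQ)) := by
    have h3 : nW = derivative N * nQ - N * derivative nQ := by
      rw [hN, nW]
      simp only [derivative_sub, derivative_mul, derivative_C]
      ring
    have h4 : derivative N = C ((e' : ℂ) + 1) * (X - C p) ^ e' * R +
        (X - C p) ^ (e' + 1) * derivative R := by
      rw [hR, derivative_mul, derivative_X_sub_C_pow]
      simp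
    rw [h3, h4]
    conv_lhs => rw [hR]
    ring
  have hWv : v (aeval u nW) = v (u - algebraMap ℂ K p) ^ e' := by
    rw [hW, map_mul, map_mul, map_pow, map_pow]
    have : v (aeval u (C ((e' : ℂ) + 1) * R * nQ + (X - C p) *
      (derivative R * nQ - R * derivative nQ))) = 1 := by
      apply val_poly_eq_one v u hC hp
      simp only [eval_add, eval_mul, eval_C, eval_sub, eval_X, sub_self, zero_mul, add_zero]
      refine mul_ne_zero (mul_ne_zero ?_ hRp) hQp
      exact_mod_cast Nat.succ_ne_zero e'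
    rw [this, mul_one]
    simp
  have hNv : v (aeval u N) = v (u - algebraMap ℂ K p) ^ (e' + 1) := by
    rw [hR, map_mul, map_mul, map_pow, map_pow, val_poly_eq_one v u hC hp R hRp, mul_one]
    simp
  rw [hNv, hWv, pow_succ] at h2
  have hne : v (u - algebraMap ℂ K p) ^ e' ≠ 0 := by
    apply pow_ne_zero
    rw [Valuation.ne_zero_iff]
    exact u_ne hu p
  exact (mul_left_cancel₀ hne h2).symm

/-- the iterated pull back of a valuation -/
noncomputable def itVal (L : K →ₐ[ℂ] K) {Γ : Type} [LinearOrderedCommGroupWithZero Γ]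
    (v : Valuation K Γ) : ℕ → Valuation K Γ
  | 0 => v
  | n + 1 => (itVal L v n).comap L.toRingHom

theorem itVal_const (L : K →ₐ[ℂ] K) {Γ : Type} [LinearOrderedCommGroupWithZero Γ]
    (v : Valuation K Γ) (hC : ∀ c : ℂ, v (algebraMap ℂ K c) ≤ 1) (n : ℕ) (c : ℂ) :
    itVal L v n (algebraMap ℂ K c) ≤ 1 := by
  induction n generalizing c with
  | zero => exact hC c
  | succ n ih => exact comap_const L _ ih c

theorem itVal_u (hLu : L u * aeval u nQ = aeval u nP) {Γ : Type}
    [LinearOrderedCommGroupWithZero Γ] (v : Valuation K Γ)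
    (hC : ∀ c : ℂ, v (algebraMap ℂ K c) ≤ 1) (hp : v (u - algebraMap ℂ K 2) < 1) (n : ℕ) :
    itVal L v n (u - algebraMap ℂ K 2) = v (u - algebraMap ℂ K 2) ^ (3 ^ n) ∧
      itVal L v n (u - algebraMap ℂ K 2) < 1 := by
  induction n with
  | zero => exact ⟨by simp [itVal], hp⟩
  | succ n ih =>
    have hC' := itVal_const L v hC n
    have h1 : (L u - algebraMap ℂ K 2) * aeval u nQ =
        (u - algebraMap ℂ K 2) ^ 3 * aeval u (X + 2 : ℂ[X]) := by
      rw [sub_mul, hLu]
      simp only [nP, nQ, map_sub, map_add, map_mul, map_pow, aeval_X, map_ofNat]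
      ring
    have h2 := congrArg (itVal L v n) h1
    rw [map_mul, map_mul, map_pow,
      val_poly_eq_one _ u hC' ih.2 nQ (by rw [nQ_eval]; norm_num),
      val_poly_eq_one _ u hC' ih.2 (X + 2) (by simp), mul_one, mul_one] at h2
    have h3 : itVal L v (n + 1) (u - algebraMap ℂ K 2) =
        itVal L v n (u - algebraMap ℂ K 2) ^ 3 := by
      rw [← h2]
      simp [itVal, Valuation.comap_apply]
    refine ⟨?_, ?_⟩
    · rw [h3, ih.1, ← pow_mul, pow_succ]
    · rw [h3]
      exact pow_lt_one₀ zero_le ih.2 (by norm_num)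

theorem good_two (hu : Transcendental ℂ u) (hLu : L u * aeval u nQ = aeval u nP)
    (hD : ∀ f, D (L f) = algebraMap ℂ K c * L (D f)) (hc : c ≠ 0) (hg : D u ≠ 0)
    (halg : ∀ f : K, ∃ p : Polynomial (Polynomial ℂ), p ≠ 0 ∧
      p.eval₂ ((aeval u : ℂ[X] →ₐ[ℂ] K) : ℂ[X] →+* K) f = 0) :
    Good u (D u) 2 := by
  intro Γ _ v hC hp
  have hu2 := u_ne hu 2
  set G : K := D u / (u - algebraMap ℂ K 2) with hG
  have hG0 : G ≠ 0 := div_ne_zero hg hu2
  have hDu : D u = G * (u - algebraMap ℂ K 2) := by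
    rw [hG]; field_simp
  -- key relation
  have hQ0 : aeval u nQ ≠ 0 := by
    apply aeval_ne_zero hu
    intro h
    have := nQ_eval 2
    rw [h] at this
    norm_num at this
  have hrel : algebraMap ℂ K c * L G * aeval u nQ * aeval u (X + 2 : ℂ[X]) =
      aeval u (2 * (X + 1) ^ 2 * (X ^ 2 + 2 * X - 2) : ℂ[X]) * G := by
    have h1 := basic_rel hLu hD
    have h2 : L (D u) = L G * (L u - algebraMap ℂ K 2) := by
      rw [hDu, map_mul, map_sub, AlgHom.commutes]
    have h3 : (L u - algebraMap ℂ K 2) * aeval u nQ =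
        (u - algebraMap ℂ K 2) ^ 3 * aeval u (X + 2 : ℂ[X]) := by
      rw [sub_mul, hLu]
      simp only [nP, nQ, map_sub, map_add, map_mul, map_pow, aeval_X, map_ofNat]
      ring
    rw [h2, hDu, nW_eq] at h1
    have h4 : (u - algebraMap ℂ K 2) ^ 3 * (algebraMap ℂ K c * L G * aeval u nQ * aeval u (X + 2 : ℂ[X])) =
        (u - algebraMap ℂ K 2) ^ 3 *
          (aeval u (2 * (X + 1) ^ 2 * (X ^ 2 + 2 * X - 2) : ℂ[X]) * G) := by
      have h5 : (u - algebraMap ℂ K 2) ^ 3 *
          (algebraMap ℂ K c * L G * aeval u nQ * aeval u (X + 2 : ℂ[X])) =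
          algebraMap ℂ K c * (L G * (L u - algebraMap ℂ K 2)) * (aeval u nQ) ^ 2 := by
        linear_combination (- algebraMap ℂ K c * L G * aeval u nQ) * h3
      rw [h5, h1]
      simp only [map_sub, map_add, map_mul, map_pow, aeval_X, map_ofNat, map_one]
      ring
    exact mul_left_cancel₀ (pow_ne_zero 3 hu2) h4
  -- invariance of the valuation of G
  have hinv : ∀ n, itVal L v n G = v G := by
    intro n
    induction n with
    | zero => rfl
    | succ n ih =>
      have hC' := itVal_const L v hC n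
      have hp' := (itVal_u hLu v hC hp n).2
      have h1 := congrArg (itVal L v n) hrel
      rw [map_mul, map_mul, map_mul, map_mul,
        val_poly_eq_one _ u hC' hp' nQ (by rw [nQ_eval]; norm_num),
        val_poly_eq_one _ u hC' hp' (X + 2) (by simp),
        val_poly_eq_one _ u hC' hp' (2 * (X + 1) ^ 2 * (X ^ 2 + 2 * X - 2)) (by simp; norm_num),
        val_const _ hC' hc, mul_one, mul_one, one_mul, one_mul] at h1
      rw [← ih, ← h1]
      rfl
  -- the algebraic equation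
  obtain ⟨p, hp0, hpG⟩ := halg G
  rw [eval₂_eq_sum, Polynomial.sum_def] at hpG
  have hk : ∀ i : ℕ, ∃ k : ℕ, i ∈ p.support → ∀ (v : Valuation K Γ),
      (∀ c : ℂ, v (algebraMap ℂ K c) ≤ 1) →
      v (u - algebraMap ℂ K 2) < 1 → v (aeval u (p.coeff i)) = v (u - algebraMap ℂ K 2) ^ k := by
    intro i
    by_cases hi : i ∈ p.support
    · obtain ⟨k, hk⟩ := val_poly_pow (Γ := Γ) u 2 (p.coeff i) (mem_support_iff.mp hi)
      exact ⟨k, fun _ => hk⟩
    · exact ⟨0, fun h => absurd h hi⟩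
  choose k hk using hk
  have hx0 : v (u - algebraMap ℂ K 2) ≠ 0 := by
    rw [Valuation.ne_zero_iff]; exact hu2
  have hy0 : v G ≠ 0 := by
    rw [Valuation.ne_zero_iff]; exact hG0
  have hpair : ∀ n : ℕ, ∃ ij : p.support × p.support, ij.1 ≠ ij.2 ∧
      (v (u - algebraMap ℂ K 2) ^ (3 ^ n)) ^ (k ij.1) * v G ^ (ij.1 : ℕ) =
      (v (u - algebraMap ℂ K 2) ^ (3 ^ n)) ^ (k ij.2) * v G ^ (ij.2 : ℕ) := by
    intro n
    have hC' := itVal_const L v hC n
    obtain ⟨hp1, hp'⟩ := itVal_u hLu v hC hp n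
    obtain ⟨i, hi, j, hj, hij, -, hval⟩ := exists_val_eq_of_sum_eq_zero (itVal L v n) p.support
      (fun i => aeval u (p.coeff i) * G ^ i) hpG (by
        obtain ⟨i, hi⟩ := Polynomial.nonempty_support_iff.mpr hp0
        exact ⟨i, hi, mul_ne_zero (aeval_ne_zero hu (mem_support_iff.mp hi)) (pow_ne_zero _ hG0)⟩)
    refine ⟨(⟨i, hi⟩, ⟨j, hj⟩), ?_, ?_⟩
    · intro h
      exact hij (congrArg Subtype.val h)
    · simp only
      simp only [map_mul, map_pow] at hval
      rw [hk i hi _ hC' hp', hk j hj _ hC' hp', hinv n, hp1] at hval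
      exact hval
  choose ij hij using hpair
  obtain ⟨n, n', hnn', hsame⟩ := Finite.exists_ne_map_eq_of_infinite ij
  have hmain : v G = 1 := by
    by_contra hy1
    have hinj : Function.Injective (fun m : ℕ => v G ^ m) :=
      pow_right_injective₀ (zero_lt_iff.mpr hy0) hy1
    have aux : ∀ a b : ℕ, a < b → ij a = ij b → False := by
      intro a b hab hs
      obtain ⟨h1, h2⟩ := hij a
      obtain ⟨-, h3⟩ := hij b
      rw [← hs] at h3
      set i := ((ij a).1 : ℕ) with hi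
      set j := ((ij a).2 : ℕ) with hj
      set x := v (u - algebraMap ℂ K 2) with hx
      set y := v G with hy
      have hne : i ≠ j := fun h => h1 (Subtype.ext h)
      have hpow : 3 ^ b = 3 ^ a * 3 ^ (b - a) := by
        rw [← pow_add]; congr 1; omega
      have h4 := congrArg (fun z => z ^ (3 ^ (b - a))) h2
      simp only [mul_pow] at h4
      have e1 : ((x ^ 3 ^ a) ^ k i) ^ (3 ^ (b - a)) = (x ^ 3 ^ b) ^ k i := by
        rw [hpow, ← pow_mul, ← pow_mul, ← pow_mul]; congr 1; ring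
      have e2 : ((x ^ 3 ^ a) ^ k j) ^ (3 ^ (b - a)) = (x ^ 3 ^ b) ^ k j := by
        rw [hpow, ← pow_mul, ← pow_mul, ← pow_mul]; congr 1; ring
      rw [e1, e2, ← pow_mul y, ← pow_mul y] at h4
      have h5 : y ^ (i * 3 ^ (b - a) + j) = y ^ (j * 3 ^ (b - a) + i) := by
        have hX1 : (x ^ 3 ^ b) ^ k i ≠ 0 := pow_ne_zero _ (pow_ne_zero _ hx0)
        have hX2 : (x ^ 3 ^ b) ^ k j ≠ 0 := pow_ne_zero _ (pow_ne_zero _ hx0)
        apply mul_left_cancel₀ (mul_ne_zero hX1 hX2)
        rw [pow_add, pow_add]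
        calc (x ^ 3 ^ b) ^ k i * (x ^ 3 ^ b) ^ k j * (y ^ (i * 3 ^ (b - a)) * y ^ j)
            = ((x ^ 3 ^ b) ^ k i * y ^ (i * 3 ^ (b - a))) * ((x ^ 3 ^ b) ^ k j * y ^ j) := by
              ac_rfl
          _ = ((x ^ 3 ^ b) ^ k j * y ^ (j * 3 ^ (b - a))) * ((x ^ 3 ^ b) ^ k i * y ^ i) := by
              rw [h4, h3]
          _ = _ := by ac_rfl
      have h6 : i * 3 ^ (b - a) + j = j * 3 ^ (b - a) + i := hinj h5
      have h7 : (3 : ℕ) ≤ 3 ^ (b - a) := by
        calc (3 : ℕ) = 3 ^ 1 := by norm_num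
          _ ≤ 3 ^ (b - a) := Nat.pow_le_pow_right (by norm_num) (by omega)
      generalize 3 ^ (b - a) = M at h6 h7
      rcases Nat.lt_or_gt_of_ne hne with h | h
      · nlinarith
      · nlinarith
    rcases Nat.lt_or_gt_of_ne hnn' with h | h
    · exact aux n n' h hsame
    · exact aux n' n h hsame.symm
  rw [hDu, map_mul, hmain, one_mul]

theorem exists_val_over (hu : Transcendental ℂ u) (p : ℂ) :
    ∃ V : ValuationSubring K, (∀ c : ℂ, V.valuation (algebraMap ℂ K c) ≤ 1) ∧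
      V.valuation (u - algebraMap ℂ K p) < 1 := by
  let f : ℂ[X] →+* K := ((aeval u : ℂ[X] →ₐ[ℂ] K) : ℂ[X] →+* K)
  have hf : Function.Injective f := by
    rw [injective_iff_map_eq_zero]
    intro r hr
    by_contra h
    exact aeval_ne_zero hu h hr
  have hmem : u - algebraMap ℂ K p ∈ f.range := ⟨X - C p, by simp [f]⟩
  let I : Ideal f.range := Ideal.span {⟨u - algebraMap ℂ K p, hmem⟩}
  have hI : I ≠ ⊤ := by
    rw [Ideal.ne_top_iff_one]
    intro h
    rw [Ideal.mem_span_singleton'] at h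
    obtain ⟨⟨_, t, rfl⟩, ht⟩ := h
    have h1 : f t * (u - algebraMap ℂ K p) = 1 := congrArg Subtype.val ht
    have h2 : f (t * (X - C p)) = f 1 := by
      rw [map_mul, map_one]
      have : f (X - C p) = u - algebraMap ℂ K p := by simp [f]
      rw [this]
      exact h1
    have h3 := congrArg (eval p) (hf h2)
    simp at h3
  obtain ⟨V, hV1, hV2⟩ := Ideal.image_subset_nonunits_valuationSubring I hI
  refine ⟨V, fun c => ?_, ?_⟩
  · rw [ValuationSubring.valuation_le_one_iff]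
    exact hV1 ⟨C c, by simp [f]⟩
  · have : (u - algebraMap ℂ K p) ∈ V.nonunits :=
      hV2 ⟨⟨u - algebraMap ℂ K p, hmem⟩, Ideal.subset_span rfl, rfl⟩
    exact this

theorem good_finite (hu : Transcendental ℂ u) {g : K} (hg : g ≠ 0)
    (halg : ∀ f : K, ∃ p : Polynomial (Polynomial ℂ), p ≠ 0 ∧
      p.eval₂ ((aeval u : ℂ[X] →ₐ[ℂ] K) : ℂ[X] →+* K) f = 0) :
    {p : ℂ | Good u g p}.Finite := by
  obtain ⟨q, hq0, hq⟩ := halg g⁻¹
  have hlc : q.leadingCoeff ≠ 0 := leadingCoeff_ne_zero.mpr hq0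
  apply (q.leadingCoeff.roots.toFinset.finite_toSet).subset
  intro p hp
  rw [Finset.mem_coe, Multiset.mem_toFinset, mem_roots hlc, IsRoot.def]
  by_contra hne
  obtain ⟨V, hV1, hV2⟩ := exists_val_over hu p
  have hgv := hp _ V.valuation hV1 hV2
  set v := V.valuation with hv
  have hglt : v g < 1 := by rw [hgv]; exact hV2
  have hglt' : 1 < v g⁻¹ := by
    rw [map_inv₀]
    exact (one_lt_inv₀ (zero_lt_iff.mpr (by simpa using hg))).mpr hglt
  rw [eval₂_eq_sum_range, Finset.sum_range_succ] at hq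
  have hlead : v ((aeval u : ℂ[X] →ₐ[ℂ] K) q.leadingCoeff) = 1 :=
    val_poly_eq_one v u hV1 hV2 _ hne
  have hlow : v (∑ x ∈ Finset.range q.natDegree,
      ((aeval u : ℂ[X] →ₐ[ℂ] K) : ℂ[X] →+* K) (q.coeff x) * g⁻¹ ^ x) < v (g⁻¹ ^ q.natDegree) := by
    apply Valuation.map_sum_lt
    · rw [Valuation.ne_zero_iff]
      exact pow_ne_zero _ (inv_ne_zero hg)
    · intro i hi
      rw [map_mul, map_pow, map_pow]
      have h1 : v (((aeval u : ℂ[X] →ₐ[ℂ] K) : ℂ[X] →+* K) (q.coeff i)) ≤ 1 :=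
        val_poly_le v u hV1 hV2 _
      calc v (((aeval u : ℂ[X] →ₐ[ℂ] K) : ℂ[X] →+* K) (q.coeff i)) * v g⁻¹ ^ i
          ≤ 1 * v g⁻¹ ^ i := mul_le_mul_left h1 _
        _ = v g⁻¹ ^ i := one_mul _
        _ < v g⁻¹ ^ q.natDegree := pow_lt_pow_right₀ hglt' (Finset.mem_range.mp hi)
  have h2 : ((aeval u : ℂ[X] →ₐ[ℂ] K) : ℂ[X] →+* K) (q.coeff q.natDegree) * g⁻¹ ^ q.natDegree =
      - ∑ x ∈ Finset.range q.natDegree,
      ((aeval u : ℂ[X] →ₐ[ℂ] K) : ℂ[X] →+* K) (q.coeff x) * g⁻¹ ^ x := by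
    linear_combination hq
  have h3 := congrArg v h2
  rw [Valuation.map_neg, map_mul] at h3
  have h4 : v (((aeval u : ℂ[X] →ₐ[ℂ] K) : ℂ[X] →+* K) (q.coeff q.natDegree)) = 1 := hlead
  rw [h4, one_mul] at h3
  rw [h3] at hlow
  exact lt_irrefl _ hlow

theorem exists_preimage (s : ℂ) : ∃ p : ℂ, nQ.eval p ≠ 0 ∧ nP.eval p = s * nQ.eval p := by
  have hdeg : (nP - C s * nQ).degree ≠ 0 := by
    have h6 : (6 : ℂ[X]) = C 6 := (map_ofNat C 6).symm
    have h5 : (5 : ℂ[X]) = C 5 := (map_ofNat C 5).symm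
    have h4 : (4 : ℂ[X]) = C 4 := (map_ofNat C 4).symm
    have h2 : (2 : ℂ[X]) = C 2 := (map_ofNat C 2).symm
    have h1 : (nP - C s * nQ).coeff 4 = 1 := by
      rw [nP, nQ, h6, h5, h4, h2]
      simp [coeff_X_pow]
    intro h
    have h3 : (nP - C s * nQ).coeff 4 = 0 := by
      apply coeff_eq_zero_of_degree_lt
      rw [h]
      norm_num
    rw [h1] at h3
    exact one_ne_zero h3
  obtain ⟨p, hp⟩ := IsAlgClosed.exists_root _ hdeg
  rw [IsRoot.def, eval_sub, eval_mul, eval_C, sub_eq_zero] at hp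
  refine ⟨p, fun h => ?_, hp⟩
  rw [h, mul_zero] at hp
  exact coprime_cert p hp h

theorem main_contradiction (hu : Transcendental ℂ u) (hLu : L u * aeval u nQ = aeval u nP)
    (hD : ∀ f, D (L f) = algebraMap ℂ K c * L (D f)) (hg : D u ≠ 0)
    (halg : ∀ f : K, ∃ p : Polynomial (Polynomial ℂ), p ≠ 0 ∧
      p.eval₂ ((aeval u : ℂ[X] →ₐ[ℂ] K) : ℂ[X] →+* K) f = 0) : False := by
  have hc : c ≠ 0 := by
    rintro rfl
    have h1 := basic_rel hLu hD
    rw [map_zero, zero_mul, zero_mul] at h1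
    have hW : nW ≠ 0 := by
      intro h
      have : nW.eval 0 = 0 := by rw [h]; simp
      rw [nW_eq] at this
      simp at this
    rcases mul_eq_zero.mp h1.symm with h | h
    · exact aeval_ne_zero hu hW h
    · exact hg h
  have hfin := good_finite hu hg halg
  have h2 : Good u (D u) 2 := good_two hu hLu hD hc hg halg
  have hm2 : Good u (D u) (-2) :=
    good_step hu hLu hD hc h2 (by rw [nQ_eval]; norm_num) (by rw [nP_eval, nQ_eval]; norm_num)
  let S := {p : ℂ | Good u (D u) p}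
  haveI : Finite S := hfin
  have hpre : ∀ s : S, ∃ t : S, nQ.eval (t : ℂ) ≠ 0 ∧ nP.eval (t : ℂ) = s * nQ.eval (t : ℂ) := by
    intro s
    obtain ⟨p, hp1, hp2⟩ := exists_preimage s
    exact ⟨⟨p, good_step hu hLu hD hc s.2 hp1 hp2⟩, hp1, hp2⟩
  choose h hh1 hh2 using hpre
  have hinj : Function.Injective h := by
    intro s t hst
    have e1 := hh2 s
    have e2 := hh2 t
    rw [hst] at e1
    rw [e1] at e2
    exact Subtype.ext (mul_right_cancel₀ (hh1 t) e2)
  have hsurj : Function.Surjective h := Finite.surjective_of_injective hinj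
  obtain ⟨a, ha⟩ := hsurj ⟨2, h2⟩
  obtain ⟨b, hb⟩ := hsurj ⟨-2, hm2⟩
  have ea := hh2 a
  have eb := hh2 b
  rw [ha] at ea
  rw [hb] at eb
  rw [nP_eval, nQ_eval] at ea eb
  have ha2 : (a : ℂ) = 2 := by linear_combination (-1/9) * ea
  have hb2 : (b : ℂ) = 2 := by linear_combination (-1) * eb
  have hab : a = b := Subtype.ext (ha2.trans hb2.symm)
  rw [hab, hb] at ha
  have := congrArg Subtype.val ha
  norm_num at this

end main

end Pool.Agent.Helper67
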