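import Mathlib

set_option autoImplicit false

namespace Pool.Agent.Helper67

open Polynomial

/-- Derivations extend along formally etale algebras. -/
theorem exists_derivation_of_formallyEtale {R S T : Type*} [CommRing R] [CommRing S] [CommRing T]
    [Algebra R S] [Algebra R T] [Algebra S T] [IsScalarTower R S T] [Algebra.FormallyEtale S T]
    (d : Derivation R S T) : ∃ D : Derivation R T T, ∀ s : S, D (algebraMap S T s) = d s := by
  have hb := KaehlerDifferential.isBaseChange_of_formallyEtale R S T
  let f : Ω[S⁄R] →ₗ[S] T := d.liftKaehlerDifferential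
  let g : Ω[T⁄R] →ₗ[T] T := hb.lift f
  refine ⟨g.compDer (KaehlerDifferential.D R T), fun s => ?_⟩
  have h1 : g (KaehlerDifferential.map R R S T (KaehlerDifferential.D R S s)) = 
      f (KaehlerDifferential.D R S s) := hb.lift_eq f _
  rw [KaehlerDifferential.map_D] at h1
  have h2 : f (KaehlerDifferential.D R S s) = d s := 
    Derivation.liftKaehlerDifferential_comp_D d s
  rw [← h2, ← h1]
  rfl

/-- On a field algebraic over a rational function field, there is a derivation with a
prescribed value at the variable. -/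
theorem exists_derivation {K : Type*} [Field K] [Algebra ℂ K] [Algebra (RatFunc ℂ) K]
    [IsScalarTower ℂ (RatFunc ℂ) K] [Algebra.IsAlgebraic (RatFunc ℂ) K] (a : K) :
    ∃ D : Derivation ℂ K K, D (algebraMap (RatFunc ℂ) K RatFunc.X) = a := by
  letI : Algebra ℂ[X] K := ((algebraMap (RatFunc ℂ) K).comp (algebraMap ℂ[X] (RatFunc ℂ))).toAlgebra
  haveI : IsScalarTower ℂ[X] (RatFunc ℂ) K := IsScalarTower.of_algebraMap_eq' rfl
  haveI : IsScalarTower ℂ ℂ[X] K := by
    refine IsScalarTower.of_algebraMap_eq' ?_
    rw [IsScalarTower.algebraMap_eq ℂ (RatFunc ℂ) K, IsScalarTower.algebraMap_eq ℂ ℂ[X] (RatFunc ℂ)]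
    rfl
  haveI : Algebra.FormallyEtale ℂ[X] (RatFunc ℂ) :=
    Algebra.FormallyEtale.of_isLocalization (nonZeroDivisors ℂ[X])
  haveI : Algebra.FormallyEtale (RatFunc ℂ) K := Algebra.FormallyEtale.of_isSeparable _ _
  haveI : Algebra.FormallyEtale ℂ[X] K := Algebra.FormallyEtale.comp ℂ[X] (RatFunc ℂ) K
  obtain ⟨D, hD⟩ := exists_derivation_of_formallyEtale (T := K) (Polynomial.mkDerivation ℂ a)
  refine ⟨D, ?_⟩
  have := hD X
  rw [Polynomial.mkDerivation_X, IsScalarTower.algebraMap_apply ℂ[X] (RatFunc ℂ) K,
    RatFunc.algebraMap_X] at this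
  exact this

/-- A twisted derivation which kills the variable is zero on algebraic extensions. -/
theorem twisted_derivation_eq_zero {K : Type*} [Field K] [Algebra ℂ K] [Algebra (RatFunc ℂ) K]
    [IsScalarTower ℂ (RatFunc ℂ) K] [Algebra.IsAlgebraic (RatFunc ℂ) K] (L : K →ₐ[ℂ] K)
    (δ : K → K) (hadd : ∀ a b, δ (a + b) = δ a + δ b)
    (hmul : ∀ a b, δ (a * b) = L a * δ b + L b * δ a)
    (hC : ∀ c : ℂ, δ (algebraMap ℂ K c) = 0)
    (hX : δ (algebraMap (RatFunc ℂ) K RatFunc.X) = 0) (f : K) : δ f = 0 := by
  have h0 : δ 0 = 0 := by simpa using hC 0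
  have h1 : δ 1 = 0 := by simpa using hC 1
  have hneg : ∀ a, δ (-a) = - δ a := by
    intro a
    have : δ (a + (-a)) = δ a + δ (-a) := hadd _ _
    rw [add_neg_cancel, h0] at this
    linear_combination -this
  have hinv : ∀ a, δ a = 0 → δ a⁻¹ = 0 := by
    intro a ha
    by_cases h : a = 0
    · simpa [h] using h0
    · have := hmul a a⁻¹
      rw [mul_inv_cancel₀ h, h1, ha, mul_zero, add_zero] at this
      have hL : L a ≠ 0 := by
        simpa using h
      rcases mul_eq_zero.mp this.symm with h' | h'
      · exact absurd h' hL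
      · exact h'
  let E : IntermediateField ℂ K :=
    { carrier := {x | δ x = 0}
      mul_mem' := by
        intro a b ha hb
        simp only [Set.mem_setOf_eq] at *
        rw [hmul, ha, hb]; simp
      one_mem' := h1
      add_mem' := by
        intro a b ha hb
        simp only [Set.mem_setOf_eq] at *
        rw [hadd, ha, hb]; simp
      zero_mem' := h0
      algebraMap_mem' := hC
      inv_mem' := hinv }
  have hE : ∀ r : RatFunc ℂ, δ (algebraMap (RatFunc ℂ) K r) = 0 := by
    intro r
    have h2 : IntermediateField.adjoin ℂ {(RatFunc.X : RatFunc ℂ)} ≤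
        E.comap (IsScalarTower.toAlgHom ℂ (RatFunc ℂ) K) := by
      rw [IntermediateField.adjoin_le_iff]
      rintro x rfl
      exact hX
    rw [RatFunc.adjoin_X] at h2
    exact h2 (x := r) trivial
  have key : ∀ m : Polynomial (RatFunc ℂ), δ (aeval f m) = L (aeval f m.derivative) * δ f := by
    intro m
    induction m using Polynomial.induction_on with
    | C a => simp [hE]
    | add p q hp hq => simp only [map_add, hadd, hp, hq, derivative_add]; ring
    | monomial n a ih =>
      rw [pow_succ, ← mul_assoc, map_mul (aeval f), hmul, ih]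
      simp only [aeval_X, derivative_mul, derivative_X, map_add, map_mul, mul_one]
      ring
  have h3 := key (minpoly (RatFunc ℂ) f)
  rw [minpoly.aeval, h0] at h3
  have h4 : aeval f (minpoly (RatFunc ℂ) f).derivative ≠ 0 := by
    have hs : (minpoly (RatFunc ℂ) f).Separable :=
      (minpoly.irreducible (Algebra.IsIntegral.isIntegral f)).separable
    exact hs.aeval_derivative_ne_zero (minpoly.aeval _ _)
  rcases mul_eq_zero.mp h3.symm with h' | h'
  · exfalso
    apply h4
    exact (map_eq_zero_iff L L.toRingHom.injective).mp h'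
  · exact h'

end Pool.Agent.Helper67
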