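import Mathlib
import Pool.Agent.Helper67.Alg
import Pool.Agent.Helper67.Contra
import Pool.Agent.Helper67.Deriv

set_option autoImplicit false

namespace Pool.Agent.Helper67

open Polynomial

/-- Legendre type generators of a function field of genus one. -/
structure IsLeg {K : Type} [Field K] [Algebra ℂ K] (α β : ℂ) (ξ η : K) : Prop where
  tr : Transcendental ℂ ξ
  eq : η ^ 2 = ξ * (ξ - algebraMap ℂ K α) * (ξ - algebraMap ℂ K β)
  gen : ∀ f : K, ∃ g1 g2 g3 : ℂ[X], g3 ≠ 0 ∧ f * aeval ξ g3 = aeval ξ g1 + aeval ξ g2 * η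

/-- the cubic -/
noncomputable def qp (α β : ℂ) : ℂ[X] := X * (X - C α) * (X - C β)

section
variable {K : Type} [Field K] [Algebra ℂ K] {α β : ℂ} {ξ η : K}

theorem qp_aeval (α β : ℂ) (ξ : K) :
    aeval ξ (qp α β) = ξ * (ξ - algebraMap ℂ K α) * (ξ - algebraMap ℂ K β) := by
  simp [qp]

theorem qp_eval (α β p : ℂ) : (qp α β).eval p = p * (p - α) * (p - β) := by
  simp [qp]

theorem IsLeg.ne_zero (h : IsLeg α β ξ η) {r : ℂ[X]} (hr : r ≠ 0) : aeval ξ r ≠ 0 :=
  aeval_ne_zero h.tr hr

theorem qp_ne_zero (α β : ℂ) : qp α β ≠ 0 := by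
  rw [qp]
  exact mul_ne_zero (mul_ne_zero X_ne_zero (X_sub_C_ne_zero α)) (X_sub_C_ne_zero β)

theorem IsLeg.xi_ne (h : IsLeg α β ξ η) : ξ ≠ 0 := by
  have := h.ne_zero (r := X) X_ne_zero
  simpa using this

theorem IsLeg.eta_ne (h : IsLeg α β ξ η) : η ≠ 0 := by
  have h1 := h.ne_zero (qp_ne_zero α β)
  rw [qp_aeval, ← h.eq] at h1
  exact fun h0 => h1 (by rw [h0]; ring)

theorem exists_rev (κ : ℂ) (g : ℂ[X]) (N : ℕ) (hN : g.natDegree ≤ N) :
    ∃ g' : ℂ[X], ∀ y : K, y ≠ 0 → aeval (algebraMap ℂ K κ / y) g * y ^ N = aeval y g' := by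
  refine ⟨∑ i ∈ Finset.range (N + 1), C (g.coeff i * κ ^ i) * X ^ (N - i), fun y hy => ?_⟩
  rw [Polynomial.aeval_eq_sum_range' (Nat.lt_succ_of_le hN), map_sum, Finset.sum_mul]
  refine Finset.sum_congr rfl fun i hi => ?_
  have hi' : i ≤ N := Nat.lt_succ_iff.mp (Finset.mem_range.mp hi)
  rw [map_mul, aeval_C, map_pow, aeval_X, Algebra.smul_def, map_mul, map_pow, div_pow]
  have : y ^ N = y ^ i * y ^ (N - i) := by rw [← pow_add]; congr 1; omega
  rw [this]
  have hyi : y ^ i ≠ 0 := pow_ne_zero _ hy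
  field_simp

theorem IsLeg.swap (h : IsLeg α β ξ η) (hα : α ≠ 0) (hβ : β ≠ 0) :
    IsLeg α β (algebraMap ℂ K (α * β) / ξ) (-algebraMap ℂ K (α * β) * η / ξ ^ 2) := by
  have hκ : α * β ≠ 0 := mul_ne_zero hα hβ
  have hκ' : algebraMap ℂ K (α * β) ≠ 0 := by simpa using hκ
  have hξ := h.xi_ne
  refine ⟨?_, ?_, ?_⟩
  · intro halg
    apply h.tr
    have h1 : IsAlgebraic ℂ (algebraMap ℂ K (α * β)) := isAlgebraic_algebraMap _
    have h2 := h1.mul halg.inv
    have h3 : algebraMap ℂ K (α * β) * (algebraMap ℂ K (α * β) / ξ)⁻¹ = ξ := by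
      field_simp
    rwa [h3] at h2
  · have h1 := h.eq
    rw [map_mul] at *
    field_simp
    rw [h1]
    ring
  · intro f
    obtain ⟨g1, g2, g3, hg3, hf⟩ := h.gen f
    set N := max g1.natDegree (max g2.natDegree g3.natDegree) with hN
    obtain ⟨r1, hr1⟩ := exists_rev (K := K) (α * β) g1 N (by omega)
    obtain ⟨r2, hr2⟩ := exists_rev (K := K) (α * β) g2 N (by omega)
    obtain ⟨r3, hr3⟩ := exists_rev (K := K) (α * β) g3 N (by omega)
    set y : K := algebraMap ℂ K (α * β) / ξ with hy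
    have hy0 : y ≠ 0 := div_ne_zero hκ' hξ
    have hξy : algebraMap ℂ K (α * β) / y = ξ := by
      rw [hy]; field_simp
    have e1 := hr1 y hy0
    have e2 := hr2 y hy0
    have e3 := hr3 y hy0
    rw [hξy] at e1 e2 e3
    refine ⟨r1 * X ^ 2, C (-(α * β)) * r2, r3 * X ^ 2, ?_, ?_⟩
    · apply mul_ne_zero _ (pow_ne_zero 2 X_ne_zero)
      rintro rfl
      rw [map_zero] at e3
      rcases mul_eq_zero.mp e3 with h' | h'
      · exact h.ne_zero hg3 h'
      · exact pow_ne_zero _ hy0 h'
    · simp only [map_mul, map_pow, aeval_X, aeval_C, ← e1, ← e2, ← e3, map_neg]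
      have h5 : -algebraMap ℂ K α * algebraMap ℂ K β * η / ξ ^ 2 * (-(algebraMap ℂ K α * algebraMap ℂ K β)) = η * y ^ 2 := by
        rw [hy, map_mul]
        field_simp
      have h6 : f * (aeval ξ g3 * y ^ N * y ^ 2) =
          (aeval ξ g1 * y ^ N * y ^ 2) + (aeval ξ g2 * y ^ N) * (η * y ^ 2) := by
        linear_combination (y ^ N * y ^ 2) * hf
      rw [h6, ← h5]
      ring

theorem IsLeg.D_eta (h : IsLeg α β ξ η) {D : Derivation ℂ K K} (hD : D ξ = 2 * η) :
    D η = aeval ξ (derivative (qp α β)) := by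
  haveI : CharZero K := charZero_of_injective_algebraMap (algebraMap ℂ K).injective
  have h1 : aeval ξ (qp α β) = η ^ 2 := by rw [qp_aeval, h.eq]
  have h2 := congrArg D h1
  rw [Derivation.map_aeval, D.leibniz_pow, hD] at h2
  simp only [smul_eq_mul, Nat.add_one_sub_one, pow_one, nsmul_eq_mul, Nat.cast_ofNat] at h2
  have h3 : (2 * η) ≠ 0 := mul_ne_zero two_ne_zero h.eta_ne
  apply mul_left_cancel₀ h3
  linear_combination -h2

variable {Γ : Type} [LinearOrderedCommGroupWithZero Γ]

theorem IsLeg.val_eta_le (h : IsLeg α β ξ η) (v : Valuation K Γ)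
    (hC : ∀ c : ℂ, v (algebraMap ℂ K c) ≤ 1) (hξ : v ξ ≤ 1) : v η ≤ 1 := by
  have h1 := congrArg v h.eq
  rw [map_pow, map_mul, map_mul] at h1
  have h2 : v (ξ - algebraMap ℂ K α) ≤ 1 := (v.map_sub _ _).trans (max_le hξ (hC α))
  have h3 : v (ξ - algebraMap ℂ K β) ≤ 1 := (v.map_sub _ _).trans (max_le hξ (hC β))
  have h4 : v η ^ 2 ≤ 1 := by
    rw [h1]
    exact mul_le_one' (mul_le_one' hξ h2) h3
  by_contra hlt
  push Not at hlt
  exact absurd h4 (not_le.mpr (one_lt_pow₀ hlt two_ne_zero))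

theorem val_aeval_le (v : Valuation K Γ)
    (hC : ∀ c : ℂ, v (algebraMap ℂ K c) ≤ 1) (hξ : v ξ ≤ 1) (r : ℂ[X]) : v (aeval ξ r) ≤ 1 := by
  induction r using Polynomial.induction_on with
  | C a => simpa using hC a
  | add a b ha hb =>
    rw [map_add]
    exact (v.map_add _ _).trans (max_le ha hb)
  | monomial n a ih =>
    rw [pow_succ, ← mul_assoc, map_mul, map_mul, aeval_X]
    exact mul_le_one' ih hξ

/-- Elements of `ℂ[ξ, η]` and their derivatives are bounded at finite places. -/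
theorem IsLeg.val_ring (h : IsLeg α β ξ η) {D : Derivation ℂ K K} (hD : D ξ = 2 * η)
    (v : Valuation K Γ) (hC : ∀ c : ℂ, v (algebraMap ℂ K c) ≤ 1) (hξ : v ξ ≤ 1) (r s : ℂ[X]) :
    v (aeval ξ r + aeval ξ s * η) ≤ 1 ∧ v (D (aeval ξ r + aeval ξ s * η)) ≤ 1 := by
  have hη := h.val_eta_le v hC hξ
  have h2 : v (2 : K) ≤ 1 := by
    have := hC 2
    rwa [map_ofNat] at this
  constructor
  · refine (v.map_add _ _).trans (max_le (val_aeval_le v hC hξ r) ?_)
    rw [map_mul]
    exact mul_le_one' (val_aeval_le v hC hξ s) hη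
  · rw [map_add, D.leibniz, Derivation.map_aeval, Derivation.map_aeval, h.D_eta hD, hD]
    simp only [smul_eq_mul]
    refine (v.map_add _ _).trans (max_le ?_ ((v.map_add _ _).trans (max_le ?_ ?_)))
    · rw [map_mul, map_mul]
      exact mul_le_one' (val_aeval_le v hC hξ _) (mul_le_one' h2 hη)
    · rw [map_mul]
      exact mul_le_one' (val_aeval_le v hC hξ _) (val_aeval_le v hC hξ _)
    · rw [map_mul, map_mul, map_mul]
      exact mul_le_one' hη (mul_le_one' (val_aeval_le v hC hξ _) (mul_le_one' h2 hη))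

/-- if `f * r2 = r1` with `r2` a unit then `D f` is bounded. -/
theorem val_D_of_quot {D : Derivation ℂ K K} (v : Valuation K Γ) {f r1 r2 : K}
    (hf : v f ≤ 1) (hr : f * r2 = r1) (h2 : v r2 = 1)
    (h3 : v (D r1) ≤ 1) (h4 : v (D r2) ≤ 1) : v (D f) ≤ 1 := by
  have h5 := congrArg D hr
  rw [D.leibniz] at h5
  simp only [smul_eq_mul] at h5
  have h6 : D f * r2 = D r1 - f * D r2 := by linear_combination h5
  have h7 := congrArg v h6
  rw [map_mul, h2, mul_one] at h7
  rw [h7]
  refine (v.map_sub _ _).trans (max_le h3 ?_)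
  rw [map_mul]
  exact mul_le_one' hf h4

theorem val_poly_trivial (v : Valuation K Γ) (hC : ∀ c : ℂ, v (algebraMap ℂ K c) ≤ 1)
    (hξ : v ξ ≤ 1) (htriv : ∀ p : ℂ, ¬ v (ξ - algebraMap ℂ K p) < 1) (r : ℂ[X]) (hr : r ≠ 0) :
    v (aeval ξ r) = 1 := by
  have h1 : ∀ p : ℂ, v (ξ - algebraMap ℂ K p) = 1 := by
    intro p
    apply le_antisymm
    · exact (v.map_sub _ _).trans (max_le hξ (hC p))
    · exact not_lt.mp (htriv p)
  have h2 := (IsAlgClosed.splits r).eq_prod_roots
  rw [h2, map_mul, map_mul, aeval_C, val_const v hC (leadingCoeff_ne_zero.mpr hr), one_mul]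
  generalize r.roots = m
  induction m using Multiset.induction_on with
  | empty => simp
  | cons a m ih =>
    rw [Multiset.map_cons, Multiset.prod_cons, map_mul, map_mul, ih, mul_one]
    simpa using h1 a

/-- a representation in lowest terms -/
theorem IsLeg.gen_min (h : IsLeg α β ξ η) (f : K) :
    ∃ g1 g2 g3 : ℂ[X], g3 ≠ 0 ∧ f * aeval ξ g3 = aeval ξ g1 + aeval ξ g2 * η ∧
      ∀ p : ℂ, ¬ (g1.eval p = 0 ∧ g2.eval p = 0 ∧ g3.eval p = 0) := by
  classical
  have hex : ∃ n : ℕ, ∃ g1 g2 g3 : ℂ[X], g3 ≠ 0 ∧ f * aeval ξ g3 = aeval ξ g1 + aeval ξ g2 * η ∧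
      g3.natDegree = n := by
    obtain ⟨g1, g2, g3, h1, h2⟩ := h.gen f
    exact ⟨_, g1, g2, g3, h1, h2, rfl⟩
  obtain ⟨g1, g2, g3, h1, h2, h3⟩ := Nat.find_spec hex
  refine ⟨g1, g2, g3, h1, h2, ?_⟩
  rintro p ⟨e1, e2, e3⟩
  obtain ⟨k1, hk1⟩ := Polynomial.dvd_iff_isRoot.mpr e1
  obtain ⟨k2, hk2⟩ := Polynomial.dvd_iff_isRoot.mpr e2
  obtain ⟨k3, hk3⟩ := Polynomial.dvd_iff_isRoot.mpr e3
  have hk30 : k3 ≠ 0 := by
    rintro rfl
    rw [mul_zero] at hk3
    exact h1 hk3
  have hdeg : g3.natDegree = k3.natDegree + 1 := by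
    rw [hk3, natDegree_mul (X_sub_C_ne_zero p) hk30, natDegree_X_sub_C, add_comm]
  refine Nat.find_min hex (m := k3.natDegree) (by omega) ⟨k1, k2, k3, hk30, ?_, rfl⟩
  have hne := u_ne h.tr p
  apply mul_left_cancel₀ hne
  rw [hk1, hk2, hk3] at h2
  simp only [map_mul, map_sub, aeval_X, aeval_C] at h2
  linear_combination h2

theorem val_sub_lt {v : Valuation K Γ} {a b : K} (ha : v a < 1) (hb : v b < 1) :
    v (a - b) < 1 := (v.map_sub a b).trans_lt (max_lt ha hb)

theorem val_add_lt {v : Valuation K Γ} {a b : K} (ha : v a < 1) (hb : v b < 1) :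
    v (a + b) < 1 := (v.map_add a b).trans_lt (max_lt ha hb)

theorem val_mul_lt {v : Valuation K Γ} {a b : K} (ha : v a < 1) (hb : v b ≤ 1) :
    v (a * b) < 1 := by
  rw [map_mul]
  exact mul_lt_one_of_nonneg_of_lt_one_left zero_le ha hb

theorem val_aeval_sub_lt (v : Valuation K Γ) (hC : ∀ c : ℂ, v (algebraMap ℂ K c) ≤ 1) {p : ℂ}
    (hp : v (ξ - algebraMap ℂ K p) < 1) (r : ℂ[X]) :
    v (aeval ξ r - algebraMap ℂ K (r.eval p)) < 1 := by
  have := val_poly_lt_one v ξ hC hp (r - C (r.eval p)) (by simp)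
  simpa using this

theorem const_eq_zero_of_lt (v : Valuation K Γ) (hC : ∀ c : ℂ, v (algebraMap ℂ K c) ≤ 1) {c : ℂ}
    (h : v (algebraMap ℂ K c) < 1) : c = 0 := by
  by_contra hc
  rw [val_const v hC hc] at h
  exact lt_irrefl _ h

/-- The derivation preserves the valuation ring of every finite place. -/
theorem IsLeg.val_D_fin (h : IsLeg α β ξ η) (hα : α ≠ 0) (hβ : β ≠ 0) (hαβ : α ≠ β)
    {D : Derivation ℂ K K} (hD : D ξ = 2 * η)
    (v : Valuation K Γ) (hC : ∀ c : ℂ, v (algebraMap ℂ K c) ≤ 1) (hξ : v ξ ≤ 1) {f : K}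
    (hf : v f ≤ 1) : v (D f) ≤ 1 := by
  have hη := h.val_eta_le v hC hξ
  by_cases htriv : ∀ p : ℂ, ¬ v (ξ - algebraMap ℂ K p) < 1
  · obtain ⟨g1, g2, g3, hg3, hfg⟩ := h.gen f
    have h3 := val_poly_trivial v hC hξ htriv g3 hg3
    have hr1 := h.val_ring hD v hC hξ g1 g2
    have hr2 := h.val_ring hD v hC hξ g3 0
    simp only [map_zero, zero_mul, add_zero] at hr2
    exact val_D_of_quot v hf hfg h3 hr1.2 hr2.2
  push Not at htriv
  obtain ⟨p, hp⟩ := htriv
  obtain ⟨g1, g2, g3, hg3, hfg, hmin⟩ := h.gen_min f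
  by_cases h3p : g3.eval p ≠ 0
  · have h3 := val_poly_eq_one v ξ hC hp g3 h3p
    have hr1 := h.val_ring hD v hC hξ g1 g2
    have hr2 := h.val_ring hD v hC hξ g3 0
    simp only [map_zero, zero_mul, add_zero] at hr2
    exact val_D_of_quot v hf hfg h3 hr1.2 hr2.2
  push Not at h3p
  obtain ⟨k3, hk3⟩ := Polynomial.dvd_iff_isRoot.mpr h3p
  have hv3 : v (aeval ξ g3) ≤ v (ξ - algebraMap ℂ K p) := by
    rw [hk3, map_mul, map_mul]
    simp only [map_sub, aeval_X, aeval_C]
    exact mul_le_of_le_one_right' (val_aeval_le v hC hξ k3)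
  have hsum : v (aeval ξ g1 + aeval ξ g2 * η) ≤ v (ξ - algebraMap ℂ K p) := by
    rw [← hfg, map_mul]
    exact (mul_le_of_le_one_left' hf).trans hv3
  by_cases hq : (qp α β).eval p = 0
  · -- ramified place
    exfalso
    have hηlt : v η ^ 2 < 1 := by
      rw [← map_pow, h.eq, ← qp_aeval]
      exact val_poly_lt_one v ξ hC hp _ hq
    have hηlt' : v η < 1 := by
      by_contra hcon
      push Not at hcon
      exact absurd hηlt (not_lt.mpr (one_le_pow₀ hcon))
    obtain ⟨q', hq'⟩ := Polynomial.dvd_iff_isRoot.mpr hq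
    have hq'p : q'.eval p ≠ 0 := by
      intro h0
      have hd : (derivative (qp α β)).eval p = 0 := by
        rw [hq', derivative_mul]
        simp [h0]
      have h1 := qp_eval α β p
      rw [hq] at h1
      have h2 : (derivative (qp α β)).eval p = (p - α) * (p - β) + p * (p - β) + p * (p - α) := by
        simp only [qp, derivative_mul, derivative_X, derivative_sub, derivative_C, eval_add,
          eval_mul, eval_sub, eval_X, eval_C, eval_one, one_mul, mul_one, sub_zero]
        ring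
      rw [hd] at h2
      rcases mul_eq_zero.mp h1.symm with h3 | h3
      · rcases mul_eq_zero.mp h3 with h4 | h4
        · rw [h4] at h2
          simp [hα, hβ] at h2
        · have h5 : p = α := by linear_combination h4
          rw [h5] at h2
          have : α * (α - β) = 0 := by linear_combination -h2
          rcases mul_eq_zero.mp this with h6 | h6
          · exact hα h6
          · exact hαβ (by linear_combination h6)
      · have h5 : p = β := by linear_combination h3
        rw [h5] at h2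
        have : β * (β - α) = 0 := by linear_combination -h2
        rcases mul_eq_zero.mp this with h6 | h6
        · exact hβ h6
        · exact hαβ (by linear_combination -h6)
    have ht : v (ξ - algebraMap ℂ K p) = v η ^ 2 := by
      have h1 : η ^ 2 = (ξ - algebraMap ℂ K p) * aeval ξ q' := by
        rw [h.eq, ← qp_aeval, hq']
        simp
      have h2 := congrArg v h1
      rw [map_pow, map_mul, val_poly_eq_one v ξ hC hp q' hq'p, mul_one] at h2
      exact h2.symm
    have h1p : g1.eval p = 0 := by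
      by_contra h0
      have h1 := val_poly_eq_one v ξ hC hp g1 h0
      have h2 : v (aeval ξ g2 * η) < 1 := by
        rw [mul_comm]
        exact val_mul_lt hηlt' (val_aeval_le v hC hξ g2)
      have h3 : v (aeval ξ g1 + aeval ξ g2 * η) = 1 := by
        rw [← h1] at h2 ⊢
        exact Valuation.map_add_eq_of_lt_left v h2
      rw [h3] at hsum
      exact absurd hp (not_lt.mpr hsum)
    have h2p : g2.eval p = 0 := by
      by_contra h0
      have h2 := val_poly_eq_one v ξ hC hp g2 h0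
      obtain ⟨k1, hk1⟩ := Polynomial.dvd_iff_isRoot.mpr h1p
      have hv1 : v (aeval ξ g1) ≤ v (ξ - algebraMap ℂ K p) := by
        rw [hk1, map_mul, map_mul]
        simp only [map_sub, aeval_X, aeval_C]
        exact mul_le_of_le_one_right' (val_aeval_le v hC hξ k1)
      have hηpos : v η ≠ 0 := by rw [Valuation.ne_zero_iff]; exact h.eta_ne
      have hlt : v η ^ 2 < v η := by
        rw [sq]
        exact mul_lt_of_lt_one_left (zero_lt_iff.mpr hηpos) hηlt'
      have h4 : v (aeval ξ g2 * η) = v η := by rw [map_mul, h2, one_mul]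
      have h5 : v (aeval ξ g1) < v (aeval ξ g2 * η) := by
        rw [h4]
        exact (hv1.trans ht.le).trans_lt hlt
      have h6 : v (aeval ξ g1 + aeval ξ g2 * η) = v η := by
        rw [← h4]
        exact Valuation.map_add_eq_of_lt_right v h5
      rw [h6, ht] at hsum
      exact absurd hlt (not_lt.mpr hsum)
    exact hmin p ⟨h1p, h2p, h3p⟩
  · -- unramified place
    obtain ⟨b0, hb0⟩ := IsAlgClosed.exists_pow_nat_eq ((qp α β).eval p) (n := 2) (by norm_num)
    have hb : ∃ b : ℂ, b ^ 2 = (qp α β).eval p ∧ v (η - algebraMap ℂ K b) < 1 := by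
      have h1 : v ((η - algebraMap ℂ K b0) * (η - algebraMap ℂ K (-b0))) < 1 := by
        have h2 := val_aeval_sub_lt v hC hp (qp α β)
        rw [← hb0] at h2
        convert h2 using 2
        rw [qp_aeval, ← h.eq, map_neg, map_pow]
        ring
      rw [map_mul] at h1
      by_contra hcon
      push Not at hcon
      have h2 := hcon b0 hb0
      have h3 := hcon (-b0) (by rw [neg_sq, hb0])
      exact absurd h1 (not_lt.mpr (one_le_mul h2 h3))
    obtain ⟨b, hb, hvb⟩ := hb
    have hb00 : b ≠ 0 := by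
      rintro rfl
      apply hq
      rw [← hb]; ring
    -- the first combination vanishes
    have e1 : v ((aeval ξ g1 + aeval ξ g2 * η) - algebraMap ℂ K (g1.eval p + g2.eval p * b)) < 1 := by
      have h1 := val_aeval_sub_lt v hC hp g1
      have h2 := val_aeval_sub_lt v hC hp g2
      have h3 : v ((aeval ξ g2 - algebraMap ℂ K (g2.eval p)) * η) < 1 := val_mul_lt h2 hη
      have h4 : v ((η - algebraMap ℂ K b) * algebraMap ℂ K (g2.eval p)) < 1 :=
        val_mul_lt hvb (hC _)
      have h5 := val_add_lt (val_add_lt h1 h3) h4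
      convert h5 using 2
      simp only [map_add, map_mul]
      ring
    have e2 : g1.eval p + g2.eval p * b = 0 := by
      apply const_eq_zero_of_lt v hC
      have h1 := val_sub_lt (hsum.trans_lt hp) e1
      convert h1 using 2
      ring
    have e3 : g1.eval p - g2.eval p * b ≠ 0 := by
      intro h0
      have h1 : g1.eval p = 0 := by linear_combination (1/2) * e2 + (1/2) * h0
      have h2 : g2.eval p * b = 0 := by linear_combination (1/2) * e2 - (1/2) * h0
      rcases mul_eq_zero.mp h2 with h3 | h3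
      · exact hmin p ⟨h1, h3, h3p⟩
      · exact hb00 h3
    set w : K := aeval ξ g1 - aeval ξ g2 * η with hw
    have hvw : v w = 1 := by
      have e4 : v (w - algebraMap ℂ K (g1.eval p - g2.eval p * b)) < 1 := by
        have h1 := val_aeval_sub_lt v hC hp g1
        have h2 := val_aeval_sub_lt v hC hp g2
        have h3 : v ((aeval ξ g2 - algebraMap ℂ K (g2.eval p)) * η) < 1 := val_mul_lt h2 hη
        have h4 : v ((η - algebraMap ℂ K b) * algebraMap ℂ K (g2.eval p)) < 1 :=
          val_mul_lt hvb (hC _)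
        have h5 := val_sub_lt (val_sub_lt h1 h3) h4
        convert h5 using 2
        rw [hw]
        simp only [map_sub, map_mul]
        ring
      have h1 : w = (w - algebraMap ℂ K (g1.eval p - g2.eval p * b)) +
          algebraMap ℂ K (g1.eval p - g2.eval p * b) := by ring
      rw [h1]
      have h2 := val_const v hC e3
      rw [← h2] at e4
      rw [Valuation.map_add_eq_of_lt_right v e4, h2]
    -- norm
    set N : ℂ[X] := g1 ^ 2 - g2 ^ 2 * qp α β with hN
    have hNrel : f * w * aeval ξ g3 = aeval ξ N := by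
      rw [hN]
      simp only [map_sub, map_mul, map_pow, qp_aeval, ← h.eq]
      rw [hw]
      linear_combination (aeval ξ g1 - aeval ξ g2 * η) * hfg
    by_cases hN0 : N = 0
    · rw [hN0, map_zero] at hNrel
      have hw0 : w ≠ 0 := by
        intro h0
        rw [h0, map_zero] at hvw
        exact zero_ne_one hvw
      have hf0 : f = 0 := by
        rcases mul_eq_zero.mp hNrel with h1 | h1
        · rcases mul_eq_zero.mp h1 with h2 | h2
          · exact h2
          · exact absurd h2 hw0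
        · exact absurd h1 (h.ne_zero hg3)
      rw [hf0, map_zero, map_zero]
      exact zero_le
    · obtain ⟨N', hN', hN'd⟩ := Polynomial.exists_eq_pow_rootMultiplicity_mul_and_not_dvd N hN0 p
      obtain ⟨g3', hg3', hg3'd⟩ :=
        Polynomial.exists_eq_pow_rootMultiplicity_mul_and_not_dvd g3 hg3 p
      set m := rootMultiplicity p N with hm
      set k := rootMultiplicity p g3 with hk
      have hN'p : N'.eval p ≠ 0 := fun h0 => hN'd (Polynomial.dvd_iff_isRoot.mpr h0)
      have hg3'p : g3'.eval p ≠ 0 := fun h0 => hg3'd (Polynomial.dvd_iff_isRoot.mpr h0)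
      set t : K := ξ - algebraMap ℂ K p with ht
      have ht0 : t ≠ 0 := u_ne h.tr p
      have hNa : aeval ξ N = t ^ m * aeval ξ N' := by
        conv_lhs => rw [hN']
        simp [ht]
      have hga : aeval ξ g3 = t ^ k * aeval ξ g3' := by
        conv_lhs => rw [hg3']
        simp [ht]
      have hvt : v t ≠ 0 := by rw [Valuation.ne_zero_iff]; exact ht0
      have hmk : k ≤ m := by
        by_contra hlt
        push Not at hlt
        have h1 := congrArg v hNrel
        rw [hNa, hga, map_mul, map_mul, map_mul, map_mul, map_pow, map_pow, hvw,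
          val_poly_eq_one v ξ hC hp N' hN'p, val_poly_eq_one v ξ hC hp g3' hg3'p, mul_one,
          mul_one, mul_one] at h1
        have h2 : v t ^ m ≤ v t ^ k := by
          rw [← h1]
          exact mul_le_of_le_one_left' hf
        exact absurd (pow_lt_pow_right_of_lt_one₀ (zero_lt_iff.mpr hvt) hp hlt) (not_lt.mpr h2)
      have hrel : f * (w * aeval ξ g3') = t ^ (m - k) * aeval ξ N' := by
        apply mul_left_cancel₀ (pow_ne_zero k ht0)
        have h1 : t ^ k * (t ^ (m - k) * aeval ξ N') = aeval ξ N := by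
          rw [hNa, ← mul_assoc, ← pow_add]
          congr 2
          omega
        rw [h1, ← hNrel, hga]
        ring
      have hr1 : t ^ (m - k) * aeval ξ N' = aeval ξ ((X - C p) ^ (m - k) * N') +
          aeval ξ (0 : ℂ[X]) * η := by
        simp [ht]
      have hr2 : w * aeval ξ g3' = aeval ξ (g1 * g3') + aeval ξ (-(g2 * g3')) * η := by
        rw [hw]
        simp only [map_mul, map_neg]
        ring
      have h1 := h.val_ring hD v hC hξ ((X - C p) ^ (m - k) * N') 0
      rw [← hr1] at h1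
      have h2 := h.val_ring hD v hC hξ (g1 * g3') (-(g2 * g3'))
      rw [← hr2] at h2
      refine val_D_of_quot v hf hrel ?_ h1.2 h2.2
      rw [map_mul, hvw, val_poly_eq_one v ξ hC hp g3' hg3'p, mul_one]

theorem IsLeg.val_D (h : IsLeg α β ξ η) (hα : α ≠ 0) (hβ : β ≠ 0) (hαβ : α ≠ β)
    {D : Derivation ℂ K K} (hD : D ξ = 2 * η)
    (v : Valuation K Γ) (hC : ∀ c : ℂ, v (algebraMap ℂ K c) ≤ 1) {f : K}
    (hf : v f ≤ 1) : v (D f) ≤ 1 := by
  by_cases hξ : v ξ ≤ 1
  · exact h.val_D_fin hα hβ hαβ hD v hC hξ hf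
  · push Not at hξ
    have hξ0 := h.xi_ne
    refine (h.swap hα hβ).val_D_fin hα hβ hαβ (D := D) ?_ v hC ?_ hf
    · rw [D.leibniz_div]
      simp only [smul_eq_mul, Derivation.map_algebraMap, hD, mul_zero, zero_sub]
      field_simp
    · rw [map_div₀, val_const v hC (mul_ne_zero hα hβ)]
      rw [one_div]
      exact inv_le_one_of_one_le₀ hξ.le

/-- Bezout identity for the cubic and its derivative. -/
theorem qp_bezout (hα : α ≠ 0) (hβ : β ≠ 0) (hαβ : α ≠ β) :
    ∃ a b : ℂ[X], a * qp α β + b * derivative (qp α β) = 1 := by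
  have hsep : (qp α β).Separable := by
    have h1 : qp α β = (X - C 0) * (X - C α) * (X - C β) := by rw [qp, C_0, sub_zero]
    rw [h1]
    refine Separable.mul (Separable.mul (separable_X_sub_C) (separable_X_sub_C) ?_)
      (separable_X_sub_C) ?_
    · exact isCoprime_X_sub_C_of_isUnit_sub (by simpa using hα)
    · refine IsCoprime.mul_left ?_ ?_
      · exact isCoprime_X_sub_C_of_isUnit_sub (by simpa using hβ)
      · exact isCoprime_X_sub_C_of_isUnit_sub (by simpa [sub_eq_zero] using hαβ)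
  obtain ⟨a, b, hab⟩ := hsep
  exact ⟨a, b, hab⟩

/-- The multiplier of a point of the curve is bounded at places where the point is finite. -/
theorem IsLeg.mult_fin (h : IsLeg α β ξ η) (hα : α ≠ 0) (hβ : β ≠ 0) (hαβ : α ≠ β)
    {D : Derivation ℂ K K} (hD : D ξ = 2 * η)
    (v : Valuation K Γ) (hC : ∀ c : ℂ, v (algebraMap ℂ K c) ≤ 1) {Ξ H m : K}
    (hH : H ^ 2 = aeval Ξ (qp α β)) (hH0 : H ≠ 0) (hm : D Ξ = 2 * m * H) (hΞ : v Ξ ≤ 1) :
    v m ≤ 1 := by
  haveI : CharZero K := charZero_of_injective_algebraMap (algebraMap ℂ K).injective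
  have hvH : v H ≤ 1 := by
    have h4 : v H ^ 2 ≤ 1 := by
      rw [← map_pow, hH]
      exact val_aeval_le v hC hΞ _
    by_contra hlt
    push Not at hlt
    exact absurd h4 (not_le.mpr (one_lt_pow₀ hlt two_ne_zero))
  have hDΞ := h.val_D hα hβ hαβ hD v hC hΞ
  have hDH := h.val_D hα hβ hαβ hD v hC hvH
  have hDH' : D H = m * aeval Ξ (derivative (qp α β)) := by
    have h2 := congrArg D hH
    rw [Derivation.map_aeval, D.leibniz_pow, hm] at h2
    simp only [smul_eq_mul, Nat.add_one_sub_one, pow_one, nsmul_eq_mul, Nat.cast_ofNat] at h2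
    have h3 : (2 * H) ≠ 0 := mul_ne_zero two_ne_zero hH0
    apply mul_left_cancel₀ h3
    linear_combination h2
  obtain ⟨a, b, hab⟩ := qp_bezout hα hβ hαβ
  have h5 : m = aeval Ξ a * H * ((algebraMap ℂ K (1/2)) * D Ξ) + aeval Ξ b * D H := by
    have h6 := congrArg (aeval Ξ) hab
    rw [map_add, map_mul, map_mul, map_one, ← hH] at h6
    rw [hDH', hm]
    have h7 : (algebraMap ℂ K (1/2)) * 2 = 1 := by
      have : (algebraMap ℂ K (1/2)) * (algebraMap ℂ K 2) = 1 := by
        rw [← map_mul]; norm_num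
      rwa [map_ofNat] at this
    linear_combination (-m) * h6 - (aeval Ξ a * H * m * H) * h7
  rw [h5]
  refine (v.map_add _ _).trans (max_le ?_ ?_)
  · rw [map_mul, map_mul, map_mul]
    exact mul_le_one' (mul_le_one' (val_aeval_le v hC hΞ a) hvH) (mul_le_one' (hC _) hDΞ)
  · rw [map_mul]
    exact mul_le_one' (val_aeval_le v hC hΞ b) hDH

/-- Every endomorphism of the function field multiplies the invariant derivation by a constant. -/
theorem IsLeg.mult_const (h : IsLeg α β ξ η) (hα : α ≠ 0) (hβ : β ≠ 0) (hαβ : α ≠ β)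
    {D : Derivation ℂ K K} (hD : D ξ = 2 * η) (L : K →ₐ[ℂ] K) :
    ∃ c : ℂ, D (L ξ) = algebraMap ℂ K c * L (D ξ) := by
  haveI : CharZero K := charZero_of_injective_algebraMap (algebraMap ℂ K).injective
  have hLη : L η ≠ 0 := by simpa using h.eta_ne
  have hLξ : L ξ ≠ 0 := by simpa using h.xi_ne
  have heq : (L η) ^ 2 = aeval (L ξ) (qp α β) := by
    rw [Polynomial.aeval_algHom_apply, qp_aeval, ← h.eq, map_pow]
  set m : K := D (L ξ) / (2 * L η) with hm
  have hmul : D (L ξ) = 2 * m * L η := by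
    rw [hm]; field_simp
  obtain ⟨c, hc⟩ := mem_const_of_forall_val m (by
    intro Γ _ v hC
    by_cases hΞ : v (L ξ) ≤ 1
    · exact h.mult_fin hα hβ hαβ hD v hC heq hLη hmul hΞ
    · push Not at hΞ
      have hκ : algebraMap ℂ K (α * β) ≠ 0 := by simp [hα, hβ]
      refine h.mult_fin hα hβ hαβ hD v hC (Ξ := algebraMap ℂ K (α * β) / L ξ)
        (H := -algebraMap ℂ K (α * β) * L η / (L ξ) ^ 2) ?_ ?_ ?_ ?_
      · rw [qp_aeval] at heq ⊢
        rw [map_mul] at *
        field_simp
        rw [heq]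
        ring
      · refine div_ne_zero (mul_ne_zero (neg_ne_zero.mpr hκ) hLη) (pow_ne_zero 2 hLξ)
      · rw [D.leibniz_div]
        simp only [smul_eq_mul, Derivation.map_algebraMap, hmul, mul_zero, zero_sub]
        field_simp
      · rw [map_div₀, val_const v hC (mul_ne_zero hα hβ)]
        rw [one_div]
        exact inv_le_one_of_one_le₀ hΞ.le)
  refine ⟨c, ?_⟩
  rw [hmul, hD, map_mul, hc, map_ofNat]
  ring

/-- K is algebraic over `ℂ(ξ)`. -/
theorem IsLeg.isAlgebraic (h : IsLeg α β ξ η) (θ : RatFunc ℂ →ₐ[ℂ] K) (hθ : θ RatFunc.X = ξ) :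
    @Algebra.IsAlgebraic (RatFunc ℂ) K _ _ θ.toRingHom.toAlgebra := by
  letI : Algebra (RatFunc ℂ) K := θ.toRingHom.toAlgebra
  have hA : ∀ r : ℂ[X], IsAlgebraic (RatFunc ℂ) (aeval ξ r : K) := by
    intro r
    have h1 := hom_aeval θ r
    rw [hθ] at h1
    rw [← h1]
    exact isAlgebraic_algebraMap (algebraMap ℂ[X] (RatFunc ℂ) r)
  have hη : IsAlgebraic (RatFunc ℂ) η := by
    have h1 : IsAlgebraic (RatFunc ℂ) (η ^ 2) := by
      rw [h.eq, ← qp_aeval]
      exact hA _
    exact h1.of_pow (by norm_num)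
  refine ⟨fun f => ?_⟩
  obtain ⟨g1, g2, g3, hg3, hf⟩ := h.gen f
  have h3 := h.ne_zero hg3
  have hf' : f = (aeval ξ g1 + aeval ξ g2 * η) * (aeval ξ g3)⁻¹ := by
    field_simp
    exact hf
  rw [hf']
  exact ((hA g1).add ((hA g2).mul hη)).mul (hA g3).inv

/-- The map `A` is not semiconjugate to an endomorphism of a genus one function field. -/
theorem IsLeg.no_semiconj (h : IsLeg α β ξ η) (hα : α ≠ 0) (hβ : β ≠ 0) (hαβ : α ≠ β)
    (φ : RatFunc ℂ →ₐ[ℂ] RatFunc ℂ)
    (hφ : φ RatFunc.X * algebraMap ℂ[X] (RatFunc ℂ) nQ = algebraMap ℂ[X] (RatFunc ℂ) nP)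
    (θ : RatFunc ℂ →ₐ[ℂ] K) (L : K →ₐ[ℂ] K) (hL : L.comp θ = θ.comp φ) : False := by
  haveI : CharZero K := charZero_of_injective_algebraMap (algebraMap ℂ K).injective
  obtain ⟨θ0, hθ0⟩ := exists_ratFunc_hom h.tr
  have halg0 := h.isAlgebraic θ0 hθ0
  -- the invariant derivation
  obtain ⟨D, hD⟩ : ∃ D : Derivation ℂ K K, D ξ = 2 * η := by
    letI : Algebra (RatFunc ℂ) K := θ0.toRingHom.toAlgebra
    haveI : IsScalarTower ℂ (RatFunc ℂ) K := IsScalarTower.of_algebraMap_eq fun c => by
      exact (θ0.commutes c).symm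
    haveI := halg0
    obtain ⟨D, hD⟩ := exists_derivation (K := K) (2 * η)
    refine ⟨D, ?_⟩
    rw [← hθ0]
    exact hD
  obtain ⟨c, hc⟩ := h.mult_const hα hβ hαβ hD L
  have hcomm : ∀ f, D (L f) = algebraMap ℂ K c * L (D f) := by
    letI : Algebra (RatFunc ℂ) K := θ0.toRingHom.toAlgebra
    haveI : IsScalarTower ℂ (RatFunc ℂ) K := IsScalarTower.of_algebraMap_eq fun c => by
      exact (θ0.commutes c).symm
    haveI := halg0
    intro f
    have := twisted_derivation_eq_zero L (fun f => D (L f) - algebraMap ℂ K c * L (D f))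
      (by intro a b; simp only [map_add]; ring)
      (by intro a b; simp only [map_mul, map_add, D.leibniz, smul_eq_mul]; ring)
      (by intro a; simp)
      (by
        have e : (algebraMap (RatFunc ℂ) K) RatFunc.X = ξ := hθ0
        rw [e, hc, sub_self]) f
    exact sub_eq_zero.mp this
  have hu := hom_transcendental θ
  have halgu : ∀ f : K, ∃ p : Polynomial (Polynomial ℂ), p ≠ 0 ∧
      p.eval₂ ((aeval (θ RatFunc.X) : ℂ[X] →ₐ[ℂ] K) : ℂ[X] →+* K) f = 0 := by
    letI : Algebra (RatFunc ℂ) K := θ0.toRingHom.toAlgebra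
    haveI : IsScalarTower ℂ (RatFunc ℂ) K := IsScalarTower.of_algebraMap_eq fun c => by
      exact (θ0.commutes c).symm
    haveI := halg0
    exact halg_of_transcendental hu
  have hDu : D (θ RatFunc.X) ≠ 0 := by
    intro h0
    have halg1 := isAlgebraic_of_halg θ halgu
    letI : Algebra (RatFunc ℂ) K := θ.toRingHom.toAlgebra
    haveI : IsScalarTower ℂ (RatFunc ℂ) K := IsScalarTower.of_algebraMap_eq fun c => by
      exact (θ.commutes c).symm
    haveI := halg1
    have := twisted_derivation_eq_zero (AlgHom.id ℂ K) (fun f => D f)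
      (by intro a b; simp only [map_add])
      (by intro a b; simp only [D.leibniz, smul_eq_mul, AlgHom.id_apply])
      (by intro a; simp)
      h0 ξ
    rw [hD] at this
    exact mul_ne_zero two_ne_zero h.eta_ne this
  have hLu : L (θ RatFunc.X) * aeval (θ RatFunc.X) nQ = aeval (θ RatFunc.X) nP := by
    have h1 : L (θ RatFunc.X) = θ (φ RatFunc.X) := DFunLike.congr_fun hL RatFunc.X
    rw [h1, ← hom_aeval, ← hom_aeval, ← map_mul, hφ]
  exact main_contradiction hu hLu hcomm hDu halgu

end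

end Pool.Agent.Helper67
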