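import Mathlib
import Pool.Agent.Helper67.Elliptic

set_option autoImplicit false

namespace Pool.Agent.Helper67

open Polynomial

open WeierstrassCurve WeierstrassCurve.Affine

theorem coord_aeval (W : WeierstrassCurve ℂ) (p : ℂ[X]) :
    algebraMap W.toAffine.CoordinateRing W.toAffine.FunctionField
      (algebraMap ℂ[X] W.toAffine.CoordinateRing p) =
    aeval (algebraMap W.toAffine.CoordinateRing W.toAffine.FunctionField
      (CoordinateRing.mk W.toAffine (C X))) p := by
  have h : ((IsScalarTower.toAlgHom ℂ W.toAffine.CoordinateRing W.toAffine.FunctionField).comp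
      (IsScalarTower.toAlgHom ℂ ℂ[X] W.toAffine.CoordinateRing)) =
      aeval (algebraMap W.toAffine.CoordinateRing W.toAffine.FunctionField
      (CoordinateRing.mk W.toAffine (C X))) := by
    apply Polynomial.algHom_ext
    simp
  exact DFunLike.congr_fun h p

theorem coord_eq (W : WeierstrassCurve ℂ) (x y : W.toAffine.FunctionField)
    (hx : x = algebraMap W.toAffine.CoordinateRing W.toAffine.FunctionField
      (CoordinateRing.mk W.toAffine (C X)))
    (hy : y = algebraMap W.toAffine.CoordinateRing W.toAffine.FunctionField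
      (CoordinateRing.mk W.toAffine X)) :
    y ^ 2 + algebraMap ℂ _ W.a₁ * x * y + algebraMap ℂ _ W.a₃ * y =
      x ^ 3 + algebraMap ℂ _ W.a₂ * x ^ 2 + algebraMap ℂ _ W.a₄ * x + algebraMap ℂ _ W.a₆ := by
  have Y_sq : CoordinateRing.mk W.toAffine X ^ 2 = CoordinateRing.mk W.toAffine
      (C (X ^ 3 + C W.a₂ * X ^ 2 + C W.a₄ * X + C W.a₆) -
      C (C W.a₁ * X + C W.a₃) * X) :=
    AdjoinRoot.mk_eq_mk.mpr ⟨1, by rw [WeierstrassCurve.Affine.polynomial]; ring1⟩
  have h1 := congrArg (algebraMap W.toAffine.CoordinateRing W.toAffine.FunctionField) Y_sq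
  rw [map_pow, ← hy, map_sub, map_mul, map_sub, map_mul, ← hy] at h1
  have hC : ∀ p : ℂ[X], algebraMap W.toAffine.CoordinateRing W.toAffine.FunctionField
      (CoordinateRing.mk W.toAffine (C p)) = aeval x p := by
    intro p
    rw [hx]
    exact coord_aeval W p
  rw [hC, hC] at h1
  simp only [map_add, map_mul, map_pow, aeval_X, aeval_C] at h1
  linear_combination h1

theorem exists_isLeg (W : WeierstrassCurve ℂ) (hW : W.IsElliptic) :
    ∃ α β : ℂ, α ≠ 0 ∧ β ≠ 0 ∧ α ≠ β ∧ ∃ ξ η : W.toAffine.FunctionField, IsLeg α β ξ η := by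
  -- the three roots
  have ha : W.twoTorsionPolynomial.a ≠ 0 := by
    simp [twoTorsionPolynomial]
  obtain ⟨e1, e2, e3, h3⟩ := (Cubic.splits_iff_roots_eq_three (φ := RingHom.id ℂ) ha).mp
    (IsAlgClosed.splits _)
  have hne := (Cubic.discr_ne_zero_iff_roots_ne ha h3).mp
    (W.twoTorsionPolynomial_discr_ne_zero_of_isElliptic (by norm_num))
  have hb := Cubic.b_eq_three_roots ha h3
  have hc := Cubic.c_eq_three_roots ha h3
  have hd := Cubic.d_eq_three_roots ha h3
  simp only [twoTorsionPolynomial, RingHom.id_apply] at hb hc hd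
  set R := W.toAffine.CoordinateRing with hR
  set K := W.toAffine.FunctionField with hK
  obtain ⟨x, hx⟩ : ∃ x : K, x = algebraMap R K (CoordinateRing.mk W.toAffine (C X)) := ⟨_, rfl⟩
  obtain ⟨y, hy⟩ : ∃ y : K, y = algebraMap R K (CoordinateRing.mk W.toAffine X) := ⟨_, rfl⟩
  have hxa : ∀ p : ℂ[X], algebraMap R K (algebraMap ℂ[X] R p) = aeval x p := by
    intro p
    rw [hx]
    exact coord_aeval W p
  have heq := coord_eq W x y hx hy
  have htr : ∀ p : ℂ[X], aeval x p = 0 → p = 0 := by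
    intro p hp
    rw [← hxa] at hp
    have h1 := (map_eq_zero_iff _ (IsFractionRing.injective R K)).mp hp
    exact (map_eq_zero_iff _ (FaithfulSMul.algebraMap_injective ℂ[X] R)).mp h1
  have hrep : ∀ r : R, ∃ p q : ℂ[X], algebraMap R K r = aeval x p + aeval x q * y := by
    intro r
    obtain ⟨p, q, hpq⟩ := CoordinateRing.exists_smul_basis_eq r
    refine ⟨p, q, ?_⟩
    rw [← hpq, Algebra.smul_def, Algebra.smul_def, mul_one, map_add, map_mul, hxa, hxa, ← hy]
  have hgen : ∀ f : K, ∃ g1 g2 g3 : ℂ[X], g3 ≠ 0 ∧ f * aeval x g3 = aeval x g1 + aeval x g2 * y := by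
    intro f
    obtain ⟨r1, r2, hr2, rfl⟩ := IsFractionRing.div_surjective (A := R) f
    obtain ⟨p, q, hpq⟩ := CoordinateRing.exists_smul_basis_eq r2
    have hr20 : r2 ≠ 0 := nonZeroDivisors.ne_zero hr2
    have hnorm := CoordinateRing.coe_norm_smul_basis (W' := W.toAffine) p q
    rw [hpq] at hnorm
    have hr2' : r2 = CoordinateRing.mk W.toAffine (C p + C q * X) := by
      rw [← hpq, CoordinateRing.smul, CoordinateRing.smul, map_add, map_mul, mul_one]
    rw [map_mul, ← hr2'] at hnorm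
    set r2' := CoordinateRing.mk W.toAffine (C p + C q * (-X - C (C W.a₁ * X + C W.a₃))) with hr2''
    haveI : Module.Finite ℂ[X] R := Module.Finite.of_basis (CoordinateRing.basis W.toAffine)
    have hn0 : Algebra.norm ℂ[X] r2 ≠ 0 := by
      rw [Ne, Algebra.norm_eq_zero_iff]
      exact hr20
    obtain ⟨g1, g2, hg⟩ := hrep (r1 * r2')
    refine ⟨g1, g2, Algebra.norm ℂ[X] r2, hn0, ?_⟩
    rw [← hg, ← hxa]
    have hnorm' : algebraMap ℂ[X] R (Algebra.norm ℂ[X] r2) = r2 * r2' := hnorm
    rw [hnorm', map_mul, map_mul]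
    have : algebraMap R K r2 ≠ 0 := by
      rw [Ne, map_eq_zero_iff _ (IsFractionRing.injective R K)]
      exact hr20
    rw [div_mul_eq_mul_div, div_eq_iff this]
    ring
  have h2 : (algebraMap ℂ K (1/2)) * 2 = 1 := by
    have : (algebraMap ℂ K (1/2)) * (algebraMap ℂ K 2) = 1 := by
      rw [← map_mul]; norm_num
    rwa [map_ofNat] at this
  refine ⟨e2 - e1, e3 - e1, ?_, ?_, ?_, x - algebraMap ℂ K e1,
    y + algebraMap ℂ K (1/2) * (algebraMap ℂ K W.a₁ * x + algebraMap ℂ K W.a₃), ?_⟩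
  · exact sub_ne_zero.mpr hne.1.symm
  · exact sub_ne_zero.mpr hne.2.1.symm
  · intro h
    exact hne.2.2 (by linear_combination h)
  have hcomp : ∀ g : ℂ[X], aeval x g = aeval (x - algebraMap ℂ K e1) (g.comp (X + C e1)) := by
    intro g
    rw [aeval_comp]
    simp
  refine ⟨?_, ?_, ?_⟩
  · rw [transcendental_iff]
    intro p hp
    have h1 : aeval x (p.comp (X - C e1)) = 0 := by
      rw [aeval_comp]
      simpa using hp
    have h2 := htr _ h1
    have h3 : (p.comp (X - C e1)).comp (X + C e1) = 0 := by rw [h2, zero_comp]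
    rw [comp_assoc] at h3
    simpa using h3
  · have hb' := congrArg (algebraMap ℂ K) hb
    have hc' := congrArg (algebraMap ℂ K) hc
    have hd' := congrArg (algebraMap ℂ K) hd
    simp only [b₂, b₄, b₆, map_mul, map_add, map_sub, map_neg, map_pow, map_ofNat] at hb' hc' hd' ⊢
    set t := algebraMap ℂ K (1/2) with ht
    have ht4 : t ^ 2 * 4 = 1 := by linear_combination (t * 2 + 1) * h2
    linear_combination heq + (algebraMap ℂ K W.a₁ * x + algebraMap ℂ K W.a₃) * y * h2 +
      t ^ 2 * x ^ 2 * hb' + t ^ 2 * x * hc' + t ^ 2 * hd' -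
      ((algebraMap ℂ K W.a₂ + (algebraMap ℂ K e1 + algebraMap ℂ K e2 + algebraMap ℂ K e3)) * x ^ 2 +
      (algebraMap ℂ K W.a₄ - (algebraMap ℂ K e1 * algebraMap ℂ K e2 +
        algebraMap ℂ K e1 * algebraMap ℂ K e3 + algebraMap ℂ K e2 * algebraMap ℂ K e3)) * x +
      (algebraMap ℂ K W.a₆ + algebraMap ℂ K e1 * algebraMap ℂ K e2 * algebraMap ℂ K e3)) * ht4
  · intro f
    obtain ⟨g1, g2, g3, hg3, hf⟩ := hgen f
    refine ⟨g1.comp (X + C e1) - g2.comp (X + C e1) * (C (1/2) * (C W.a₁ * (X + C e1) + C W.a₃)),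
      g2.comp (X + C e1), g3.comp (X + C e1), ?_, ?_⟩
    · intro h0
      apply hg3
      have h3 : (g3.comp (X + C e1)).comp (X - C e1) = 0 := by rw [h0, zero_comp]
      rw [comp_assoc] at h3
      simpa using h3
    · rw [map_sub, map_mul, ← hcomp, ← hcomp, ← hcomp, hf]
      simp only [map_mul, map_add, aeval_X, aeval_C]
      ring

end Pool.Agent.Helper67
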