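import Mathlib
import Pool.Agent.Helper67.LegW

set_option autoImplicit false

namespace Pool.Agent.Helper67

open Polynomial

theorem ratFunc_hom_ext {K : Type} [Field K] [Algebra ℂ K] (f g : RatFunc ℂ →ₐ[ℂ] K)
    (h : f RatFunc.X = g RatFunc.X) : f = g := by
  apply AlgHom.ext
  intro r
  have hp : ∀ p : ℂ[X], f (algebraMap ℂ[X] (RatFunc ℂ) p) = g (algebraMap ℂ[X] (RatFunc ℂ) p) := by
    intro p
    rw [hom_aeval, hom_aeval, h]
  induction r using RatFunc.induction_on with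
  | f p q hq => rw [map_div₀, map_div₀, hp, hp]

/-- General form of the obstruction. -/
theorem no_semiconj_general {K : Type} [Field K] [Algebra ℂ K] (θ0 : RatFunc ℂ →ₐ[ℂ] K)
    (halg0 : @Algebra.IsAlgebraic (RatFunc ℂ) K _ _ θ0.toRingHom.toAlgebra)
    (φ : RatFunc ℂ →ₐ[ℂ] RatFunc ℂ)
    (hφ : φ RatFunc.X * algebraMap ℂ[X] (RatFunc ℂ) nQ = algebraMap ℂ[X] (RatFunc ℂ) nP)
    (θ : RatFunc ℂ →ₐ[ℂ] K) (L : K →ₐ[ℂ] K) (hL : L.comp θ = θ.comp φ)
    (D : Derivation ℂ K K) (hD : D (θ0 RatFunc.X) ≠ 0) (c : ℂ)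
    (hc : D (L (θ0 RatFunc.X)) = algebraMap ℂ K c * L (D (θ0 RatFunc.X))) : False := by
  have hcomm : ∀ f, D (L f) = algebraMap ℂ K c * L (D f) := by
    letI : Algebra (RatFunc ℂ) K := θ0.toRingHom.toAlgebra
    haveI : IsScalarTower ℂ (RatFunc ℂ) K := IsScalarTower.of_algebraMap_eq fun c => by
      exact (θ0.commutes c).symm
    haveI := halg0
    intro f
    have := twisted_derivation_eq_zero L (fun f => D (L f) - algebraMap ℂ K c * L (D f))
      (by intro a b; simp only [map_add]; ring)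
      (by intro a b; simp only [map_mul, map_add, D.leibniz, smul_eq_mul]; ring)
      (by intro a; simp)
      (by
        have e : (algebraMap (RatFunc ℂ) K) RatFunc.X = θ0 RatFunc.X := rfl
        rw [e, hc, sub_self]) f
    exact sub_eq_zero.mp this
  have hu := hom_transcendental θ
  have halgu : ∀ f : K, ∃ p : Polynomial (Polynomial ℂ), p ≠ 0 ∧
      p.eval₂ ((aeval (θ RatFunc.X) : ℂ[X] →ₐ[ℂ] K) : ℂ[X] →+* K) f = 0 := by
    letI : Algebra (RatFunc ℂ) K := θ0.toRingHom.toAlgebra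
    haveI : IsScalarTower ℂ (RatFunc ℂ) K := IsScalarTower.of_algebraMap_eq fun c => by
      exact (θ0.commutes c).symm
    haveI := halg0
    exact halg_of_transcendental hu
  have hDu : D (θ RatFunc.X) ≠ 0 := by
    intro h0
    have halg1 := isAlgebraic_of_halg θ halgu
    letI : Algebra (RatFunc ℂ) K := θ.toRingHom.toAlgebra
    haveI : IsScalarTower ℂ (RatFunc ℂ) K := IsScalarTower.of_algebraMap_eq fun c => by
      exact (θ.commutes c).symm
    haveI := halg1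
    have := twisted_derivation_eq_zero (AlgHom.id ℂ K) (fun f => D f)
      (by intro a b; simp only [map_add])
      (by intro a b; simp only [D.leibniz, smul_eq_mul, AlgHom.id_apply])
      (by intro a; simp)
      h0 (θ0 RatFunc.X)
    exact hD this
  have hLu : L (θ RatFunc.X) * aeval (θ RatFunc.X) nQ = aeval (θ RatFunc.X) nP := by
    have h1 : L (θ RatFunc.X) = θ (φ RatFunc.X) := DFunLike.congr_fun hL RatFunc.X
    rw [h1, ← hom_aeval, ← hom_aeval, ← map_mul, hφ]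
  exact main_contradiction hu hLu hcomm hDu halgu

theorem exists_euler : ∃ D : Derivation ℂ (RatFunc ℂ) (RatFunc ℂ), D RatFunc.X = RatFunc.X := by
  obtain ⟨D, hD⟩ := exists_derivation (K := RatFunc ℂ) RatFunc.X
  exact ⟨D, by simpa using hD⟩

theorem isAlgebraic_id : @Algebra.IsAlgebraic (RatFunc ℂ) (RatFunc ℂ) _ _
    (AlgHom.id ℂ (RatFunc ℂ)).toRingHom.toAlgebra := by
  letI : Algebra (RatFunc ℂ) (RatFunc ℂ) := (AlgHom.id ℂ (RatFunc ℂ)).toRingHom.toAlgebra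
  refine ⟨fun f => ?_⟩
  exact isAlgebraic_algebraMap (R := RatFunc ℂ) (A := RatFunc ℂ) f

/-- A is not conjugate to a power map. -/
theorem no_power (φ : RatFunc ℂ →ₐ[ℂ] RatFunc ℂ)
    (hφ : φ RatFunc.X * algebraMap ℂ[X] (RatFunc ℂ) nQ = algebraMap ℂ[X] (RatFunc ℂ) nP)
    (θ : RatFunc ℂ →ₐ[ℂ] RatFunc ℂ) (ψ : RatFunc ℂ →ₐ[ℂ] RatFunc ℂ)
    (h : ψ.comp θ = θ.comp φ) (n : ℤ) (s : ℂ)
    (hn : ψ RatFunc.X = algebraMap ℂ (RatFunc ℂ) s * RatFunc.X ^ n) : False := by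
  obtain ⟨D, hD⟩ := exists_euler
  refine no_semiconj_general (AlgHom.id ℂ (RatFunc ℂ)) isAlgebraic_id φ hφ θ ψ h D ?_ (n : ℂ) ?_
  · rw [AlgHom.id_apply, hD]
    exact RatFunc.X_ne_zero
  · rw [AlgHom.id_apply, hD, hn, D.leibniz, Derivation.leibniz_zpow, hD]
    simp only [Derivation.map_algebraMap, smul_zero, add_zero, smul_eq_mul, zsmul_eq_mul]
    have : (RatFunc.X : RatFunc ℂ) ^ (n - 1) * RatFunc.X = RatFunc.X ^ n := by
      rw [← zpow_add_one₀ RatFunc.X_ne_zero]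
      congr 1
      ring
    rw [this]
    simp
    ring

theorem cheb_identity {K : Type} [Field K] [Algebra ℂ K] (t : K) (ht : t ≠ 0) (n : ℕ) :
    2 * aeval (algebraMap ℂ K (1/2) * (t + t⁻¹)) (Chebyshev.T ℂ n) = t ^ n + (t⁻¹) ^ n := by
  have h2 : 2 * (algebraMap ℂ K (1/2)) = 1 := by
    have : (algebraMap ℂ K 2) * (algebraMap ℂ K (1/2)) = 1 := by
      rw [← map_mul]; norm_num
    rwa [map_ofNat] at this
  induction n using Nat.twoStepInduction with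
  | zero => simp; norm_num
  | one =>
    simp only [Nat.cast_one, Chebyshev.T_one, aeval_X, pow_one]
    rw [← mul_assoc, h2, one_mul]
  | more n ih1 ih2 =>
    have h1 : Chebyshev.T ℂ ((n + 2 : ℕ) : ℤ) = 2 * X * Chebyshev.T ℂ ((n + 1 : ℕ) : ℤ) -
        Chebyshev.T ℂ (n : ℤ) := by
      push_cast
      exact Chebyshev.T_add_two ℂ n
    rw [h1]
    simp only [map_sub, map_mul, aeval_X, map_ofNat]
    have h3 : t * t⁻¹ = 1 := mul_inv_cancel₀ ht
    linear_combination (t + t⁻¹) * ih2 - ih1 + (t + t⁻¹) * 2 *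
      (aeval (algebraMap ℂ K (1/2) * (t + t⁻¹)) (Chebyshev.T ℂ ((n + 1 : ℕ) : ℤ))) * h2 +
      (t ^ n + (t⁻¹) ^ n) * h3

theorem cheb_identity_int {K : Type} [Field K] [Algebra ℂ K] (t : K) (ht : t ≠ 0) (n : ℤ) :
    2 * aeval (algebraMap ℂ K (1/2) * (t + t⁻¹)) (Chebyshev.T ℂ n) = t ^ n + (t ^ n)⁻¹ := by
  obtain ⟨m, rfl | rfl⟩ := n.eq_nat_or_neg
  · rw [cheb_identity t ht, inv_pow, zpow_natCast]
  · rw [Chebyshev.T_neg, cheb_identity t ht, inv_pow, zpow_neg, zpow_natCast, inv_inv, add_comm]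

/-- A is not conjugate to a Chebyshev map up to sign. -/
theorem no_cheb (φ : RatFunc ℂ →ₐ[ℂ] RatFunc ℂ)
    (hφ : φ RatFunc.X * algebraMap ℂ[X] (RatFunc ℂ) nQ = algebraMap ℂ[X] (RatFunc ℂ) nP)
    (θ : RatFunc ℂ →ₐ[ℂ] RatFunc ℂ) (ψ : RatFunc ℂ →ₐ[ℂ] RatFunc ℂ)
    (h : ψ.comp θ = θ.comp φ) (n : ℤ) (s : ℂ) (hs : s ^ 2 = 1)
    (hn : ψ RatFunc.X = algebraMap ℂ (RatFunc ℂ) s *
      algebraMap ℂ[X] (RatFunc ℂ) (Chebyshev.T ℂ n)) : False := by
  have hX0 : (RatFunc.X : RatFunc ℂ) ≠ 0 := RatFunc.X_ne_zero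
  have hXtr : Transcendental ℂ (RatFunc.X : RatFunc ℂ) := by
    have := hom_transcendental (AlgHom.id ℂ (RatFunc ℂ))
    simpa using this
  have hs0 : s ≠ 0 := by
    rintro rfl
    norm_num at hs
  have hn0 : n ≠ 0 := by
    rintro rfl
    have h1 := hom_transcendental ψ
    rw [hn] at h1
    apply h1
    simp only [Chebyshev.T_zero, map_one, mul_one]
    exact isAlgebraic_algebraMap s
  -- the map kappa
  have hκtr : Transcendental ℂ (algebraMap ℂ (RatFunc ℂ) (1/2) *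
      (RatFunc.X + (RatFunc.X)⁻¹ : RatFunc ℂ)) := by
    apply RatFunc.transcendental_of_ne_C
    rintro ⟨c, hc⟩
    apply hXtr
    refine ⟨X ^ 2 - C (2 * c) * X + 1, ?_, ?_⟩
    · intro h0
      have := congrArg (fun p => coeff p 2) h0
      simp [coeff_one, coeff_X] at this
    · have h2 : (algebraMap ℂ (RatFunc ℂ) (1/2)) * 2 = 1 := by
        have : (algebraMap ℂ (RatFunc ℂ) (1/2)) * (algebraMap ℂ (RatFunc ℂ) 2) = 1 := by
          rw [← map_mul]; norm_num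
        rwa [map_ofNat] at this
      have hc' : algebraMap ℂ (RatFunc ℂ) (1/2) * (RatFunc.X + (RatFunc.X)⁻¹ : RatFunc ℂ) =
          algebraMap ℂ (RatFunc ℂ) c := hc
      simp only [map_add, map_sub, map_mul, map_pow, aeval_X, aeval_C, map_one, map_ofNat]
      have h3 : (RatFunc.X : RatFunc ℂ) * (RatFunc.X)⁻¹ = 1 := mul_inv_cancel₀ hX0
      linear_combination (2 * RatFunc.X) * hc' -
        (RatFunc.X) * (RatFunc.X + (RatFunc.X)⁻¹) * h2 - h3
  obtain ⟨κ, hκ⟩ := exists_ratFunc_hom hκtr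
  -- the map L
  have hLtr : Transcendental ℂ (algebraMap ℂ (RatFunc ℂ) s * (RatFunc.X : RatFunc ℂ) ^ n) := by
    intro halg
    have h1 : IsAlgebraic ℂ ((RatFunc.X : RatFunc ℂ) ^ n) := by
      have h2 : (RatFunc.X : RatFunc ℂ) ^ n = algebraMap ℂ (RatFunc ℂ) s⁻¹ *
          (algebraMap ℂ (RatFunc ℂ) s * (RatFunc.X : RatFunc ℂ) ^ n) := by
        rw [← mul_assoc, ← map_mul, inv_mul_cancel₀ hs0, map_one, one_mul]
      rw [h2]
      exact (isAlgebraic_algebraMap _).mul halg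
    rcases Int.natAbs_eq n with h3 | h3
    · rw [h3, zpow_natCast] at h1
      exact hXtr (h1.of_pow (Int.natAbs_pos.mpr hn0))
    · rw [h3, zpow_neg, zpow_natCast] at h1
      have h4 := h1.inv
      rw [inv_inv] at h4
      exact hXtr (h4.of_pow (Int.natAbs_pos.mpr hn0))
  obtain ⟨L, hL⟩ := exists_ratFunc_hom hLtr
  have hcomm : L.comp κ = κ.comp ψ := by
    apply ratFunc_hom_ext
    rw [AlgHom.comp_apply, AlgHom.comp_apply, hκ, hn, map_mul, map_mul, map_add, map_inv₀,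
      AlgHom.commutes, AlgHom.commutes, hL, hom_aeval, hκ]
    have h1 := cheb_identity_int (RatFunc.X : RatFunc ℂ) hX0 n
    have h2 : (algebraMap ℂ (RatFunc ℂ) (1/2)) * 2 = 1 := by
      have : (algebraMap ℂ (RatFunc ℂ) (1/2)) * (algebraMap ℂ (RatFunc ℂ) 2) = 1 := by
        rw [← map_mul]; norm_num
      rwa [map_ofNat] at this
    have hsinv : (algebraMap ℂ (RatFunc ℂ) s)⁻¹ = algebraMap ℂ (RatFunc ℂ) s := by
      rw [← map_inv₀]
      congr 1
      field_simp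
      exact hs.symm
    rw [mul_inv, hsinv]
    linear_combination (-(algebraMap ℂ (RatFunc ℂ) s) * (algebraMap ℂ (RatFunc ℂ) (1/2))) * h1 +
      (algebraMap ℂ (RatFunc ℂ) s) * aeval (algebraMap ℂ (RatFunc ℂ) (1/2) *
      (RatFunc.X + (RatFunc.X)⁻¹ : RatFunc ℂ)) (Chebyshev.T ℂ n) * h2
  refine no_power φ hφ (κ.comp θ) L ?_ n s hL
  rw [← AlgHom.comp_assoc, hcomm, AlgHom.comp_assoc, h, ← AlgHom.comp_assoc]

/-- A is not special. -/
theorem not_special (φ : RatFunc ℂ →ₐ[ℂ] RatFunc ℂ)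
    (hφ : φ RatFunc.X * algebraMap ℂ[X] (RatFunc ℂ) nQ = algebraMap ℂ[X] (RatFunc ℂ) nP) :
    ¬ ((∃ W : WeierstrassCurve ℂ, W.IsElliptic ∧
          ∃ (θ : RatFunc ℂ →ₐ[ℂ] W.toAffine.FunctionField)
            (L : W.toAffine.FunctionField →ₐ[ℂ] W.toAffine.FunctionField),
            L.comp θ = θ.comp φ) ∨
       (∃ (σ : RatFunc ℂ ≃ₐ[ℂ] RatFunc ℂ) (ψ : RatFunc ℂ →ₐ[ℂ] RatFunc ℂ),
          σ.toAlgHom.comp φ = ψ.comp σ.toAlgHom ∧
          ((∃ n : ℤ, ψ RatFunc.X = RatFunc.X ^ n) ∨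
           (∃ (n : ℤ) (s : ℂ), s ^ 2 = 1 ∧
              ψ RatFunc.X = algebraMap ℂ (RatFunc ℂ) s *
                algebraMap (Polynomial ℂ) (RatFunc ℂ) (Polynomial.Chebyshev.T ℂ n))))) := by
  rintro (⟨W, hW, θ, L, hL⟩ | ⟨σ, ψ, hσ, ⟨n, hn⟩ | ⟨n, s, hs, hn⟩⟩)
  · obtain ⟨α, β, hα, hβ, hαβ, ξ, η, h⟩ := exists_isLeg W hW
    exact h.no_semiconj hα hβ hαβ φ hφ θ L hL
  · exact no_power φ hφ σ.toAlgHom ψ hσ.symm n 1 (by rw [hn]; simp)
  · exact no_cheb φ hφ σ.toAlgHom ψ hσ.symm n s hs hn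

end Pool.Agent.Helper67
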