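import Mathlib
import Pool.Agent.Helper67.NoPow

set_option autoImplicit false

namespace Pool.Agent.Helper67

open Polynomial IntermediateField

theorem exists_tau (φ : RatFunc ℂ →ₐ[ℂ] RatFunc ℂ) (P F : RatFunc ℂ)
    (ψ : RatFunc ℂ →ₐ[ℂ] RatFunc ℂ) (hψ : ψ RatFunc.X = P) (hPF : φ P = ψ F)
    (E : IntermediateField ℂ (RatFunc ℂ)) (hE : E = IntermediateField.adjoin ℂ {P})
    (hgal : IsGalois E (RatFunc ℂ)) (σ : RatFunc ℂ ≃ₐ[E] RatFunc ℂ) :
    ∃ τ : RatFunc ℂ ≃ₐ[E] RatFunc ℂ, σ (φ RatFunc.X) = φ (τ RatFunc.X) := by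
  -- φ maps E into E
  have hψE : ∀ f : RatFunc ℂ, ψ f ∈ E := by
    intro f
    have h1 : IntermediateField.adjoin ℂ {(RatFunc.X : RatFunc ℂ)} ≤ E.comap ψ := by
      rw [IntermediateField.adjoin_le_iff]
      rintro x rfl
      show ψ RatFunc.X ∈ E
      rw [hψ, hE]
      exact IntermediateField.mem_adjoin_simple_self ℂ P
    rw [RatFunc.adjoin_X] at h1
    exact h1 (x := f) trivial
  have hφE : ∀ f ∈ E, φ f ∈ E := by
    have h1 : E ≤ E.comap φ := by
      have h2 : IntermediateField.adjoin ℂ {P} ≤ E.comap φ := by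
        rw [IntermediateField.adjoin_le_iff]
        rintro x rfl
        show φ x ∈ E
        rw [hPF]
        exact hψE F
      exact hE.le.trans h2
    intro f hf
    exact h1 hf
  let φE : E →+* E :=
    { toFun := fun f => ⟨φ f, hφE f f.2⟩
      map_one' := Subtype.ext (by simp)
      map_mul' := fun a b => Subtype.ext (by simp)
      map_zero' := Subtype.ext (by simp)
      map_add' := fun a b => Subtype.ext (by simp) }
  have hcomp : (algebraMap E (RatFunc ℂ)).comp φE = (φ : RatFunc ℂ →+* RatFunc ℂ).comp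
      (algebraMap E (RatFunc ℂ)) := by
    apply RingHom.ext
    intro x
    rfl
  have hint : IsIntegral E (RatFunc.X : RatFunc ℂ) := Algebra.IsIntegral.isIntegral _
  set m := minpoly E (RatFunc.X : RatFunc ℂ) with hm
  have hsplit : (m.map (algebraMap E (RatFunc ℂ))).Splits := IsGalois.splits E (RatFunc.X : RatFunc ℂ)
  have hprod := hsplit.eq_prod_roots
  have hmonic : m.Monic := minpoly.monic hint
  have h0 : eval₂ (algebraMap E (RatFunc ℂ)) (σ (φ RatFunc.X)) (m.map φE) = 0 := by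
    have h1 : eval₂ (algebraMap E (RatFunc ℂ)) (φ RatFunc.X) (m.map φE) = 0 := by
      rw [eval₂_map, hcomp]
      have h2 := Polynomial.hom_eval₂ m (algebraMap E (RatFunc ℂ)) (φ : RatFunc ℂ →+* RatFunc ℂ)
        RatFunc.X
      have h3 : eval₂ (algebraMap E (RatFunc ℂ)) RatFunc.X m = 0 := 
        minpoly.aeval E (RatFunc.X : RatFunc ℂ)
      rw [h3, map_zero] at h2
      exact h2.symm
    have h2 : aeval (σ (φ RatFunc.X)) (m.map φE) = σ (aeval (φ RatFunc.X) (m.map φE)) :=
      Polynomial.aeval_algHom_apply (σ : RatFunc ℂ →ₐ[E] RatFunc ℂ) (φ RatFunc.X) (m.map φE)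
    have h3 : aeval (φ RatFunc.X) (m.map φE) = 0 := h1
    rw [h3, map_zero] at h2
    exact h2
  rw [eval₂_map, hcomp, ← eval₂_map, ← eval_map, Polynomial.map_map, ← Polynomial.map_map] at h0
  rw [hprod] at h0
  have hlead : (m.map (algebraMap E (RatFunc ℂ))).leadingCoeff = 1 := (hmonic.map _).leadingCoeff
  rw [hlead, C_1, one_mul, Polynomial.map_multiset_prod, Multiset.map_map,
    Polynomial.eval_multiset_prod, Multiset.map_map] at h0
  rw [Multiset.prod_eq_zero_iff, Multiset.mem_map] at h0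
  obtain ⟨ρ, hρ, hρ0⟩ := h0
  simp only [Function.comp_apply, Polynomial.map_sub, map_X, map_C, eval_sub, eval_X, eval_C,
    RingHom.coe_coe] at hρ0
  have hroot : aeval ρ m = 0 := by
    have h1 := Polynomial.isRoot_of_mem_roots hρ
    rw [IsRoot.def, eval_map] at h1
    exact h1
  obtain ⟨τ, hτ⟩ := minpoly.exists_algEquiv_of_root' (K := E) (y := (RatFunc.X : RatFunc ℂ))
    (x := ρ) (Algebra.IsAlgebraic.isAlgebraic _) hroot
  refine ⟨τ, ?_⟩
  rw [hτ]
  exact sub_eq_zero.mp hρ0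

end Pool.Agent.Helper67
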