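import Mathlib
import Pool.Agent.Helper67.Symm

set_option autoImplicit false

namespace Pool.Agent.Helper67

open Polynomial IntermediateField

theorem triple_root (p q p' q' s t : ℂ) (hst : ¬ (s = 0 ∧ t = 0))
    (h : (C p * X + C q) ^ 3 * (C p' * X + C q') = C s * nP + C t * nQ) :
    p ≠ 0 ∧ p' ≠ 0 ∧ ((q = p ∧ q' = -p') ∨ (q = -2 * p ∧ q' = 2 * p')) := by
  have E : ∀ x : ℂ, (p * x + q) ^ 3 * (p' * x + q') = s * (x ^ 4 + 4 * x - 6) +
      t * (2 * x ^ 3 - 6 * x + 5) := by
    intro x
    have := congrArg (eval x) h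
    simpa [nP_eval, nQ_eval] using this
  have E0 := E 0
  have E1 := E 1
  have E1' := E (-1)
  have E2 := E 2
  have E2' := E (-2)
  have c4 : p ^ 3 * p' = s := by
    linear_combination (1/12) * ((E2 + E2') / 2 - 4 * ((E1 + E1') / 2) + 3 * E0)
  have c3 : 3 * p ^ 2 * q * p' + p ^ 3 * q' = 2 * t := by
    linear_combination (1/6) * ((E2 - E2') / 2 - (E1 - E1'))
  have c2 : 3 * p * q ^ 2 * p' + 3 * p ^ 2 * q * q' = 0 := by
    linear_combination (E1 + E1') / 2 - E0 - c4
  have c1 : q ^ 3 * p' + 3 * p * q ^ 2 * q' = 4 * s - 6 * t := by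
    linear_combination (E1 - E1') / 2 - c3
  have c0 : q ^ 3 * q' = -6 * s + 5 * t := by
    linear_combination E0
  have hp : p ≠ 0 := by
    rintro rfl
    apply hst
    constructor
    · linear_combination -c4
    · linear_combination (-1/2) * c3
  have hq : q ≠ 0 := by
    rintro rfl
    apply hst
    constructor
    · linear_combination (1/16) * (5 * c1 + 6 * c0)
    · linear_combination (1/16) * (6 * c1 + 4 * c0)
  have hqp : q * p' + p * q' = 0 := by
    have h1 : (3 * p * q) * (q * p' + p * q') = 0 := by linear_combination c2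
    rcases mul_eq_zero.mp h1 with h2 | h2
    · exfalso
      rcases mul_eq_zero.mp h2 with h3 | h3
      · rcases mul_eq_zero.mp h3 with h4 | h4
        · norm_num at h4
        · exact hp h4
      · exact hq h3
    · exact h2
  have hp' : p' ≠ 0 := by
    rintro rfl
    apply hst
    have h1 : q' = 0 := by
      have : p * q' = 0 := by linear_combination hqp
      exact (mul_eq_zero.mp this).resolve_left hp
    subst h1
    constructor
    · linear_combination -c4
    · linear_combination (-1/2) * c3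
  refine ⟨hp, hp', ?_⟩
  have ht : t = p ^ 2 * q * p' := by
    linear_combination (-1/2) * c3 + (1/2) * p ^ 2 * hqp
  have h5 : p' * ((q - p) ^ 2 * (q + 2 * p)) = 0 := by
    rw [ht, ← c4] at c1
    linear_combination (-1/2) * c1 + (3/2) * q ^ 2 * hqp
  have h6 := (mul_eq_zero.mp h5).resolve_left hp'
  rcases mul_eq_zero.mp h6 with h7 | h7
  · left
    have h8 : q = p := by
      have := pow_eq_zero_iff (two_ne_zero) |>.mp h7
      linear_combination this
    refine ⟨h8, ?_⟩
    subst h8
    apply mul_left_cancel₀ hq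
    linear_combination hqp
  · right
    have h8 : q = -2 * p := by linear_combination h7
    refine ⟨h8, ?_⟩
    subst h8
    apply mul_left_cancel₀ hp
    linear_combination hqp

/-- homogenised numerator -/
noncomputable def hP (l1 l2 : ℂ[X]) : ℂ[X] := l1 ^ 4 + 4 * l1 * l2 ^ 3 - 6 * l2 ^ 4

/-- homogenised denominator -/
noncomputable def hQ (l1 l2 : ℂ[X]) : ℂ[X] := 2 * l1 ^ 3 * l2 - 6 * l1 * l2 ^ 3 + 5 * l2 ^ 4

theorem coprime_of_no_common_root {p q : ℂ[X]} (h : ∀ r : ℂ, p.eval r = 0 → q.eval r = 0 → False) :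
    IsCoprime p q := by
  rw [Polynomial.isCoprime_iff_aeval_ne_zero_of_isAlgClosed ℂ ℂ]
  intro a
  by_contra hcon
  push Not at hcon
  refine h a ?_ ?_
  · simpa using hcon.1
  · simpa using hcon.2

theorem no_common_root_of_coprime {p q : ℂ[X]} (h : IsCoprime p q) (r : ℂ) (h1 : p.eval r = 0)
    (h2 : q.eval r = 0) : False := by
  obtain ⟨a, b, hab⟩ := h
  have := congrArg (eval r) hab
  simp [h1, h2] at this

theorem coprime_hPQ {l1 l2 : ℂ[X]} (h : IsCoprime l1 l2) : IsCoprime (hP l1 l2) (hQ l1 l2) := by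
  apply coprime_of_no_common_root
  intro r h1 h2
  simp only [hP, hQ, eval_sub, eval_add, eval_mul, eval_pow, eval_ofNat] at h1 h2
  by_cases hl : l2.eval r = 0
  · rw [hl] at h1
    have h3 : (l1.eval r) ^ 4 = 0 := by linear_combination h1
    exact no_common_root_of_coprime h r (pow_eq_zero_iff (by norm_num) |>.mp h3) hl
  · refine coprime_cert (l1.eval r / l2.eval r) ?_ ?_
    · rw [nP_eval]
      field_simp
      linear_combination h1
    · rw [nQ_eval]
      field_simp
      have h4 : l2.eval r * (2 * (l1.eval r) ^ 3 - 6 * (l1.eval r) * (l2.eval r) ^ 2 +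
          5 * (l2.eval r) ^ 3) = 0 := by linear_combination h2
      have h5 := (mul_eq_zero.mp h4).resolve_left hl
      linear_combination h5

/-- a rational function of degree one -/
theorem deg_one_form (u : RatFunc ℂ)
    (hu : Module.finrank (IntermediateField.adjoin ℂ ({u} : Set (RatFunc ℂ))) (RatFunc ℂ) = 1) :
    ∃ a b c d : ℂ, IsCoprime (C a * X + C b : ℂ[X]) (C c * X + C d) ∧ ¬ (a = 0 ∧ c = 0) ∧
      (C c * X + C d : ℂ[X]) ≠ 0 ∧
      u * algebraMap ℂ[X] (RatFunc ℂ) (C c * X + C d) =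
        algebraMap ℂ[X] (RatFunc ℂ) (C a * X + C b) := by
  rw [RatFunc.finrank_eq_max_natDegree] at hu
  obtain ⟨a, b, hab⟩ := exists_eq_X_add_C_of_natDegree_le_one
    (p := u.num) ((le_max_left _ _).trans hu.le)
  obtain ⟨c, d, hcd⟩ := exists_eq_X_add_C_of_natDegree_le_one
    (p := u.denom) ((le_max_right _ _).trans hu.le)
  refine ⟨a, b, c, d, ?_, ?_, ?_, ?_⟩
  · rw [← hab, ← hcd]
    exact RatFunc.isCoprime_num_denom u
  · rintro ⟨rfl, rfl⟩
    rw [hab, hcd] at hu
    simp at hu
  · rw [← hcd]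
    exact u.denom_ne_zero
  · rw [← hab, ← hcd]
    have h1 := RatFunc.num_div_denom u
    have h2 : algebraMap ℂ[X] (RatFunc ℂ) u.denom ≠ 0 :=
      RatFunc.algebraMap_ne_zero u.denom_ne_zero
    rw [div_eq_iff h2] at h1
    exact h1.symm

theorem pencil {l1 l2 V1 V2 : ℂ[X]} (hl : IsCoprime l1 l2) (hV : IsCoprime V1 V2) (hV1 : V1 ≠ 0)
    (h : hP l1 l2 * V2 = hQ l1 l2 * V1) :
    ∃ k : ℂ, k ≠ 0 ∧ hP l1 l2 = C k * V1 ∧ hQ l1 l2 = C k * V2 := by
  have h1 : V1 ∣ hP l1 l2 := hV.dvd_of_dvd_mul_right ⟨hQ l1 l2, by rw [h]; ring⟩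
  obtain ⟨k, hk⟩ := h1
  have h2 : hQ l1 l2 = k * V2 := by
    apply mul_left_cancel₀ hV1
    rw [hk] at h
    linear_combination -h
  have hku : IsUnit k := by
    obtain ⟨a, b, hab⟩ := coprime_hPQ hl
    rw [hk, h2] at hab
    exact IsUnit.of_mul_eq_one (a * V1 + b * V2) (by linear_combination hab)
  obtain ⟨c, hc, rfl⟩ := Polynomial.isUnit_iff.mp hku
  exact ⟨c, hc.ne_zero, by rw [hk]; ring, h2⟩

theorem nP_nQ_indep {s t : ℂ} (h : C s * nP + C t * nQ = 0) : s = 0 ∧ t = 0 := by
  have E : ∀ x : ℂ, s * (x ^ 4 + 4 * x - 6) + t * (2 * x ^ 3 - 6 * x + 5) = 0 := by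
    intro x
    have := congrArg (eval x) h
    simpa [nP_eval, nQ_eval] using this
  have E0 := E 0
  have E1 := E 1
  constructor
  · linear_combination -(E0 - 5 * E1)
  · linear_combination 6 * E1 - E0

/-- The only degree one `σ`, `τ` with `σ ∘ φ = φ ∘ τ` have `σ X = X` or `σ X = - 2 / X`. -/
theorem mobius_cases (φ : RatFunc ℂ →ₐ[ℂ] RatFunc ℂ)
    (hφ : φ RatFunc.X * algebraMap ℂ[X] (RatFunc ℂ) nQ = algebraMap ℂ[X] (RatFunc ℂ) nP)
    (σ τ : RatFunc ℂ →ₐ[ℂ] RatFunc ℂ)
    (hσ : Module.finrank (IntermediateField.adjoin ℂ ({σ RatFunc.X} : Set (RatFunc ℂ)))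
      (RatFunc ℂ) = 1)
    (hτ : Module.finrank (IntermediateField.adjoin ℂ ({τ RatFunc.X} : Set (RatFunc ℂ)))
      (RatFunc ℂ) = 1)
    (h : σ (φ RatFunc.X) = φ (τ RatFunc.X)) :
    σ RatFunc.X = RatFunc.X ∨ σ RatFunc.X * RatFunc.X = -2 := by
  obtain ⟨a, b, c, d, hcop, hdeg, hl20, hu⟩ := deg_one_form _ hσ
  obtain ⟨a', b', c', d', hcop', hdeg', hm20, hw⟩ := deg_one_form _ hτ
  set u := σ RatFunc.X with hudef
  set w := τ RatFunc.X with hwdef
  set l1 : ℂ[X] := C a * X + C b with hl1
  set l2 : ℂ[X] := C c * X + C d with hl2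
  set i := algebraMap ℂ[X] (RatFunc ℂ) with hi
  have hiinj : Function.Injective i := RatFunc.algebraMap_injective ℂ
  have hL2 : i l2 ≠ 0 := by
    rw [Ne, map_eq_zero_iff i hiinj]; exact hl20
  have hu' : u = i l1 / i l2 := by
    rw [eq_div_iff hL2]; exact hu
  set V1 : ℂ[X] := C a' * nP + C b' * nQ with hV1
  set V2 : ℂ[X] := C c' * nP + C d' * nQ with hV2
  -- the images
  have e1 : σ (φ RatFunc.X) * i (hQ l1 l2) = i (hP l1 l2) := by
    have h1 := congrArg σ hφ
    rw [map_mul, hom_aeval, hom_aeval, ← hudef] at h1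
    have h2 : aeval u nQ * (i l2) ^ 4 = i (hQ l1 l2) := by
      rw [hu', hQ, nQ]
      simp only [map_add, map_sub, map_mul, map_pow, aeval_X, map_ofNat]
      field_simp
    have h3 : aeval u nP * (i l2) ^ 4 = i (hP l1 l2) := by
      rw [hu', hP, nP]
      simp only [map_add, map_sub, map_mul, map_pow, aeval_X, map_ofNat]
      field_simp
    rw [← h2, ← h3, ← h1]
    ring
  have e2 : φ w * i V2 = i V1 := by
    have h1 := congrArg φ hw
    rw [map_mul, hom_aeval, hom_aeval] at h1
    simp only [map_add, map_mul, aeval_X, aeval_C] at h1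
    rw [hV1, hV2]
    simp only [map_add, map_mul]
    have hCc : ∀ z : ℂ, i (C z) = algebraMap ℂ (RatFunc ℂ) z := by
      intro z
      exact (RatFunc.algebraMap_C z)
    rw [hCc, hCc, hCc, hCc, ← hφ]
    linear_combination (i nQ) * h1
  have hV2ne : V2 ≠ 0 := by
    intro h0
    obtain ⟨h1, h2⟩ := nP_nQ_indep h0
    apply hm20
    rw [h1, h2]; simp
  have hV1ne : V1 ≠ 0 := by
    intro h0
    obtain ⟨h1, h2⟩ := nP_nQ_indep h0
    rw [h1, h2] at hcop'
    simp only [C_0, zero_mul, add_zero] at hcop'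
    rw [isCoprime_zero_left, Polynomial.isUnit_iff] at hcop'
    obtain ⟨r, -, hr⟩ := hcop'
    have h3 := congrArg (fun p => coeff p 1) hr
    simp only [coeff_C_mul, coeff_X_one, coeff_add, coeff_C, mul_one] at h3
    apply hdeg'
    refine ⟨h1, ?_⟩
    simpa using h3.symm
  have hVcop : IsCoprime V1 V2 := by
    apply coprime_of_no_common_root
    intro r h1 h2
    simp only [hV1, hV2, eval_add, eval_mul, eval_C] at h1 h2
    by_cases hQr : nQ.eval r = 0
    · have hPr : nP.eval r ≠ 0 := fun h0 => coprime_cert r h0 hQr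
      rw [hQr, mul_zero, add_zero] at h1 h2
      exact hdeg' ⟨(mul_eq_zero.mp h1).resolve_right hPr, (mul_eq_zero.mp h2).resolve_right hPr⟩
    · refine no_common_root_of_coprime hcop' (nP.eval r / nQ.eval r) ?_ ?_
      · simp only [eval_add, eval_mul, eval_C, eval_X]
        field_simp
        linear_combination h1
      · simp only [eval_add, eval_mul, eval_C, eval_X]
        field_simp
        linear_combination h2
  have hrel : hP l1 l2 * V2 = hQ l1 l2 * V1 := by
    apply hiinj
    rw [map_mul, map_mul, ← e1, ← e2, h]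
    ring
  obtain ⟨k, hk0, hk1, hk2⟩ := pencil hcop hVcop hV1ne hrel
  -- the two members of the pencil
  have m1 : (C (a - 2 * c) * X + C (b - 2 * d)) ^ 3 * (C (a + 2 * c) * X + C (b + 2 * d)) =
      C (k * (a' - 2 * c')) * nP + C (k * (b' - 2 * d')) * nQ := by
    have h1 : hP l1 l2 - 2 * hQ l1 l2 = (l1 - 2 * l2) ^ 3 * (l1 + 2 * l2) := by
      rw [hP, hQ]; ring
    rw [hk1, hk2, hV1, hV2, hl1, hl2] at h1
    simp only [C_sub, C_add, C_mul, map_ofNat] at h1 ⊢
    linear_combination -h1
  have m2 : (C (a + c) * X + C (b + d)) ^ 3 * (C (a - c) * X + C (b - d)) =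
      C (k * (a' + c')) * nP + C (k * (b' + d')) * nQ := by
    have h1 : hP l1 l2 + hQ l1 l2 = (l1 + l2) ^ 3 * (l1 - l2) := by
      rw [hP, hQ]; ring
    rw [hk1, hk2, hV1, hV2, hl1, hl2] at h1
    simp only [C_sub, C_add, C_mul] at h1 ⊢
    linear_combination -h1
  have hdet : ∀ z : ℂ, ¬ (k * (a' - z * c') = 0 ∧ k * (b' - z * d') = 0) := by
    rintro z ⟨h1, h2⟩
    have h3 := (mul_eq_zero.mp h1).resolve_left hk0
    have h4 := (mul_eq_zero.mp h2).resolve_left hk0
    have h5 : V1 = C z * V2 := by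
      rw [hV1, hV2]
      have e3 : a' = z * c' := by linear_combination h3
      have e4 : b' = z * d' := by linear_combination h4
      rw [e3, e4]
      simp only [C_mul]
      ring
    have h6 : IsUnit V2 := by
      obtain ⟨x, y, hxy⟩ := hVcop
      rw [h5] at hxy
      exact IsUnit.of_mul_eq_one (x * C z + y) (by linear_combination hxy)
    rw [Polynomial.isUnit_iff] at h6
    obtain ⟨r, -, hr⟩ := h6
    have h7 : C c' * nP + C d' * nQ = C r := by rw [hr]
    have hev : ∀ x : ℂ, c' * (x ^ 4 + 4 * x - 6) + d' * (2 * x ^ 3 - 6 * x + 5) = r := by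
      intro x
      have := congrArg (eval x) h7
      simpa [nP_eval, nQ_eval] using this
    have E0 := hev 0
    have E1 := hev 1
    have E1' := hev (-1)
    have E2 := hev 2
    have hc' : c' = 0 := by
      linear_combination (1/2) * (E1 + E1') - E0
    have hd' : d' = 0 := by
      linear_combination (-1/8) * (E1 - E1') + hc'
    apply hm20
    rw [hc', hd']; simp
  obtain ⟨p1, p1', hcase1⟩ := triple_root _ _ _ _ _ _ (hdet 2) m1
  obtain ⟨p2, p2', hcase2⟩ := triple_root _ _ _ _ _ _ (by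
    have := hdet (-1)
    intro h0
    apply this
    refine ⟨?_, ?_⟩
    · linear_combination h0.1
    · linear_combination h0.2) m2
  rcases hcase1 with ⟨h1, h2⟩ | ⟨h1, h2⟩
  · rcases hcase2 with ⟨h3, h4⟩ | ⟨h3, h4⟩
    · -- b = -2c, d = -a/2 ; b = c, d = a
      exfalso
      have hb1 : b = -2 * c := by linear_combination (1/2) * (h1 + h2)
      have hb2 : b = c := by linear_combination (1/2) * (h3 + h4)
      have hc0 : c = 0 := by linear_combination (1/3) * (hb1 - hb2)
      have hd1 : d = -a / 2 := by linear_combination (1/4) * (h2 - h1)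
      have hd2 : d = a := by linear_combination (1/2) * (h3 - h4)
      have ha0 : a = 0 := by linear_combination (2/3) * (hd1 - hd2)
      exact hdeg ⟨ha0, hc0⟩
    · right
      have hb1 : b = -2 * c := by linear_combination (1/2) * (h1 + h2)
      have hd1 : d = -a / 2 := by linear_combination (1/4) * (h2 - h1)
      have hd2 : d = -2 * a := by linear_combination (1/2) * (h3 - h4)
      have ha0 : a = 0 := by linear_combination (-2/3) * (hd1 - hd2)
      have hd0 : d = 0 := by rw [hd2, ha0]; ring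
      have hc0 : c ≠ 0 := fun h0 => hdeg ⟨ha0, h0⟩
      rw [hl1, hl2, ha0, hb1, hd0] at hu
      have hCc : ∀ z : ℂ, i (C z) = algebraMap ℂ (RatFunc ℂ) z := by
        intro z
        exact (RatFunc.algebraMap_C z)
      simp only [map_add, map_mul, hCc, map_zero, zero_mul, zero_add, add_zero, C_mul, C_neg,
        map_neg, map_ofNat] at hu
      have hX : i X = RatFunc.X := RatFunc.algebraMap_X
      rw [hX] at hu
      have hc1 : algebraMap ℂ (RatFunc ℂ) c ≠ 0 := by simpa using hc0
      apply mul_left_cancel₀ hc1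
      have hCC : i (C 2) = 2 := by rw [hCc]; exact map_ofNat _ 2
      linear_combination hu
  · rcases hcase2 with ⟨h3, h4⟩ | ⟨h3, h4⟩
    · left
      have hb1 : b = 4 * c := by linear_combination (1/2) * (h1 + h2)
      have hb2 : b = c := by linear_combination (1/2) * (h3 + h4)
      have hc0 : c = 0 := by linear_combination (-1/3) * (hb1 - hb2)
      have hd2 : d = a := by linear_combination (1/2) * (h3 - h4)
      have hb0 : b = 0 := by rw [hb2, hc0]
      have ha0 : a ≠ 0 := fun h0 => hdeg ⟨h0, hc0⟩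
      rw [hl1, hl2, hc0, hb0, hd2] at hu
      have hCc : ∀ z : ℂ, i (C z) = algebraMap ℂ (RatFunc ℂ) z := by
        intro z
        exact (RatFunc.algebraMap_C z)
      simp only [map_add, map_mul, hCc, map_zero, zero_mul, zero_add, add_zero] at hu
      have hX : i X = RatFunc.X := RatFunc.algebraMap_X
      rw [hX] at hu
      have hc1 : algebraMap ℂ (RatFunc ℂ) a ≠ 0 := by simpa using ha0
      apply mul_left_cancel₀ hc1
      linear_combination hu
    · exfalso
      have hb1 : b = 4 * c := by linear_combination (1/2) * (h1 + h2)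
      have hb2 : b = -2 * c := by linear_combination (1/2) * (h3 + h4)
      have hc0 : c = 0 := by linear_combination (-1/6) * (hb1 - hb2)
      have hd1 : d = a := by linear_combination (1/4) * (h2 - h1)
      have hd2 : d = -2 * a := by linear_combination (1/2) * (h3 - h4)
      have ha0 : a = 0 := by linear_combination (-1/3) * (hd1 - hd2)
      exact hdeg ⟨ha0, hc0⟩

end Pool.Agent.Helper67
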