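import Mathlib
import Pool.Agent.Helper67.Mobius

set_option autoImplicit false

namespace Pool.Agent.Helper67

open Polynomial IntermediateField

theorem nQ_ne_zero : nQ ≠ 0 := by
  intro h
  have := nQ_eval 2
  rw [h] at this
  norm_num at this

theorem exists_phi : ∃ φ : RatFunc ℂ →ₐ[ℂ] RatFunc ℂ,
    φ RatFunc.X * algebraMap ℂ[X] (RatFunc ℂ) nQ = algebraMap ℂ[X] (RatFunc ℂ) nP := by
  have hQ0 : algebraMap ℂ[X] (RatFunc ℂ) nQ ≠ 0 := RatFunc.algebraMap_ne_zero nQ_ne_zero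
  have htr : Transcendental ℂ (algebraMap ℂ[X] (RatFunc ℂ) nP /
      algebraMap ℂ[X] (RatFunc ℂ) nQ) := by
    apply RatFunc.transcendental_of_ne_C
    rintro ⟨c, hc⟩
    rw [div_eq_iff hQ0, ← RatFunc.algebraMap_C, ← map_mul] at hc
    have h1 := RatFunc.algebraMap_injective ℂ hc
    have h2 : C 1 * nP + C (-c) * nQ = 0 := by
      rw [h1]; simp
    exact one_ne_zero (nP_nQ_indep h2).1
  obtain ⟨φ, hφ⟩ := exists_ratFunc_hom htr
  exact ⟨φ, by rw [hφ, div_mul_cancel₀ _ hQ0]⟩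

theorem finrank_A (φ : RatFunc ℂ →ₐ[ℂ] RatFunc ℂ)
    (hφ : φ RatFunc.X * algebraMap ℂ[X] (RatFunc ℂ) nQ = algebraMap ℂ[X] (RatFunc ℂ) nP) :
    2 ≤ Module.finrank (IntermediateField.adjoin ℂ ({φ RatFunc.X} : Set (RatFunc ℂ)))
      (RatFunc ℂ) := by
  rw [RatFunc.finrank_eq_max_natDegree]
  have hQ0 : algebraMap ℂ[X] (RatFunc ℂ) nQ ≠ 0 := RatFunc.algebraMap_ne_zero nQ_ne_zero
  have h1 : φ RatFunc.X = algebraMap ℂ[X] (RatFunc ℂ) nP / algebraMap ℂ[X] (RatFunc ℂ) nQ := by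
    rw [eq_div_iff hQ0]; exact hφ
  have h2 := (RatFunc.num_mul_eq_mul_denom_iff nQ_ne_zero).mpr h1
  have hcop : IsCoprime nP nQ := coprime_of_no_common_root coprime_cert
  have h3 : nP ∣ (φ RatFunc.X).num := hcop.dvd_of_dvd_mul_right ⟨_, h2⟩
  have hn0 : (φ RatFunc.X).num ≠ 0 := by
    apply RatFunc.num_ne_zero
    intro h0
    rw [h0, zero_mul] at hφ
    have h4 := (map_eq_zero_iff _ (RatFunc.algebraMap_injective ℂ)).mp hφ.symm
    have := nP_eval 0
    rw [h4] at this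
    norm_num at this
  have h4 := natDegree_le_of_dvd h3 hn0
  have h5 : nP.natDegree = 4 := by
    have e6 : (6 : ℂ[X]) = C 6 := (map_ofNat C 6).symm
    have e4 : (4 : ℂ[X]) = C 4 := (map_ofNat C 4).symm
    rw [nP, e6, e4]
    compute_degree!
  have h6 := le_max_left (φ RatFunc.X).num.natDegree (φ RatFunc.X).denom.natDegree
  omega

/-- the cubic Chebyshev type polynomial -/
noncomputable def nB : ℂ[X] := X ^ 3 - 3 * X

theorem nB_identity : nP ^ 3 - 3 * nP * nQ ^ 2 =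
    nB ^ 4 + 12 * nB ^ 3 + 120 * nB ^ 2 + 316 * nB + 234 := by
  rw [nP, nQ, nB]; ring

theorem nQ_eq : nQ = 2 * nB + 5 := by
  rw [nQ, nB]; ring

theorem nB_natDegree : nB.natDegree = 3 := by
  have e3 : (3 : ℂ[X]) = C 3 := (map_ofNat C 3).symm
  rw [nB, e3]
  compute_degree!

theorem phi_B_mem (φ : RatFunc ℂ →ₐ[ℂ] RatFunc ℂ)
    (hφ : φ RatFunc.X * algebraMap ℂ[X] (RatFunc ℂ) nQ = algebraMap ℂ[X] (RatFunc ℂ) nP) :
    φ (algebraMap ℂ[X] (RatFunc ℂ) nB) ∈
      IntermediateField.adjoin ℂ ({algebraMap ℂ[X] (RatFunc ℂ) nB} : Set (RatFunc ℂ)) := by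
  set b := algebraMap ℂ[X] (RatFunc ℂ) nB with hb
  have hQ0 : algebraMap ℂ[X] (RatFunc ℂ) nQ ≠ 0 := RatFunc.algebraMap_ne_zero nQ_ne_zero
  have hQb : algebraMap ℂ[X] (RatFunc ℂ) nQ = 2 * b + 5 := by
    rw [nQ_eq, hb]; simp only [map_add, map_mul, map_ofNat]
  have h1 : φ b = (b ^ 4 + 12 * b ^ 3 + 120 * b ^ 2 + 316 * b + 234) / (2 * b + 5) ^ 3 := by
    rw [hQb] at hφ hQ0
    rw [eq_div_iff (pow_ne_zero 3 hQ0)]
    have h2 := congrArg (algebraMap ℂ[X] (RatFunc ℂ)) nB_identity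
    simp only [map_sub, map_add, map_mul, map_pow, map_ofNat] at h2
    rw [← hb, hQb, ← hφ] at h2
    rw [← h2, hb, hom_aeval, nB]
    simp only [map_sub, map_mul, map_pow, aeval_X, map_ofNat]
    ring
  rw [h1]
  have hbm := IntermediateField.mem_adjoin_simple_self ℂ b
  set S := IntermediateField.adjoin ℂ ({b} : Set (RatFunc ℂ))
  have hnat : ∀ n : ℕ, [n.AtLeastTwo] → (OfNat.ofNat n : RatFunc ℂ) ∈ S := by
    intro n _
    exact ofNat_mem S n
  refine S.div_mem ?_ (pow_mem (S.add_mem (S.mul_mem (hnat 2) hbm) (hnat 5)) 3)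
  refine S.add_mem (S.add_mem (S.add_mem (S.add_mem (pow_mem hbm 4) ?_) ?_) ?_) (hnat 234)
  · exact S.mul_mem (hnat 12) (pow_mem hbm 3)
  · exact S.mul_mem (hnat 120) (pow_mem hbm 2)
  · exact S.mul_mem (hnat 316) hbm

theorem iterate_hom (φ : RatFunc ℂ →ₐ[ℂ] RatFunc ℂ) (l : ℕ) :
    ∃ Φ : RatFunc ℂ →ₐ[ℂ] RatFunc ℂ, ∀ f, Φ f = (⇑φ)^[l] f := by
  induction l with
  | zero => exact ⟨AlgHom.id _ _, fun f => rfl⟩
  | succ l ih =>
    obtain ⟨Φ, hΦ⟩ := ih
    refine ⟨Φ.comp φ, fun f => ?_⟩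
    rw [Function.iterate_succ_apply, AlgHom.comp_apply, hΦ]

/-- the invariant form of the iterates: they fix `2` and `-1`. -/
theorem iterate_form (φ : RatFunc ℂ →ₐ[ℂ] RatFunc ℂ)
    (hφ : φ RatFunc.X * algebraMap ℂ[X] (RatFunc ℂ) nQ = algebraMap ℂ[X] (RatFunc ℂ) nP) (l : ℕ) :
    ∃ p q : ℂ[X], q.eval 2 ≠ 0 ∧ q.eval (-1) ≠ 0 ∧ p.eval 2 = 2 * q.eval 2 ∧
      p.eval (-1) = - q.eval (-1) ∧
      (⇑φ)^[l] RatFunc.X * algebraMap ℂ[X] (RatFunc ℂ) q = algebraMap ℂ[X] (RatFunc ℂ) p := by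
  induction l with
  | zero =>
    refine ⟨X, 1, ?_, ?_, ?_, ?_, ?_⟩
    · simp
    · simp
    · simp
    · simp
    · simp
  | succ l ih =>
    obtain ⟨p, q, h1, h2, h3, h4, h5⟩ := ih
    obtain ⟨Φ, hΦ⟩ := iterate_hom φ l
    rw [← hΦ] at h5
    have h6 := congrArg Φ hφ
    rw [map_mul, hom_aeval, hom_aeval] at h6
    refine ⟨hP p q, hQ p q, ?_, ?_, ?_, ?_, ?_⟩
    · simp only [hQ, eval_add, eval_sub, eval_mul, eval_pow, eval_ofNat, h3]
      have : 2 * (2 * eval 2 q) ^ 3 * eval 2 q - 6 * (2 * eval 2 q) * eval 2 q ^ 3 +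
        5 * eval 2 q ^ 4 = 9 * eval 2 q ^ 4 := by ring
      rw [this]
      exact mul_ne_zero (by norm_num) (pow_ne_zero 4 h1)
    · simp only [hQ, eval_add, eval_sub, eval_mul, eval_pow, eval_ofNat, h4]
      have : 2 * (-eval (-1) q) ^ 3 * eval (-1) q - 6 * (-eval (-1) q) * eval (-1) q ^ 3 +
        5 * eval (-1) q ^ 4 = 9 * eval (-1) q ^ 4 := by ring
      rw [this]
      exact mul_ne_zero (by norm_num) (pow_ne_zero 4 h2)
    · simp only [hP, hQ, eval_add, eval_sub, eval_mul, eval_pow, eval_ofNat, h3]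
      ring
    · simp only [hP, hQ, eval_add, eval_sub, eval_mul, eval_pow, eval_ofNat, h4]
      ring
    · rw [Function.iterate_succ_apply, ← hΦ]
      have hq0 : algebraMap ℂ[X] (RatFunc ℂ) q ≠ 0 := by
        apply RatFunc.algebraMap_ne_zero
        rintro rfl
        simp at h1
      have e2 : aeval (Φ RatFunc.X) nQ * (algebraMap ℂ[X] (RatFunc ℂ) q) ^ 4 =
          algebraMap ℂ[X] (RatFunc ℂ) (hQ p q) := by
        simp only [hQ, nQ, map_add, map_sub, map_mul, map_pow, aeval_X, map_ofNat, ← h5]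
        ring
      have e3 : aeval (Φ RatFunc.X) nP * (algebraMap ℂ[X] (RatFunc ℂ) q) ^ 4 =
          algebraMap ℂ[X] (RatFunc ℂ) (hP p q) := by
        simp only [hP, nP, map_add, map_sub, map_mul, map_pow, aeval_X, map_ofNat, ← h5]
        ring
      rw [← e2, ← e3, ← h6]
      ring

theorem finrank_alghom (σ : RatFunc ℂ →ₐ[ℂ] RatFunc ℂ) (hσ : Function.Surjective σ) :
    Module.finrank (IntermediateField.adjoin ℂ ({σ RatFunc.X} : Set (RatFunc ℂ)))
      (RatFunc ℂ) = 1 := by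
  have h : IntermediateField.adjoin ℂ ({σ RatFunc.X} : Set (RatFunc ℂ)) = ⊤ := by
    have h1 := IntermediateField.adjoin_map ℂ ({RatFunc.X} : Set (RatFunc ℂ)) σ
    rw [Set.image_singleton, RatFunc.adjoin_X] at h1
    rw [← h1, eq_top_iff]
    intro x _
    obtain ⟨y, rfl⟩ := hσ x
    exact ⟨y, trivial, rfl⟩
  rw [h]
  exact IntermediateField.finrank_top

/-- every Galois covering semiconjugating `A` has degree one -/
theorem galois_trivial (φ : RatFunc ℂ →ₐ[ℂ] RatFunc ℂ)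
    (hφ : φ RatFunc.X * algebraMap ℂ[X] (RatFunc ℂ) nQ = algebraMap ℂ[X] (RatFunc ℂ) nP)
    (P F : RatFunc ℂ) (ψ : RatFunc ℂ →ₐ[ℂ] RatFunc ℂ) (hψ : ψ RatFunc.X = P) (hPF : φ P = ψ F)
    (E : IntermediateField ℂ (RatFunc ℂ)) (hE : E = IntermediateField.adjoin ℂ {P})
    (hgal : IsGalois E (RatFunc ℂ)) : (RatFunc.X : RatFunc ℂ) ∈ E := by
  have hrank : ∀ σ : RatFunc ℂ ≃ₐ[E] RatFunc ℂ,
      Module.finrank (IntermediateField.adjoin ℂ ({(σ : RatFunc ℂ →ₐ[E] RatFunc ℂ).restrictScalars ℂ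
        RatFunc.X} : Set (RatFunc ℂ))) (RatFunc ℂ) = 1 := by
    intro σ
    exact finrank_alghom ((σ : RatFunc ℂ →ₐ[E] RatFunc ℂ).restrictScalars ℂ) σ.surjective
  have hcase : ∀ σ : RatFunc ℂ ≃ₐ[E] RatFunc ℂ, σ RatFunc.X = RatFunc.X ∨
      σ RatFunc.X * RatFunc.X = -2 := by
    intro σ
    obtain ⟨τ, hτ⟩ := exists_tau φ P F ψ hψ hPF E hE hgal σ
    exact mobius_cases φ hφ ((σ : RatFunc ℂ →ₐ[E] RatFunc ℂ).restrictScalars ℂ)
      ((τ : RatFunc ℂ →ₐ[E] RatFunc ℂ).restrictScalars ℂ) (hrank σ) (hrank τ) hτ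
  have hid : ∀ σ : RatFunc ℂ ≃ₐ[E] RatFunc ℂ, σ RatFunc.X = RatFunc.X := by
    intro σ
    rcases hcase σ with h | h
    · exact h
    · exfalso
      obtain ⟨τ, hτ⟩ := exists_tau φ P F ψ hψ hPF E hE hgal σ
      have hX0 : (RatFunc.X : RatFunc ℂ) ≠ 0 := RatFunc.X_ne_zero
      set i := algebraMap ℂ[X] (RatFunc ℂ) with hi
      have hiinj : Function.Injective i := RatFunc.algebraMap_injective ℂ
      have hiX : i X = RatFunc.X := RatFunc.algebraMap_X
      -- image of A under σ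
      have hs : σ (φ RatFunc.X) * i (5 * nP + 6 * nQ) = i (-6 * nP - 4 * nQ) := by
        have h1 := congrArg ((σ : RatFunc ℂ →ₐ[E] RatFunc ℂ).restrictScalars ℂ) hφ
        rw [map_mul, hom_aeval, hom_aeval] at h1
        have h2 : σ (φ RatFunc.X) * aeval (σ RatFunc.X) nQ = aeval (σ RatFunc.X) nP := h1
        have h3 : aeval (σ RatFunc.X) nQ * RatFunc.X ^ 4 = i (5 * nP + 6 * nQ) := by
          simp only [nP, nQ, map_add, map_sub, map_mul, map_pow, aeval_X, map_ofNat, hiX]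
          linear_combination (2 * RatFunc.X * ((σ RatFunc.X * RatFunc.X) ^ 2 -
            2 * (σ RatFunc.X * RatFunc.X) + 4) - 6 * RatFunc.X ^ 3) * h
        have h4 : aeval (σ RatFunc.X) nP * RatFunc.X ^ 4 = i (-6 * nP - 4 * nQ) := by
          simp only [nP, nQ, map_add, map_sub, map_mul, map_pow, map_neg, aeval_X, map_ofNat, hiX]
          linear_combination ((σ RatFunc.X * RatFunc.X) ^ 3 -
            2 * (σ RatFunc.X * RatFunc.X) ^ 2 + 4 * (σ RatFunc.X * RatFunc.X) - 8 +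
              4 * RatFunc.X ^ 3) * h
        rw [← h3, ← h4, ← h2]
        ring
      have hQ0 : i nQ ≠ 0 := RatFunc.algebraMap_ne_zero nQ_ne_zero
      rcases hcase τ with h' | h'
      · rw [hτ, h'] at hs
        have h5 : i (nP * (5 * nP + 6 * nQ)) = i (nQ * (-6 * nP - 4 * nQ)) := by
          rw [map_mul, map_mul, ← hs, ← hφ]; ring
        have h6 := congrArg (eval 0) (hiinj h5)
        simp only [eval_mul, eval_add, eval_sub, eval_neg, eval_ofNat, nP_eval, nQ_eval] at h6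
        norm_num at h6
      · rw [hτ] at hs
        have h1 := congrArg φ h'
        rw [map_mul] at h1
        have h2 : φ (-2 : RatFunc ℂ) = -2 := by rw [map_neg, map_ofNat]
        rw [h2] at h1
        have h5 : i (nP * (-6 * nP - 4 * nQ)) = i (-2 * nQ * (5 * nP + 6 * nQ)) := by
          rw [map_mul, map_mul, map_mul, ← hs, ← hφ]
          have h7 : i (-2) = -2 := by rw [map_neg, map_ofNat]
          rw [h7]
          linear_combination (i nQ * i (5 * nP + 6 * nQ)) * h1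
        have h6 := congrArg (eval 0) (hiinj h5)
        simp only [eval_mul, eval_add, eval_sub, eval_neg, eval_ofNat, nP_eval, nQ_eval] at h6
        norm_num at h6
  have hbot : (RatFunc.X : RatFunc ℂ) ∈ (⊥ : IntermediateField E (RatFunc ℂ)) := by
    rw [InfiniteGalois.mem_bot_iff_fixed]
    exact hid
  rw [IntermediateField.mem_bot] at hbot
  obtain ⟨y, hy⟩ := hbot
  rw [← hy]
  exact y.2

/-- `B` is not a right factor of any iterate of `A`. -/
theorem not_right_factor (φ : RatFunc ℂ →ₐ[ℂ] RatFunc ℂ)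
    (hφ : φ RatFunc.X * algebraMap ℂ[X] (RatFunc ℂ) nQ = algebraMap ℂ[X] (RatFunc ℂ) nP) (l : ℕ)
    (h : (⇑φ)^[l] RatFunc.X ∈
      IntermediateField.adjoin ℂ ({algebraMap ℂ[X] (RatFunc ℂ) nB} : Set (RatFunc ℂ))) :
    False := by
  obtain ⟨p, q, h1, h2, h3, h4, h5⟩ := iterate_form φ hφ l
  set i := algebraMap ℂ[X] (RatFunc ℂ) with hi
  have hiinj : Function.Injective i := RatFunc.algebraMap_injective ℂ
  have hBtr : Transcendental ℂ (i nB) := by
    apply RatFunc.transcendental_of_ne_C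
    rintro ⟨c, hc⟩
    rw [← RatFunc.algebraMap_C] at hc
    have h6 := congrArg natDegree (hiinj hc)
    rw [nB_natDegree, natDegree_C] at h6
    norm_num at h6
  obtain ⟨κ, hκ⟩ := exists_ratFunc_hom hBtr
  have hrange : IntermediateField.adjoin ℂ ({i nB} : Set (RatFunc ℂ)) = κ.fieldRange := by
    have h6 := IntermediateField.adjoin_map ℂ ({RatFunc.X} : Set (RatFunc ℂ)) κ
    rw [Set.image_singleton, RatFunc.adjoin_X, hκ] at h6
    rw [← h6]
    exact (AlgHom.fieldRange_eq_map κ).symm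
  rw [hrange] at h
  obtain ⟨ρ, hρ⟩ := h
  have hρ' : κ ρ = (⇑φ)^[l] RatFunc.X := hρ
  rw [← hρ'] at h5
  have h6 := RatFunc.num_div_denom ρ
  have hd0 : i ρ.denom ≠ 0 := RatFunc.algebraMap_ne_zero ρ.denom_ne_zero
  rw [div_eq_iff hd0] at h6
  have h7 := congrArg κ h6
  rw [map_mul, hom_aeval, hom_aeval, hκ] at h7
  have hcomp : ∀ r : ℂ[X], aeval (i nB) r = i (r.comp nB) := by
    intro r
    have := Polynomial.aeval_algebraMap_apply (RatFunc ℂ) nB r
    rw [← hi] at this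
    rw [this]
    rfl
  rw [hcomp, hcomp] at h7
  have h8 : ρ.num.comp nB * q = p * ρ.denom.comp nB := by
    apply hiinj
    rw [map_mul, map_mul, h7, ← h5]
    ring
  have e1 := congrArg (eval 2) h8
  have e2 := congrArg (eval (-1)) h8
  simp only [eval_mul, eval_comp] at e1 e2
  have b1 : nB.eval 2 = 2 := by simp [nB]; norm_num
  have b2 : nB.eval (-1) = 2 := by simp [nB]; norm_num
  rw [b1, h3] at e1
  rw [b2, h4] at e2
  have e3 : ρ.num.eval 2 = 2 * ρ.denom.eval 2 := by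
    apply mul_right_cancel₀ h1
    linear_combination e1
  have e4 : ρ.num.eval 2 = - ρ.denom.eval 2 := by
    apply mul_right_cancel₀ h2
    linear_combination e2
  have e5 : ρ.denom.eval 2 = 0 := by linear_combination (1/3) * (e4 - e3)
  have e6 : ρ.num.eval 2 = 0 := by rw [e3, e5, mul_zero]
  exact no_common_root_of_coprime (RatFunc.isCoprime_num_denom ρ) 2 e6 e5

end Pool.Agent.Helper67
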