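import Mathlib

/-! Complex-analytic tools: a third-difference estimate and holomorphic logarithms on a disc. -/

open Complex Metric Set

namespace Pool.Agent.Helper67.Xi

theorem third_diff {ρ M : ℝ} (hρ : 0 < ρ) (hM : 0 < M) (k : ℂ → ℂ)
    (hk : DifferentiableOn ℂ k (ball 0 ρ)) (h0 : k 0 = 0)
    (hre : ∀ w ∈ ball (0:ℂ) ρ, (k w).re ≤ M) {δ : ℝ} (hδ : 0 < δ) (hδ' : 8 * δ ≤ ρ) :
    ‖k ((2 * δ : ℝ) : ℂ) - 3 * k (δ : ℂ) - k ((-δ : ℝ) : ℂ)‖ ≤ 768 * M / ρ ^ 3 * δ ^ 3 := by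
  have hb : ∀ w ∈ ball (0:ℂ) (ρ / 2), ‖k w‖ ≤ 2 * M := by
    intro w hw
    have hw' : ‖w‖ < ρ / 2 := by simpa using hw
    have h1 : w ∈ ball (0:ℂ) ρ := by
      simp only [mem_ball_zero_iff]; linarith
    have h2 := borelCaratheodory_zero hM hk (fun x hx => hre x hx) hρ h1 h0
    have h3 : 2 * M * ‖w‖ / (ρ - ‖w‖) ≤ 2 * M := by
      rw [div_le_iff₀ (by linarith)]
      have : 0 ≤ ‖w‖ := norm_nonneg _
      nlinarith
    exact h2.trans h3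
  have hρ2 : 0 < ρ / 2 := by positivity
  have h0m : (0:ℂ) ∈ ball (0:ℂ) (ρ / 2) := by simp [hρ2]
  have hnhds : ball (0:ℂ) (ρ / 2) ∈ nhds (0:ℂ) := ball_mem_nhds _ hρ2
  have hk2 : DifferentiableOn ℂ k (ball 0 (ρ / 2)) :=
    hk.mono (ball_subset_ball (by linarith))
  -- a general step
  have step : ∀ (g : ℂ → ℂ) (B : ℝ), DifferentiableOn ℂ g (ball 0 (ρ / 2)) →
      (∀ w ∈ ball (0:ℂ) (ρ / 2), ‖g w - g 0‖ ≤ B) →
      ∀ w ∈ ball (0:ℂ) (ρ / 2), ‖dslope g 0 w‖ ≤ B / (ρ / 2) := by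
    intro g B hg hB w hw
    apply norm_dslope_le_div_of_mapsTo_ball hg _ hw
    intro x hx
    simp only [mem_closedBall, dist_eq_norm]
    exact hB x hx
  have hd1 : DifferentiableOn ℂ (dslope k 0) (ball 0 (ρ / 2)) :=
    (differentiableOn_dslope hnhds).2 hk2
  have hd2 : DifferentiableOn ℂ (dslope (dslope k 0) 0) (ball 0 (ρ / 2)) :=
    (differentiableOn_dslope hnhds).2 hd1
  have hb1 : ∀ w ∈ ball (0:ℂ) (ρ / 2), ‖dslope k 0 w‖ ≤ 2 * M / (ρ / 2) := by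
    apply step k (2 * M) hk2
    intro w hw; simpa [h0] using hb w hw
  have hb2 : ∀ w ∈ ball (0:ℂ) (ρ / 2),
      ‖dslope (dslope k 0) 0 w‖ ≤ (2 * (2 * M / (ρ / 2))) / (ρ / 2) := by
    apply step _ _ hd1
    intro w hw
    calc _ ≤ ‖dslope k 0 w‖ + ‖dslope k 0 0‖ := norm_sub_le _ _
      _ ≤ _ := by linarith [hb1 w hw, hb1 0 h0m]
  have hb3 : ∀ w ∈ ball (0:ℂ) (ρ / 2),
      ‖dslope (dslope (dslope k 0) 0) 0 w‖ ≤
        (2 * ((2 * (2 * M / (ρ / 2))) / (ρ / 2))) / (ρ / 2) := by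
    apply step _ _ hd2
    intro w hw
    calc _ ≤ ‖dslope (dslope k 0) 0 w‖ + ‖dslope (dslope k 0) 0 0‖ := norm_sub_le _ _
      _ ≤ _ := by linarith [hb2 w hw, hb2 0 h0m]
  set g1 := dslope k 0 with hg1
  set g2 := dslope g1 0 with hg2
  set g3 := dslope g2 0 with hg3
  have e : ∀ (g : ℂ → ℂ) (w : ℂ), g w = g 0 + w * dslope g 0 w := by
    intro g w
    have := sub_smul_dslope g 0 w
    simp only [sub_zero, smul_eq_mul] at this
    rw [this]; ring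
  have ek : ∀ w : ℂ, k w = w * g1 0 + w ^ 2 * g2 0 + w ^ 3 * g3 w := by
    intro w
    have a1 := e k w
    have a2 := e g1 w
    have a3 := e g2 w
    rw [← hg1] at a1
    rw [← hg2] at a2
    rw [← hg3] at a3
    rw [a1, a2, a3, h0]; ring
  have m1 : ((2 * δ : ℝ) : ℂ) ∈ ball (0:ℂ) (ρ / 2) := by
    rw [mem_ball_zero_iff, norm_real, Real.norm_eq_abs, abs_of_pos (by positivity)]; linarith
  have m2 : (δ : ℂ) ∈ ball (0:ℂ) (ρ / 2) := by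
    rw [mem_ball_zero_iff, norm_real, Real.norm_eq_abs, abs_of_pos (by positivity)]; linarith
  have m3 : ((-δ : ℝ) : ℂ) ∈ ball (0:ℂ) (ρ / 2) := by
    rw [mem_ball_zero_iff, norm_real, Real.norm_eq_abs, abs_neg, abs_of_pos (by positivity)]
    linarith
  have hq : k ((2 * δ : ℝ) : ℂ) - 3 * k (δ : ℂ) - k ((-δ : ℝ) : ℂ)
      = ((δ ^ 3 : ℝ) : ℂ) * (8 * g3 ((2 * δ : ℝ) : ℂ) - 3 * g3 (δ : ℂ) + g3 ((-δ : ℝ) : ℂ)) := by
    rw [ek, ek (δ : ℂ), ek ((-δ : ℝ) : ℂ)]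
    push_cast
    ring
  rw [hq, norm_mul, norm_real, Real.norm_eq_abs, abs_of_pos (by positivity)]
  have hB3 : (2 * ((2 * (2 * M / (ρ / 2))) / (ρ / 2))) / (ρ / 2) = 64 * M / ρ ^ 3 := by
    field_simp; ring
  rw [hB3] at hb3
  have n1 : ‖8 * g3 ((2 * δ : ℝ) : ℂ) - 3 * g3 (δ : ℂ) + g3 ((-δ : ℝ) : ℂ)‖
      ≤ 12 * (64 * M / ρ ^ 3) := by
    calc _ ≤ ‖8 * g3 ((2 * δ : ℝ) : ℂ) - 3 * g3 (δ : ℂ)‖ + ‖g3 ((-δ : ℝ) : ℂ)‖ := norm_add_le _ _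
      _ ≤ ‖8 * g3 ((2 * δ : ℝ) : ℂ)‖ + ‖3 * g3 (δ : ℂ)‖ + ‖g3 ((-δ : ℝ) : ℂ)‖ := by
        gcongr; exact norm_sub_le _ _
      _ = 8 * ‖g3 ((2 * δ : ℝ) : ℂ)‖ + 3 * ‖g3 (δ : ℂ)‖ + ‖g3 ((-δ : ℝ) : ℂ)‖ := by
        simp
      _ ≤ _ := by linarith [hb3 _ m1, hb3 _ m2, hb3 _ m3]
  calc δ ^ 3 * ‖8 * g3 ((2 * δ : ℝ) : ℂ) - 3 * g3 (δ : ℂ) + g3 ((-δ : ℝ) : ℂ)‖
      ≤ δ ^ 3 * (12 * (64 * M / ρ ^ 3)) := by gcongr
    _ = _ := by ring

theorem exists_log {ρ : ℝ} (hρ : 0 < ρ) (F : ℂ → ℂ) (hF : DifferentiableOn ℂ F (ball 0 ρ))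
    (hne : ∀ w ∈ ball (0:ℂ) ρ, F w ≠ 0) :
    ∃ l : ℂ → ℂ, DifferentiableOn ℂ l (ball 0 ρ) ∧ l 0 = 0 ∧
      ∀ w ∈ ball (0:ℂ) ρ, F w = F 0 * exp (l w) := by
  have h1 : DifferentiableOn ℂ (fun w => deriv F w / F w) (ball 0 ρ) :=
    (hF.deriv isOpen_ball).div hF hne
  obtain ⟨g, hg⟩ := h1.isExactOn_ball
  refine ⟨fun w => g w - g 0, ?_, by simp, ?_⟩
  · intro w hw
    exact ((hg w hw).differentiableAt.sub_const _).differentiableWithinAt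
  · intro w hw
    have hd : ∀ x ∈ ball (0:ℂ) ρ, HasDerivAt (fun w => F w * exp (-(g w - g 0))) 0 x := by
      intro x hx
      have hFx : HasDerivAt F (deriv F x) x :=
        (hF.differentiableAt (isOpen_ball.mem_nhds hx)).hasDerivAt
      have hgx := hg x hx
      have h2 := hFx.mul (((hgx.sub_const (g 0)).neg).cexp)
      have h3 : HasDerivAt (fun w => F w * exp (-(g w - g 0)))
        (deriv F x * exp (-(g x - g 0)) +
          F x * (exp (-(g x - g 0)) * -(deriv F x / F x))) x := h2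
      refine h3.congr_deriv ?_
      have := hne x hx
      field_simp
      ring
    have hc : (fun w => F w * exp (-(g w - g 0))) w = (fun w => F w * exp (-(g w - g 0))) 0 := by
      have hconv : IsPreconnected (ball (0:ℂ) ρ) := (convex_ball _ _).isPreconnected
      have h0m : (0:ℂ) ∈ ball (0:ℂ) ρ := by simp [hρ]
      apply (convex_ball (0:ℂ) ρ).is_const_of_fderivWithin_eq_zero (𝕜 := ℂ) _ _ hw h0m
      · intro x hx
        exact (hd x hx).differentiableAt.differentiableWithinAt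
      · intro x hx
        rw [fderivWithin_of_isOpen isOpen_ball hx]
        have := (hd x hx).hasFDerivAt.fderiv
        rw [this]; ext; simp
    simp only [sub_self, neg_zero, exp_zero, mul_one] at hc
    rw [← hc, mul_assoc, ← exp_add]
    simp

end Pool.Agent.Helper67.Xi
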