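import Pool.Agent.Helper67.XiDefs
open Real Set MeasureTheory

namespace Pool.Agent.Helper67.Xi

/-- The `n`th summand. -/
noncomputable def trm (n : ℕ) (t : ℝ) : ℝ :=
  (2 * Real.pi ^ 2 * ((n : ℝ) + 1) ^ 4 * Real.exp (9 * t)
    - 3 * Real.pi * ((n : ℝ) + 1) ^ 2 * Real.exp (5 * t))
    * Real.exp (-(Real.pi * ((n : ℝ) + 1) ^ 2 * Real.exp (4 * t)))

theorem Phi_eq (t : ℝ) : Phi t = ∑' n : ℕ, trm n t := rfl

theorem trm_eq (n : ℕ) (t : ℝ) : trm n t =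
    π * ((n : ℝ) + 1) ^ 2 * exp (5 * t) * (2 * π * ((n : ℝ) + 1) ^ 2 * exp (4 * t) - 3)
      * exp (-(π * ((n : ℝ) + 1) ^ 2 * exp (4 * t))) := by
  have h : exp (9 * t) = exp (5 * t) * exp (4 * t) := by rw [← exp_add]; ring_nf
  rw [trm, h]; ring

theorem one_le_exp4 {t : ℝ} (ht : 0 ≤ t) : 1 ≤ exp (4 * t) := one_le_exp (by positivity)

theorem aux_ge {n : ℕ} {t : ℝ} (ht : 0 ≤ t) :
    3 ≤ 2 * π * ((n : ℝ) + 1) ^ 2 * exp (4 * t) - 3 := by
  have h1 := one_le_exp4 ht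
  have h2 : (3:ℝ) < π := pi_gt_three
  have h3 : (1:ℝ) ≤ ((n : ℝ) + 1) ^ 2 := by
    have : (0:ℝ) ≤ n := Nat.cast_nonneg n
    nlinarith
  have h4 : 1 ≤ ((n : ℝ) + 1) ^ 2 * exp (4 * t) := one_le_mul_of_one_le_of_one_le h3 h1
  nlinarith

theorem trm_nonneg (n : ℕ) {t : ℝ} (ht : 0 ≤ t) : 0 ≤ trm n t := by
  rw [trm_eq]
  have := aux_ge (n := n) ht
  have h2 : (0:ℝ) < π := pi_pos
  have h3 : 0 ≤ 2 * π * ((n : ℝ) + 1) ^ 2 * exp (4 * t) - 3 := by linarith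
  positivity

/-- majorant coefficients -/
noncomputable def cf (n : ℕ) : ℝ := 2 * π ^ 2 * ((n : ℝ) + 1) ^ 4 * exp (-(π * n))

theorem summable_cf : Summable cf := by
  have h1 : Summable (fun n : ℕ => ((n:ℝ) ^ 4 * exp (-π * n))) :=
    summable_pow_mul_exp_neg_nat_mul 4 pi_pos
  have h2 := (summable_nat_add_iff 1).2 h1
  have h3 := h2.mul_left (2 * π ^ 2 * exp π)
  refine h3.congr (fun n => ?_)
  rw [cf]
  push_cast
  have : exp (-π * (n + 1)) = exp (-(π * n)) * exp (-π) := by rw [← exp_add]; ring_nf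
  rw [this]
  have h5 : exp π * exp (-π) = 1 := by rw [← exp_add]; simp
  linear_combination (2 * π ^ 2 * ((n : ℝ) + 1) ^ 4 * exp (-(π * n))) * h5

theorem cf_nonneg (n : ℕ) : 0 ≤ cf n := by
  rw [cf]; positivity

theorem trm_le (n : ℕ) {t : ℝ} (ht : 0 ≤ t) :
    trm n t ≤ cf n * (exp (9 * t) * exp (-(π * exp (4 * t)))) := by
  have h1 := one_le_exp4 ht
  have hn : (0:ℝ) ≤ n := Nat.cast_nonneg n
  have e1 : exp (-(π * ((n : ℝ) + 1) ^ 2 * exp (4 * t)))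
      ≤ exp (-(π * n)) * exp (-(π * exp (4 * t))) := by
    rw [← exp_add]
    apply exp_le_exp.2
    have : (n:ℝ) ≤ (((n : ℝ) + 1) ^ 2 - 1) * exp (4 * t) := by
      have h3 : (n:ℝ) ≤ ((n : ℝ) + 1) ^ 2 - 1 := by nlinarith
      calc (n:ℝ) ≤ ((n : ℝ) + 1) ^ 2 - 1 := h3
        _ = (((n : ℝ) + 1) ^ 2 - 1) * 1 := by ring
        _ ≤ _ := by gcongr; linarith
    nlinarith [pi_pos]
  have e2 : 2 * π ^ 2 * ((n : ℝ) + 1) ^ 4 * exp (9 * t) - 3 * π * ((n : ℝ) + 1) ^ 2 * exp (5 * t)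
      ≤ 2 * π ^ 2 * ((n : ℝ) + 1) ^ 4 * exp (9 * t) := by
    have : 0 ≤ 3 * π * ((n : ℝ) + 1) ^ 2 * exp (5 * t) := by positivity
    linarith
  rw [trm, cf]
  calc _ ≤ (2 * π ^ 2 * ((n : ℝ) + 1) ^ 4 * exp (9 * t))
        * exp (-(π * ((n : ℝ) + 1) ^ 2 * exp (4 * t))) := by gcongr
    _ ≤ (2 * π ^ 2 * ((n : ℝ) + 1) ^ 4 * exp (9 * t))
        * (exp (-(π * n)) * exp (-(π * exp (4 * t)))) := by gcongr
    _ = _ := by ring

theorem summable_trm {t : ℝ} (ht : 0 ≤ t) : Summable (fun n => trm n t) :=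
  Summable.of_nonneg_of_le (fun n => trm_nonneg n ht) (fun n => trm_le n ht)
    (summable_cf.mul_right _)

/-- The constant in the upper bound. -/
noncomputable def CC : ℝ := ∑' n, cf n

theorem CC_pos : 0 < CC :=
  summable_cf.tsum_pos cf_nonneg 0 (by rw [cf]; positivity)

theorem Phi_le {t : ℝ} (ht : 0 ≤ t) :
    Phi t ≤ CC * (exp (9 * t) * exp (-(π * exp (4 * t)))) := by
  rw [Phi_eq, CC, ← tsum_mul_right]
  exact (summable_trm ht).tsum_le_tsum (fun n => trm_le n ht) (summable_cf.mul_right _)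

theorem Phi_ge {t : ℝ} (ht : 0 ≤ t) : exp (-(π * exp (4 * t))) ≤ Phi t := by
  have h1 : trm 0 t ≤ Phi t := by
    rw [Phi_eq]
    exact (summable_trm ht).le_tsum 0 (fun n _ => trm_nonneg n ht)
  refine le_trans ?_ h1
  rw [trm_eq]
  have h2 := aux_ge (n := 0) ht
  have h3 : 1 ≤ exp (5 * t) := one_le_exp (by positivity)
  have h4 : (3:ℝ) < π := pi_gt_three
  simp only [Nat.cast_zero, zero_add, one_pow, mul_one] at h2 ⊢
  have h5 : 1 ≤ π * exp (5 * t) := by nlinarith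
  have h6 : 1 ≤ π * exp (5 * t) * (2 * π * exp (4 * t) - 3) :=
    one_le_mul_of_one_le_of_one_le h5 (by linarith)
  have h7 : 0 < exp (-(π * exp (4 * t))) := exp_pos _
  nlinarith

theorem Phi_pos {t : ℝ} (ht : 0 ≤ t) : 0 < Phi t := (exp_pos _).trans_le (Phi_ge ht)

theorem Phi_continuousOn (R : ℝ) : ContinuousOn Phi (Icc 0 R) := by
  have : Phi = fun t => ∑' n, trm n t := by ext t; rfl
  rw [this]
  apply continuousOn_tsum (u := fun n => cf n * (exp (9 * R) * 1))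
  · intro n
    unfold trm
    fun_prop
  · exact summable_cf.mul_right _
  · intro n t ht
    rw [Real.norm_eq_abs, abs_of_nonneg (trm_nonneg n ht.1)]
    refine (trm_le n ht.1).trans ?_
    have h1 := cf_nonneg n
    have h2 : exp (-(π * exp (4 * t))) ≤ 1 := by
      apply exp_le_one_iff.2
      have := pi_pos
      have := exp_pos (4 * t)
      nlinarith
    have h3 : exp (9 * t) ≤ exp (9 * R) := exp_le_exp.2 (by linarith [ht.2])
    gcongr

end Pool.Agent.Helper67.Xi
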