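import Pool.Agent.Helper67.XiCov

/-! Boxes, part A. -/

namespace Pool.Agent.Helper67.Xi

def bA0 : Box := ⟨7, 7, 26, 10, 81, 25970, 100000, 120, 1288, 26753, 1000, 1200, 0, true⟩

theorem kA0 : bA0.ok = true := by decide +kernel

def bA1 : Box := ⟨7, 7, 26, 10, 81, 26285, 100000, 195, 1771, 26796, 1000, 1400, 0, true⟩

theorem kA1 : bA1.ok = true := by decide +kernel

def bA2 : Box := ⟨7, 7, 27, 10, 80, 26733, 100000, 253, 2281, 26886, 1000, 1400, 0, true⟩

theorem kA2 : bA2.ok = true := by decide +kernel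

def bA3 : Box := ⟨7, 7, 27, 10, 79, 27279, 100000, 293, 2772, 27045, 1000, 1600, 0, true⟩

theorem kA3 : bA3.ok = true := by decide +kernel

def bA4 : Box := ⟨7, 7, 28, 10, 79, 27875, 100000, 303, 3221, 27290, 1000, 1600, 0, true⟩

theorem kA4 : bA4.ok = true := by decide +kernel

def bA5 : Box := ⟨7, 7, 29, 10, 79, 28466, 100000, 288, 3616, 27623, 1000, 1400, 0, true⟩

theorem kA5 : bA5.ok = true := by decide +kernel

def bA6 : Box := ⟨7, 7, 29, 10, 78, 29017, 100000, 263, 3969, 28032, 1000, 1400, 0, true⟩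

theorem kA6 : bA6.ok = true := by decide +kernel

def bA7 : Box := ⟨7, 7, 30, 10, 78, 29513, 100000, 233, 4308, 28505, 1000, 1400, 0, true⟩

theorem kA7 : bA7.ok = true := by decide +kernel

def bA8 : Box := ⟨7, 7, 31, 10, 78, 29955, 100000, 209, 4678, 29017, 1000, 1400, 0, true⟩

theorem kA8 : bA8.ok = true := by decide +kernel

def bA9 : Box := ⟨7, 7, 31, 8, 69, 30373, 100000, 209, 5142, 29543, 1000, 1600, 0, true⟩

theorem kA9 : bA9.ok = true := by decide +kernel

def bA10 : Box := ⟨7, 7, 32, 8, 68, 30827, 100000, 245, 5770, 30068, 1000, 1800, 0, true⟩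

theorem kA10 : bA10.ok = true := by decide +kernel

def bA11 : Box := ⟨7, 7, 32, 8, 67, 31365, 100000, 293, 6576, 30580, 1000, 2000, 0, true⟩

theorem kA11 : bA11.ok = true := by decide +kernel

theorem covA : Cov 25850 31658 :=
  ((cov_box bA0 (a := 25850) (b := 26090) kA0 rfl (by decide) (by decide)).trans
    ((cov_box bA1 (a := 26090) (b := 26480) kA1 rfl (by decide) (by decide)).trans
    ((cov_box bA2 (a := 26480) (b := 26986) kA2 rfl (by decide) (by decide)).trans
    ((cov_box bA3 (a := 26986) (b := 27572) kA3 rfl (by decide) (by decide)).trans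
    ((cov_box bA4 (a := 27572) (b := 28178) kA4 rfl (by decide) (by decide)).trans
    ((cov_box bA5 (a := 28178) (b := 28754) kA5 rfl (by decide) (by decide)).trans
    ((cov_box bA6 (a := 28754) (b := 29280) kA6 rfl (by decide) (by decide)).trans
    ((cov_box bA7 (a := 29280) (b := 29746) kA7 rfl (by decide) (by decide)).trans
    ((cov_box bA8 (a := 29746) (b := 30164) kA8 rfl (by decide) (by decide)).trans
    ((cov_box bA9 (a := 30164) (b := 30582) kA9 rfl (by decide) (by decide)).trans
    ((cov_box bA10 (a := 30582) (b := 31072) kA10 rfl (by decide) (by decide)).trans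
    (cov_box bA11 (a := 31072) (b := 31658) kA11 rfl (by decide) (by decide)))))))))))))

end Pool.Agent.Helper67.Xi
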