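import Pool.Agent.Helper67.XiCov

/-! Boxes, part B. -/

namespace Pool.Agent.Helper67.Xi

def bB0 : Box := ⟨7, 7, 33, 8, 66, 31985, 100000, 327, 7498, 31081, 1000, 2400, 0, true⟩

theorem kB0 : bB0.ok = true := by decide +kernel

def bB1 : Box := ⟨7, 7, 34, 8, 65, 32651, 100000, 339, 8472, 31581, 1000, 2400, 0, true⟩

theorem kB1 : bB1.ok = true := by decide +kernel

def bB2 : Box := ⟨7, 7, 35, 8, 64, 33323, 100000, 333, 9451, 32079, 1000, 2400, 0, true⟩

theorem kB2 : bB2.ok = true := by decide +kernel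

def bB3 : Box := ⟨7, 7, 37, 8, 63, 33983, 100000, 327, 10423, 32571, 1000, 2400, 0, true⟩

theorem kB3 : bB3.ok = true := by decide +kernel

def bB4 : Box := ⟨7, 7, 38, 8, 62, 34625, 100000, 315, 11388, 33057, 1000, 2400, 0, true⟩

theorem kB4 : bB4.ok = true := by decide +kernel

def bB5 : Box := ⟨7, 7, 39, 6, 53, 35243, 100000, 303, 12336, 33530, 1000, 2400, 0, true⟩

theorem kB5 : bB5.ok = true := by decide +kernel

def bB6 : Box := ⟨7, 7, 40, 6, 52, 35844, 100000, 298, 13281, 33997, 1000, 2400, 0, true⟩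

theorem kB6 : bB6.ok = true := by decide +kernel

def bB7 : Box := ⟨7, 7, 41, 6, 51, 36435, 100000, 293, 14231, 34463, 1000, 2400, 0, true⟩

theorem kB7 : bB7.ok = true := by decide +kernel

def bB8 : Box := ⟨7, 7, 42, 6, 50, 37016, 100000, 288, 15189, 34928, 1000, 2400, 0, true⟩

theorem kB8 : bB8.ok = true := by decide +kernel

def bB9 : Box := ⟨7, 7, 43, 6, 49, 37587, 100000, 283, 16154, 35392, 1000, 2400, 0, true⟩

theorem kB9 : bB9.ok = true := by decide +kernel

def bB10 : Box := ⟨7, 7, 44, 6, 48, 38148, 100000, 278, 17127, 35854, 1000, 2400, 0, true⟩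

theorem kB10 : bB10.ok = true := by decide +kernel

def bB11 : Box := ⟨7, 7, 45, 6, 47, 38699, 100000, 273, 18106, 36314, 1000, 2400, 0, true⟩

theorem kB11 : bB11.ok = true := by decide +kernel

theorem covB : Cov 31658 38972 :=
  ((cov_box bB0 (a := 31658) (b := 32312) kB0 rfl (by decide) (by decide)).trans
    ((cov_box bB1 (a := 32312) (b := 32990) kB1 rfl (by decide) (by decide)).trans
    ((cov_box bB2 (a := 32990) (b := 33656) kB2 rfl (by decide) (by decide)).trans
    ((cov_box bB3 (a := 33656) (b := 34310) kB3 rfl (by decide) (by decide)).trans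
    ((cov_box bB4 (a := 34310) (b := 34940) kB4 rfl (by decide) (by decide)).trans
    ((cov_box bB5 (a := 34940) (b := 35546) kB5 rfl (by decide) (by decide)).trans
    ((cov_box bB6 (a := 35546) (b := 36142) kB6 rfl (by decide) (by decide)).trans
    ((cov_box bB7 (a := 36142) (b := 36728) kB7 rfl (by decide) (by decide)).trans
    ((cov_box bB8 (a := 36728) (b := 37304) kB8 rfl (by decide) (by decide)).trans
    ((cov_box bB9 (a := 37304) (b := 37870) kB9 rfl (by decide) (by decide)).trans
    ((cov_box bB10 (a := 37870) (b := 38426) kB10 rfl (by decide) (by decide)).trans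
    (cov_box bB11 (a := 38426) (b := 38972) kB11 rfl (by decide) (by decide)))))))))))))

end Pool.Agent.Helper67.Xi
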