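import Pool.Agent.Helper67.XiCov

/-! Boxes, part C. -/

namespace Pool.Agent.Helper67.Xi

def bC0 : Box := ⟨7, 7, 47, 6, 46, 39240, 100000, 268, 19091, 36772, 1000, 2600, 0, true⟩

theorem kC0 : bC0.ok = true := by decide +kernel

def bC1 : Box := ⟨7, 7, 48, 6, 45, 39776, 100000, 268, 20091, 37232, 1000, 2600, 0, true⟩

theorem kC1 : bC1.ok = true := by decide +kernel

def bC2 : Box := ⟨7, 7, 49, 6, 44, 40307, 100000, 263, 21107, 37694, 1000, 2600, 0, true⟩

theorem kC2 : bC2.ok = true := by decide +kernel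

def bC3 : Box := ⟨7, 7, 50, 6, 43, 40828, 100000, 258, 22128, 38152, 1000, 2600, 0, true⟩

theorem kC3 : bC3.ok = true := by decide +kernel

def bC4 : Box := ⟨7, 7, 51, 6, 42, 41344, 100000, 258, 23163, 38611, 1000, 2600, 0, true⟩

theorem kC4 : bC4.ok = true := by decide +kernel

def bC5 : Box := ⟨7, 7, 52, 6, 41, 41855, 100000, 253, 24212, 39070, 1000, 2600, 0, true⟩

theorem kC5 : bC5.ok = true := by decide +kernel

def bC6 : Box := ⟨7, 7, 54, 6, 40, 42357, 100000, 249, 25267, 39527, 1000, 2600, 0, true⟩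

theorem kC6 : bC6.ok = true := by decide +kernel

def bC7 : Box := ⟨7, 7, 55, 6, 39, 42855, 100000, 249, 26338, 39985, 1000, 2600, 0, true⟩

theorem kC7 : bC7.ok = true := by decide +kernel

def bC8 : Box := ⟨7, 7, 56, 6, 38, 43349, 100000, 245, 27424, 40445, 1000, 2600, 0, true⟩

theorem kC8 : bC8.ok = true := by decide +kernel

def bC9 : Box := ⟨7, 7, 57, 6, 37, 43835, 100000, 241, 28516, 40901, 1000, 2600, 0, true⟩

theorem kC9 : bC9.ok = true := by decide +kernel

def bC10 : Box := ⟨7, 7, 59, 6, 36, 44313, 100000, 237, 29615, 41355, 1000, 2600, 0, true⟩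

theorem kC10 : bC10.ok = true := by decide +kernel

def bC11 : Box := ⟨7, 7, 60, 6, 34, 44779, 100000, 229, 30709, 41802, 1000, 2600, 0, true⟩

theorem kC11 : bC11.ok = true := by decide +kernel

theorem covC : Cov 38972 45008 :=
  ((cov_box bC0 (a := 38972) (b := 39508) kC0 rfl (by decide) (by decide)).trans
    ((cov_box bC1 (a := 39508) (b := 40044) kC1 rfl (by decide) (by decide)).trans
    ((cov_box bC2 (a := 40044) (b := 40570) kC2 rfl (by decide) (by decide)).trans
    ((cov_box bC3 (a := 40570) (b := 41086) kC3 rfl (by decide) (by decide)).trans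
    ((cov_box bC4 (a := 41086) (b := 41602) kC4 rfl (by decide) (by decide)).trans
    ((cov_box bC5 (a := 41602) (b := 42108) kC5 rfl (by decide) (by decide)).trans
    ((cov_box bC6 (a := 42108) (b := 42606) kC6 rfl (by decide) (by decide)).trans
    ((cov_box bC7 (a := 42606) (b := 43104) kC7 rfl (by decide) (by decide)).trans
    ((cov_box bC8 (a := 43104) (b := 43594) kC8 rfl (by decide) (by decide)).trans
    ((cov_box bC9 (a := 43594) (b := 44076) kC9 rfl (by decide) (by decide)).trans
    ((cov_box bC10 (a := 44076) (b := 44550) kC10 rfl (by decide) (by decide)).trans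
    (cov_box bC11 (a := 44550) (b := 45008) kC11 rfl (by decide) (by decide)))))))))))))

end Pool.Agent.Helper67.Xi
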