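import Pool.Agent.Helper67.XiCov

/-! Boxes, part D. -/

namespace Pool.Agent.Helper67.Xi

def bD0 : Box := ⟨7, 7, 61, 6, 33, 45233, 100000, 225, 31797, 42242, 1000, 2600, 0, true⟩

theorem kD0 : bD0.ok = true := by decide +kernel

def bD1 : Box := ⟨7, 7, 62, 0, 0, 45679, 100000, 221, 32887, 42678, 1000, 2600, 30, false⟩

theorem kD1 : bD1.ok = true := by decide +kernel

def bD2 : Box := ⟨7, 7, 64, 0, 0, 46121, 100000, 221, 33990, 43114, 1000, 2600, 31, false⟩

theorem kD2 : bD2.ok = true := by decide +kernel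

def bD3 : Box := ⟨7, 7, 65, 0, 0, 46563, 100000, 221, 35115, 43555, 1000, 2600, 32, false⟩

theorem kD3 : bD3.ok = true := by decide +kernel

def bD4 : Box := ⟨7, 7, 66, 0, 0, 47005, 100000, 221, 36262, 43999, 1000, 2600, 33, false⟩

theorem kD4 : bD4.ok = true := by decide +kernel

def bD5 : Box := ⟨7, 7, 68, 0, 0, 47447, 100000, 221, 37432, 44448, 1000, 2600, 34, false⟩

theorem kD5 : bD5.ok = true := by decide +kernel

def bD6 : Box := ⟨7, 7, 69, 0, 0, 47889, 100000, 221, 38626, 44901, 1000, 2600, 36, false⟩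

theorem kD6 : bD6.ok = true := by decide +kernel

def bD7 : Box := ⟨7, 7, 70, 0, 0, 48327, 100000, 217, 39833, 45354, 1000, 2600, 37, false⟩

theorem kD7 : bD7.ok = true := by decide +kernel

def bD8 : Box := ⟨7, 7, 72, 0, 0, 48757, 100000, 213, 41040, 45802, 1000, 2600, 38, false⟩

theorem kD8 : bD8.ok = true := by decide +kernel

def bD9 : Box := ⟨7, 7, 73, 0, 0, 49183, 100000, 213, 42259, 46251, 1000, 2600, 39, false⟩

theorem kD9 : bD9.ok = true := by decide +kernel

def bD10 : Box := ⟨7, 7, 75, 0, 0, 49605, 100000, 209, 43490, 46699, 1000, 2600, 40, false⟩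

theorem kD10 : bD10.ok = true := by decide +kernel

def bD11 : Box := ⟨7, 7, 76, 0, 0, 50019, 100000, 205, 44721, 47143, 1000, 2600, 40, false⟩

theorem kD11 : bD11.ok = true := by decide +kernel

theorem covD : Cov 45008 50224 :=
  ((cov_box bD0 (a := 45008) (b := 45458) kD0 rfl (by decide) (by decide)).trans
    ((cov_box bD1 (a := 45458) (b := 45900) kD1 rfl (by decide) (by decide)).trans
    ((cov_box bD2 (a := 45900) (b := 46342) kD2 rfl (by decide) (by decide)).trans
    ((cov_box bD3 (a := 46342) (b := 46784) kD3 rfl (by decide) (by decide)).trans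
    ((cov_box bD4 (a := 46784) (b := 47226) kD4 rfl (by decide) (by decide)).trans
    ((cov_box bD5 (a := 47226) (b := 47668) kD5 rfl (by decide) (by decide)).trans
    ((cov_box bD6 (a := 47668) (b := 48110) kD6 rfl (by decide) (by decide)).trans
    ((cov_box bD7 (a := 48110) (b := 48544) kD7 rfl (by decide) (by decide)).trans
    ((cov_box bD8 (a := 48544) (b := 48970) kD8 rfl (by decide) (by decide)).trans
    ((cov_box bD9 (a := 48970) (b := 49396) kD9 rfl (by decide) (by decide)).trans
    ((cov_box bD10 (a := 49396) (b := 49814) kD10 rfl (by decide) (by decide)).trans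
    (cov_box bD11 (a := 49814) (b := 50224) kD11 rfl (by decide) (by decide)))))))))))))

end Pool.Agent.Helper67.Xi
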