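import Pool.Agent.Helper67.XiCov

/-! Boxes, part E. -/

namespace Pool.Agent.Helper67.Xi

def bE0 : Box := ⟨7, 7, 78, 0, 0, 50425, 100000, 201, 45949, 47582, 1000, 2600, 40, false⟩

theorem kE0 : bE0.ok = true := by decide +kernel

def bE1 : Box := ⟨7, 7, 79, 0, 0, 50827, 100000, 201, 47188, 48020, 1000, 2600, 40, false⟩

theorem kE1 : bE1.ok = true := by decide +kernel

def bE2 : Box := ⟨7, 7, 80, 0, 0, 51226, 100000, 198, 48440, 48459, 1000, 2600, 40, false⟩

theorem kE2 : bE2.ok = true := by decide +kernel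

def bE3 : Box := ⟨7, 7, 82, 0, 0, 51619, 100000, 195, 49694, 48894, 1000, 2600, 40, false⟩

theorem kE3 : bE3.ok = true := by decide +kernel

def bE4 : Box := ⟨8, 7, 83, 0, 0, 52006, 100000, 192, 50951, 49327, 1000, 2600, 40, false⟩

theorem kE4 : bE4.ok = true := by decide +kernel

def bE5 : Box := ⟨8, 7, 85, 0, 0, 52387, 100000, 189, 52210, 49756, 1000, 2600, 40, false⟩

theorem kE5 : bE5.ok = true := by decide +kernel

def bE6 : Box := ⟨8, 7, 86, 0, 0, 52759, 100000, 183, 53459, 50178, 1000, 2600, 40, false⟩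

theorem kE6 : bE6.ok = true := by decide +kernel

def bE7 : Box := ⟨8, 7, 88, 0, 0, 53122, 100000, 180, 54699, 50593, 1000, 2600, 40, false⟩

theorem kE7 : bE7.ok = true := by decide +kernel

def bE8 : Box := ⟨8, 7, 89, 0, 0, 53479, 100000, 177, 55937, 51005, 1000, 2600, 40, false⟩

theorem kE8 : bE8.ok = true := by decide +kernel

def bE9 : Box := ⟨8, 7, 90, 0, 0, 53830, 100000, 174, 57174, 51412, 1000, 2600, 40, false⟩

theorem kE9 : bE9.ok = true := by decide +kernel

def bE10 : Box := ⟨8, 7, 92, 0, 0, 54175, 100000, 171, 58408, 51816, 1000, 2600, 40, false⟩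

theorem kE10 : bE10.ok = true := by decide +kernel

def bE11 : Box := ⟨8, 7, 93, 0, 0, 54511, 100000, 165, 59629, 52211, 1000, 2600, 40, false⟩

theorem kE11 : bE11.ok = true := by decide +kernel

theorem covE : Cov 50224 54676 :=
  ((cov_box bE0 (a := 50224) (b := 50626) kE0 rfl (by decide) (by decide)).trans
    ((cov_box bE1 (a := 50626) (b := 51028) kE1 rfl (by decide) (by decide)).trans
    ((cov_box bE2 (a := 51028) (b := 51424) kE2 rfl (by decide) (by decide)).trans
    ((cov_box bE3 (a := 51424) (b := 51814) kE3 rfl (by decide) (by decide)).trans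
    ((cov_box bE4 (a := 51814) (b := 52198) kE4 rfl (by decide) (by decide)).trans
    ((cov_box bE5 (a := 52198) (b := 52576) kE5 rfl (by decide) (by decide)).trans
    ((cov_box bE6 (a := 52576) (b := 52942) kE6 rfl (by decide) (by decide)).trans
    ((cov_box bE7 (a := 52942) (b := 53302) kE7 rfl (by decide) (by decide)).trans
    ((cov_box bE8 (a := 53302) (b := 53656) kE8 rfl (by decide) (by decide)).trans
    ((cov_box bE9 (a := 53656) (b := 54004) kE9 rfl (by decide) (by decide)).trans
    ((cov_box bE10 (a := 54004) (b := 54346) kE10 rfl (by decide) (by decide)).trans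
    (cov_box bE11 (a := 54346) (b := 54676) kE11 rfl (by decide) (by decide)))))))))))))

end Pool.Agent.Helper67.Xi
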