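import Pool.Agent.Helper67.XiCov

/-! Boxes, part F. -/

namespace Pool.Agent.Helper67.Xi

def bF0 : Box := ⟨8, 7, 95, 0, 0, 54838, 100000, 162, 60834, 52599, 1000, 2600, 40, false⟩

theorem kF0 : bF0.ok = true := by decide +kernel

def bF1 : Box := ⟨8, 7, 96, 0, 0, 55156, 100000, 156, 62023, 52978, 1000, 2600, 40, false⟩

theorem kF1 : bF1.ok = true := by decide +kernel

def bF2 : Box := ⟨8, 7, 97, 0, 0, 55465, 100000, 153, 63194, 53349, 1000, 2600, 40, false⟩

theorem kF2 : bF2.ok = true := by decide +kernel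

def bF3 : Box := ⟨8, 7, 99, 0, 0, 55764, 100000, 146, 64343, 53711, 1000, 2600, 40, false⟩

theorem kF3 : bF3.ok = true := by decide +kernel

def bF4 : Box := ⟨8, 7, 100, 0, 0, 56048, 100000, 138, 65448, 54056, 1000, 2600, 40, false⟩

theorem kF4 : bF4.ok = true := by decide +kernel

def bF5 : Box := ⟨8, 7, 101, 0, 0, 56316, 100000, 130, 66503, 54384, 1000, 2600, 40, false⟩

theorem kF5 : bF5.ok = true := by decide +kernel

def bF6 : Box := ⟨8, 7, 102, 0, 0, 56568, 100000, 122, 67507, 54693, 1000, 2600, 40, false⟩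

theorem kF6 : bF6.ok = true := by decide +kernel

def bF7 : Box := ⟨8, 7, 103, 0, 0, 56802, 100000, 112, 68449, 54983, 1000, 2600, 40, false⟩

theorem kF7 : bF7.ok = true := by decide +kernel

def bF8 : Box := ⟨8, 7, 104, 0, 0, 57014, 100000, 100, 69311, 55246, 1000, 2600, 40, false⟩

theorem kF8 : bF8.ok = true := by decide +kernel

def bF9 : Box := ⟨8, 7, 105, 0, 0, 57203, 100000, 89, 70087, 55481, 1000, 2600, 40, false⟩

theorem kF9 : bF9.ok = true := by decide +kernel

def bF10 : Box := ⟨8, 7, 106, 0, 0, 57369, 100000, 77, 70773, 55689, 1000, 2600, 40, false⟩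

theorem kF10 : bF10.ok = true := by decide +kernel

def bF11 : Box := ⟨8, 7, 107, 0, 0, 57511, 100000, 65, 71364, 55867, 1000, 2600, 40, false⟩

theorem kF11 : bF11.ok = true := by decide +kernel

theorem covF : Cov 54676 57576 :=
  ((cov_box bF0 (a := 54676) (b := 55000) kF0 rfl (by decide) (by decide)).trans
    ((cov_box bF1 (a := 55000) (b := 55312) kF1 rfl (by decide) (by decide)).trans
    ((cov_box bF2 (a := 55312) (b := 55618) kF2 rfl (by decide) (by decide)).trans
    ((cov_box bF3 (a := 55618) (b := 55910) kF3 rfl (by decide) (by decide)).trans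
    ((cov_box bF4 (a := 55910) (b := 56186) kF4 rfl (by decide) (by decide)).trans
    ((cov_box bF5 (a := 56186) (b := 56446) kF5 rfl (by decide) (by decide)).trans
    ((cov_box bF6 (a := 56446) (b := 56690) kF6 rfl (by decide) (by decide)).trans
    ((cov_box bF7 (a := 56690) (b := 56914) kF7 rfl (by decide) (by decide)).trans
    ((cov_box bF8 (a := 56914) (b := 57114) kF8 rfl (by decide) (by decide)).trans
    ((cov_box bF9 (a := 57114) (b := 57292) kF9 rfl (by decide) (by decide)).trans
    ((cov_box bF10 (a := 57292) (b := 57446) kF10 rfl (by decide) (by decide)).trans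
    (cov_box bF11 (a := 57446) (b := 57576) kF11 rfl (by decide) (by decide)))))))))))))

end Pool.Agent.Helper67.Xi
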