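import Pool.Agent.Helper67.XiEng9

/-! Covering intervals of the parameter by boxes. -/

namespace Pool.Agent.Helper67.Xi

/-- For all `R` in `[a, b] / 100000` the transform has a zero off the real axis. -/
def Cov (a b : ℤ) : Prop := ∀ R : ℝ, (a : ℝ) / 100000 ≤ R → R ≤ (b : ℝ) / 100000 →
  ∃ ζ : ℂ, ff R ζ = 0 ∧ 0 < ζ.re

theorem Cov.trans {a b c : ℤ} (h1 : Cov a b) (h2 : Cov b c) : Cov a c := by
  intro R ha hc
  rcases le_total R ((b : ℝ) / 100000) with h | h
  · exact h1 R ha h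
  · exact h2 R h hc

theorem cov_box (bx : Box) {a b : ℤ} (hok : bx.ok = true) (hrd : bx.rd = 100000)
    (ha : bx.rp - bx.dp = a) (hb : bx.rp + bx.dp = b) : Cov a b := by
  intro R h1 h2
  apply box_zero bx hok
  rw [hrd, abs_le]
  have ha' : (bx.rp : ℝ) - bx.dp = a := by exact_mod_cast ha
  have hb' : (bx.rp : ℝ) + bx.dp = b := by exact_mod_cast hb
  rw [← ha'] at h1
  rw [← hb'] at h2
  push_cast
  rw [sub_div] at h1
  rw [add_div] at h2
  constructor <;> linarith

end Pool.Agent.Helper67.Xi
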