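import Pool.Agent.Helper67.XiInterp

/-! Sign criterion for real zeros. -/

open MeasureTheory Set Real
open scoped ComplexConjugate Interval

namespace Pool.Agent.Helper67.Xi

theorem im_inv_real_sub (a : ℝ) (p : ℂ) :
    (((a : ℂ) - p)⁻¹).im = p.im / Complex.normSq ((a : ℂ) - p) := by
  rw [Complex.inv_im]; simp

theorem im_div_real_sub (r a : ℝ) (p : ℂ) :
    ((r : ℂ) / ((a : ℂ) - p)).im = p.im * (r / Complex.normSq ((a : ℂ) - p)) := by
  rw [div_eq_mul_inv, Complex.im_ofReal_mul, im_inv_real_sub]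
  ring

/-- key positivity statement -/
theorem no_zero_of_nonneg (a P : ℕ → ℝ) (p : ℂ) (s : ℝ) (q : ℝ) (hs : s ≤ 0)
    (h : HasSum (fun k => (a k : ℂ) / ((P k : ℂ) - p)) ((-s : ℝ) / (p - q))) (ha0 : 0 < a 0)
    (ha : ∀ k, 0 ≤ a k) :
    p.im = 0 := by
  by_contra hp
  have h1 := Complex.hasSum_im h
  have h3 : (((-s : ℝ) : ℂ) / (p - q)).im = p.im * (s / Complex.normSq ((q : ℂ) - p)) := by
    have : ((-s : ℝ) : ℂ) / (p - q) = (s : ℂ) / ((q : ℂ) - p) := by
      rw [← neg_sub p (q : ℂ), div_neg, ← neg_div]; push_cast; rfl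
    rw [this, im_div_real_sub]
  rw [h3] at h1
  simp only [im_div_real_sub] at h1
  have h4 := h1.mul_left (p.im)⁻¹
  simp only [← mul_assoc, inv_mul_cancel₀ hp, one_mul] at h4
  have hne : ∀ r : ℝ, 0 < Complex.normSq ((r : ℂ) - p) := by
    intro r
    rw [Complex.normSq_pos]
    intro h0
    apply hp
    have := congrArg Complex.im h0
    simpa using this
  have h5 : a 0 / Complex.normSq ((P 0 : ℂ) - p) ≤ s / Complex.normSq ((q : ℂ) - p) := by
    have := le_hasSum h4 0 (fun k _ => div_nonneg (ha k) (hne (P k)).le)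
    exact this
  have h6 : 0 < a 0 / Complex.normSq ((P 0 : ℂ) - p) := div_pos ha0 (hne _)
  have h7 : s / Complex.normSq ((q : ℂ) - p) ≤ 0 :=
    div_nonpos_of_nonpos_of_nonneg hs (hne _).le
  linarith

/-- Criterion with one exceptional node. -/
theorem no_zero_of_one_exception (a P : ℕ → ℝ) (p : ℂ) (s c : ℝ) (hs : s ≤ 0)
    (h : HasSum (fun k => (a k : ℂ) / ((P k : ℂ) - p)) 0)
    (hc : HasSum (fun k => a k / (P k - c)) s)
    (ha0 : 0 < a 0) (ha : ∀ k, 2 ≤ k → 0 ≤ a k)
    (h01 : P 0 < P 1) (h1c : P 1 < c) (hcP : ∀ k, 2 ≤ k → c < P k) :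
    p.im = 0 := by
  by_contra hp
  have hpne : ∀ r : ℝ, (p : ℂ) - r ≠ 0 := by
    intro r h0
    apply hp
    have := congrArg Complex.im h0
    simpa using this
  have hPc : ∀ k, P k - c ≠ 0 := by
    intro k
    rcases Nat.lt_or_ge k 2 with h2 | h2
    · have : k = 0 ∨ k = 1 := by omega
      rcases this with rfl | rfl
      · linarith
      · linarith
    · have := hcP k h2
      linarith
  have h1 := h.mul_left (p - (P 1 : ℂ))
  have h2 : HasSum (fun k => ((c - P 1 : ℝ) : ℂ) * ((a k : ℂ) / ((P k : ℂ) - c)))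
      (((c - P 1 : ℝ) : ℂ) * s) := by
    have := (Complex.hasSum_ofReal.2 hc).mul_left ((c - P 1 : ℝ) : ℂ)
    simpa using this
  have h3 := (h1.sub h2).mul_left ((p - c)⁻¹)
  have h4 : ∀ k, (p - (c : ℂ))⁻¹ * ((p - (P 1 : ℂ)) * ((a k : ℂ) / ((P k : ℂ) - p)) -
      ((c - P 1 : ℝ) : ℂ) * ((a k : ℂ) / ((P k : ℂ) - c))) =
      ((a k * ((P k - P 1) / (P k - c)) : ℝ) : ℂ) / ((P k : ℂ) - p) := by
    intro k
    have e1 : (P k : ℂ) - p ≠ 0 := by
      have := hpne (P k)
      intro h0; apply this; linear_combination -h0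
    have e2 := hpne c
    have e3 : (P k : ℂ) - c ≠ 0 := by
      exact_mod_cast hPc k
    push_cast
    field_simp
    ring
  simp only [h4] at h3
  have h5 : (p - (c : ℂ))⁻¹ * ((p - (P 1 : ℂ)) * 0 - ((c - P 1 : ℝ) : ℂ) * s) =
      ((-((c - P 1) * s) : ℝ) : ℂ) / (p - c) := by
    push_cast; field_simp; ring
  rw [h5] at h3
  refine hp (no_zero_of_nonneg (fun k => a k * ((P k - P 1) / (P k - c))) P p ((c - P 1) * s) c
    ?_ h3 ?_ ?_)
  · exact mul_nonpos_of_nonneg_of_nonpos (by linarith) hs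
  · apply mul_pos ha0
    apply div_pos_of_neg_of_neg <;> linarith
  · intro k
    rcases Nat.lt_or_ge k 2 with h2 | h2
    · have : k = 0 ∨ k = 1 := by omega
      rcases this with rfl | rfl
      · apply mul_nonneg ha0.le
        apply div_nonneg_of_nonpos <;> linarith
      · simp
    · have := hcP k h2
      apply mul_nonneg (ha k h2)
      apply div_nonneg <;> linarith

theorem cosTC_imag {φ : ℝ → ℝ} {R : ℝ} (hR : 0 < R) (hφ : ContinuousOn φ (Icc 0 R))
    (hpos : ∀ t ∈ Icc 0 R, 0 < φ t) (y : ℝ) : cosTC φ R (Complex.I * y) ≠ 0 := by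
  have h1 : cosTC φ R (Complex.I * y) = ((∫ t in (0:ℝ)..R, φ t * Real.cosh (y * t) : ℝ) : ℂ) := by
    rw [cosTC, ← intervalIntegral.integral_ofReal]
    congr 1
    ext t
    push_cast
    rw [mul_comm Complex.I, mul_right_comm, Complex.cos_mul_I]
  rw [h1]
  have h2 : 0 < ∫ t in (0:ℝ)..R, φ t * Real.cosh (y * t) := by
    apply intervalIntegral.intervalIntegral_pos_of_pos_on
    · apply ContinuousOn.intervalIntegrable
      rw [uIcc_of_le hR.le]
      exact hφ.mul (by fun_prop)
    · intro t ht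
      have := hpos t ⟨ht.1.le, ht.2.le⟩
      have := Real.cosh_pos (y * t)
      positivity
    · exact hR
  exact_mod_cast h2.ne'

theorem cos_ne_zero_of_im {z : ℂ} (hz : z.im ≠ 0) : Complex.cos z ≠ 0 := by
  intro h
  obtain ⟨k, hk⟩ := Complex.cos_eq_zero_iff.1 h
  apply hz
  rw [hk]
  have : ((2 * (k : ℂ) + 1) * π / 2) = (((2 * (k : ℝ) + 1) * π / 2 : ℝ) : ℂ) := by push_cast; ring
  rw [this, Complex.ofReal_im]

/-- The sign criterion. -/
theorem real_of_signs {φ : ℝ → ℝ} {R : ℝ} (hR : 0 < R) (hφ : ContinuousOn φ (Icc 0 R))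
    (hpos : ∀ t ∈ Icc 0 R, 0 < φ t) (c : ℝ) (hc1 : zk R 1 ≤ c) (hc2 : c < zk R 2)
    (hcneg : cosT φ R c ≤ 0) (h0 : 0 < cosT φ R (zk R 0))
    (hk : ∀ k : ℕ, 2 ≤ k → 0 ≤ (-1) ^ k * cosT φ R (zk R k)) (z : ℂ) (hz : cosTC φ R z = 0) :
    z.im = 0 := by
  by_contra him
  have hre : z.re ≠ 0 := by
    intro hre
    have : z = Complex.I * (z.im : ℂ) := by
      apply Complex.ext <;> simp [hre]
    rw [this] at hz
    exact cosTC_imag hR hφ hpos _ hz
  have him2 : (z ^ 2).im ≠ 0 := by
    have : (z ^ 2).im = 2 * z.re * z.im := by rw [pow_two, Complex.mul_im]; ring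
    rw [this]; positivity
  have hne : ∀ n : ℤ, ((zk R n : ℝ) : ℂ) ^ 2 - z ^ 2 ≠ 0 := by
    intro n h
    apply him2
    have h1 : z ^ 2 = (((zk R n) ^ 2 : ℝ) : ℂ) := by push_cast; linear_combination -h
    rw [h1, Complex.ofReal_im]
  have hcos : Complex.cos (z * R) ≠ 0 := by
    apply cos_ne_zero_of_im
    have : (z * (R : ℂ)).im = z.im * R := by simp
    rw [this]; positivity
  have h1 := (interp hR hφ z hne).mul_left (Complex.cos (z * R))⁻¹
  rw [hz, mul_zero] at h1
  simp only [← mul_assoc, inv_mul_cancel₀ hcos, one_mul] at h1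
  have hzpos : ∀ k : ℕ, 0 < zk R k := by
    intro k
    rw [zk]
    have : (0:ℝ) ≤ (k:ℝ) := Nat.cast_nonneg k
    push_cast
    positivity
  have hmono : ∀ k l : ℕ, k < l → zk R k < zk R l := by
    intro k l hkl
    rw [zk, zk]
    have : (k : ℝ) < l := by exact_mod_cast hkl
    push_cast
    gcongr
  set a : ℕ → ℝ := fun k => (-1) ^ k * (2 * zk R k / R) * cosT φ R (zk R k) with ha
  have h1' : HasSum (fun k => (a k : ℂ) / ((((zk R k) ^ 2 : ℝ) : ℂ) - z ^ 2)) 0 := by
    refine h1.congr_fun (fun k => ?_)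
    simp only [ha]
    rw [Complex.ofReal_pow]
  have ha0 : 0 < a 0 := by
    rw [ha]
    have := hzpos 0
    simp only [pow_zero, one_mul]
    have h0' : 0 < cosT φ R (zk R ((0 : ℕ) : ℤ)) := by simpa using h0
    positivity
  have hak : ∀ k, 2 ≤ k → 0 ≤ a k := by
    intro k hk2
    have e1 := hk k hk2
    have := hzpos k
    have e2 : a k = (2 * zk R k / R) * ((-1) ^ k * cosT φ R (zk R k)) := by rw [ha]; ring
    rw [e2]
    positivity
  rcases eq_or_lt_of_le hc1 with hc | hc
  · -- c = z_1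
    refine him2 (no_zero_of_nonneg a (fun k => (zk R k) ^ 2) (z ^ 2) 0 0 le_rfl ?_ ha0 ?_)
    · simpa using h1'
    · intro k
      rcases Nat.lt_or_ge k 2 with h2 | h2
      · have : k = 0 ∨ k = 1 := by omega
        rcases this with rfl | rfl
        · exact ha0.le
        · rw [ha]
          have e3 : cosT φ R (zk R ((1 : ℕ) : ℤ)) ≤ 0 := by
            rw [← hc] at hcneg; simpa using hcneg
          have := hzpos 1
          simp only [pow_one]
          have e4 : (-1 * (2 * zk R ((1:ℕ):ℤ) / R) * cosT φ R (zk R ((1:ℕ):ℤ))) =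
            (2 * zk R ((1:ℕ):ℤ) / R) * (-cosT φ R (zk R ((1:ℕ):ℤ))) := by ring
          rw [e4]
          have : 0 ≤ -cosT φ R (zk R ((1:ℕ):ℤ)) := by linarith
          positivity
      · exact hak k h2
  · have hc0 : 0 < c := by
      have := hzpos 1
      have : (0:ℝ) < zk R 1 := by simpa using this
      linarith
    have hcR : 0 < Real.cos (c * R) := by
      have e1 : 3 * π / 2 < c * R := by
        have : zk R 1 * R < c * R := by gcongr
        have e : zk R 1 * R = 3 * π / 2 := by rw [zk]; field_simp; push_cast; ring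
        linarith
      have e2 : c * R < 5 * π / 2 := by
        have : c * R < zk R 2 * R := by gcongr
        have e : zk R 2 * R = 5 * π / 2 := by rw [zk]; field_simp; push_cast; ring
        linarith
      have e3 : Real.cos (c * R) = Real.cos (c * R - 2 * π) := by rw [Real.cos_sub_two_pi]
      rw [e3]
      apply Real.cos_pos_of_mem_Ioo
      constructor <;> linarith
    have hne2 : ∀ n : ℤ, ((zk R n : ℝ) : ℂ) ^ 2 - ((c : ℝ) : ℂ) ^ 2 ≠ 0 := by
      intro n h
      have h2 : (zk R n) ^ 2 = c ^ 2 := by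
        have : (((zk R n) ^ 2 : ℝ) : ℂ) = ((c ^ 2 : ℝ) : ℂ) := by push_cast; linear_combination h
        exact_mod_cast this
      have h3 : Real.cos (zk R n * R) = Real.cos (c * R) := by
        rcases sq_eq_sq_iff_eq_or_eq_neg.1 h2 with h | h
        · rw [h]
        · rw [h, neg_mul, Real.cos_neg]
      rw [cos_zk_mul hR] at h3
      linarith
    have h2 := interp hR hφ (c : ℂ) hne2
    have hcc : Complex.cos ((c : ℂ) * R) ≠ 0 := by
      rw [← Complex.ofReal_mul, ← Complex.ofReal_cos]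
      exact_mod_cast hcR.ne'
    have h3 := h2.mul_left (Complex.cos ((c : ℂ) * R))⁻¹
    simp only [← mul_assoc, inv_mul_cancel₀ hcc, one_mul] at h3
    rw [cosTC_ofReal] at h3
    have h4 : HasSum (fun k => a k / ((zk R k) ^ 2 - c ^ 2)) ((Real.cos (c * R))⁻¹ * cosT φ R c) := by
      apply Complex.hasSum_ofReal.1
      have e5 : (((Real.cos (c * R))⁻¹ * cosT φ R c : ℝ) : ℂ) =
          (Complex.cos ((c : ℂ) * R))⁻¹ * ((cosT φ R c : ℝ) : ℂ) := by
        rw [Complex.ofReal_mul, Complex.ofReal_inv, Complex.ofReal_cos, Complex.ofReal_mul]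
      rw [e5]
      refine h3.congr_fun (fun k => ?_)
      simp only [ha]
      rw [Complex.ofReal_div, Complex.ofReal_sub, Complex.ofReal_pow, Complex.ofReal_pow]
    refine him2 (no_zero_of_one_exception a (fun k => (zk R k) ^ 2) (z ^ 2) _ (c ^ 2) ?_ h1' h4 ha0
      hak ?_ ?_ ?_)
    · exact mul_nonpos_of_nonneg_of_nonpos (by positivity) hcneg
    · have := hmono 0 1 (by norm_num)
      have := hzpos 0
      gcongr
    · have := hzpos 1
      have hc' : zk R ((1:ℕ):ℤ) < c := by simpa using hc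
      gcongr
    · intro k hk2
      have e1 : zk R 2 ≤ zk R k := by
        rcases eq_or_lt_of_le hk2 with h | h
        · rw [← h]; simp
        · have := (hmono 2 k h).le; simpa using this
      have : c < zk R k := lt_of_lt_of_le hc2 e1
      gcongr

end Pool.Agent.Helper67.Xi
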