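import Pool.Agent.Helper67.XiA
import Pool.Agent.Helper67.XiC
open Real Set MeasureTheory

namespace Pool.Agent.Helper67.Xi

theorem evt (c K : ℝ) (hc : 0 < c) : ∃ R₀ : ℝ, 2 ≤ R₀ ∧ ∀ R : ℝ, R₀ ≤ R →
    56 * R + K ≤ c * exp (4 * R) := by
  refine ⟨max 2 ((56 + |K|) / (8 * c)), le_max_left _ _, fun R hR => ?_⟩
  have h1 : 2 ≤ R := (le_max_left _ _).trans hR
  have h2 : (56 + |K|) / (8 * c) ≤ R := (le_max_right _ _).trans hR
  rw [div_le_iff₀ (by positivity)] at h2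
  have h3 := Real.quadratic_le_exp_of_nonneg (x := 4 * R) (by linarith)
  have h4 : 8 * R ^ 2 ≤ exp (4 * R) := by nlinarith
  have h5 : c * (8 * R ^ 2) ≤ c * exp (4 * R) := by gcongr
  have h6 : (56 + |K|) * R ≤ (R * (8 * c)) * R := by gcongr
  have h7 : K ≤ |K| := le_abs_self K
  have h8 : 0 ≤ |K| := abs_nonneg K
  nlinarith

theorem exp_neg_le_quad {x : ℝ} (hx : 0 ≤ x) : exp (-x) ≤ 1 - x + x ^ 2 / 2 := by
  have h1 := Real.quadratic_le_exp_of_nonneg hx
  rw [exp_neg, inv_le_comm₀ (exp_pos x) (by nlinarith [sq_nonneg (x - 1)])]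
  refine le_trans ?_ h1
  have h2 : 0 < 1 - x + x ^ 2 / 2 := by nlinarith [sq_nonneg (x - 1)]
  rw [inv_le_iff_one_le_mul₀ h2]
  nlinarith [sq_nonneg (x ^ 2)]

theorem zero_near (ε : ℝ) (hε : 0 < ε) : ∃ R₀ : ℝ, ∀ R : ℝ, R₀ ≤ R →
    ∃ ζ : ℂ, ff R ζ = 0 ∧ ‖ζ - ((4 * π * exp (4 * R) : ℝ) : ℂ)‖ < ε * exp (4 * R) := by
  have hpi := pi_pos
  have hpi3 : (3:ℝ) < π := pi_gt_three
  have hpi4 : π < 3.15 := pi_lt_d2
  set ρ := min ε (4 * π) with hρdef
  have hρ : 0 < ρ := lt_min hε (by positivity)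
  set δ := min (ρ / 8) (ρ ^ 3 / (245760 * π)) with hδdef
  have hδ : 0 < δ := lt_min (by positivity) (by positivity)
  have hδ1 : δ ≤ ρ / 8 := min_le_left _ _
  have hδ2 : δ ≤ ρ ^ 3 / (245760 * π) := min_le_right _ _
  have hρ4 : ρ ≤ 4 * π := min_le_right _ _
  have hρε : ρ ≤ ε := min_le_left _ _
  have hCC := CC_pos
  obtain ⟨R₁, hR₁, hR₁'⟩ := evt 1 (log CC + 4 * π + log 2) one_pos
  obtain ⟨R₂, hR₂, hR₂'⟩ := evt (δ ^ 2 / (64 * π))
    (4 * log CC + 16 * π + 2 * δ + 4 * log 2 + 1) (by positivity)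
  refine ⟨max R₁ R₂, fun R hR => ?_⟩
  have hRR1 : R₁ ≤ R := (le_max_left _ _).trans hR
  have hRR2 : R₂ ≤ R := (le_max_right _ _).trans hR
  have hR2 : 2 ≤ R := hR₁.trans hRR1
  have hR0 : 0 ≤ R := by linarith
  have b1 := hR₁' R hRR1
  have b2 := hR₂' R hRR2
  set N := exp (4 * R) with hN
  have hNpos : 0 < N := exp_pos _
  by_contra hcon
  push Not at hcon
  have hne : ∀ w ∈ Metric.ball (0:ℂ) ρ, ff R ((N : ℂ) * ((4 * π : ℝ) + w)) ≠ 0 := by
    intro w hw h0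
    have h1 := hcon _ h0
    have h2 : (N : ℂ) * ((4 * π : ℝ) + w) - ((4 * π * N : ℝ) : ℂ) = (N:ℂ) * w := by
      push_cast; ring
    rw [h2, norm_mul, Complex.norm_real, Real.norm_eq_abs, abs_of_pos hNpos] at h1
    have h3 : ‖w‖ < ρ := by simpa using hw
    nlinarith
  set F : ℂ → ℂ := fun w => ff R ((N:ℂ) * ((4 * π : ℝ) + w)) *
    Complex.exp (-(R * ((N:ℂ) * ((4 * π : ℝ) + w)))) with hF
  have hFd : DifferentiableOn ℂ F (Metric.ball 0 ρ) := by
    have h1 := ff_differentiable hR0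
    apply Differentiable.differentiableOn
    apply Differentiable.mul
    · exact h1.comp (by fun_prop)
    · fun_prop
  have hFne : ∀ w ∈ Metric.ball (0:ℂ) ρ, F w ≠ 0 := fun w hw =>
    mul_ne_zero (hne w hw) (Complex.exp_ne_zero _)
  have h0m : (0:ℂ) ∈ Metric.ball (0:ℂ) ρ := by simp [hρ]
  obtain ⟨l, hl, hl0, hlF⟩ := exists_log hρ F hFd hFne
  have hlog : ∀ w ∈ Metric.ball (0:ℂ) ρ, log ‖F w‖ = log ‖F 0‖ + (l w).re := by
    intro w hw
    rw [hlF w hw, norm_mul, Complex.norm_exp, log_mul, log_exp]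
    · exact norm_ne_zero_iff.2 (hFne 0 h0m)
    · exact (exp_pos _).ne'
  have hFreal : ∀ x : ℝ, F x =
      ((G R (N * (4 * π + x)) * exp (-(R * (N * (4 * π + x)))) : ℝ) : ℂ) := by
    intro x
    simp only [hF]
    rw [← Complex.ofReal_add, ← Complex.ofReal_mul, ff_ofReal]
    push_cast
    rfl
  have hη : exp (-(4 * R)) ≤ 1 := by
    apply exp_le_one_iff.2; linarith
  have hlow : ∀ x τ : ℝ, 0 ≤ 4 * π + x → 0 ≤ τ → τ ≤ 1 →
      -(4 * R) - log 2 + (-(π * N * exp (-(4 * τ))) - N * (4 * π + x) * τ - (4 * π + x))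
        ≤ log ‖F (x : ℂ)‖ := by
    intro x τ hx hτ hτ1
    have h1 := G_ge (R := R) (y := 4 * π + x) (τ := τ) hx hτ (by linarith)
    have h2 : 0 < exp (-(4 * R)) / 2 * exp (-(π * exp (4 * R) * exp (-(4 * τ))) -
      exp (4 * R) * (4 * π + x) * τ - (4 * π + x)) := by positivity
    have h3 := log_le_log h2 h1
    rw [log_mul (by positivity) (by positivity), log_div (by positivity) (by norm_num), log_exp,
      log_exp] at h3
    rw [hFreal, Complex.norm_real, Real.norm_eq_abs, log_abs]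
    exact h3
  have hlogR : log R ≤ R := by
    have := log_le_sub_one_of_pos (show 0 < R by linarith)
    linarith
  have hupc : ∀ w ∈ Metric.ball (0:ℂ) ρ, log ‖F w‖ ≤ log CC + 10 * R := by
    intro w hw
    have hw' : ‖w‖ < ρ := by simpa using hw
    have hre : 0 ≤ ((N:ℂ) * ((4 * π : ℝ) + w)).re := by
      have h1 : ((N:ℂ) * ((4 * π : ℝ) + w)).re = N * (4 * π + w.re) := by simp
      rw [h1]
      have h2 : |w.re| ≤ ‖w‖ := Complex.abs_re_le_norm w
      have h3 := neg_abs_le w.re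
      have : 0 ≤ 4 * π + w.re := by linarith
      positivity
    have h1 := norm_ff_le hR0 hre
    have h2 : 0 < ‖F w‖ := norm_pos_iff.2 (hFne w hw)
    have h3 := log_le_log h2 h1
    rw [log_mul (by linarith) (by positivity), log_mul (by positivity) (by positivity),
      log_exp] at h3
    linarith
  have hup : ∀ x : ℝ, 0 ≤ x → (x:ℂ) ∈ Metric.ball (0:ℂ) ρ →
      log ‖F x‖ ≤ log CC + 10 * R - π * N := by
    intro x hx hxm
    have h1 := G_le hR0 (y := 4 * π + x) (by linarith)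
    have h2 : 0 < ‖F x‖ := norm_pos_iff.2 (hFne x hxm)
    have h0 : 0 < G R (N * (4 * π + x)) * exp (-(R * (N * (4 * π + x)))) := by
      have h4 := G_ge (R := R) (y := 4 * π + x) (τ := 0) (by positivity) le_rfl (by linarith)
      refine lt_of_lt_of_le (by positivity) h4
    have h3 := log_le_log h0 h1
    have h5 : log (R * (CC * exp (9 * R)) * exp (-(π * exp (4 * R)))) =
        log R + (log CC + 9 * R) + -(π * exp (4 * R)) := by
      rw [log_mul (by positivity) (by positivity), log_mul (by linarith) (by positivity),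
        log_mul (by positivity) (by positivity), log_exp, log_exp]
    rw [h5] at h3
    rw [hFreal, Complex.norm_real, Real.norm_eq_abs, log_abs]
    linarith
  have hre : ∀ w ∈ Metric.ball (0:ℂ) ρ, (l w).re ≤ 5 * N := by
    intro w hw
    have h1 := hlog w hw
    have h2 := hupc w hw
    have h3 := hlow 0 0 (by positivity) le_rfl zero_le_one
    simp only [mul_zero, neg_zero, exp_zero, mul_one, sub_zero, add_zero,
      Complex.ofReal_zero] at h3
    nlinarith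
  have h3 := third_diff hρ (by positivity : 0 < 5 * N) l hl hl0 hre hδ (by linarith)
  have hτ0 : 0 ≤ δ / (16 * π) := by positivity
  have hτ1 : δ / (16 * π) ≤ 1 := by
    rw [div_le_one (by positivity)]; linarith
  have m1 : ((2 * δ : ℝ) : ℂ) ∈ Metric.ball (0:ℂ) ρ := by
    rw [mem_ball_zero_iff, Complex.norm_real, Real.norm_eq_abs, abs_of_pos (by positivity)]
    linarith
  have m2 : (δ : ℂ) ∈ Metric.ball (0:ℂ) ρ := by
    rw [mem_ball_zero_iff, Complex.norm_real, Real.norm_eq_abs, abs_of_pos (by positivity)]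
    linarith
  have m3 : ((-δ : ℝ) : ℂ) ∈ Metric.ball (0:ℂ) ρ := by
    rw [mem_ball_zero_iff, Complex.norm_real, Real.norm_eq_abs, abs_neg, abs_of_pos hδ]
    linarith
  have u2 := hup (2 * δ) (by positivity) m1
  have u0 := hup 0 le_rfl (by simpa using h0m)
  have l1 := hlow δ 0 (by positivity) le_rfl zero_le_one
  have lm := hlow (-δ) (δ / (16 * π)) (by linarith) hτ0 hτ1
  simp only [mul_zero, neg_zero, exp_zero, mul_one, sub_zero, Complex.ofReal_zero] at u0 l1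
  have g2 := hlog _ m1
  have g1 := hlog _ m2
  have gm := hlog _ m3
  have e1 : exp (-(4 * (δ / (16 * π)))) ≤ 1 - 4 * (δ / (16 * π)) + (4 * (δ / (16 * π))) ^ 2 / 2 :=
    exp_neg_le_quad (by positivity)
  have e2 : π * N * exp (-(4 * (δ / (16 * π)))) + N * (4 * π + -δ) * (δ / (16 * π)) ≤
      π * N - N * (δ ^ 2 / (32 * π)) := by
    calc _ ≤ π * N * (1 - 4 * (δ / (16 * π)) + (4 * (δ / (16 * π))) ^ 2 / 2) +
          N * (4 * π + -δ) * (δ / (16 * π)) := by gcongr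
      _ = _ := by field_simp; ring
  have hδ3 : 768 * (5 * N) / ρ ^ 3 * δ ^ 3 ≤ N * (δ ^ 2 / (64 * π)) := by
    have : 768 * (5 * N) / ρ ^ 3 * δ ^ 3 = N * δ ^ 2 * (3840 / ρ ^ 3) * δ := by ring
    rw [this]
    calc _ ≤ N * δ ^ 2 * (3840 / ρ ^ 3) * (ρ ^ 3 / (245760 * π)) := by gcongr
      _ = _ := by field_simp; norm_num
  have hre3 : -(768 * (5 * N) / ρ ^ 3 * δ ^ 3) ≤
      (l ((2 * δ : ℝ) : ℂ)).re - 3 * (l (δ : ℂ)).re - (l ((-δ : ℝ) : ℂ)).re := by
    have h4 := Complex.abs_re_le_norm (l ((2 * δ : ℝ) : ℂ) - 3 * l (δ : ℂ) - l ((-δ : ℝ) : ℂ))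
    have h5 : (l ((2 * δ : ℝ) : ℂ) - 3 * l (δ : ℂ) - l ((-δ : ℝ) : ℂ)).re =
      (l ((2 * δ : ℝ) : ℂ)).re - 3 * (l (δ : ℂ)).re - (l ((-δ : ℝ) : ℂ)).re := by simp
    rw [h5] at h4
    have h6 := (abs_le.1 (h4.trans h3)).1
    exact h6
  have hdd : δ ^ 2 / (32 * π) = 2 * (δ ^ 2 / (64 * π)) := by ring
  rw [hdd] at e2
  have b2' : 56 * R + (4 * log CC + 16 * π + 2 * δ + 4 * log 2 + 1) ≤ N * (δ ^ 2 / (64 * π)) := by
    rw [mul_comm N]; exact b2
  linarith

end Pool.Agent.Helper67.Xi
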