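import Mathlib

/-!
Definitions for the truncated cosine transform of the Riemann Xi kernel.
-/

namespace Pool.Agent.Helper67.Xi

/-- The kernel `Φ(t) = ∑_{n ≥ 1} (2π²n⁴e^{9t} - 3πn²e^{5t}) exp(-πn²e^{4t})`
(the sum is indexed by `n : ℕ`, the summation variable being `n + 1`). -/
noncomputable def Phi (t : ℝ) : ℝ :=
  ∑' n : ℕ, (2 * Real.pi ^ 2 * ((n : ℝ) + 1) ^ 4 * Real.exp (9 * t)
    - 3 * Real.pi * ((n : ℝ) + 1) ^ 2 * Real.exp (5 * t))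
    * Real.exp (-(Real.pi * ((n : ℝ) + 1) ^ 2 * Real.exp (4 * t)))

/-- The truncated cosine transform `H_R(z) = ∫_0^R Φ(t) cos(zt) dt`. -/
noncomputable def H (R : ℝ) (z : ℂ) : ℂ :=
  ∫ t in (0 : ℝ)..R, (Phi t : ℂ) * Complex.cos (z * (t : ℂ))

end Pool.Agent.Helper67.Xi
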