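import Mathlib

/-! Fixed point complex ball arithmetic. -/

namespace Pool.Agent.Helper67.Xi

/-- scale (a large odd number, which spreads the hash values of its multiples) -/
def SC : ℕ := 1000000000000000000000007

theorem SC_pos : (0 : ℝ) < (SC : ℝ) := by norm_num [SC]
theorem SCZ_pos : (0 : ℤ) < (SC : ℤ) := by norm_num [SC]

structure CB where
  re : ℤ
  im : ℤ
  rad : ℕ
deriving DecidableEq

/-- centre as a complex number (scaled) -/
noncomputable def CB.ctr (b : CB) : ℂ := (b.re : ℂ) + (b.im : ℂ) * Complex.I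

/-- `z` lies in the ball `b`. -/
def CB.mem (z : ℂ) (b : CB) : Prop := ‖z * (SC : ℂ) - b.ctr‖ ≤ (b.rad : ℝ)

def CB.add (a b : CB) : CB := ⟨a.re + b.re, a.im + b.im, a.rad + b.rad⟩
def CB.sub (a b : CB) : CB := ⟨a.re - b.re, a.im - b.im, a.rad + b.rad⟩
def CB.neg (a : CB) : CB := ⟨-a.re, -a.im, a.rad⟩
/-- an upper bound for the (scaled) norm of the centre -/
def CB.n1 (a : CB) : ℕ := a.re.natAbs + a.im.natAbs

def CB.mul (a b : CB) : CB :=
  ⟨(a.re * b.re - a.im * b.im) / (SC : ℤ), (a.re * b.im + a.im * b.re) / (SC : ℤ),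
    (a.n1 * b.rad + b.n1 * a.rad + a.rad * b.rad) / SC + 3⟩

def CB.mulInt (n : ℤ) (a : CB) : CB := ⟨n * a.re, n * a.im, n.natAbs * a.rad⟩
def CB.divNat (a : CB) (n : ℕ) : CB := ⟨a.re / (n : ℤ), a.im / (n : ℤ), a.rad / n + 3⟩

/-- widen a ball -/
def CB.widen (a : CB) (n : ℕ) : CB := ⟨a.re, a.im, a.rad + n⟩

def CB.ofInt (n : ℤ) : CB := ⟨n * SC, 0, 0⟩

theorem norm_ctr_le (a : CB) : ‖a.ctr‖ ≤ (a.n1 : ℝ) := by
  rw [CB.ctr, CB.n1]
  refine (norm_add_le _ _).trans ?_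
  rw [norm_mul, Complex.norm_I, mul_one, Complex.norm_intCast, Complex.norm_intCast]
  push_cast
  rw [Nat.cast_natAbs, Nat.cast_natAbs]
  push_cast
  exact le_rfl

theorem norm_le_of_mem {z : ℂ} {a : CB} (h : CB.mem z a) :
    ‖z * (SC : ℂ)‖ ≤ (a.n1 + a.rad : ℝ) := by
  have h1 : z * (SC : ℂ) = a.ctr + (z * (SC : ℂ) - a.ctr) := by ring
  rw [h1]
  refine (norm_add_le _ _).trans ?_
  exact add_le_add (norm_ctr_le a) h

theorem mem_add {z w : ℂ} {a b : CB} (hz : CB.mem z a) (hw : CB.mem w b) :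
    CB.mem (z + w) (a.add b) := by
  unfold CB.mem at *
  have h : (z + w) * (SC : ℂ) - (a.add b).ctr =
      (z * (SC : ℂ) - a.ctr) + (w * (SC : ℂ) - b.ctr) := by
    simp only [CB.add, CB.ctr]; push_cast; ring
  rw [h]
  refine (norm_add_le _ _).trans ?_
  simp only [CB.add]
  push_cast
  exact add_le_add hz hw

theorem mem_sub {z w : ℂ} {a b : CB} (hz : CB.mem z a) (hw : CB.mem w b) :
    CB.mem (z - w) (a.sub b) := by
  unfold CB.mem at *
  have h : (z - w) * (SC : ℂ) - (a.sub b).ctr =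
      (z * (SC : ℂ) - a.ctr) - (w * (SC : ℂ) - b.ctr) := by
    simp only [CB.sub, CB.ctr]; push_cast; ring
  rw [h]
  refine (norm_sub_le _ _).trans ?_
  simp only [CB.sub]
  push_cast
  exact add_le_add hz hw

theorem mem_neg {z : ℂ} {a : CB} (hz : CB.mem z a) : CB.mem (-z) a.neg := by
  unfold CB.mem at *
  have h : (-z) * (SC : ℂ) - a.neg.ctr = -(z * (SC : ℂ) - a.ctr) := by
    simp only [CB.neg, CB.ctr]; push_cast; ring
  rw [h, norm_neg]
  exact hz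

theorem mem_ofInt (n : ℤ) : CB.mem (n : ℂ) (CB.ofInt n) := by
  unfold CB.mem
  simp [CB.ofInt, CB.ctr]

theorem mem_widen {z w : ℂ} {a : CB} {n : ℕ} (hz : CB.mem z a)
    (h : ‖(w - z) * (SC : ℂ)‖ ≤ n) : CB.mem w (a.widen n) := by
  unfold CB.mem at *
  have h1 : w * (SC : ℂ) - (a.widen n).ctr = (z * (SC : ℂ) - a.ctr) + (w - z) * (SC : ℂ) := by
    simp only [CB.widen, CB.ctr]; ring
  rw [h1]
  refine (norm_add_le _ _).trans ?_
  simp only [CB.widen]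
  push_cast
  exact add_le_add hz h

/-- rounding error of the floor division of both coordinates -/
theorem round_err (p q : ℤ) (n : ℕ) (hn : 0 < n) :
    ‖((p : ℂ) + (q : ℂ) * Complex.I) / (n : ℂ) - (((p / (n : ℤ) : ℤ) : ℂ) +
      ((q / (n : ℤ) : ℤ) : ℂ) * Complex.I)‖ ≤ 2 := by
  have hnr : (0 : ℝ) < n := by exact_mod_cast hn
  have key : ∀ m : ℤ, |(m : ℝ) / n - ((m / (n : ℤ) : ℤ) : ℝ)| ≤ 1 := by
    intro m
    have h1 := Int.emod_add_mul_ediv m (n : ℤ)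
    have h2 := Int.emod_nonneg m (by omega : (n : ℤ) ≠ 0)
    have h3 := Int.emod_lt_of_pos m (by omega : (0 : ℤ) < n)
    have h4 : (m : ℝ) = ((m % (n : ℤ) : ℤ) : ℝ) + n * ((m / (n : ℤ) : ℤ) : ℝ) := by
      exact_mod_cast h1.symm
    have h5 : (m : ℝ) / n - ((m / (n : ℤ) : ℤ) : ℝ) = ((m % (n : ℤ) : ℤ) : ℝ) / n := by
      rw [h4]; field_simp; ring
    rw [h5, abs_of_nonneg (by
      apply div_nonneg _ hnr.le
      exact_mod_cast h2), div_le_one hnr]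
    exact_mod_cast h3.le
  have h6 : ((p : ℂ) + (q : ℂ) * Complex.I) / (n : ℂ) - (((p / (n : ℤ) : ℤ) : ℂ) +
      ((q / (n : ℤ) : ℤ) : ℂ) * Complex.I) =
      (((p : ℝ) / n - ((p / (n : ℤ) : ℤ) : ℝ) : ℝ) : ℂ) +
      (((q : ℝ) / n - ((q / (n : ℤ) : ℤ) : ℝ) : ℝ) : ℂ) * Complex.I := by
    push_cast; ring
  rw [h6]
  refine (norm_add_le _ _).trans ?_
  rw [norm_mul, Complex.norm_I, mul_one, Complex.norm_real, Complex.norm_real,
    Real.norm_eq_abs, Real.norm_eq_abs]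
  linarith [key p, key q]

theorem nat_div_ceil (m n : ℕ) (hn : 0 < n) : (m : ℝ) / n ≤ (m / n : ℕ) + 1 := by
  have h1 := Nat.lt_div_mul_add (a := m) hn
  have hnr : (0 : ℝ) < n := by exact_mod_cast hn
  rw [div_le_iff₀ hnr]
  have h2 : (m : ℝ) < (m / n : ℕ) * n + n := by exact_mod_cast h1
  linarith

theorem mem_mul {z w : ℂ} {a b : CB} (hz : CB.mem z a) (hw : CB.mem w b) :
    CB.mem (z * w) (a.mul b) := by
  have hS := SC_pos
  have hSC : (0 : ℕ) < SC := by norm_num [SC]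
  have hSc : (SC : ℂ) ≠ 0 := by exact_mod_cast hS.ne'
  have hna := norm_ctr_le a
  have hnb := norm_ctr_le b
  unfold CB.mem at hz hw
  set δ := z * (SC : ℂ) - a.ctr with hδ
  set ε := w * (SC : ℂ) - b.ctr with hε
  have e1 : z * w * (SC : ℂ) - (a.mul b).ctr =
      (a.ctr * ε + b.ctr * δ + δ * ε) / (SC : ℂ) +
      (a.ctr * b.ctr / (SC : ℂ) - (a.mul b).ctr) := by
    have h1 : z = (a.ctr + δ) / (SC : ℂ) := by rw [hδ]; field_simp; ring
    have h2 : w = (b.ctr + ε) / (SC : ℂ) := by rw [hε]; field_simp; ring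
    rw [h1, h2]
    field_simp
    ring
  have e2 : a.ctr * b.ctr / (SC : ℂ) - (a.mul b).ctr =
      (((a.re * b.re - a.im * b.im : ℤ) : ℂ) + ((a.re * b.im + a.im * b.re : ℤ) : ℂ) * Complex.I)
        / ((SC : ℕ) : ℂ) - (((((a.re * b.re - a.im * b.im) / (SC : ℤ) : ℤ)) : ℂ) +
      ((((a.re * b.im + a.im * b.re) / (SC : ℤ) : ℤ)) : ℂ) * Complex.I) := by
    simp only [CB.mul, CB.ctr]
    push_cast
    have : Complex.I ^ 2 = -1 := Complex.I_sq
    ring_nf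
    rw [this]
    ring
  have e3 := round_err (a.re * b.re - a.im * b.im) (a.re * b.im + a.im * b.re) SC hSC
  rw [← e2] at e3
  unfold CB.mem
  rw [e1]
  refine (norm_add_le _ _).trans ?_
  have e4 : ‖(a.ctr * ε + b.ctr * δ + δ * ε) / (SC : ℂ)‖ ≤
      ((a.n1 * b.rad + b.n1 * a.rad + a.rad * b.rad : ℕ) : ℝ) / (SC : ℕ) := by
    rw [norm_div, Complex.norm_natCast]
    apply div_le_div_of_nonneg_right _ hS.le
    refine (norm_add₃_le).trans ?_
    rw [norm_mul, norm_mul, norm_mul]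
    push_cast
    have i1 : ‖a.ctr‖ * ‖ε‖ ≤ (a.n1 : ℝ) * b.rad := mul_le_mul hna hw (norm_nonneg _) (by positivity)
    have i2 : ‖b.ctr‖ * ‖δ‖ ≤ (b.n1 : ℝ) * a.rad := mul_le_mul hnb hz (norm_nonneg _) (by positivity)
    have i3 : ‖δ‖ * ‖ε‖ ≤ (a.rad : ℝ) * b.rad := mul_le_mul hz hw (norm_nonneg _) (by positivity)
    linarith
  have e5 := nat_div_ceil (a.n1 * b.rad + b.n1 * a.rad + a.rad * b.rad) SC hSC
  have e6 : ((a.mul b).rad : ℝ) =
      ((a.n1 * b.rad + b.n1 * a.rad + a.rad * b.rad) / SC : ℕ) + 3 := by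
    simp only [CB.mul]; push_cast; ring
  rw [e6]
  linarith

theorem mem_mulInt (n : ℤ) {z : ℂ} {a : CB} (hz : CB.mem z a) :
    CB.mem ((n : ℂ) * z) (CB.mulInt n a) := by
  unfold CB.mem at *
  have h : (n : ℂ) * z * (SC : ℂ) - (CB.mulInt n a).ctr = (n : ℂ) * (z * (SC : ℂ) - a.ctr) := by
    simp only [CB.mulInt, CB.ctr]; push_cast; ring
  rw [h, norm_mul, Complex.norm_intCast]
  simp only [CB.mulInt]
  push_cast
  rw [Nat.cast_natAbs]
  push_cast
  gcongr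

theorem mem_divNat {z : ℂ} {a : CB} (n : ℕ) (hn : 0 < n) (hz : CB.mem z a) :
    CB.mem (z / (n : ℂ)) (a.divNat n) := by
  have hnr : (0 : ℝ) < n := by exact_mod_cast hn
  unfold CB.mem at *
  have h : z / (n : ℂ) * (SC : ℂ) - (a.divNat n).ctr = (z * (SC : ℂ) - a.ctr) / (n : ℂ) +
      (((a.re : ℂ) + (a.im : ℂ) * Complex.I) / (n : ℂ) - (((a.re / (n : ℤ) : ℤ) : ℂ) +
      ((a.im / (n : ℤ) : ℤ) : ℂ) * Complex.I)) := by
    simp only [CB.divNat, CB.ctr]; ring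
  rw [h]
  refine (norm_add_le _ _).trans ?_
  have h2 : ‖(z * (SC : ℂ) - a.ctr) / (n : ℂ)‖ ≤ (a.rad : ℝ) / n := by
    rw [norm_div, Complex.norm_natCast]
    gcongr
  have h3 := nat_div_ceil a.rad n hn
  have h4 := round_err a.re a.im n hn
  have h5 : ((a.divNat n).rad : ℝ) = ((a.rad / n : ℕ) : ℝ) + 3 := by
    simp only [CB.divNat]; push_cast; ring
  rw [h5]
  linarith

end Pool.Agent.Helper67.Xi
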