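import Pool.Agent.Helper67.XiEng7

/-! Downward recursion, used for the second term of the kernel. -/

open MeasureTheory Set
open scoped Interval

namespace Pool.Agent.Helper67.Xi

noncomputable def Dx (X : ℂ) : ℂ → ℕ → ℂ
  | _, 0 => 0
  | c, (n + 1) => (1 + (c - 4) * Dx X (c - 4) n) / X

noncomputable def Ux (X : ℂ) (R y : ℝ) : ℂ → ℕ → ℂ
  | _, 0 => 0
  | c, (n + 1) => (Complex.exp ((c - 4) * R - y * Complex.exp (4 * R)) +
      (c - 4) * Ux X R y (c - 4) n) / X

noncomputable def Qx (X : ℂ) : ℂ → ℕ → ℂ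
  | _, 0 => 1
  | c, (n + 1) => (c - 4) / X * Qx X (c - 4) n

theorem IY_down {R y : ℝ} (hy : 0 < y) : ∀ (J : ℕ) (c : ℂ),
    IY R y c = Complex.exp (-y) * Dx (4 * y) c J - Ux (4 * y) R y c J +
      Qx (4 * y) c J * IY R y (c - 4 * J) := by
  have hyc : (y : ℂ) ≠ 0 := by exact_mod_cast hy.ne'
  intro J
  induction J with
  | zero => intro c; simp [Dx, Ux, Qx]
  | succ J ih =>
    intro c
    have h1 := IY_parts R y (c - 4)
    rw [show c - 4 + 4 = c by ring] at h1
    have h2 := ih (c - 4)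
    have h3 : c - 4 * ((J + 1 : ℕ) : ℂ) = c - 4 - 4 * (J : ℂ) := by push_cast; ring
    rw [h3]
    have h4 : IY R y c = ((c - 4) * IY R y (c - 4) -
        Complex.exp ((c - 4) * R - y * Complex.exp (4 * R)) + Complex.exp (-y)) / (4 * y) := by
      rw [h1]; field_simp; ring
    rw [h4]
    nth_rewrite 1 [h2]
    simp only [Dx, Ux, Qx]
    field_simp
    ring

theorem norm_IY_le' {R y : ℝ} (hR : 0 ≤ R) (hy : 0 ≤ y) {c : ℂ} {l : ℝ} (hl : 0 < l)
    (hc : c.re + l ≤ 4 * y) : ‖IY R y c‖ ≤ Real.exp (-y) / l := by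
  have h1 : ‖IY R y c‖ ≤ ∫ t in (0 : ℝ)..R, Real.exp (-y) * Real.exp (-(l * t)) := by
    rw [IY]
    refine (intervalIntegral.norm_integral_le_integral_norm hR).trans ?_
    apply intervalIntegral.integral_mono_on hR
    · apply Continuous.intervalIntegrable; fun_prop
    · apply Continuous.intervalIntegrable; fun_prop
    · intro t ht
      rw [Complex.norm_exp, ← Real.exp_add]
      apply Real.exp_le_exp.2
      have e1 : (c * t - y * Complex.exp (4 * t)).re = c.re * t - y * Real.exp (4 * t) := by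
        have : (4 * (t : ℂ)) = ((4 * t : ℝ) : ℂ) := by push_cast; ring
        rw [this, ← Complex.ofReal_exp, Complex.sub_re, ← Complex.ofReal_mul, Complex.ofReal_re,
          Complex.re_mul_ofReal]
      rw [e1]
      have e3 : 1 + 4 * t ≤ Real.exp (4 * t) := by
        have := Real.add_one_le_exp (4 * t)
        linarith
      have e4 : y * (1 + 4 * t) ≤ y * Real.exp (4 * t) := by gcongr
      have e5 : 0 ≤ (4 * y - (c.re + l)) * t := mul_nonneg (by linarith) ht.1
      nlinarith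
  refine h1.trans ?_
  have hd : ∀ t : ℝ, HasDerivAt (fun t : ℝ => -(Real.exp (-y) / l) * Real.exp (-(l * t)))
      (Real.exp (-y) * Real.exp (-(l * t))) t := by
    intro t
    have h2 : HasDerivAt (fun t : ℝ => Real.exp (-(l * t))) (Real.exp (-(l * t)) * (-l)) t := by
      have := ((hasDerivAt_id t).const_mul l).neg.exp
      simpa using this
    refine (h2.const_mul (-(Real.exp (-y) / l))).congr_deriv ?_
    field_simp
  rw [intervalIntegral.integral_eq_sub_of_hasDerivAt (fun t _ => hd t)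
    (by apply Continuous.intervalIntegrable; fun_prop)]
  have h3 := Real.exp_pos (-(l * R))
  have h4 := Real.exp_pos (-y)
  have h5 : 0 ≤ Real.exp (-y) / l * Real.exp (-(l * R)) := by positivity
  simp only [mul_zero, neg_zero, Real.exp_zero, mul_one]
  linarith

def chainD (iX T : CB) (len : ℕ) : CB → ℕ → List CB
  | _, 0 => tZero len
  | B, (n + 1) => tScale iX (tAddC CB.one (tMulLin (B.sub CB.four) T
      (chainD iX T len (B.sub CB.four) n)))

theorem chainD_ne (iX T : CB) (len : ℕ) (hlen : 0 < len) : ∀ (n : ℕ) (B : CB),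
    chainD iX T len B n ≠ [] := by
  intro n
  cases n with
  | zero =>
    intro B
    obtain ⟨m, rfl⟩ : ∃ m, len = m + 1 := ⟨len - 1, by omega⟩
    simp [chainD, tZero]
  | succ n =>
    intro B
    rw [chainD]
    apply tScale_ne
    generalize tMulLin (B.sub CB.four) T (chainD iX T len (B.sub CB.four) n) = L
    cases L <;> simp [tAddC]

theorem pmem_chainD {X : ℂ} {iX T : CB} {len : ℕ} (hlen : 0 < len) {v t : ℂ} (hv : ‖v‖ ≤ 1)
    (hx : CB.mem X⁻¹ iX) (ht : CB.mem t T) : ∀ (n : ℕ) (B : CB) (s : ℂ),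
    CB.mem s B → PMem v (Dx X (s + t * v) n) (chainD iX T len B n) := by
  intro n
  induction n with
  | zero => intro B s _; simpa [Dx, chainD] using pmem_zero v len
  | succ n ih =>
    intro B s hs
    have hs4 := mem_sub hs mem_four
    have h1 := ih (B.sub CB.four) (s - 4) hs4
    have h2 := pmem_mulLin hv (chainD_ne iX T len hlen n _) hs4 ht h1
    have h3 := pmem_scale hx (pmem_addC mem_one h2)
    rw [Dx, chainD]
    convert h3 using 1
    rw [show s + t * v - 4 = s - 4 + t * v by ring]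
    rw [div_eq_inv_mul]

/-- bound for `Qx` -/
def prodD (X T : CB) : CB → ℕ → ℕ
  | _, 0 => SC
  | B, (n + 1) => (((B.sub CB.four).up + (B.sub CB.four).rad + (T.n1 + T.rad)) *
      prodD X T (B.sub CB.four) n) / (X.lo - X.rad) + 1

/-- bound for `Ux` -/
def sumD (X T : CB) : CB → ℕ → ℕ
  | _, 0 => 0
  | B, (n + 1) => (SC * SC + ((B.sub CB.four).up + (B.sub CB.four).rad + (T.n1 + T.rad)) *
      sumD X T (B.sub CB.four) n) / (X.lo - X.rad) + 1

theorem facD_le {B T : CB} {s t v : ℂ} (hv : ‖v‖ ≤ 1) (hs : CB.mem s B) (ht : CB.mem t T) :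
    ‖s + t * v - 4‖ * SC ≤ ((B.sub CB.four).up : ℝ) + (B.sub CB.four).rad + (T.n1 + T.rad) := by
  have hS := SC_pos
  have h1 := norm_le_up (mem_sub hs mem_four)
  have h2 := norm_le_of_mem ht
  rw [norm_mul, Complex.norm_natCast] at h2
  have h3 : ‖s + t * v - 4‖ ≤ ‖s - 4‖ + ‖t‖ := by
    have : s + t * v - 4 = (s - 4) + t * v := by ring
    rw [this]
    refine (norm_add_le _ _).trans ?_
    rw [norm_mul]
    have : ‖t‖ * ‖v‖ ≤ ‖t‖ * 1 := by gcongr
    linarith
  nlinarith

theorem lowX {X : ℂ} {XB : CB} (hx : CB.mem X XB) (hpos : XB.rad < XB.lo) :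
    (((XB.lo - XB.rad : ℕ)) : ℝ) ≤ ‖X‖ * SC ∧ 0 < XB.lo - XB.rad := by
  have h1 := lo_le_norm hx
  rw [Nat.cast_sub hpos.le]
  exact ⟨h1, by omega⟩

theorem norm_Qx_le {X : ℂ} {XB T : CB} {v t : ℂ} (hv : ‖v‖ ≤ 1)
    (hx : CB.mem X XB) (hpos : XB.rad < XB.lo) (ht : CB.mem t T) : ∀ (n : ℕ) (B : CB) (s : ℂ),
    CB.mem s B → ‖Qx X (s + t * v) n‖ * SC ≤ prodD XB T B n := by
  have hS := SC_pos
  obtain ⟨g1, g2⟩ := lowX hx hpos
  have g3 : (0 : ℝ) < ((XB.lo - XB.rad : ℕ) : ℝ) := by exact_mod_cast g2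
  intro n
  induction n with
  | zero => intro B s _; simp [Qx, prodD]
  | succ n ih =>
    intro B s hs
    have h1 := ih (B.sub CB.four) (s - 4) (mem_sub hs mem_four)
    have h2 := facD_le hv hs ht
    have e1 : s + t * v - 4 = s - 4 + t * v := by ring
    have h7 := nat_div_ceil (((B.sub CB.four).up + (B.sub CB.four).rad + (T.n1 + T.rad)) *
      prodD XB T (B.sub CB.four) n) (XB.lo - XB.rad) g2
    rw [Qx, prodD, Nat.cast_add, Nat.cast_one]
    refine le_trans ?_ h7
    rw [norm_mul, norm_div]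
    have h8 : ‖s + t * v - 4‖ / ‖X‖ * ‖Qx X (s + t * v - 4) n‖ * (SC : ℝ) =
        (‖s + t * v - 4‖ * SC) * (‖Qx X (s + t * v - 4) n‖ * SC) / (‖X‖ * SC) := by
      have : 0 < ‖X‖ := by
        have : 0 < ‖X‖ * SC := lt_of_lt_of_le g3 g1
        by_contra hc
        push Not at hc
        have := mul_nonpos_of_nonpos_of_nonneg hc hS.le
        linarith
      field_simp
    rw [h8]
    rw [← e1] at h1
    push_cast [Nat.cast_sub hpos.le] at h1 h2 g1 g3 ⊢
    apply div_le_div₀
    · positivity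
    · exact mul_le_mul h2 h1 (by positivity) (by positivity)
    · exact g3
    · exact g1

theorem norm_Ux_le {X : ℂ} {XB T : CB} {R y : ℝ} {v t : ℂ} (hR : 0 ≤ R) (hv : ‖v‖ ≤ 1)
    (hx : CB.mem X XB) (hpos : XB.rad < XB.lo) (ht : CB.mem t T) : ∀ (n : ℕ) (B : CB) (s : ℂ),
    CB.mem s B → ‖Ux X R y (s + t * v) n‖ * SC ≤
      ‖Complex.exp ((s + t * v) * R - y * Complex.exp (4 * R))‖ * sumD XB T B n := by
  have hS := SC_pos
  obtain ⟨g1, g2⟩ := lowX hx hpos
  have g3 : (0 : ℝ) < ((XB.lo - XB.rad : ℕ) : ℝ) := by exact_mod_cast g2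
  have hmono : ∀ c : ℂ, ‖Complex.exp ((c - 4) * R - y * Complex.exp (4 * R))‖ ≤
      ‖Complex.exp (c * R - y * Complex.exp (4 * R))‖ := by
    intro c
    rw [Complex.norm_exp, Complex.norm_exp]
    apply Real.exp_le_exp.2
    rw [Complex.sub_re, Complex.sub_re, Complex.re_mul_ofReal, Complex.re_mul_ofReal]
    have : (c - 4).re = c.re - 4 := by simp
    rw [this]
    nlinarith
  intro n
  induction n with
  | zero => intro B s _; simp [Ux, sumD]
  | succ n ih =>
    intro B s hs
    have h1 := ih (B.sub CB.four) (s - 4) (mem_sub hs mem_four)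
    have h2 := facD_le hv hs ht
    have e1 : s + t * v - 4 = s - 4 + t * v := by ring
    rw [← e1] at h1
    set E := ‖Complex.exp ((s + t * v) * R - y * Complex.exp (4 * R))‖ with hE
    have hE0 : 0 ≤ E := norm_nonneg _
    have hm := hmono (s + t * v)
    rw [← hE] at hm
    have h1' : ‖Ux X R y (s + t * v - 4) n‖ * SC ≤ E * sumD XB T (B.sub CB.four) n := by
      refine h1.trans ?_
      gcongr
    have h7 := nat_div_ceil (SC * SC + ((B.sub CB.four).up + (B.sub CB.four).rad + (T.n1 + T.rad)) *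
      sumD XB T (B.sub CB.four) n) (XB.lo - XB.rad) g2
    rw [Ux, sumD, Nat.cast_add, Nat.cast_one]
    refine le_trans ?_ (mul_le_mul_of_nonneg_left h7 hE0)
    have hX : 0 < ‖X‖ := by
      have : 0 < ‖X‖ * SC := lt_of_lt_of_le g3 g1
      by_contra hc
      push Not at hc
      have := mul_nonpos_of_nonpos_of_nonneg hc hS.le
      linarith
    have h8 : ‖(Complex.exp ((s + t * v - 4) * R - y * Complex.exp (4 * R)) +
        (s + t * v - 4) * Ux X R y (s + t * v - 4) n) / X‖ * SC ≤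
        (E * (SC * SC) + (‖s + t * v - 4‖ * SC) * (‖Ux X R y (s + t * v - 4) n‖ * SC)) /
          (‖X‖ * SC) := by
      rw [norm_div, le_div_iff₀ (by positivity)]
      have h9 : ‖Complex.exp ((s + t * v - 4) * R - y * Complex.exp (4 * R)) +
        (s + t * v - 4) * Ux X R y (s + t * v - 4) n‖ ≤ E +
          ‖s + t * v - 4‖ * ‖Ux X R y (s + t * v - 4) n‖ := by
        refine (norm_add_le _ _).trans ?_
        rw [norm_mul]
        gcongr
      calc _ = ‖Complex.exp ((s + t * v - 4) * R - y * Complex.exp (4 * R)) +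
        (s + t * v - 4) * Ux X R y (s + t * v - 4) n‖ * (SC * SC) := by field_simp
        _ ≤ (E + ‖s + t * v - 4‖ * ‖Ux X R y (s + t * v - 4) n‖) * (SC * SC) := by gcongr
        _ = _ := by ring
    refine h8.trans ?_
    rw [mul_div_assoc']
    push_cast [Nat.cast_sub hpos.le] at h2 g1 g3 ⊢
    apply div_le_div₀
    · positivity
    · have h10 := mul_le_mul h2 h1' (by positivity) (by positivity)
      nlinarith
    · exact g3
    · exact g1

end Pool.Agent.Helper67.Xi
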