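import Pool.Agent.Helper67.XiEng10

/-! Second ball engine (downward recursion). -/

namespace Pool.Agent.Helper67.Xi

def eD (iX Z T : CB) (L J : ℕ) : List CB :=
  tAddC (CB.ofInt 1) (tMulLin (Z.add (CB.ofInt (-1))) T (chainD iX T L ((CB.ofInt 5).add Z) J))

theorem pmem_eD {iX Z T : CB} {L J : ℕ} (hL : 0 < L) {v X z t : ℂ} (hv : ‖v‖ ≤ 1)
    (hx : CB.mem X⁻¹ iX) (ht : CB.mem t T) (hz : CB.mem z Z) :
    PMem v ((z + t * v - 1) * Dx X (5 + (z + t * v)) J + 1) (eD iX Z T L J) := by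
  have h5 : CB.mem 5 (CB.ofInt 5) := by simpa using mem_ofInt 5
  have h1' : CB.mem 1 (CB.ofInt 1) := by simpa using mem_ofInt 1
  have hm : CB.mem (-1) (CB.ofInt (-1)) := by simpa using mem_ofInt (-1)
  have h1 := pmem_chainD hL hv hx ht J _ (5 + z) (mem_add h5 hz)
  have h2 := pmem_mulLin hv (chainD_ne iX T L hL J _) (mem_add hz hm) ht h1
  have h3 := pmem_addC h1' h2
  unfold eD
  convert h3 using 1
  rw [show 5 + (z + t * v) = 5 + z + t * v by ring]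
  ring

def remD (n k J W lam kb : ℕ) (R Z T : CB) : ℕ :=
  (((yB n).n1 + (yB n).rad) * (((Z.n1 + Z.rad + (T.n1 + T.rad)) / SC + 2) *
    (((e5 n k R).n1 + (e5 n k R).rad) * W *
      (sumD (xL n) T ((CB.ofInt 5).add Z) J + sumD (xL n) T.neg ((CB.ofInt 5).add Z.neg) J) * lam * SC +
    ((eL n k).n1 + (eL n k).rad) * kb *
      (prodD (xL n) T ((CB.ofInt 5).add Z) J + prodD (xL n) T.neg ((CB.ofInt 5).add Z.neg) J)) +
    2 * ((e5 n k R).n1 + (e5 n k R).rad) * W * lam * SC * SC)) / (2 * SC ^ 3 * lam) + 1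

def engD (n k L J : ℕ) (κ : ℤ) (W lam kb : ℕ) (R Z T : CB) : List CB :=
  tWiden (tScale ((yB n).divNat 2) (tScale (eL n k) (tMul (tEx (CB.mulInt (-κ) R) Z T k L)
    (tAdd (eD (xL n).inv Z T L J) (eD (xL n).inv Z.neg T.neg L J)))))
    (remD n k J W lam kb R Z T)

def dOk (n k L J : ℕ) (κ : ℤ) (lam : ℕ) (R Z T : CB) : Bool :=
  decide (0 < L) && CB.expOk k (CB.mulInt 4 R) && CB.expOk k (e5A n k R) &&
  CB.expOk k (yB n).neg && tExOk (CB.mulInt (-κ) R) Z T k L &&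
  decide ((xL n).rad < (xL n).lo) && decide ((xL n).rad < (xL n).low) && decide (0 < lam) &&
  decide ((lam + 5) * (SC : ℤ) + |Z.re| + Z.rad + T.n1 + T.rad ≤
    (xL n).re - (xL n).rad + 4 * J * (SC : ℤ))

theorem lamOk_spec {n J lam : ℕ} {Z T : CB} {z t v : ℂ} (hv : ‖v‖ ≤ 1)
    (hz : CB.mem z Z) (ht : CB.mem t T)
    (h : (lam + 5) * (SC : ℤ) + |Z.re| + Z.rad + T.n1 + T.rad ≤
      (xL n).re - (xL n).rad + 4 * J * (SC : ℤ)) :
    (5 + (z + t * v) - 4 * J).re + lam ≤ 4 * yn n ∧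
      (5 + -(z + t * v) - 4 * J).re + lam ≤ 4 * yn n := by
  have hS := SC_pos
  have h3 := mem_mulInt 4 (mem_yB n)
  have h4 := re_ge_of_mem h3
  have e1 : (((4 : ℤ) : ℂ) * (yn n : ℂ)).re = 4 * yn n := by
    have : (((4 : ℤ) : ℂ) * (yn n : ℂ)) = ((4 * yn n : ℝ) : ℂ) := by push_cast; ring
    rw [this, Complex.ofReal_re]
  rw [e1] at h4
  have h5a := re_ge_of_mem hz
  have h5b := re_le_of_mem hz
  have h6 := norm_le_of_mem ht
  rw [norm_mul, Complex.norm_natCast] at h6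
  have h7 : |(t * v).re| ≤ ‖t‖ := by
    refine (Complex.abs_re_le_norm _).trans ?_
    rw [norm_mul]
    calc ‖t‖ * ‖v‖ ≤ ‖t‖ * 1 := by gcongr
      _ = _ := mul_one _
  obtain ⟨h7a, h7b⟩ := abs_le.1 h7
  have hr : (lam + 5) * (SC : ℝ) + |(Z.re : ℝ)| + Z.rad + T.n1 + T.rad ≤
      (xL n).re - (xL n).rad + 4 * J * (SC : ℝ) := by exact_mod_cast h
  have hx : xL n = CB.mulInt 4 (yB n) := rfl
  rw [← hx] at h4
  have ha := neg_abs_le (Z.re : ℝ)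
  have hb := le_abs_self (Z.re : ℝ)
  have e2 : (5 + (z + t * v) - 4 * (J : ℂ)).re = 5 + (z.re + (t * v).re) - 4 * J := by
    simp
  have e3 : (5 + -(z + t * v) - 4 * (J : ℂ)).re = 5 - (z.re + (t * v).re) - 4 * J := by
    simp; ring
  rw [e2, e3]
  constructor
  · have : (5 + (z.re + (t * v).re) - 4 * J + lam) * SC ≤ 4 * yn n * SC := by nlinarith
    exact le_of_mul_le_mul_right this hS
  · have : (5 - (z.re + (t * v).re) - 4 * J + lam) * SC ≤ 4 * yn n * SC := by nlinarith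
    exact le_of_mul_le_mul_right this hS

theorem single_bound {K w1 U Qn I Ex : ℂ} {S q E W u EL lam Q eX kK : ℝ} (hS : 0 < S)
    (hE0 : 0 ≤ E) (hu : 0 ≤ u) (hQ0 : 0 ≤ Q)
    (hw1 : ‖w1‖ ≤ q) (hKn : ‖K‖ ≤ kK) (hk : ‖K‖ * eX ≤ W)
    (hI : ‖I‖ ≤ EL / lam) (hQ : ‖Qn‖ * S ≤ Q)
    (hU : ‖U‖ * S ≤ eX * E * u) (hEx : ‖Ex‖ = eX * E) :
    ‖K * (w1 * (-U + Qn * I) - Ex)‖ * S ≤ q * (E * W * u + kK * (EL / lam) * Q) + E * W * S := by
  have hq0 : 0 ≤ q := (norm_nonneg _).trans hw1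
  have b1 : ‖K‖ * ‖U‖ * S ≤ E * W * u := by
    calc ‖K‖ * ‖U‖ * S = ‖K‖ * (‖U‖ * S) := by ring
      _ ≤ ‖K‖ * (eX * E * u) := by gcongr
      _ = (‖K‖ * eX) * (E * u) := by ring
      _ ≤ W * (E * u) := by gcongr
      _ = _ := by ring
  have hkK : 0 ≤ kK := (norm_nonneg _).trans hKn
  have b2 : ‖K‖ * (‖Qn‖ * ‖I‖) * S ≤ kK * (EL / lam) * Q := by
    calc ‖K‖ * (‖Qn‖ * ‖I‖) * S = ‖K‖ * ((‖Qn‖ * S) * ‖I‖) := by ring
      _ ≤ kK * (Q * (EL / lam)) := by gcongr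
      _ = _ := by ring
  have b3 : ‖K‖ * ‖Ex‖ ≤ E * W := by
    rw [hEx]
    calc ‖K‖ * (eX * E) = (‖K‖ * eX) * E := by ring
      _ ≤ W * E := by gcongr
      _ = _ := by ring
  have b4 : ‖K * (w1 * (-U + Qn * I) - Ex)‖ ≤
      q * (‖K‖ * ‖U‖ + ‖K‖ * (‖Qn‖ * ‖I‖)) + ‖K‖ * ‖Ex‖ := by
    rw [norm_mul]
    have c1 : ‖w1 * (-U + Qn * I) - Ex‖ ≤ q * (‖U‖ + ‖Qn‖ * ‖I‖) + ‖Ex‖ := by
      refine (norm_sub_le _ _).trans ?_
      rw [norm_mul]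
      have c2 : ‖-U + Qn * I‖ ≤ ‖U‖ + ‖Qn‖ * ‖I‖ := by
        refine (norm_add_le _ _).trans ?_
        rw [norm_neg, norm_mul]
      gcongr
    calc _ ≤ ‖K‖ * (q * (‖U‖ + ‖Qn‖ * ‖I‖) + ‖Ex‖) := by gcongr
      _ = _ := by ring
  calc _ ≤ (q * (‖K‖ * ‖U‖ + ‖K‖ * (‖Qn‖ * ‖I‖)) + ‖K‖ * ‖Ex‖) * S := by gcongr
    _ = q * (‖K‖ * ‖U‖ * S + ‖K‖ * (‖Qn‖ * ‖I‖) * S) + ‖K‖ * ‖Ex‖ * S := by ring
    _ ≤ _ := by gcongr

theorem pmem_engD {n k L J : ℕ} {κ : ℤ} {W lam kb : ℕ} {R : ℝ} {Rb Z T : CB} {z t v : ℂ}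
    (hv : ‖v‖ ≤ 1) (hR : 0 ≤ R) (hRb : CB.mem R Rb) (hz : CB.mem z Z) (ht : CB.mem t T)
    (hok : dOk n k L J κ lam Rb Z T = true)
    (hW1 : ‖Complex.exp ((z + t * v) * (((1 - κ : ℤ) : ℂ) * R))‖ ≤ W)
    (hW2 : ‖Complex.exp ((z + t * v) * (((-(1 + κ) : ℤ) : ℂ) * R))‖ ≤ W)
    (hW3 : ‖Complex.exp ((z + t * v) * (((-κ : ℤ) : ℂ) * R))‖ * SC ≤ kb) :
    PMem v (Complex.exp ((z + t * v) * (((-κ : ℤ) : ℂ) * R)) *
      (cT n R (z + t * v) + cT n R (-(z + t * v)))) (engD n k L J κ W lam kb Rb Z T) := by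
  simp only [dOk, Bool.and_eq_true] at hok
  obtain ⟨⟨⟨⟨⟨⟨⟨⟨hL0, hN⟩, h5⟩, hl⟩, hx3⟩, hxl⟩, hxl2⟩, hlam⟩, hbig⟩ := hok
  have hL : 0 < L := of_decide_eq_true hL0
  have hxl' := of_decide_eq_true hxl
  have hxl2' := of_decide_eq_true hxl2
  have hlam' : 0 < lam := of_decide_eq_true hlam
  have hbig' := of_decide_eq_true hbig
  have hS := SC_pos
  have hyp := yn_pos n
  have hyB := mem_yB n
  have hNm := mem_exp k hN (mem_mulInt 4 hRb)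
  have hyN := mem_mul hyB hNm
  have hXL := mem_mulInt 4 hyB
  have hE5 := mem_exp k h5 (mem_sub (mem_mulInt 5 hRb) hyN)
  have hEL := mem_exp k hl (mem_neg hyB)
  have hzn := mem_neg hz
  have htn := mem_neg ht
  have e4 : (((4 : ℤ) : ℂ) * (R : ℂ)) = 4 * (R : ℂ) := by push_cast; ring
  have e5' : (((5 : ℤ) : ℂ) * (R : ℂ)) = 5 * (R : ℂ) := by push_cast; ring
  have e7 : (((4 : ℤ) : ℂ) * (yn n : ℂ)) = 4 * yn n := by push_cast; ring
  rw [e4] at hNm hyN hE5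
  rw [e5'] at hE5
  rw [e7] at hXL
  have hXL' : CB.mem (4 * (yn n : ℂ)) (xL n) := hXL
  set ζ : ℂ := z + t * v with hζ
  have hnζ : -z + -t * v = -ζ := by rw [hζ]; ring
  have hinv := mem_inv hxl2' hXL'
  have hD1 := pmem_eD (J := J) hL hv hinv ht hz
  have hD2 := pmem_eD (J := J) hL hv hinv htn hzn
  rw [hnζ] at hD2
  rw [← hζ] at hD1
  have hM3 := pmem_tEx (L := L) hv (mem_mulInt (-κ) hRb) ht hz hx3
  rw [← hζ] at hM3
  have hG := pmem_scale (mem_divNat 2 two_pos hyB) (pmem_scale hEL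
    (pmem_mul hv (tEx_ne hL) hM3 (pmem_add hD1 hD2)))
  unfold engD
  refine pmem_widen ?_ hG ?_
  · exact tScale_ne (tScale_ne (tMul_ne (tEx_ne hL)))
  obtain ⟨hl1, hl2⟩ := lamOk_spec hv hz ht hbig'
  rw [← hζ] at hl1 hl2
  have hlr : (0 : ℝ) < lam := by exact_mod_cast hlam'
  have hI1 := norm_IY_le' (c := 5 + ζ - 4 * J) hR hyp.le hlr hl1
  have hI2 := norm_IY_le' (c := 5 + -ζ - 4 * J) hR hyp.le hlr hl2
  have hq1 := norm_Qx_le hv hXL' hxl' ht J _ (5 + z) (mem_add (by simpa using mem_ofInt 5) hz)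
  have hq2 := norm_Qx_le hv hXL' hxl' htn J _ (5 + -z) (mem_add (by simpa using mem_ofInt 5) hzn)
  have hu1 := norm_Ux_le (y := yn n) hR hv hXL' hxl' ht J _ (5 + z)
    (mem_add (by simpa using mem_ofInt 5) hz)
  have hu2 := norm_Ux_le (y := yn n) hR hv hXL' hxl' htn J _ (5 + -z)
    (mem_add (by simpa using mem_ofInt 5) hzn)
  have eq1 : 5 + z + t * v = 5 + ζ := by rw [hζ]; ring
  have eq2 : 5 + -z + -t * v = 5 + -ζ := by rw [← hnζ]; ring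
  rw [eq1] at hq1 hu1
  rw [eq2] at hq2 hu2
  set E := ‖Complex.exp (5 * R - yn n * Complex.exp (4 * R))‖ with hE
  have hEs : ∀ w : ℂ, ‖Complex.exp ((5 + w) * R - yn n * Complex.exp (4 * R))‖ =
      ‖Complex.exp (w * R)‖ * E := by
    intro w
    rw [hE, ← norm_mul, ← Complex.exp_add]
    ring_nf
  rw [hEs] at hu1 hu2
  set K := Complex.exp (ζ * (((-κ : ℤ) : ℂ) * R)) with hK
  have k1 : ‖K‖ * ‖Complex.exp (ζ * R)‖ ≤ W := by
    rw [← norm_mul, hK, ← Complex.exp_add]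
    convert hW1 using 3
    push_cast; ring
  have k2 : ‖K‖ * ‖Complex.exp (-ζ * R)‖ ≤ W := by
    rw [← norm_mul, hK, ← Complex.exp_add]
    convert hW2 using 3
    push_cast; ring
  -- identity
  have hid : K * (cT n R ζ + cT n R (-ζ)) - (yn n : ℂ) / ((2 : ℕ) : ℂ) *
      (Complex.exp (-(yn n : ℂ)) * (K * ((ζ - 1) * Dx (4 * yn n) (5 + ζ) J + 1 +
        ((-ζ - 1) * Dx (4 * yn n) (5 + -ζ) J + 1)))) =
      (yn n : ℂ) / 2 * ((K * ((ζ - 1) * (-Ux (4 * yn n) R (yn n) (5 + ζ) J +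
          Qx (4 * yn n) (5 + ζ) J * IY R (yn n) (5 + ζ - 4 * J)) -
          Complex.exp ((5 + ζ) * R - yn n * Complex.exp (4 * R)))) +
        (K * ((-ζ - 1) * (-Ux (4 * yn n) R (yn n) (5 + -ζ) J +
          Qx (4 * yn n) (5 + -ζ) J * IY R (yn n) (5 + -ζ - 4 * J)) -
          Complex.exp ((5 + -ζ) * R - yn n * Complex.exp (4 * R))))) := by
    rw [cT_eq, cT_eq, IY_down hyp J (5 + ζ), IY_down hyp J (5 + -ζ)]
    push_cast
    ring
  rw [hid]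
  have hY := norm_le_of_mem hyB
  have hEn := norm_le_of_mem hE5
  have hELn := norm_le_of_mem hEL
  have hzN := norm_le_of_mem hz
  have htN := norm_le_of_mem ht
  rw [norm_mul, Complex.norm_natCast] at hY hEn hELn hzN htN
  rw [Complex.norm_real, Real.norm_eq_abs, abs_of_pos hyp] at hY
  rw [← hE] at hEn
  have hELe : ‖Complex.exp (-(yn n : ℂ))‖ = Real.exp (-(yn n)) := by
    rw [← Complex.ofReal_neg, norm_ofReal_exp]
  rw [hELe] at hELn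
  set EL := Real.exp (-(yn n)) with hELdef
  have hEL0 : 0 < EL := Real.exp_pos _
  have hq : ‖ζ‖ + 1 ≤ ((Z.n1 + Z.rad + (T.n1 + T.rad)) / SC + 2 : ℕ) := by
    have q1 := nat_div_ceil (Z.n1 + Z.rad + (T.n1 + T.rad)) SC SCN_pos
    have q2 : ‖ζ‖ * SC ≤ (Z.n1 + Z.rad + (T.n1 + T.rad) : ℕ) := by
      have q3 : ‖ζ‖ ≤ ‖z‖ + ‖t‖ := by
        rw [hζ]
        refine (norm_add_le _ _).trans ?_
        rw [norm_mul]
        have : ‖t‖ * ‖v‖ ≤ ‖t‖ * 1 := by gcongr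
        linarith
      push_cast
      nlinarith
    have q4 : ‖ζ‖ ≤ ((Z.n1 + Z.rad + (T.n1 + T.rad) : ℕ) : ℝ) / SC := by
      rw [le_div_iff₀ hS]; exact q2
    push_cast at q1 q4 ⊢
    linarith
  set q : ℕ := (Z.n1 + Z.rad + (T.n1 + T.rad)) / SC + 2 with hqdef
  have hE0 : 0 ≤ E := norm_nonneg _
  -- single bound
  have hsingle : ∀ (w : ℂ) (Q u : ℕ), ‖w‖ = ‖ζ‖ → ‖K‖ * ‖Complex.exp (w * R)‖ ≤ W →
      ‖IY R (yn n) (5 + w - 4 * J)‖ ≤ EL / lam → ‖Qx (4 * yn n) (5 + w) J‖ * SC ≤ Q →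
      ‖Ux (4 * yn n) R (yn n) (5 + w) J‖ * SC ≤ ‖Complex.exp (w * R)‖ * E * u →
      ‖K * ((w - 1) * (-Ux (4 * yn n) R (yn n) (5 + w) J +
          Qx (4 * yn n) (5 + w) J * IY R (yn n) (5 + w - 4 * J)) -
          Complex.exp ((5 + w) * R - yn n * Complex.exp (4 * R)))‖ * SC ≤
      q * (E * W * u + kb / SC * (EL / lam) * Q) + E * W * SC := by
    intro w Q u hw hk hI hQ hU
    have hw1 : ‖w - 1‖ ≤ q := by
      have := norm_sub_le w 1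
      rw [norm_one, hw] at this
      exact this.trans hq
    have hW3' : ‖K‖ ≤ kb / SC := by rw [le_div_iff₀ hS]; exact hW3
    exact single_bound hS hE0 (Nat.cast_nonneg _) (Nat.cast_nonneg _) hw1 hW3'
      hk hI hQ hU (hEs w)
  have s1 := hsingle ζ _ _ rfl k1 hI1 hq1 hu1
  have s2 := hsingle (-ζ) _ _ (norm_neg ζ) k2 hI2 hq2 hu2
  set Q1 := prodD (xL n) T ((CB.ofInt 5).add Z) J with hQ1
  set Q2 := prodD (xL n) T.neg ((CB.ofInt 5).add Z.neg) J with hQ2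
  set u1 := sumD (xL n) T ((CB.ofInt 5).add Z) J with hu1d
  set u2 := sumD (xL n) T.neg ((CB.ofInt 5).add Z.neg) J with hu2d
  have hrem := nat_div_ceil (((yB n).n1 + (yB n).rad) * (q * (((e5 n k Rb).n1 + (e5 n k Rb).rad) *
    W * (u1 + u2) * lam * SC + ((eL n k).n1 + (eL n k).rad) * kb * (Q1 + Q2)) +
    2 * ((e5 n k Rb).n1 + (e5 n k Rb).rad) * W * lam * SC * SC)) (2 * SC ^ 3 * lam)
    (Nat.mul_pos (Nat.mul_pos two_pos (pow_pos SCN_pos _)) hlam')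
  have hrd : remD n k J W lam kb Rb Z T = (((yB n).n1 + (yB n).rad) * (q * (((e5 n k Rb).n1 +
    (e5 n k Rb).rad) * W * (u1 + u2) * lam * SC + ((eL n k).n1 + (eL n k).rad) * kb * (Q1 + Q2)) +
    2 * ((e5 n k Rb).n1 + (e5 n k Rb).rad) * W * lam * SC * SC)) / (2 * SC ^ 3 * lam) + 1 := rfl
  rw [hrd, Nat.cast_add, Nat.cast_one]
  refine le_trans ?_ hrem
  have hEn' : E * SC ≤ (e5 n k Rb).n1 + (e5 n k Rb).rad := hEn
  have hELn' : EL * SC ≤ (eL n k).n1 + (eL n k).rad := hELn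
  rw [norm_mul, norm_div, Complex.norm_real, Real.norm_eq_abs, abs_of_pos hyp]
  have e3 : ‖(2 : ℂ)‖ = 2 := by simp
  rw [e3, le_div_iff₀ (by push_cast; positivity)]
  set A1 := K * ((ζ - 1) * (-Ux (4 * yn n) R (yn n) (5 + ζ) J +
          Qx (4 * yn n) (5 + ζ) J * IY R (yn n) (5 + ζ - 4 * J)) -
          Complex.exp ((5 + ζ) * R - yn n * Complex.exp (4 * R))) with hA1
  set A2 := K * ((-ζ - 1) * (-Ux (4 * yn n) R (yn n) (5 + -ζ) J +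
          Qx (4 * yn n) (5 + -ζ) J * IY R (yn n) (5 + -ζ - 4 * J)) -
          Complex.exp ((5 + -ζ) * R - yn n * Complex.exp (4 * R))) with hA2
  have hsum : ‖A1 + A2‖ * SC ≤ q * (E * W * (u1 + u2) + kb / SC * (EL / lam) * (Q1 + Q2)) +
      2 * (E * W * SC) := by
    have := norm_add_le A1 A2
    calc ‖A1 + A2‖ * SC ≤ (‖A1‖ + ‖A2‖) * SC := by gcongr
      _ ≤ (q * (E * W * u1 + kb / SC * (EL / lam) * Q1) + E * W * SC) +
          (q * (E * W * u2 + kb / SC * (EL / lam) * Q2) + E * W * SC) := by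
          rw [add_mul]; exact add_le_add s1 s2
      _ = _ := by ring
  push_cast
  calc yn n / 2 * ‖A1 + A2‖ * SC * (2 * SC ^ 3 * lam) =
        (yn n * SC) * ((‖A1 + A2‖ * SC) * SC ^ 2 * lam) := by ring
    _ ≤ (yn n * SC) * ((q * (E * W * (u1 + u2) + kb / SC * (EL / lam) * (Q1 + Q2)) +
        2 * (E * W * SC)) * SC ^ 2 * lam) := by gcongr
    _ = (yn n * SC) * (q * ((E * SC) * W * (u1 + u2) * lam * SC + (EL * SC) * kb * (Q1 + Q2)) +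
        2 * (E * SC) * W * lam * SC * SC) := by field_simp
    _ ≤ _ := by gcongr

end Pool.Agent.Helper67.Xi
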