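import Pool.Agent.Helper67.XiEng2

/-! Polynomials with ball coefficients on the unit disc. -/

namespace Pool.Agent.Helper67.Xi

/-- Horner evaluation -/
noncomputable def ev : List ℂ → ℂ → ℂ
  | [], _ => 0
  | a :: l, v => a + v * ev l v

/-- `x` is the value at `v` of a polynomial with coefficients in the balls of `L`. -/
def PMem (v x : ℂ) (L : List CB) : Prop := ∃ l, List.Forall₂ CB.mem l L ∧ x = ev l v

def tAdd : List CB → List CB → List CB
  | [], L => L
  | L, [] => L
  | a :: L, b :: M => a.add b :: tAdd L M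

theorem pmem_add {v x y : ℂ} {L M : List CB} (hx : PMem v x L) (hy : PMem v y M) :
    PMem v (x + y) (tAdd L M) := by
  obtain ⟨l, hl, rfl⟩ := hx
  obtain ⟨m, hm, rfl⟩ := hy
  induction hl generalizing m M with
  | nil =>
    refine ⟨m, ?_, by simp [ev]⟩
    cases M <;> simpa [tAdd] using hm
  | @cons a A l L ha hl ih =>
    cases hm with
    | nil => exact ⟨a :: l, by simpa [tAdd] using List.Forall₂.cons ha hl, by simp [ev]⟩
    | @cons b B m M hb hm =>
      obtain ⟨k, hk, hk2⟩ := ih m hm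
      refine ⟨(a + b) :: k, ?_, ?_⟩
      · rw [tAdd]; exact List.Forall₂.cons (mem_add ha hb) hk
      · simp only [ev]
        rw [← hk2]; ring

def tScale (c : CB) (L : List CB) : List CB := L.map (fun a => c.mul a)

theorem pmem_scale {v x s : ℂ} {L : List CB} {c : CB} (hs : CB.mem s c) (hx : PMem v x L) :
    PMem v (s * x) (tScale c L) := by
  obtain ⟨l, hl, rfl⟩ := hx
  induction hl with
  | nil => exact ⟨[], by simp [tScale], by simp [ev]⟩
  | @cons a A l L ha hl ih =>
    obtain ⟨k, hk, hk2⟩ := ih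
    refine ⟨(s * a) :: k, ?_, ?_⟩
    · simp only [tScale, List.map_cons]
      exact List.Forall₂.cons (mem_mul hs ha) hk
    · simp only [ev]
      rw [← hk2]; ring

def tNeg (L : List CB) : List CB := L.map CB.neg

theorem pmem_neg {v x : ℂ} {L : List CB} (hx : PMem v x L) : PMem v (-x) (tNeg L) := by
  obtain ⟨l, hl, rfl⟩ := hx
  induction hl with
  | nil => exact ⟨[], by simp [tNeg], by simp [ev]⟩
  | @cons a A l L ha hl ih =>
    obtain ⟨k, hk, hk2⟩ := ih
    refine ⟨(-a) :: k, ?_, ?_⟩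
    · simp only [tNeg, List.map_cons]
      exact List.Forall₂.cons (mem_neg ha) hk
    · simp only [ev]
      rw [← hk2]; ring

/-- add the constant given by a ball -/
def tAddC (c : CB) : List CB → List CB
  | [] => [c]
  | a :: L => c.add a :: L

theorem pmem_addC {v x s : ℂ} {L : List CB} {c : CB} (hs : CB.mem s c) (hx : PMem v x L) :
    PMem v (s + x) (tAddC c L) := by
  obtain ⟨l, hl, rfl⟩ := hx
  cases hl with
  | nil => exact ⟨[s], by simpa [tAddC] using hs, by simp [ev]⟩
  | @cons a A l L ha hl =>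
    refine ⟨(s + a) :: l, ?_, ?_⟩
    · rw [tAddC]; exact List.Forall₂.cons (mem_add hs ha) hl
    · simp only [ev]; ring

/-- zero list of length `n` -/
def tZero : ℕ → List CB
  | 0 => []
  | n + 1 => ⟨0, 0, 0⟩ :: tZero n

theorem mem_zero : CB.mem 0 ⟨0, 0, 0⟩ := by
  unfold CB.mem; simp [CB.ctr]

theorem pmem_zero (v : ℂ) (n : ℕ) : PMem v 0 (tZero n) := by
  induction n with
  | zero => exact ⟨[], by simp [tZero], by simp [ev]⟩
  | succ n ih =>
    obtain ⟨l, hl, h⟩ := ih
    refine ⟨0 :: l, ?_, ?_⟩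
    · rw [tZero]; exact List.Forall₂.cons mem_zero hl
    · simp only [ev]; rw [← h]; simp

/-- multiplication by `v`, the overflow is folded into the last coefficient -/
def tShift : CB → List CB → List CB
  | _, [] => []
  | p, [a] => [p.widen (a.n1 + a.rad)]
  | p, a :: b :: L => p :: tShift a (b :: L)

theorem pmem_shift_aux {v : ℂ} (hv : ‖v‖ ≤ 1) : ∀ {l : List ℂ} {L : List CB}
    (_ : List.Forall₂ CB.mem l L) (_ : L ≠ []) {p : ℂ} {P : CB} (_ : CB.mem p P),
    PMem v (p + v * ev l v) (tShift P L) := by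
  intro l L hl
  induction hl with
  | nil => intro h; exact absurd rfl h
  | @cons a A l L ha hl ih =>
    intro _ p P hp
    cases hl with
    | nil =>
      refine ⟨[p + v * a], ?_, by simp [ev]⟩
      simp only [tShift]
      refine List.Forall₂.cons ?_ List.Forall₂.nil
      refine mem_widen hp ?_
      have h1 := norm_le_of_mem ha
      have h2 : (p + v * a - p) * (SC : ℂ) = v * (a * (SC : ℂ)) := by ring
      rw [h2, norm_mul]
      push_cast
      calc ‖v‖ * ‖a * (SC : ℂ)‖ ≤ 1 * ‖a * (SC : ℂ)‖ := by gcongr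
        _ ≤ _ := by rw [one_mul]; exact h1
    | @cons b B l L hb hl =>
      obtain ⟨k, hk, hk2⟩ := ih (by simp) ha
      refine ⟨p :: k, ?_, ?_⟩
      · simp only [tShift]; exact List.Forall₂.cons hp hk
      · simp only [ev] at hk2 ⊢
        rw [← hk2]

theorem pmem_shift {v x : ℂ} (hv : ‖v‖ ≤ 1) {L : List CB} (hL : L ≠ []) (hx : PMem v x L) :
    PMem v (v * x) (tShift ⟨0, 0, 0⟩ L) := by
  obtain ⟨l, hl, rfl⟩ := hx
  have := pmem_shift_aux hv hl hL mem_zero
  simpa using this

/-- product, truncated to the length of the first list -/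
def tMul (L : List CB) : List CB → List CB
  | [] => tZero L.length
  | b :: M => tAdd (tScale b L) (tShift ⟨0, 0, 0⟩ (tMul L M))

theorem tShift_ne {p : CB} {L : List CB} (h : L ≠ []) : tShift p L ≠ [] := by
  cases L with
  | nil => exact absurd rfl h
  | cons a L => cases L <;> simp [tShift]

theorem tMul_ne {L M : List CB} (h : L ≠ []) : tMul L M ≠ [] := by
  cases M with
  | nil =>
    cases L with
    | nil => exact absurd rfl h
    | cons a L => simp [tMul, tZero]
  | cons b M =>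
    cases L with
    | nil => exact absurd rfl h
    | cons a L =>
      rw [tMul]
      generalize tShift ⟨0, 0, 0⟩ (tMul (a :: L) M) = Z
      cases Z <;> simp [tScale, tAdd]

theorem pmem_mul {v x y : ℂ} (hv : ‖v‖ ≤ 1) {L M : List CB} (hL : L ≠ []) (hx : PMem v x L)
    (hy : PMem v y M) : PMem v (x * y) (tMul L M) := by
  obtain ⟨m, hm, rfl⟩ := hy
  induction hm with
  | nil => simpa [ev, tMul] using pmem_zero v L.length
  | @cons b B m M hb hm ih =>
    have h1 := pmem_scale hb hx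
    have h2 := pmem_shift hv (tMul_ne hL) ih
    have h3 := pmem_add h1 h2
    rw [tMul]
    convert h3 using 1
    simp only [ev]; ring

/-- multiplication by `c + r v` -/
def tMulLin (c r : CB) (L : List CB) : List CB :=
  tAdd (tScale c L) (tShift ⟨0, 0, 0⟩ (tScale r L))

theorem pmem_mulLin {v x s t : ℂ} (hv : ‖v‖ ≤ 1) {L : List CB} (hL : L ≠ []) {c r : CB}
    (hs : CB.mem s c) (ht : CB.mem t r) (hx : PMem v x L) :
    PMem v ((s + t * v) * x) (tMulLin c r L) := by
  have h1 := pmem_scale hs hx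
  have h2 := pmem_shift hv (by cases L with
    | nil => exact absurd rfl hL
    | cons a L => simp [tScale]) (pmem_scale ht hx)
  have h3 := pmem_add h1 h2
  rw [tMulLin]
  convert h3 using 1
  ring

/-- division by `c + r v`; `ci` is a ball for `1/c`, `q` a bound for `|r|/(|c|-|r|)` scaled -/
def tDivLin (ci r : CB) (q : ℕ) : CB → List CB → List CB
  | _, [] => []
  | p, [a] => [(ci.mul (a.sub (r.mul p))).widen
      (((ci.mul (a.sub (r.mul p))).n1 + (ci.mul (a.sub (r.mul p))).rad) * q / SC + 1)]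
  | p, a :: b :: L => ci.mul (a.sub (r.mul p)) :: tDivLin ci r q (ci.mul (a.sub (r.mul p))) (b :: L)

theorem pmem_divLin_aux {v s t : ℂ} (hv : ‖v‖ ≤ 1) {ci r : CB} {q : ℕ} (hs : CB.mem s⁻¹ ci)
    (ht : CB.mem t r) (hst : ‖t‖ < ‖s‖) (hq : ‖t‖ / (‖s‖ - ‖t‖) * (SC : ℝ) ≤ q) :
    ∀ {l : List ℂ} {L : List CB} (_ : List.Forall₂ CB.mem l L) (_ : L ≠ []) {p : ℂ} {P : CB}
      (_ : CB.mem p P), PMem v ((ev l v - t * p) / (s + t * v)) (tDivLin ci r q P L) := by
  have hs0 : s ≠ 0 := by
    intro h; rw [h, norm_zero] at hst; linarith [norm_nonneg t]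
  have htv : ‖t * v‖ ≤ ‖t‖ := by
    rw [norm_mul]
    calc ‖t‖ * ‖v‖ ≤ ‖t‖ * 1 := by gcongr
      _ = _ := mul_one _
  have hden : ‖s‖ - ‖t‖ ≤ ‖s + t * v‖ := by
    have := norm_sub_norm_le s (-(t * v))
    rw [norm_neg, sub_neg_eq_add] at this
    linarith
  have hden0 : s + t * v ≠ 0 := by
    intro h; rw [h, norm_zero] at hden; linarith
  intro l L hl
  induction hl with
  | nil => intro h; exact absurd rfl h
  | @cons a A l L ha hl ih =>
    intro _ p P hp
    have hh : CB.mem (s⁻¹ * (a - t * p)) (ci.mul (A.sub (r.mul P))) :=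
      mem_mul hs (mem_sub ha (mem_mul ht hp))
    set h := s⁻¹ * (a - t * p) with hdef
    cases hl with
    | nil =>
      refine ⟨[(ev [a] v - t * p) / (s + t * v)], ?_, by simp [ev]⟩
      simp only [tDivLin]
      refine List.Forall₂.cons ?_ List.Forall₂.nil
      refine mem_widen hh ?_
      have e1 : ((ev [a] v - t * p) / (s + t * v) - h) * (SC : ℂ) =
          -(h * (SC : ℂ)) * (t * v / (s + t * v)) := by
        rw [hdef]
        simp only [ev]
        have i1 : (s + t * v) * (s + t * v)⁻¹ = 1 := mul_inv_cancel₀ hden0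
        have i2 : s * s⁻¹ = 1 := mul_inv_cancel₀ hs0
        rw [div_eq_mul_inv, div_eq_mul_inv]
        linear_combination ((a - t * p) * (SC : ℂ) * s⁻¹) * i1 -
          ((a - t * p) * (SC : ℂ) * (s + t * v)⁻¹) * i2
      rw [e1, norm_mul, norm_neg, norm_div]
      have h1 := norm_le_of_mem hh
      have h2 : ‖t * v‖ / ‖s + t * v‖ ≤ ‖t‖ / (‖s‖ - ‖t‖) := by
        apply div_le_div₀ (norm_nonneg _) htv (by linarith) hden
      have hS := SC_pos
      have h3 : ‖t‖ / (‖s‖ - ‖t‖) ≤ q / (SC : ℝ) := by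
        rw [le_div_iff₀ hS]; exact hq
      have hSC : 0 < SC := by norm_num [SC]
      set hb := ci.mul (A.sub (r.mul P))
      have h4 : (((hb.n1 + hb.rad) * q : ℕ) : ℝ) / (SC : ℕ) ≤ (((hb.n1 + hb.rad) * q / SC : ℕ) : ℝ) + 1 :=
        nat_div_ceil _ _ hSC
      calc ‖h * (SC : ℂ)‖ * (‖t * v‖ / ‖s + t * v‖)
          ≤ (hb.n1 + hb.rad : ℝ) * (q / (SC : ℝ)) := by
            apply mul_le_mul h1 (h2.trans h3) (by positivity) (by positivity)
        _ = (((hb.n1 + hb.rad) * q : ℕ) : ℝ) / (SC : ℕ) := by push_cast; ring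
        _ ≤ _ := h4
        _ = _ := by push_cast; ring
    | @cons b B l L hb hl =>
      obtain ⟨k, hk, hk2⟩ := ih (by simp) hh
      refine ⟨h :: k, ?_, ?_⟩
      · simp only [tDivLin]; exact List.Forall₂.cons hh hk
      · simp only [ev] at hk2 ⊢
        rw [← hk2, hdef]
        have i1 : (s + t * v) * (s + t * v)⁻¹ = 1 := mul_inv_cancel₀ hden0
        have i2 : s * s⁻¹ = 1 := mul_inv_cancel₀ hs0
        rw [div_eq_mul_inv, div_eq_mul_inv]
        linear_combination ((a - t * p) * s⁻¹) * i1 -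
          ((a - t * p) * (s + t * v)⁻¹) * i2

theorem pmem_divLin {v x s t : ℂ} (hv : ‖v‖ ≤ 1) {ci r : CB} {q : ℕ} (hs : CB.mem s⁻¹ ci)
    (ht : CB.mem t r) (hst : ‖t‖ < ‖s‖) (hq : ‖t‖ / (‖s‖ - ‖t‖) * (SC : ℝ) ≤ q)
    {L : List CB} (hL : L ≠ []) (hx : PMem v x L) :
    PMem v (x / (s + t * v)) (tDivLin ci r q ⟨0, 0, 0⟩ L) := by
  obtain ⟨l, hl, rfl⟩ := hx
  have := pmem_divLin_aux hv hs ht hst hq hl hL mem_zero
  simpa using this

end Pool.Agent.Helper67.Xi
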