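import Pool.Agent.Helper67.XiEng4

/-! Two sided norm estimates, constants, exponential lists. -/

namespace Pool.Agent.Helper67.Xi

theorem SCN_pos : 0 < SC := by norm_num [SC]

/-- ball around `(p + q i) / d` -/
def CB.rat (p q : ℤ) (d : ℕ) : CB := ⟨p * SC / (d : ℤ), q * SC / (d : ℤ), 2⟩

theorem mem_rat (p q : ℤ) {d : ℕ} (hd : 0 < d) :
    CB.mem (((p : ℂ) + (q : ℂ) * Complex.I) / (d : ℂ)) (CB.rat p q d) := by
  have h := round_err (p * SC) (q * SC) d hd
  unfold CB.mem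
  have e : ((p : ℂ) + (q : ℂ) * Complex.I) / (d : ℂ) * (SC : ℂ) - (CB.rat p q d).ctr =
      (((p * SC : ℤ) : ℂ) + ((q * SC : ℤ) : ℂ) * Complex.I) / (d : ℂ) -
        (((p * SC / (d : ℤ) : ℤ) : ℂ) + ((q * SC / (d : ℤ) : ℤ) : ℂ) * Complex.I) := by
    simp only [CB.rat, CB.ctr]
    push_cast
    ring
  rw [e]
  simpa [CB.rat] using h

/-- enclosure of `π` -/
def CB.pi : CB := ⟨3141592653589793238465022, 0, 5001⟩

theorem mem_pi : CB.mem (Real.pi : ℂ) CB.pi := by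
  have h1 := Real.pi_gt_d20
  have h2 := Real.pi_lt_d20
  unfold CB.mem
  have e : (Real.pi : ℂ) * (SC : ℂ) - CB.pi.ctr =
      ((Real.pi * (SC : ℝ) - 3141592653589793238465022 : ℝ) : ℂ) := by
    simp [CB.pi, CB.ctr]
  rw [e, Complex.norm_real, Real.norm_eq_abs, abs_le]
  simp only [CB.pi, SC]
  push_cast
  constructor <;> nlinarith

/-- approximate norm of the centre -/
def CB.aux (a : CB) : ℕ :=
  max a.re.natAbs a.im.natAbs + 3 * min a.re.natAbs a.im.natAbs / 8 + 1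

/-- upper bound for the norm of the centre -/
def CB.up (a : CB) : ℕ :=
  (a.re.natAbs ^ 2 + a.im.natAbs ^ 2 + a.aux ^ 2) / (2 * a.aux) + 1

/-- lower bound for the norm of the centre -/
def CB.lo (a : CB) : ℕ := (a.re.natAbs ^ 2 + a.im.natAbs ^ 2) / a.up

theorem norm_ctr_sq (a : CB) : ‖a.ctr‖ ^ 2 = ((a.re.natAbs ^ 2 + a.im.natAbs ^ 2 : ℕ) : ℝ) := by
  rw [CB.ctr]
  have : ((a.re : ℂ) + (a.im : ℂ) * Complex.I) = ((a.re : ℝ) : ℂ) + ((a.im : ℝ) : ℂ) * Complex.I := by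
    push_cast; rfl
  rw [this, Complex.sq_norm, Complex.normSq_add_mul_I]
  push_cast
  rw [Nat.cast_natAbs, Nat.cast_natAbs]
  push_cast
  rw [sq_abs, sq_abs]

theorem aux_pos (a : CB) : 0 < a.aux := by unfold CB.aux; omega

theorem le_up (a : CB) : ‖a.ctr‖ ≤ (a.up : ℝ) := by
  have h1 := nat_div_ceil (a.re.natAbs ^ 2 + a.im.natAbs ^ 2 + a.aux ^ 2) (2 * a.aux)
    (by have := aux_pos a; omega)
  have h2 := norm_ctr_sq a
  have h3 : (0 : ℝ) < a.aux := by exact_mod_cast aux_pos a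
  rw [CB.up]
  push_cast at h1 h2 ⊢
  refine le_trans ?_ h1
  rw [le_div_iff₀ (by positivity), ← h2]
  nlinarith [sq_nonneg (‖a.ctr‖ - a.aux)]

theorem lo_le (a : CB) : (a.lo : ℝ) ≤ ‖a.ctr‖ := by
  have h1 := le_up a
  have h2 := norm_ctr_sq a
  have h3 : (0 : ℝ) < a.up := by
    have : 0 < a.up := by unfold CB.up; exact Nat.succ_pos _
    exact_mod_cast this
  have h4 : (a.lo : ℝ) ≤ ((a.re.natAbs ^ 2 + a.im.natAbs ^ 2 : ℕ) : ℝ) / a.up := Nat.cast_div_le
  refine h4.trans ?_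
  rw [← h2, div_le_iff₀ h3]
  nlinarith [norm_nonneg a.ctr]

theorem norm_le_up {z : ℂ} {a : CB} (h : CB.mem z a) : ‖z‖ * (SC : ℝ) ≤ a.up + a.rad := by
  have h1 : ‖z * (SC : ℂ)‖ ≤ ‖a.ctr‖ + ‖z * (SC : ℂ) - a.ctr‖ := by
    have := norm_add_le a.ctr (z * (SC : ℂ) - a.ctr)
    simpa using this
  rw [norm_mul, Complex.norm_natCast] at h1
  have h2 := le_up a
  unfold CB.mem at h
  linarith

theorem lo_le_norm {z : ℂ} {a : CB} (h : CB.mem z a) : (a.lo : ℝ) - a.rad ≤ ‖z‖ * (SC : ℝ) := by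
  have h1 : ‖a.ctr‖ - ‖z * (SC : ℂ)‖ ≤ ‖z * (SC : ℂ) - a.ctr‖ := by
    have := norm_sub_norm_le a.ctr (z * (SC : ℂ))
    rwa [norm_sub_rev] at this
  rw [norm_mul, Complex.norm_natCast] at h1
  have h2 := lo_le a
  unfold CB.mem at h
  linarith

/-- real part of a member -/
theorem re_ge_of_mem {z : ℂ} {a : CB} (h : CB.mem z a) :
    (a.re : ℝ) - a.rad ≤ z.re * (SC : ℝ) := by
  unfold CB.mem at h
  have h1 := (Complex.abs_re_le_norm (z * (SC : ℂ) - a.ctr)).trans h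
  have h2 : (z * (SC : ℂ) - a.ctr).re = z.re * SC - a.re := by
    simp [CB.ctr, Complex.mul_re]
  rw [h2, abs_le] at h1
  linarith [h1.1]

theorem re_le_of_mem {z : ℂ} {a : CB} (h : CB.mem z a) :
    z.re * (SC : ℝ) ≤ (a.re : ℝ) + a.rad := by
  unfold CB.mem at h
  have h1 := (Complex.abs_re_le_norm (z * (SC : ℂ) - a.ctr)).trans h
  have h2 : (z * (SC : ℂ) - a.ctr).re = z.re * SC - a.re := by
    simp [CB.ctr, Complex.mul_re]
  rw [h2, abs_le] at h1
  linarith [h1.2]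

/-- Taylor coefficients `b^j / j!` starting from the current one -/
def expCoef (b : CB) : ℕ → CB → ℕ → List CB
  | _, _, 0 => []
  | k, c, (n + 1) => c :: expCoef b (k + 1) ((c.mul b).divNat (k + 1)) n

theorem expCoef_spec {β v : ℂ} {b : CB} (hb : CB.mem β b) : ∀ (n k : ℕ) (c : CB),
    CB.mem (β ^ k / (k.factorial : ℂ)) c → ∃ l, List.Forall₂ CB.mem l (expCoef b k c n) ∧
      v ^ k * ev l v = ∑ j ∈ Finset.range n, (β * v) ^ (k + j) / ((k + j).factorial : ℂ) := by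
  intro n
  induction n with
  | zero => intro k c _; exact ⟨[], by simp [expCoef], by simp [ev]⟩
  | succ n ih =>
    intro k c hc
    have h1 : CB.mem (β ^ (k + 1) / ((k + 1).factorial : ℂ)) ((c.mul b).divNat (k + 1)) := by
      have h2 := mem_divNat (k + 1) (Nat.succ_pos k) (mem_mul hc hb)
      convert h2 using 1
      rw [Nat.factorial_succ]
      push_cast
      have h3 : (k.factorial : ℂ) ≠ 0 := by exact_mod_cast k.factorial_ne_zero
      have h4 : (k : ℂ) + 1 ≠ 0 := by exact_mod_cast Nat.succ_ne_zero k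
      field_simp
      exact pow_succ _ _
    obtain ⟨l, hl, hl2⟩ := ih (k + 1) _ h1
    refine ⟨(β ^ k / (k.factorial : ℂ)) :: l, ?_, ?_⟩
    · rw [expCoef]; exact List.Forall₂.cons hc hl
    · rw [ev, Finset.sum_range_succ']
      have h5 : v ^ k * (β ^ k / (k.factorial : ℂ) + v * ev l v) =
          v ^ (k + 1) * ev l v + (β * v) ^ k / (k.factorial : ℂ) := by
        rw [mul_pow]; ring
      rw [h5, hl2]
      simp only [add_zero]
      congr 1
      apply Finset.sum_congr rfl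
      intro j _
      rw [show k + 1 + j = k + (j + 1) by ring]

/-- widen the first coefficient -/
def tWiden : List CB → ℕ → List CB
  | [], _ => []
  | a :: L, n => a.widen n :: L

theorem pmem_widen {v x y : ℂ} {L : List CB} (hL : L ≠ []) {n : ℕ} (hx : PMem v x L)
    (h : ‖y - x‖ * (SC : ℝ) ≤ n) : PMem v y (tWiden L n) := by
  obtain ⟨l, hl, rfl⟩ := hx
  cases hl with
  | nil => exact absurd rfl hL
  | @cons a A l L ha hl =>
    refine ⟨(a + (y - ev (a :: l) v)) :: l, ?_, ?_⟩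
    · rw [tWiden]
      refine List.Forall₂.cons (mem_widen ha ?_) hl
      rw [add_sub_cancel_left, norm_mul, Complex.norm_natCast]
      exact h
    · simp only [ev]; ring

/-- list for `exp (β v)` -/
def tExp (b : CB) (L : ℕ) : List CB :=
  tWiden (expCoef b 0 (CB.ofInt 1) L) (2 * (b.n1 + b.rad) ^ L / (SC ^ (L - 1) * L.factorial) + 1)

def tExpOk (b : CB) (L : ℕ) : Bool := decide (0 < L ∧ 2 * (b.n1 + b.rad) ≤ (L + 1) * SC)

theorem pmem_exp {β v : ℂ} {b : CB} (hv : ‖v‖ ≤ 1) (hb : CB.mem β b) {L : ℕ}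
    (hL : tExpOk b L = true) : PMem v (Complex.exp (β * v)) (tExp b L) := by
  obtain ⟨h0, h1⟩ := of_decide_eq_true hL
  have hS := SC_pos
  obtain ⟨l, hl, hl2⟩ := expCoef_spec (v := v) hb L 0 (CB.ofInt 1) (by simpa using mem_ofInt 1)
  have hne : expCoef b 0 (CB.ofInt 1) L ≠ [] := by
    obtain ⟨m, rfl⟩ : ∃ m, L = m + 1 := ⟨L - 1, by omega⟩
    simp [expCoef]
  have hnb : ‖β * v‖ * (SC : ℝ) ≤ (b.n1 + b.rad : ℕ) := by
    have h2 := norm_le_of_mem hb
    rw [norm_mul, Complex.norm_natCast] at h2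
    rw [norm_mul]
    push_cast
    calc ‖β‖ * ‖v‖ * (SC : ℝ) ≤ ‖β‖ * 1 * SC := by gcongr
      _ ≤ _ := by rw [mul_one]; exact h2
  refine pmem_widen hne ⟨l, hl, rfl⟩ ?_
  have h3 : ‖β * v‖ / (L.succ : ℝ) ≤ 1 / 2 := by
    have h4 : (2 * (b.n1 + b.rad : ℕ) : ℝ) ≤ (L + 1) * SC := by exact_mod_cast h1
    rw [div_le_iff₀ (by positivity)]
    have h5 : 2 * (‖β * v‖ * SC) ≤ ((L : ℝ) + 1) * SC := by linarith
    have h6 : 2 * ‖β * v‖ ≤ (L : ℝ) + 1 := by
      by_contra hcon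
      push Not at hcon
      nlinarith
    rw [Nat.cast_succ]
    linarith
  have h7 := Complex.exp_bound' h3
  have h8 : ev l v = ∑ m ∈ Finset.range L, (β * v) ^ m / (m.factorial : ℂ) := by
    have := hl2
    simpa using this
  rw [h8]
  have hf : (0 : ℝ) < (L.factorial : ℝ) := by exact_mod_cast L.factorial_pos
  have h9 := nat_div_ceil (2 * (b.n1 + b.rad) ^ L) (SC ^ (L - 1) * L.factorial)
    (Nat.mul_pos (pow_pos SCN_pos _) L.factorial_pos)
  push_cast at h9 ⊢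
  refine le_trans ?_ h9
  have h10 : (SC : ℝ) ^ L = SC ^ (L - 1) * SC := by
    obtain ⟨m, rfl⟩ : ∃ m, L = m + 1 := ⟨L - 1, by omega⟩
    simp [pow_succ]
  rw [le_div_iff₀ (by positivity)]
  calc ‖Complex.exp (β * v) - ∑ m ∈ Finset.range L, (β * v) ^ m / (m.factorial : ℂ)‖ * (SC : ℝ) *
        ((SC : ℝ) ^ (L - 1) * L.factorial)
      ≤ (‖β * v‖ ^ L / (L.factorial : ℝ) * 2) * (SC : ℝ) * ((SC : ℝ) ^ (L - 1) * L.factorial) := by
        gcongr
    _ = 2 * (‖β * v‖ * SC) ^ L := by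
        rw [mul_pow, h10]; field_simp
    _ ≤ 2 * ((b.n1 : ℝ) + b.rad) ^ L := by
        push_cast at hnb
        gcongr

end Pool.Agent.Helper67.Xi
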