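import Pool.Agent.Helper67.XiEng5
import Pool.Agent.Helper67.XiTail

/-! Ball evaluation of the transform of a single term of the kernel. -/

open MeasureTheory Set
open scoped Interval

namespace Pool.Agent.Helper67.Xi

/-- Laplace type transform of the n-th term -/
noncomputable def cT (n : ℕ) (R : ℝ) (ζ : ℂ) : ℂ :=
  ∫ t in (0 : ℝ)..R, (trm n t : ℂ) * Complex.exp (ζ * t)

/-- `π (n+1)^2` -/
noncomputable def yn (n : ℕ) : ℝ := Real.pi * ((n : ℝ) + 1) ^ 2

theorem yn_pos (n : ℕ) : 0 < yn n := by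
  have := Real.pi_pos
  unfold yn; positivity

theorem cT_eq (n : ℕ) (R : ℝ) (ζ : ℂ) : cT n R ζ = (yn n : ℂ) / 2 *
    ((ζ - 1) * IY R (yn n) (5 + ζ) - Complex.exp ((5 + ζ) * R - yn n * Complex.exp (4 * R)) +
      Complex.exp (-(yn n : ℂ))) := by
  have h1 : cT n R ζ = 2 * (yn n : ℂ) ^ 2 * IY R (yn n) (5 + ζ + 4) -
      3 * (yn n : ℂ) * IY R (yn n) (5 + ζ) := by
    rw [cT, IY, IY, ← intervalIntegral.integral_const_mul, ← intervalIntegral.integral_const_mul,
      ← intervalIntegral.integral_sub]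
    · congr 1
      ext t
      rw [trm]
      push_cast
      rw [yn]
      push_cast
      have e1 : Complex.exp ((5 + ζ + 4) * t - Real.pi * ((n : ℂ) + 1) ^ 2 * Complex.exp (4 * t)) =
          Complex.exp (9 * t) * Complex.exp (-(Real.pi * ((n : ℂ) + 1) ^ 2 * Complex.exp (4 * t))) *
            Complex.exp (ζ * t) := by
        rw [← Complex.exp_add, ← Complex.exp_add]; ring_nf
      have e2 : Complex.exp ((5 + ζ) * t - Real.pi * ((n : ℂ) + 1) ^ 2 * Complex.exp (4 * t)) =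
          Complex.exp (5 * t) * Complex.exp (-(Real.pi * ((n : ℂ) + 1) ^ 2 * Complex.exp (4 * t))) *
            Complex.exp (ζ * t) := by
        rw [← Complex.exp_add, ← Complex.exp_add]; ring_nf
      rw [e1, e2]
      ring
    · apply Continuous.intervalIntegrable; fun_prop
    · apply Continuous.intervalIntegrable; fun_prop
  have h2 := IY_parts R (yn n) (5 + ζ)
  rw [h1]
  have h3 : (2 : ℂ) * (yn n : ℂ) ^ 2 * IY R (yn n) (5 + ζ + 4) =
      (yn n : ℂ) / 2 * (4 * (yn n : ℂ) * IY R (yn n) (5 + ζ + 4)) := by ring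
  rw [h3]
  have h4 : 4 * (yn n : ℂ) * IY R (yn n) (5 + ζ + 4) = (5 + ζ) * IY R (yn n) (5 + ζ) -
      (Complex.exp ((5 + ζ) * R - yn n * Complex.exp (4 * R)) - Complex.exp (-(yn n : ℂ))) := by
    rw [h2]; ring
  rw [h4]
  ring

theorem Px_scale (x l : ℂ) : ∀ (J : ℕ) (c : ℂ), Px (x * l) c J = l ^ J * Px x c J := by
  intro J
  induction J with
  | zero => intro c; simp [Px]
  | succ J ih =>
    intro c
    rw [Px, Px, ih (c + 4), pow_succ]
    ring

theorem norm_IY_le {R y : ℝ} (hR : 0 ≤ R) (hy : 0 ≤ y) {c : ℂ}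
    (hc : 4 * y * Real.exp (4 * R) ≤ c.re) :
    ‖IY R y c‖ ≤ R * Real.exp (c.re * R - y * Real.exp (4 * R)) := by
  rw [IY]
  have h := intervalIntegral.norm_integral_le_of_norm_le_const (a := (0 : ℝ)) (b := R)
    (C := Real.exp (c.re * R - y * Real.exp (4 * R)))
    (f := fun t : ℝ => Complex.exp (c * t - y * Complex.exp (4 * t))) (by
      intro t ht
      rw [uIoc_of_le hR] at ht
      rw [Complex.norm_exp]
      apply Real.exp_le_exp.2
      have e1 : (c * t - y * Complex.exp (4 * t)).re = c.re * t - y * Real.exp (4 * t) := by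
        have : (4 * (t : ℂ)) = ((4 * t : ℝ) : ℂ) := by push_cast; ring
        rw [this, ← Complex.ofReal_exp, Complex.sub_re, ← Complex.ofReal_mul, Complex.ofReal_re,
          Complex.re_mul_ofReal]
      rw [e1]
      have e2 : Real.exp (4 * t) = Real.exp (4 * R) * Real.exp (-(4 * (R - t))) := by
        rw [← Real.exp_add]; ring_nf
      have e3 : 1 - 4 * (R - t) ≤ Real.exp (-(4 * (R - t))) := by
        have := Real.add_one_le_exp (-(4 * (R - t)))
        linarith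
      have e4 : 0 < Real.exp (4 * R) := Real.exp_pos _
      have e5 : y * Real.exp (4 * R) * (1 - 4 * (R - t)) ≤ y * Real.exp (4 * t) := by
        rw [e2, ← mul_assoc]
        gcongr
      have e6 : 4 * y * Real.exp (4 * R) * (R - t) ≤ c.re * (R - t) := by
        apply mul_le_mul_of_nonneg_right hc; linarith [ht.2]
      nlinarith)
  rw [sub_zero, abs_of_nonneg hR] at h
  linarith

/-- the main part of the two sided transform -/
noncomputable def mainT (n : ℕ) (R : ℝ) (J : ℕ) (ζ : ℂ) : ℂ :=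
  Complex.exp (5 * R - yn n * Complex.exp (4 * R)) *
    (Complex.exp (ζ * R) * ((ζ - 1) * Sx (4 * yn n * Complex.exp (4 * R)) (5 + ζ) J - 1)) -
    Complex.exp (-(yn n : ℂ)) * ((ζ - 1) * Sx (4 * yn n) (5 + ζ) J - 1)

theorem cT_main {n : ℕ} {R : ℝ} (hR : 0 ≤ R) {J : ℕ} {ζ : ℂ}
    (hne : ∀ i : ℕ, i < J → 5 + ζ + 4 * i ≠ 0)
    (hJ : 4 * yn n * Real.exp (4 * R) ≤ 5 + ζ.re + 4 * J) :
    ‖cT n R ζ - (yn n : ℂ) / 2 * mainT n R J ζ‖ ≤ yn n / 2 * ((‖ζ‖ + 1) *
      (‖Px (4 * yn n * Complex.exp (4 * R)) (5 + ζ) J‖ * (R * (‖Complex.exp (ζ * R)‖ *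
        ‖Complex.exp (5 * R - yn n * Complex.exp (4 * R))‖)))) := by
  have hy := yn_pos n
  rw [cT_eq, IY_chain R (yn n) J (5 + ζ) hne, mainT]
  have e1 : Complex.exp ((5 + ζ) * R - yn n * Complex.exp (4 * R)) =
      Complex.exp (5 * R - yn n * Complex.exp (4 * R)) * Complex.exp (ζ * R) := by
    rw [← Complex.exp_add]; ring_nf
  rw [e1]
  have e2 : (yn n : ℂ) / 2 * ((ζ - 1) * (Complex.exp (5 * R - yn n * Complex.exp (4 * R)) *
      Complex.exp (ζ * R) * Sx (4 * yn n * Complex.exp (4 * R)) (5 + ζ) J -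
      Complex.exp (-(yn n : ℂ)) * Sx (4 * yn n) (5 + ζ) J + Px (4 * yn n) (5 + ζ) J *
      IY R (yn n) (5 + ζ + 4 * J)) - Complex.exp (5 * R - yn n * Complex.exp (4 * R)) *
      Complex.exp (ζ * R) + Complex.exp (-(yn n : ℂ))) - (yn n : ℂ) / 2 *
      (Complex.exp (5 * R - yn n * Complex.exp (4 * R)) *
      (Complex.exp (ζ * R) * ((ζ - 1) * Sx (4 * yn n * Complex.exp (4 * R)) (5 + ζ) J - 1)) -
      Complex.exp (-(yn n : ℂ)) * ((ζ - 1) * Sx (4 * yn n) (5 + ζ) J - 1)) =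
      (yn n : ℂ) / 2 * ((ζ - 1) * (Px (4 * yn n) (5 + ζ) J * IY R (yn n) (5 + ζ + 4 * J))) := by
    ring
  rw [e2, norm_mul, norm_mul, norm_mul, norm_div, Complex.norm_real, Real.norm_eq_abs,
    abs_of_pos hy]
  have e3 : ‖(2 : ℂ)‖ = 2 := by simp
  rw [e3]
  have e4 : ‖ζ - 1‖ ≤ ‖ζ‖ + 1 := by
    have := norm_sub_le ζ 1
    simpa using this
  have e5 : ‖Px (4 * yn n) (5 + ζ) J‖ * ‖IY R (yn n) (5 + ζ + 4 * J)‖ ≤
      ‖Px (4 * yn n * Complex.exp (4 * R)) (5 + ζ) J‖ * (R * (‖Complex.exp (ζ * R)‖ *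
        ‖Complex.exp (5 * R - yn n * Complex.exp (4 * R))‖)) := by
    rw [Px_scale (4 * yn n) (Complex.exp (4 * R)), norm_mul, norm_pow]
    have e6 := norm_IY_le (c := 5 + ζ + 4 * J) hR hy.le (by simpa using hJ)
    have e7 : ‖Complex.exp (4 * R)‖ = Real.exp (4 * R) := by
      have : (4 * (R : ℂ)) = ((4 * R : ℝ) : ℂ) := by push_cast; ring
      rw [this, ← Complex.ofReal_exp, Complex.norm_real, Real.norm_eq_abs, abs_of_pos (Real.exp_pos _)]
    have e8 : R * Real.exp ((5 + ζ + 4 * (J : ℂ)).re * R - yn n * Real.exp (4 * R)) =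
        Real.exp (4 * R) ^ J * (R * (‖Complex.exp (ζ * R)‖ *
        ‖Complex.exp (5 * R - yn n * Complex.exp (4 * R))‖)) := by
      have e9 : (4 * (R : ℂ)) = ((4 * R : ℝ) : ℂ) := by push_cast; ring
      rw [Complex.norm_exp, Complex.norm_exp, e9, ← Complex.ofReal_exp, ← Real.exp_nat_mul]
      have e10 : (ζ * (R : ℂ)).re = ζ.re * R := Complex.re_mul_ofReal _ _
      have e11 : (5 * (R : ℂ) - yn n * ((Real.exp (4 * R) : ℝ) : ℂ)).re =
          5 * R - yn n * Real.exp (4 * R) := by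
        rw [Complex.sub_re, ← Complex.ofReal_mul, Complex.ofReal_re, Complex.re_mul_ofReal]
        simp
      rw [e10, e11, ← Real.exp_add, mul_left_comm, ← Real.exp_add]
      congr 2
      simp
      ring
    rw [e7]
    calc ‖Px (4 * yn n) (5 + ζ) J‖ * ‖IY R (yn n) (5 + ζ + 4 * J)‖
        ≤ ‖Px (4 * yn n) (5 + ζ) J‖ * (Real.exp (4 * R) ^ J * (R * (‖Complex.exp (ζ * R)‖ *
        ‖Complex.exp (5 * R - yn n * Complex.exp (4 * R))‖))) := by
          rw [← e8]; gcongr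
      _ = _ := by ring
  gcongr

end Pool.Agent.Helper67.Xi
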