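import Pool.Agent.Helper67.XiEng6

/-! The ball engine for the two sided transform of one term. -/

namespace Pool.Agent.Helper67.Xi

def eA (X T Z : CB) (L J : ℕ) : List CB :=
  tAddC (CB.ofInt (-1)) (tMulLin (Z.add (CB.ofInt (-1))) T (chainT X T L ((CB.ofInt 5).add Z) J))

theorem pmem_eA {X T Z : CB} {L J : ℕ} (hL : 0 < L) {v x z t : ℂ} (hv : ‖v‖ ≤ 1)
    (hx : CB.mem x X) (ht : CB.mem t T) (hz : CB.mem z Z)
    (hok : chainOk T ((CB.ofInt 5).add Z) J = true) :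
    PMem v ((z + t * v - 1) * Sx x (5 + (z + t * v)) J - 1) (eA X T Z L J) := by
  have h5 : CB.mem 5 (CB.ofInt 5) := by simpa using mem_ofInt 5
  have hm : CB.mem (-1) (CB.ofInt (-1)) := by simpa using mem_ofInt (-1)
  have h1 := pmem_chain hL hv hx ht J _ (5 + z) hok (mem_add h5 hz)
  have h2 := pmem_mulLin hv (chainT_ne X T L hL J _) (mem_add hz hm) ht h1
  have h3 := pmem_addC hm h2
  unfold eA
  convert h3 using 1
  rw [show 5 + (z + t * v) = 5 + z + t * v by ring]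
  ring

def tEx (s Z T : CB) (k L : ℕ) : List CB := tScale (CB.exp k (Z.mul s)) (tExp (T.mul s) L)

def tExOk (s Z T : CB) (k L : ℕ) : Bool := CB.expOk k (Z.mul s) && tExpOk (T.mul s) L

theorem pmem_tEx {s Z T : CB} {k L : ℕ} {v z t σ : ℂ} (hv : ‖v‖ ≤ 1) (hs : CB.mem σ s)
    (ht : CB.mem t T) (hz : CB.mem z Z) (hok : tExOk s Z T k L = true) :
    PMem v (Complex.exp ((z + t * v) * σ)) (tEx s Z T k L) := by
  rw [tExOk, Bool.and_eq_true] at hok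
  have h1 := pmem_exp hv (mem_mul ht hs) hok.2
  have h2 := pmem_scale (mem_exp k hok.1 (mem_mul hz hs)) h1
  unfold tEx
  convert h2 using 1
  rw [← Complex.exp_add]
  ring_nf

theorem tEx_ne {s Z T : CB} {k L : ℕ} (hL : 0 < L) : tEx s Z T k L ≠ [] := by
  obtain ⟨m, rfl⟩ : ∃ m, L = m + 1 := ⟨L - 1, by omega⟩
  simp [tEx, tScale, tExp, expCoef, tWiden]

theorem tAdd_ne {A B : List CB} (h : A ≠ []) : tAdd A B ≠ [] := by
  cases A with
  | nil => exact absurd rfl h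
  | cons a A => cases B <;> simp [tAdd]

theorem tScale_ne {c : CB} {A : List CB} (h : A ≠ []) : tScale c A ≠ [] := by
  cases A with
  | nil => exact absurd rfl h
  | cons a A => simp [tScale]

def yB (n : ℕ) : CB := CB.mulInt (((n : ℤ) + 1) ^ 2) CB.pi

theorem mem_yB (n : ℕ) : CB.mem (yn n : ℂ) (yB n) := by
  have h := mem_mulInt (((n : ℤ) + 1) ^ 2) mem_pi
  unfold yB yn
  convert h using 1
  push_cast
  ring

def nB (k : ℕ) (R : CB) : CB := CB.exp k (CB.mulInt 4 R)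

def yN (n k : ℕ) (R : CB) : CB := (yB n).mul (nB k R)

def xU (n k : ℕ) (R : CB) : CB := CB.mulInt 4 (yN n k R)

def xL (n : ℕ) : CB := CB.mulInt 4 (yB n)

def e5A (n k : ℕ) (R : CB) : CB := (CB.mulInt 5 R).sub (yN n k R)

def e5 (n k : ℕ) (R : CB) : CB := CB.exp k (e5A n k R)

def eL (n k : ℕ) : CB := CB.exp k (yB n).neg

/-- remainder -/
def remN (n k J W : ℕ) (R Z T : CB) : ℕ :=
  (((yB n).n1 + (yB n).rad) * ((Z.n1 + Z.rad + (T.n1 + T.rad)) / SC + 2) * (R.n1 + R.rad) *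
    ((e5 n k R).n1 + (e5 n k R).rad) * W *
    (prodB (xU n k R) T ((CB.ofInt 5).add Z) J +
      prodB (xU n k R) T.neg ((CB.ofInt 5).add Z.neg) J)) / (2 * SC ^ 3) + 1

def engL (n k L J : ℕ) (κ : ℤ) (W : ℕ) (R Z T : CB) : List CB :=
  tWiden (tScale ((yB n).divNat 2)
    (tAdd (tScale (e5 n k R) (tAdd
        (tMul (tEx (CB.mulInt (1 - κ) R) Z T k L) (eA (xU n k R) T Z L J))
        (tMul (tEx (CB.mulInt (-(1 + κ)) R) Z T k L) (eA (xU n k R) T.neg Z.neg L J))))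
      (tNeg (tScale (eL n k) (tMul (tEx (CB.mulInt (-κ) R) Z T k L)
        (tAdd (eA (xL n) T Z L J) (eA (xL n) T.neg Z.neg L J)))))))
    (remN n k J W R Z T)

def bigOk (n k J : ℕ) (R Z T : CB) : Bool :=
  decide ((xU n k R).re + (xU n k R).rad + Z.rad + T.n1 + T.rad ≤ (5 + 4 * J : ℕ) * (SC : ℤ) + Z.re)

def engOk (n k L J : ℕ) (κ : ℤ) (R Z T : CB) : Bool :=
  decide (0 < L) && chainOk T ((CB.ofInt 5).add Z) J && chainOk T.neg ((CB.ofInt 5).add Z.neg) J &&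
  CB.expOk k (CB.mulInt 4 R) && CB.expOk k (e5A n k R) && CB.expOk k (yB n).neg &&
  tExOk (CB.mulInt (1 - κ) R) Z T k L && tExOk (CB.mulInt (-(1 + κ)) R) Z T k L &&
  tExOk (CB.mulInt (-κ) R) Z T k L && bigOk n k J R Z T && bigOk n k J R Z.neg T.neg

theorem bigOk_spec {n k J : ℕ} {R : ℝ} {Rb Z T : CB} {z t v : ℂ} (hv : ‖v‖ ≤ 1)
    (hRb : CB.mem R Rb) (hz : CB.mem z Z) (ht : CB.mem t T)
    (hN : CB.expOk k (CB.mulInt 4 Rb) = true) (h : bigOk n k J Rb Z T = true) :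
    4 * yn n * Real.exp (4 * R) ≤ 5 + (z + t * v).re + 4 * J := by
  have h0 := of_decide_eq_true h
  have hS := SC_pos
  have h1 := mem_mulInt 4 hRb
  have h2 := mem_exp k hN h1
  have h3 := mem_mulInt 4 (mem_mul (mem_yB n) h2)
  have h4 := re_le_of_mem h3
  have e1 : (((4 : ℤ) : ℂ) * ((yn n : ℂ) * Complex.exp (((4 : ℤ) : ℂ) * R))).re =
      4 * yn n * Real.exp (4 * R) := by
    have : (((4 : ℤ) : ℂ) * (R : ℂ)) = ((4 * R : ℝ) : ℂ) := by push_cast; ring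
    rw [this, ← Complex.ofReal_exp, ← Complex.ofReal_mul]
    have : (((4 : ℤ) : ℂ) * ((yn n * Real.exp (4 * R) : ℝ) : ℂ)) =
      ((4 * yn n * Real.exp (4 * R) : ℝ) : ℂ) := by push_cast; ring
    rw [this, Complex.ofReal_re]
  rw [e1] at h4
  have h5 := re_ge_of_mem hz
  have h6 := norm_le_of_mem ht
  rw [norm_mul, Complex.norm_natCast] at h6
  have h7 : -(‖t‖ * SC) ≤ (t * v).re * SC := by
    have h8 : |(t * v).re| ≤ ‖t‖ := by
      refine (Complex.abs_re_le_norm _).trans ?_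
      rw [norm_mul]
      calc ‖t‖ * ‖v‖ ≤ ‖t‖ * 1 := by gcongr
        _ = _ := mul_one _
    have h9 := (abs_le.1 h8).1
    nlinarith
  have h0r : ((xU n k Rb).re : ℝ) + (xU n k Rb).rad + Z.rad + T.n1 + T.rad ≤
      (5 + 4 * J) * (SC : ℝ) + Z.re := by exact_mod_cast h0
  have h10 : 4 * yn n * Real.exp (4 * R) * SC ≤ (5 + (z + t * v).re + 4 * J) * SC := by
    rw [Complex.add_re]
    have : (CB.mulInt 4 ((yB n).mul (CB.exp k (CB.mulInt 4 Rb)))) = xU n k Rb := rfl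
    rw [this] at h4
    nlinarith
  exact le_of_mul_le_mul_right h10 hS

theorem norm_ofReal_exp (x : ℝ) : ‖Complex.exp (x : ℂ)‖ = Real.exp x := by
  rw [← Complex.ofReal_exp, Complex.norm_real, Real.norm_eq_abs, abs_of_pos (Real.exp_pos _)]

theorem pmem_eng {n k L J : ℕ} {κ : ℤ} {W : ℕ} {R : ℝ} {Rb Z T : CB} {z t v : ℂ} (hv : ‖v‖ ≤ 1)
    (hR : 0 ≤ R) (hRb : CB.mem R Rb) (hz : CB.mem z Z) (ht : CB.mem t T)
    (hok : engOk n k L J κ Rb Z T = true)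
    (hW1 : ‖Complex.exp ((z + t * v) * (((1 - κ : ℤ) : ℂ) * R))‖ ≤ W)
    (hW2 : ‖Complex.exp ((z + t * v) * (((-(1 + κ) : ℤ) : ℂ) * R))‖ ≤ W) :
    PMem v (Complex.exp ((z + t * v) * (((-κ : ℤ) : ℂ) * R)) *
      (cT n R (z + t * v) + cT n R (-(z + t * v)))) (engL n k L J κ W Rb Z T) := by
  simp only [engOk, Bool.and_eq_true] at hok
  obtain ⟨⟨⟨⟨⟨⟨⟨⟨⟨⟨hL0, hc1⟩, hc2⟩, hN⟩, h5⟩, hl⟩, hx1⟩, hx2⟩, hx3⟩, hb1⟩, hb2⟩ := hok
  have hL : 0 < L := of_decide_eq_true hL0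
  have hS := SC_pos
  have hyp := yn_pos n
  have hyB := mem_yB n
  have hNm := mem_exp k hN (mem_mulInt 4 hRb)
  have hyN := mem_mul hyB hNm
  have hXU := mem_mulInt 4 hyN
  have hXL := mem_mulInt 4 hyB
  have hE5 := mem_exp k h5 (mem_sub (mem_mulInt 5 hRb) hyN)
  have hEL := mem_exp k hl (mem_neg hyB)
  have hzn := mem_neg hz
  have htn := mem_neg ht
  have e4 : (((4 : ℤ) : ℂ) * (R : ℂ)) = 4 * (R : ℂ) := by push_cast; ring
  have e5' : (((5 : ℤ) : ℂ) * (R : ℂ)) = 5 * (R : ℂ) := by push_cast; ring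
  have e6 : (((4 : ℤ) : ℂ) * ((yn n : ℂ) * Complex.exp (4 * R))) =
      4 * yn n * Complex.exp (4 * R) := by push_cast; ring
  have e7 : (((4 : ℤ) : ℂ) * (yn n : ℂ)) = 4 * yn n := by push_cast; ring
  rw [e4] at hNm hyN hXU hE5
  rw [e5'] at hE5
  rw [e6] at hXU
  rw [e7] at hXL
  set ζ : ℂ := z + t * v with hζ
  have hnζ : -z + -t * v = -ζ := by rw [hζ]; ring
  have hA1 := pmem_eA (J := J) hL hv hXU ht hz hc1
  have hA2 := pmem_eA (J := J) hL hv hXU htn hzn hc2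
  have hC1 := pmem_eA (J := J) hL hv hXL ht hz hc1
  have hC2 := pmem_eA (J := J) hL hv hXL htn hzn hc2
  rw [hnζ] at hA2 hC2
  rw [← hζ] at hA1 hC1
  have hM1 := pmem_tEx (L := L) hv (mem_mulInt (1 - κ) hRb) ht hz hx1
  have hM2 := pmem_tEx (L := L) hv (mem_mulInt (-(1 + κ)) hRb) ht hz hx2
  have hM3 := pmem_tEx (L := L) hv (mem_mulInt (-κ) hRb) ht hz hx3
  rw [← hζ] at hM1 hM2 hM3
  have hG := pmem_scale (mem_divNat 2 two_pos hyB) (pmem_add (pmem_scale hE5 (pmem_add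
    (pmem_mul hv (tEx_ne hL) hM1 hA1) (pmem_mul hv (tEx_ne hL) hM2 hA2)))
    (pmem_neg (pmem_scale hEL (pmem_mul hv (tEx_ne hL) hM3 (pmem_add hC1 hC2)))))
  unfold engL
  refine pmem_widen ?_ hG ?_
  · exact tScale_ne (tAdd_ne (tScale_ne (tAdd_ne (tMul_ne (tEx_ne hL)))))
  -- the remainder
  have hm1 := cT_main (n := n) (R := R) hR (J := J) (ζ := ζ) (by
    intro i hi
    have := chainOk_ne hv ht J _ (5 + z) hc1 (mem_add (by simpa using mem_ofInt 5) hz) i hi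
    intro h0
    apply this
    rw [← h0, hζ]; ring) (by
      have := bigOk_spec hv hRb hz ht hN hb1
      rw [← hζ] at this
      exact this)
  have hm2 := cT_main (n := n) (R := R) hR (J := J) (ζ := -ζ) (by
    intro i hi
    have := chainOk_ne hv htn J _ (5 + -z) hc2 (mem_add (by simpa using mem_ofInt 5) hzn) i hi
    intro h0
    apply this
    rw [← h0, ← hnζ]; ring) (by
      have := bigOk_spec hv hRb hzn htn hN hb2
      rw [hnζ] at this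
      exact this)
  rw [norm_neg] at hm2
  have hp1 := norm_Px_le hv hXU ht J _ (5 + z) hc1 (mem_add (by simpa using mem_ofInt 5) hz)
  have hp2 := norm_Px_le hv hXU htn J _ (5 + -z) hc2 (mem_add (by simpa using mem_ofInt 5) hzn)
  have eq1 : 5 + z + t * v = 5 + ζ := by rw [hζ]; ring
  have eq2 : 5 + -z + -t * v = 5 + -ζ := by rw [← hnζ]; ring
  rw [eq1] at hp1
  rw [eq2] at hp2
  set P1 := ‖Px (4 * yn n * Complex.exp (4 * R)) (5 + ζ) J‖ with hP1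
  set P2 := ‖Px (4 * yn n * Complex.exp (4 * R)) (5 + -ζ) J‖ with hP2
  set E := ‖Complex.exp (5 * R - yn n * Complex.exp (4 * R))‖ with hE
  set K := Complex.exp (ζ * (((-κ : ℤ) : ℂ) * R)) with hK
  -- identity
  have hid : K * (cT n R ζ + cT n R (-ζ)) -
      (yn n : ℂ) / ((2 : ℕ) : ℂ) * (Complex.exp (5 * R - yn n * Complex.exp (4 * R)) *
        (Complex.exp (ζ * (((1 - κ : ℤ) : ℂ) * R)) * ((ζ - 1) *
          Sx (4 * yn n * Complex.exp (4 * R)) (5 + ζ) J - 1) +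
        Complex.exp (ζ * (((-(1 + κ) : ℤ) : ℂ) * R)) * ((-ζ - 1) *
          Sx (4 * yn n * Complex.exp (4 * R)) (5 + -ζ) J - 1)) +
      -(Complex.exp (-(yn n : ℂ)) * (K * ((ζ - 1) * Sx (4 * yn n) (5 + ζ) J - 1 +
        ((-ζ - 1) * Sx (4 * yn n) (5 + -ζ) J - 1))))) =
      K * ((cT n R ζ - (yn n : ℂ) / 2 * mainT n R J ζ) +
        (cT n R (-ζ) - (yn n : ℂ) / 2 * mainT n R J (-ζ))) := by
    have k1 : Complex.exp (ζ * (((1 - κ : ℤ) : ℂ) * R)) = K * Complex.exp (ζ * R) := by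
      rw [hK, ← Complex.exp_add]; congr 1; push_cast; ring
    have k2 : Complex.exp (ζ * (((-(1 + κ) : ℤ) : ℂ) * R)) = K * Complex.exp (-ζ * R) := by
      rw [hK, ← Complex.exp_add]; congr 1; push_cast; ring
    rw [k1, k2, mainT, mainT]
    push_cast
    ring
  have hbound : ‖K * ((cT n R ζ - (yn n : ℂ) / 2 * mainT n R J ζ) +
        (cT n R (-ζ) - (yn n : ℂ) / 2 * mainT n R J (-ζ)))‖ ≤
      yn n / 2 * ((‖ζ‖ + 1) * (R * (E * (W * (P1 + P2))))) := by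
    rw [norm_mul]
    have k1 : ‖K‖ * ‖Complex.exp (ζ * R)‖ ≤ W := by
      rw [← norm_mul, hK, ← Complex.exp_add]
      convert hW1 using 3
      push_cast; ring
    have k2 : ‖K‖ * ‖Complex.exp (-ζ * R)‖ ≤ W := by
      rw [← norm_mul, hK, ← Complex.exp_add]
      convert hW2 using 3
      push_cast; ring
    have hy2 : 0 ≤ yn n / 2 := by positivity
    have hz1 : 0 ≤ ‖ζ‖ + 1 := by positivity
    have hE0 : 0 ≤ E := norm_nonneg _
    have hP10 : 0 ≤ P1 := norm_nonneg _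
    have hP20 : 0 ≤ P2 := norm_nonneg _
    calc _ ≤ ‖K‖ * (yn n / 2 * ((‖ζ‖ + 1) * (P1 * (R * (‖Complex.exp (ζ * R)‖ * E)))) +
          yn n / 2 * ((‖ζ‖ + 1) * (P2 * (R * (‖Complex.exp (-ζ * R)‖ * E))))) := by
          refine mul_le_mul_of_nonneg_left ?_ (norm_nonneg _)
          exact (norm_add_le _ _).trans (add_le_add hm1 hm2)
      _ = yn n / 2 * ((‖ζ‖ + 1) * (R * (E * ((‖K‖ * ‖Complex.exp (ζ * R)‖) * P1 +
            (‖K‖ * ‖Complex.exp (-ζ * R)‖) * P2)))) := by ring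
      _ ≤ yn n / 2 * ((‖ζ‖ + 1) * (R * (E * (W * P1 + W * P2)))) := by gcongr
      _ = _ := by ring
  rw [hid]
  -- scaled bounds
  have hY := norm_le_of_mem hyB
  have hRn := norm_le_of_mem hRb
  have hEn := norm_le_of_mem hE5
  have hzN := norm_le_of_mem hz
  have htN := norm_le_of_mem ht
  rw [norm_mul, Complex.norm_natCast] at hY hRn hEn hzN htN
  rw [Complex.norm_real, Real.norm_eq_abs, abs_of_pos hyp] at hY
  rw [Complex.norm_real, Real.norm_eq_abs, abs_of_nonneg hR] at hRn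
  rw [← hE] at hEn
  have hq : ‖ζ‖ + 1 ≤ ((Z.n1 + Z.rad + (T.n1 + T.rad)) / SC + 2 : ℕ) := by
    have q1 := nat_div_ceil (Z.n1 + Z.rad + (T.n1 + T.rad)) SC SCN_pos
    have q2 : ‖ζ‖ * SC ≤ (Z.n1 + Z.rad + (T.n1 + T.rad) : ℕ) := by
      have q3 : ‖ζ‖ ≤ ‖z‖ + ‖t‖ := by
        rw [hζ]
        refine (norm_add_le _ _).trans ?_
        rw [norm_mul]
        have : ‖t‖ * ‖v‖ ≤ ‖t‖ * 1 := by gcongr
        linarith
      push_cast
      nlinarith
    have q4 : ‖ζ‖ ≤ ((Z.n1 + Z.rad + (T.n1 + T.rad) : ℕ) : ℝ) / SC := by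
      rw [le_div_iff₀ hS]; exact q2
    push_cast at q1 q4 ⊢
    linarith
  have hrem := nat_div_ceil (((yB n).n1 + (yB n).rad) * ((Z.n1 + Z.rad + (T.n1 + T.rad)) / SC + 2) *
    (Rb.n1 + Rb.rad) * ((e5 n k Rb).n1 + (e5 n k Rb).rad) * W *
    (prodB (xU n k Rb) T ((CB.ofInt 5).add Z) J +
      prodB (xU n k Rb) T.neg ((CB.ofInt 5).add Z.neg) J)) (2 * SC ^ 3)
    (Nat.mul_pos two_pos (pow_pos SCN_pos _))
  unfold remN
  rw [Nat.cast_add, Nat.cast_one]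
  refine le_trans ?_ hrem
  rw [le_div_iff₀ (by push_cast; positivity)]
  set q : ℕ := (Z.n1 + Z.rad + (T.n1 + T.rad)) / SC + 2 with hqdef
  have r1 : ‖K * ((cT n R ζ - (yn n : ℂ) / 2 * mainT n R J ζ) +
        (cT n R (-ζ) - (yn n : ℂ) / 2 * mainT n R J (-ζ)))‖ * (SC : ℝ) * ((2 * SC ^ 3 : ℕ) : ℝ) ≤
      (yn n / 2 * ((‖ζ‖ + 1) * (R * (E * (W * (P1 + P2)))))) * (SC : ℝ) * ((2 * SC ^ 3 : ℕ) : ℝ) := by
    gcongr
  refine r1.trans ?_
  have r2 : (yn n / 2 * ((‖ζ‖ + 1) * (R * (E * (W * (P1 + P2)))))) * (SC : ℝ) *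
      ((2 * SC ^ 3 : ℕ) : ℝ) = (yn n * SC) * (‖ζ‖ + 1) * (R * SC) * (E * SC) * W *
        (P1 * SC + P2 * SC) := by
    push_cast; ring
  rw [r2]
  have hE0 : 0 ≤ E := norm_nonneg _
  have hP10 : 0 ≤ P1 := norm_nonneg _
  have hP20 : 0 ≤ P2 := norm_nonneg _
  have hEn' : E * SC ≤ (e5 n k Rb).n1 + (e5 n k Rb).rad := hEn
  have hp1' : P1 * SC ≤ prodB (xU n k Rb) T ((CB.ofInt 5).add Z) J := hp1
  have hp2' : P2 * SC ≤ prodB (xU n k Rb) T.neg ((CB.ofInt 5).add Z.neg) J := hp2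
  push_cast
  have hz1 : 0 ≤ ‖ζ‖ + 1 := by positivity
  have hq' : ‖ζ‖ + 1 ≤ (q : ℝ) := hq
  gcongr

end Pool.Agent.Helper67.Xi
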