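import Pool.Agent.Helper67.XiEng7
import Pool.Agent.Helper67.XiC
import Pool.Agent.Helper67.XiMin

/-! Estimates used for the boxes. -/

open MeasureTheory Set Real
open scoped Interval

namespace Pool.Agent.Helper67.Xi

theorem exp40 (n : ℕ) (hn : 1 ≤ n) : AntitoneOn (fun t => trm n t * exp (40 * t)) (Ici 0) := by
  have hd : ∀ t : ℝ, HasDerivAt (fun t => trm n t * exp (40 * t))
      ((π * ((n : ℝ) + 1) ^ 2 * exp (5 * t) * exp (-(π * ((n : ℝ) + 1) ^ 2 * exp (4 * t))) *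
      (-8 * (π * ((n : ℝ) + 1) ^ 2 * exp (4 * t)) ^ 2 +
        110 * (π * ((n : ℝ) + 1) ^ 2 * exp (4 * t)) - 135)) * exp (40 * t)) t := by
    intro t
    have h40 : HasDerivAt (fun t : ℝ => exp (40 * t)) (exp (40 * t) * 40) t := by
      simpa using ((hasDerivAt_id t).const_mul (40 : ℝ)).exp
    have h := (trm_hasDerivAt n t).mul h40
    refine h.congr_deriv ?_
    rw [trm_eq]
    ring
  apply antitoneOn_of_deriv_nonpos (convex_Ici 0)
  · exact fun t _ => (hd t).continuousAt.continuousWithinAt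
  · exact fun t _ => (hd t).differentiableAt.differentiableWithinAt
  · intro t ht
    rw [interior_Ici] at ht
    rw [(hd t).deriv]
    have h1 := one_le_exp4 (le_of_lt ht)
    have hn' : (1 : ℝ) ≤ n := by exact_mod_cast hn
    have h2 : (4 : ℝ) ≤ ((n : ℝ) + 1) ^ 2 := by nlinarith
    have h3 : (12.5 : ℝ) ≤ π * ((n : ℝ) + 1) ^ 2 * exp (4 * t) := by
      have : (12.5 : ℝ) ≤ π * ((n : ℝ) + 1) ^ 2 := by nlinarith [pi_gt_d2]
      nlinarith
    have h4 : -8 * (π * ((n : ℝ) + 1) ^ 2 * exp (4 * t)) ^ 2 +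
        110 * (π * ((n : ℝ) + 1) ^ 2 * exp (4 * t)) - 135 ≤ 0 := by nlinarith
    apply mul_nonpos_of_nonpos_of_nonneg
    · apply mul_nonpos_of_nonneg_of_nonpos
      · have := pi_pos; positivity
      · exact h4
    · positivity

theorem Psi_le_exp {t : ℝ} (ht : 0 ≤ t) : Psi t ≤ 98 / 10 ^ 5 * exp (-(40 * t)) := by
  have h1 : Psi t * exp (40 * t) ≤ Psi 0 := by
    rw [Psi, Psi, ← tsum_mul_right]
    refine ((summable_trm1 ht).mul_right _).tsum_le_tsum (fun n => ?_) (summable_trm1 le_rfl)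
    have := exp40 (n + 1) (by omega) (mem_Ici.2 (le_refl (0 : ℝ))) (mem_Ici.2 ht) ht
    simpa using this
  have h2 := Psi_le (le_refl (0 : ℝ))
  have h3 : Psi t = Psi t * exp (40 * t) * exp (-(40 * t)) := by
    rw [mul_assoc, ← exp_add]; simp
  rw [h3]
  have := exp_pos (-(40 * t))
  gcongr
  linarith

theorem trm0_antitoneOn : AntitoneOn (trm 0) (Ici (1 / 100)) := by
  apply antitoneOn_of_deriv_nonpos (convex_Ici _)
  · exact fun t _ => (trm_hasDerivAt 0 t).continuousAt.continuousWithinAt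
  · exact fun t _ => (trm_hasDerivAt 0 t).differentiableAt.differentiableWithinAt
  · intro t ht
    rw [interior_Ici] at ht
    have ht' : (1 / 100 : ℝ) < t := ht
    rw [(trm_hasDerivAt 0 t).deriv]
    have h1 : (1.04 : ℝ) ≤ exp (4 * t) := by
      have := add_one_le_exp (4 * t)
      linarith
    have h3 : (3.26 : ℝ) ≤ π * (((0 : ℕ) : ℝ) + 1) ^ 2 * exp (4 * t) := by
      push_cast
      nlinarith [pi_gt_d2]
    have h4 : -8 * (π * (((0 : ℕ) : ℝ) + 1) ^ 2 * exp (4 * t)) ^ 2 +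
        30 * (π * (((0 : ℕ) : ℝ) + 1) ^ 2 * exp (4 * t)) - 15 ≤ 0 := by
      have key : ∀ Y : ℝ, 3.26 ≤ Y → -8 * Y ^ 2 + 30 * Y - 15 ≤ 0 := by
        intro Y hY
        nlinarith [mul_nonneg (sub_nonneg.2 hY) (sub_nonneg.2 hY)]
      exact key _ h3
    apply mul_nonpos_of_nonneg_of_nonpos
    · have := pi_pos; positivity
    · exact h4

/-- transform of a weight -/
noncomputable def pT (ψ : ℝ → ℝ) (R : ℝ) (ζ : ℂ) : ℂ :=
  ∫ t in (0 : ℝ)..R, (ψ t : ℂ) * Complex.exp (ζ * t)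

theorem ii_of_cont {ψ : ℝ → ℝ} {a b : ℝ} (hab : a ≤ b) (h : ContinuousOn ψ (Icc a b))
    {g : ℝ → ℂ} (hg : Continuous g) :
    IntervalIntegrable (fun t => (ψ t : ℂ) * g t) volume a b := by
  apply ContinuousOn.intervalIntegrable
  rw [uIcc_of_le hab]
  exact (Complex.continuous_ofReal.comp_continuousOn h).mul hg.continuousOn

theorem two_ff {R : ℝ} (hR : 0 ≤ R) (ζ : ℂ) :
    2 * ff R ζ = (cT 0 R ζ + cT 0 R (-ζ)) + (pT Psi R ζ + pT Psi R (-ζ)) := by
  have hP := Psi_continuousOn R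
  have ht := (trm_continuous 0).continuousOn (s := Icc 0 R)
  have hg : ∀ w : ℂ, Continuous (fun t : ℝ => Complex.exp (w * t)) := fun w => by fun_prop
  rw [ff, cT, cT, pT, pT, ← intervalIntegral.integral_const_mul,
    ← intervalIntegral.integral_add (ii_of_cont hR ht (hg _)) (ii_of_cont hR ht (hg _)),
    ← intervalIntegral.integral_add (ii_of_cont hR hP (hg _)) (ii_of_cont hR hP (hg _)),
    ← intervalIntegral.integral_add ((ii_of_cont hR ht (hg _)).add (ii_of_cont hR ht (hg _)))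
      ((ii_of_cont hR hP (hg _)).add (ii_of_cont hR hP (hg _)))]
  apply intervalIntegral.integral_congr
  intro t ht'
  rw [uIcc_of_le hR] at ht'
  simp only
  rw [Phi_split ht'.1, Complex.cosh]
  push_cast
  ring_nf

theorem pT_Psi {R : ℝ} (hR : 0 ≤ R) (ζ : ℂ) : pT Psi R ζ = cT 1 R ζ + pT Psi3 R ζ := by
  have hP := Psi3_continuousOn R
  have ht := (trm_continuous 1).continuousOn (s := Icc 0 R)
  have hg : ∀ w : ℂ, Continuous (fun t : ℝ => Complex.exp (w * t)) := fun w => by fun_prop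
  rw [pT, pT, cT, ← intervalIntegral.integral_add (ii_of_cont hR ht (hg _))
    (ii_of_cont hR hP (hg _))]
  apply intervalIntegral.integral_congr
  intro t ht'
  rw [uIcc_of_le hR] at ht'
  simp only
  rw [Psi_split ht'.1]
  push_cast
  ring

theorem norm_cexp_mul (ζ : ℂ) (t : ℝ) : ‖Complex.exp (ζ * t)‖ = exp (ζ.re * t) := by
  rw [Complex.norm_exp, Complex.re_mul_ofReal]

theorem pT3_le {R : ℝ} (hR : 0 ≤ R) (ζ : ℂ) (hζ : 0 ≤ ζ.re) :
    ‖Complex.exp (ζ * (-R : ℝ)) * (pT Psi3 R ζ + pT Psi3 R (-ζ))‖ ≤ 2 * R / 10 ^ 9 := by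
  have key : ∀ w : ℂ, w.re ≤ ζ.re →
      ‖Complex.exp (ζ * (-R : ℝ)) * pT Psi3 R w‖ ≤ R / 10 ^ 9 := by
    intro w hw
    rw [pT, ← intervalIntegral.integral_const_mul]
    have h := intervalIntegral.norm_integral_le_of_norm_le_const (a := (0 : ℝ)) (b := R)
      (C := 1 / 10 ^ 9) (f := fun t : ℝ => Complex.exp (ζ * (-R : ℝ)) *
        ((Psi3 t : ℂ) * Complex.exp (w * t))) (by
        intro t ht
        rw [uIoc_of_le hR] at ht
        rw [norm_mul, norm_mul, norm_cexp_mul, norm_cexp_mul, Complex.norm_real, Real.norm_eq_abs,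
          abs_of_nonneg (Psi3_nonneg ht.1.le)]
        have h1 := Psi3_le ht.1.le
        have h2 : exp (ζ.re * -R) * (Psi3 t * exp (w.re * t)) =
            Psi3 t * exp (ζ.re * -R + w.re * t) := by rw [exp_add]; ring
        rw [h2]
        have h3 : exp (ζ.re * -R + w.re * t) ≤ 1 := by
          apply exp_le_one_iff.2
          have h4 : w.re * t ≤ ζ.re * t := mul_le_mul_of_nonneg_right hw ht.1.le
          have h5 : ζ.re * t ≤ ζ.re * R := mul_le_mul_of_nonneg_left ht.2 hζ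
          linarith
        calc Psi3 t * exp (ζ.re * -R + w.re * t) ≤ (1 / 10 ^ 9) * 1 := by
              gcongr
          _ = _ := by ring)
    rw [sub_zero, abs_of_nonneg hR] at h
    linarith
  rw [mul_add]
  refine (norm_add_le _ _).trans ?_
  have h1 := key ζ le_rfl
  have h2 := key (-ζ) (by simp; linarith)
  have : 2 * R / 10 ^ 9 = R / 10 ^ 9 + R / 10 ^ 9 := by ring
  linarith

theorem pT1_le {R : ℝ} (hR : 0 ≤ R) (ζ : ℂ) {x : ℝ} (hx0 : 0 ≤ x) (hx : x ≤ ζ.re) (hx4 : x ≤ 40) :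
    ‖Complex.exp (ζ * (-R : ℝ)) * (pT Psi R ζ + pT Psi R (-ζ))‖ ≤
      2 * (98 / 10 ^ 5) * R * exp (-(x * R)) := by
  have key : ∀ w : ℂ, w.re ≤ ζ.re →
      ‖Complex.exp (ζ * (-R : ℝ)) * pT Psi R w‖ ≤ (98 / 10 ^ 5) * R * exp (-(x * R)) := by
    intro w hw
    rw [pT, ← intervalIntegral.integral_const_mul]
    have h := intervalIntegral.norm_integral_le_of_norm_le_const (a := (0 : ℝ)) (b := R)
      (C := (98 / 10 ^ 5) * exp (-(x * R))) (f := fun t : ℝ => Complex.exp (ζ * (-R : ℝ)) *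
        ((Psi t : ℂ) * Complex.exp (w * t))) (by
        intro t ht
        rw [uIoc_of_le hR] at ht
        rw [norm_mul, norm_mul, norm_cexp_mul, norm_cexp_mul, Complex.norm_real, Real.norm_eq_abs,
          abs_of_nonneg (Psi_nonneg ht.1.le)]
        have h1 := Psi_le_exp ht.1.le
        have h2 : exp (ζ.re * -R) * (Psi t * exp (w.re * t)) =
            Psi t * exp (ζ.re * -R + w.re * t) := by rw [exp_add]; ring
        rw [h2]
        have h3 : exp (-(40 * t)) * exp (ζ.re * -R + w.re * t) ≤ exp (-(x * R)) := by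
          rw [← exp_add]
          apply exp_le_exp.2
          have h4 : w.re * t ≤ ζ.re * t := mul_le_mul_of_nonneg_right hw ht.1.le
          have h5 : 0 ≤ (ζ.re - x) * (R - t) := mul_nonneg (by linarith) (by linarith [ht.2])
          have h6 : 0 ≤ (40 - x) * t := mul_nonneg (by linarith) ht.1.le
          nlinarith
        have h7 := exp_pos (ζ.re * -R + w.re * t)
        calc Psi t * exp (ζ.re * -R + w.re * t) ≤
              (98 / 10 ^ 5 * exp (-(40 * t))) * exp (ζ.re * -R + w.re * t) := by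
              gcongr
          _ = 98 / 10 ^ 5 * (exp (-(40 * t)) * exp (ζ.re * -R + w.re * t)) := by ring
          _ ≤ _ := by gcongr)
    rw [sub_zero, abs_of_nonneg hR] at h
    linarith
  rw [mul_add]
  refine (norm_add_le _ _).trans ?_
  have h1 := key ζ le_rfl
  have h2 := key (-ζ) (by simp; linarith)
  linarith

/-- bound for the kernel -/
theorem Phi_le_at {t0 t : ℝ} (h0 : 1 / 100 ≤ t0) (ht : t0 ≤ t) :
    Phi t ≤ trm 0 t0 + 98 / 10 ^ 5 * exp (-(40 * t0)) := by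
  have ht0 : 0 ≤ t0 := by linarith
  rw [Phi_split (ht0.trans ht)]
  have h1 := trm0_antitoneOn (mem_Ici.2 h0) (mem_Ici.2 (h0.trans ht)) ht
  have h2 := Psi_antitoneOn (mem_Ici.2 ht0) (mem_Ici.2 (ht0.trans ht)) ht
  have h3 := Psi_le_exp ht0
  linarith

/-- variation in R -/
theorem ff_var {Ri R δ B : ℝ} (h0 : 1 / 100 ≤ Ri - δ) (hδ : |R - Ri| ≤ δ)
    (hB : ∀ t, Ri - δ ≤ t → Phi t ≤ B) (ζ : ℂ) (hζ : 0 ≤ ζ.re) {x1 x2 : ℝ} (hx1 : x1 ≤ ζ.re)
    (hx2 : ζ.re ≤ x2) :
    ‖Complex.exp (ζ * (-Ri : ℝ)) * (2 * ff R ζ) - Complex.exp (ζ * (-Ri : ℝ)) * (2 * ff Ri ζ)‖ ≤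
      δ * B * (exp (x2 * δ) + exp (-(x1 * (2 * Ri - δ)))) := by
  have hδ0 : 0 ≤ δ := (abs_nonneg _).trans hδ
  obtain ⟨ha, hb⟩ := abs_le.1 hδ
  have hRi : 0 ≤ Ri := by linarith
  have hR : 0 ≤ R := by linarith
  have hB0 : 0 ≤ B := (Phi_pos (by linarith)).le.trans (hB Ri (by linarith))
  have hci : ∀ a b : ℝ, 0 ≤ a → 0 ≤ b → IntervalIntegrable
      (fun t => (Phi t : ℂ) * Complex.cosh (ζ * (t : ℂ))) volume a b := by
    intro a b ha hb
    apply ContinuousOn.intervalIntegrable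
    have hc : ContinuousOn Phi (uIcc a b) := by
      apply (Phi_continuousOn (max a b)).mono
      rw [uIcc]
      intro x hx
      exact ⟨(le_min ha hb).trans hx.1, hx.2⟩
    exact (Complex.continuous_ofReal.comp_continuousOn hc).mul (by fun_prop)
  have h1 : Complex.exp (ζ * (-Ri : ℝ)) * (2 * ff R ζ) -
      Complex.exp (ζ * (-Ri : ℝ)) * (2 * ff Ri ζ) =
      ∫ t in Ri..R, Complex.exp (ζ * (-Ri : ℝ)) * (2 * ((Phi t : ℂ) * Complex.cosh (ζ * (t : ℂ)))) := by
    rw [intervalIntegral.integral_const_mul, intervalIntegral.integral_const_mul]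
    have h2 := intervalIntegral.integral_interval_sub_left (hci 0 R le_rfl hR) (hci 0 Ri le_rfl hRi)
    rw [← h2, ff, ff]
    ring
  rw [h1]
  have h := intervalIntegral.norm_integral_le_of_norm_le_const (a := Ri) (b := R)
      (C := B * (exp (x2 * δ) + exp (-(x1 * (2 * Ri - δ)))))
      (f := fun t : ℝ => Complex.exp (ζ * (-Ri : ℝ)) *
        (2 * ((Phi t : ℂ) * Complex.cosh (ζ * (t : ℂ))))) (by
      intro t ht
      have ht1 : Ri - δ ≤ t ∧ t ≤ Ri + δ := by
        rcases le_total Ri R with h | h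
        · rw [uIoc_of_le h] at ht; exact ⟨by linarith [ht.1], by linarith [ht.2]⟩
        · rw [uIoc_of_ge h] at ht; exact ⟨by linarith [ht.1], by linarith [ht.2]⟩
      have ht0 : 0 ≤ t := by linarith [ht1.1]
      have e1 : 2 * ((Phi t : ℂ) * Complex.cosh (ζ * (t : ℂ))) =
          (Phi t : ℂ) * (Complex.exp (ζ * t) + Complex.exp (-ζ * t)) := by
        rw [Complex.cosh]; ring_nf
      rw [e1, norm_mul, norm_mul, norm_cexp_mul, Complex.norm_real, Real.norm_eq_abs,
        abs_of_pos (Phi_pos ht0)]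
      have e2 : ‖Complex.exp (ζ * t) + Complex.exp (-ζ * t)‖ ≤ exp (ζ.re * t) + exp (-(ζ.re * t)) := by
        refine (norm_add_le _ _).trans ?_
        rw [norm_cexp_mul, norm_cexp_mul]
        simp
      have e3 : exp (ζ.re * -Ri) * (exp (ζ.re * t) + exp (-(ζ.re * t))) ≤
          exp (x2 * δ) + exp (-(x1 * (2 * Ri - δ))) := by
        rw [mul_add, ← exp_add, ← exp_add]
        apply add_le_add
        · apply exp_le_exp.2
          have : ζ.re * (t - Ri) ≤ ζ.re * δ := mul_le_mul_of_nonneg_left (by linarith [ht1.2]) hζ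
          have : ζ.re * δ ≤ x2 * δ := mul_le_mul_of_nonneg_right hx2 hδ0
          nlinarith
        · apply exp_le_exp.2
          have i1 : ζ.re * (2 * Ri - δ) ≤ ζ.re * (Ri + t) :=
            mul_le_mul_of_nonneg_left (by linarith [ht1.1]) hζ
          have i2 : x1 * (2 * Ri - δ) ≤ ζ.re * (2 * Ri - δ) :=
            mul_le_mul_of_nonneg_right hx1 (by linarith)
          nlinarith
      have e4 := hB t ht1.1
      have e5 := (Phi_pos ht0).le
      have e6 := exp_pos (ζ.re * -Ri)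
      calc exp (ζ.re * -Ri) * (Phi t * ‖Complex.exp (ζ * t) + Complex.exp (-ζ * t)‖)
          ≤ exp (ζ.re * -Ri) * (B * (exp (ζ.re * t) + exp (-(ζ.re * t)))) := by gcongr
        _ = B * (exp (ζ.re * -Ri) * (exp (ζ.re * t) + exp (-(ζ.re * t)))) := by ring
        _ ≤ _ := by gcongr)
  have hpos : 0 ≤ B * (exp (x2 * δ) + exp (-(x1 * (2 * Ri - δ)))) := by positivity
  calc _ ≤ B * (exp (x2 * δ) + exp (-(x1 * (2 * Ri - δ)))) * |R - Ri| := h
    _ ≤ B * (exp (x2 * δ) + exp (-(x1 * (2 * Ri - δ)))) * δ := by gcongr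
    _ = _ := by ring

end Pool.Agent.Helper67.Xi
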