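import Pool.Agent.Helper67.XiEng8
import Pool.Agent.Helper67.XiEng11

/-! The box test. -/

open Set

namespace Pool.Agent.Helper67.Xi

def sumUp : List CB → ℕ
  | [] => 0
  | a :: L => a.up + a.rad + sumUp L

theorem norm_ev_le {v : ℂ} (hv : ‖v‖ ≤ 1) {l : List ℂ} {L : List CB}
    (h : List.Forall₂ CB.mem l L) : ‖ev l v‖ * (SC : ℝ) ≤ sumUp L := by
  have hS := SC_pos
  induction h with
  | nil => simp [ev, sumUp]
  | @cons a A l L ha hl ih =>
    rw [ev, sumUp]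
    have h1 := norm_le_up ha
    have h2 : ‖a + v * ev l v‖ ≤ ‖a‖ + ‖ev l v‖ := by
      refine (norm_add_le _ _).trans ?_
      rw [norm_mul]
      have : ‖v‖ * ‖ev l v‖ ≤ 1 * ‖ev l v‖ := by gcongr
      linarith
    push_cast
    nlinarith

theorem dom_low {v x : ℂ} (hv : ‖v‖ = 1) {h0 h1 : CB} {hs : List CB}
    (h : PMem v x (h0 :: h1 :: hs)) :
    (h1.lo : ℝ) - h1.rad - (h0.up + h0.rad) - sumUp hs ≤ ‖x‖ * (SC : ℝ) := by
  have hS := SC_pos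
  obtain ⟨l, hl, rfl⟩ := h
  cases hl with
  | @cons a A l L ha hl =>
    cases hl with
    | @cons b B l L hb hl =>
      have e1 := norm_le_up ha
      have e2 := lo_le_norm hb
      have e3 := norm_ev_le hv.le hl
      have e4 : ‖b‖ - ‖a‖ - ‖ev l v‖ ≤ ‖ev (a :: b :: l) v‖ := by
        have i1 : v * b = ev (a :: b :: l) v - a - v * (v * ev l v) := by simp only [ev]; ring
        have i2 : ‖v * b‖ ≤ ‖ev (a :: b :: l) v‖ + ‖a‖ + ‖v * (v * ev l v)‖ := by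
          rw [i1]
          refine (norm_sub_le _ _).trans ?_
          have := norm_sub_le (ev (a :: b :: l) v) a
          linarith
        rw [norm_mul, norm_mul, norm_mul, hv, one_mul, one_mul, one_mul] at i2
        linarith
      nlinarith

theorem dom_zero {x : ℂ} {h0 : CB} {L : List CB} (h : PMem 0 x (h0 :: L)) :
    ‖x‖ * (SC : ℝ) ≤ h0.up + h0.rad := by
  obtain ⟨l, hl, rfl⟩ := h
  cases hl with
  | @cons a A l L ha hl =>
    simpa [ev] using norm_le_up ha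

structure Box where
  k : ℕ
  L : ℕ
  J0 : ℕ
  J1 : ℕ
  lam : ℕ
  rp : ℤ
  rd : ℕ
  dp : ℤ
  zp : ℤ
  zq : ℤ
  zd : ℕ
  tp : ℤ
  x0 : ℕ
  two : Bool

namespace Box

def Rb (b : Box) : CB := CB.rat b.rp 0 b.rd
def D (b : Box) : CB := CB.rat b.dp 0 b.rd
def Z (b : Box) : CB := CB.rat b.zp b.zq b.zd
def T (b : Box) : CB := CB.rat b.tp 0 b.zd

def a3 (b : Box) : CB := ((CB.rat (b.zp - b.tp) 0 b.zd).mul b.Rb).neg
def kb (b : Box) : ℕ := (CB.exp b.k b.a3).n1 + (CB.exp b.k b.a3).rad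

def lst (b : Box) : List CB :=
  if b.two then tAdd (engL 0 b.k b.L b.J0 1 1 b.Rb b.Z b.T) (engD 1 b.k b.L b.J1 1 1 b.lam b.kb b.Rb b.Z b.T)
  else engL 0 b.k b.L b.J0 1 1 b.Rb b.Z b.T

def eX (b : Box) : CB := (CB.mulInt b.x0 b.Rb).neg

def tailN (b : Box) : ℕ :=
  if b.two then 2 * (b.Rb.n1 + b.Rb.rad) / 10 ^ 9 + 1
  else 2 * 98 * (b.Rb.n1 + b.Rb.rad) * ((CB.exp b.k b.eX).n1 + (CB.exp b.k b.eX).rad) /
    (10 ^ 5 * SC) + 1

def t0 (b : Box) : CB := b.Rb.sub b.D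
def Y0 (b : Box) : CB := CB.pi.mul (CB.exp b.k (CB.mulInt 4 b.t0))
def M0 (b : Box) : CB := ((CB.mulInt 2 (b.Y0.mul b.Y0)).sub (CB.mulInt 3 b.Y0)).mul
  (CB.exp b.k (b.t0.sub b.Y0))
def phB (b : Box) : ℕ := b.M0.n1 + b.M0.rad +
  (98 * ((CB.exp b.k (CB.mulInt (-40) b.t0)).n1 + (CB.exp b.k (CB.mulInt (-40) b.t0)).rad) /
    10 ^ 5 + 1)

def a1 (b : Box) : CB := (CB.rat (b.zp + b.tp) 0 b.zd).mul b.D
def a2 (b : Box) : CB := ((CB.rat (b.zp - b.tp) 0 b.zd).mul ((CB.mulInt 2 b.Rb).sub b.D)).neg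

def varN (b : Box) : ℕ :=
  (b.D.n1 + b.D.rad) * b.phB * ((CB.exp b.k b.a1).n1 + (CB.exp b.k b.a1).rad +
    ((CB.exp b.k b.a2).n1 + (CB.exp b.k b.a2).rad)) / SC ^ 2 + 1

def test : List CB → ℕ → Bool
  | h0 :: h1 :: hs, n => decide (h1.rad + 2 * (h0.up + h0.rad) + sumUp hs + 2 * n < h1.lo)
  | _, _ => false

def side (b : Box) : Bool :=
  decide (0 < b.rd ∧ 0 < b.zd ∧ 0 < b.tp ∧ b.tp < b.zp ∧ 0 ≤ b.dp ∧ (b.rd : ℤ) ≤ 100 * (b.rp - b.dp)) &&
  (b.two || decide ((b.x0 : ℤ) * b.zd ≤ b.zp - b.tp ∧ b.x0 ≤ 40)) &&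
  engOk 0 b.k b.L b.J0 1 b.Rb b.Z b.T && (!b.two || dOk 1 b.k b.L b.J1 1 b.lam b.Rb b.Z b.T) &&
  CB.expOk b.k b.eX && CB.expOk b.k (CB.mulInt 4 b.t0) && CB.expOk b.k (b.t0.sub b.Y0) &&
  CB.expOk b.k (CB.mulInt (-40) b.t0) && CB.expOk b.k b.a1 && CB.expOk b.k b.a2 && CB.expOk b.k b.a3

def ok (b : Box) : Bool := b.side && test b.lst (b.varN + b.tailN)

end Box

theorem mem_rat_real (p : ℤ) {d : ℕ} (hd : 0 < d) : CB.mem (((p : ℝ) / (d : ℝ) : ℝ) : ℂ) (CB.rat p 0 d) := by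
  have := mem_rat p 0 hd
  convert this using 1
  push_cast
  ring

theorem real_le_of_mem {x : ℝ} {a : CB} (h : CB.mem (x : ℂ) a) : x * SC ≤ (a.n1 + a.rad : ℕ) := by
  have h1 := norm_le_of_mem h
  rw [norm_mul, Complex.norm_natCast, Complex.norm_real, Real.norm_eq_abs] at h1
  push_cast
  have h2 := le_abs_self x
  have hS := SC_pos
  nlinarith

theorem mem_exp_real {x : ℝ} {b : CB} (k : ℕ) (h : CB.expOk k b = true) (hz : CB.mem (x : ℂ) b) :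
    CB.mem ((Real.exp x : ℝ) : ℂ) (CB.exp k b) := by
  rw [Complex.ofReal_exp]
  exact mem_exp k h hz

theorem Box.side_spec {b : Box} (h : b.side = true) :
    (0 < b.rd ∧ 0 < b.zd ∧ 0 < b.tp ∧ b.tp < b.zp ∧ 0 ≤ b.dp ∧ (b.rd : ℤ) ≤ 100 * (b.rp - b.dp)) ∧
    (b.two = true ∨ ((b.x0 : ℤ) * b.zd ≤ b.zp - b.tp ∧ b.x0 ≤ 40)) ∧
    engOk 0 b.k b.L b.J0 1 b.Rb b.Z b.T = true ∧
    (b.two = false ∨ dOk 1 b.k b.L b.J1 1 b.lam b.Rb b.Z b.T = true) ∧
    CB.expOk b.k b.eX = true ∧ CB.expOk b.k (CB.mulInt 4 b.t0) = true ∧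
    CB.expOk b.k (b.t0.sub b.Y0) = true ∧ CB.expOk b.k (CB.mulInt (-40) b.t0) = true ∧
    CB.expOk b.k b.a1 = true ∧ CB.expOk b.k b.a2 = true ∧ CB.expOk b.k b.a3 = true := by
  simp only [Box.side, Bool.and_eq_true, Bool.or_eq_true, decide_eq_true_eq, Bool.not_eq_true'] at h
  tauto

/-- kernel bound -/
theorem Box.phi_bound {b : Box} (h : b.side = true) :
    ((trm 0 ((b.rp : ℝ) / b.rd - (b.dp : ℝ) / b.rd) +
      98 / 10 ^ 5 * Real.exp (-(40 * ((b.rp : ℝ) / b.rd - (b.dp : ℝ) / b.rd)))) * SC) ≤ b.phB := by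
  obtain ⟨⟨hrd, -, -, -, -, -⟩, -, -, -, -, h4, hE, h40, -, -, -⟩ := Box.side_spec h
  set t : ℝ := (b.rp : ℝ) / b.rd - (b.dp : ℝ) / b.rd with ht
  have hS := SC_pos
  have m0 : CB.mem (t : ℂ) b.t0 := by
    have := mem_sub (mem_rat_real b.rp hrd) (mem_rat_real b.dp hrd)
    rw [ht]; push_cast at this ⊢; exact this
  have m4 : CB.mem ((Real.exp (4 * t) : ℝ) : ℂ) (CB.exp b.k (CB.mulInt 4 b.t0)) := by
    apply mem_exp_real _ h4
    have := mem_mulInt 4 m0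
    push_cast at this ⊢; exact this
  have mY : CB.mem ((Real.pi * Real.exp (4 * t) : ℝ) : ℂ) b.Y0 := by
    have := mem_mul mem_pi m4
    rw [Complex.ofReal_mul]
    exact this
  set Y : ℝ := Real.pi * Real.exp (4 * t) with hY
  have mE : CB.mem ((Real.exp (t - Y) : ℝ) : ℂ) (CB.exp b.k (b.t0.sub b.Y0)) := by
    apply mem_exp_real _ hE
    have := mem_sub m0 mY
    push_cast at this ⊢; exact this
  have mM : CB.mem ((trm 0 t : ℝ) : ℂ) b.M0 := by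
    have := mem_mul (mem_sub (mem_mulInt 2 (mem_mul mY mY)) (mem_mulInt 3 mY)) mE
    have e : trm 0 t = (2 * (Y * Y) - 3 * Y) * Real.exp (t - Y) := by
      rw [trm_eq, hY, sub_eq_add_neg t, Real.exp_add]
      have : Real.exp (5 * t) = Real.exp t * Real.exp (4 * t) := by
        rw [← Real.exp_add]; ring_nf
      rw [this]
      push_cast
      ring_nf
    rw [e]
    push_cast at this ⊢; exact this
  have m40 : CB.mem ((Real.exp (-(40 * t)) : ℝ) : ℂ) (CB.exp b.k (CB.mulInt (-40) b.t0)) := by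
    apply mem_exp_real _ h40
    have := mem_mulInt (-40) m0
    push_cast at this ⊢
    rw [← neg_mul]; exact this
  have r1 := real_le_of_mem mM
  have r2 := real_le_of_mem m40
  have r3 := nat_div_ceil (98 * ((CB.exp b.k (CB.mulInt (-40) b.t0)).n1 +
    (CB.exp b.k (CB.mulInt (-40) b.t0)).rad)) (10 ^ 5) (by norm_num)
  rw [Box.phB]
  push_cast at r1 r2 r3 ⊢
  have r4 : 98 / 10 ^ 5 * Real.exp (-(40 * t)) * SC ≤ (98 * (((CB.exp b.k (CB.mulInt (-40) b.t0)).n1 : ℝ) +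
    (CB.exp b.k (CB.mulInt (-40) b.t0)).rad)) / 10 ^ 5 := by
    rw [mul_comm (98 / 10 ^ 5 : ℝ), mul_assoc, le_div_iff₀ (by norm_num)]
    nlinarith
  linarith

theorem Box.tail_bound {b : Box} (h : b.side = true) {R : ℝ} (hR0 : 0 ≤ R)
    (hR : R = (b.rp : ℝ) / b.rd) {v : ℂ} (hv : ‖v‖ ≤ 1) {ζ : ℂ}
    (hζ : ζ = ((b.zp : ℂ) + (b.zq : ℂ) * Complex.I) / b.zd + ((b.tp : ℝ) / b.zd : ℝ) * v) :
    ∃ X : ℂ, PMem v X b.lst ∧
      ‖Complex.exp (ζ * (-R : ℝ)) * (2 * ff R ζ) - X‖ * SC ≤ b.tailN := by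
  obtain ⟨⟨hrd, hzd, htp, htz, -, -⟩, hmode, hE0, hE1, hX, -, -, -, -, -, ha3⟩ := Box.side_spec h
  have hS := SC_pos
  have hRb : CB.mem (R : ℂ) b.Rb := by rw [hR]; exact mem_rat_real b.rp hrd
  have hZ : CB.mem (((b.zp : ℂ) + (b.zq : ℂ) * Complex.I) / b.zd) b.Z := mem_rat _ _ hzd
  have hT : CB.mem ((((b.tp : ℝ) / b.zd : ℝ)) : ℂ) b.T := mem_rat_real _ hzd
  have hzdr : (0 : ℝ) < b.zd := by exact_mod_cast hzd
  have htpr : (0 : ℝ) < b.tp := by exact_mod_cast htp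
  have htzr : (b.tp : ℝ) < b.zp := by exact_mod_cast htz
  -- real part
  have hre : ((b.zp : ℝ) - b.tp) / b.zd ≤ ζ.re := by
    have e1 : ζ.re = (b.zp : ℝ) / b.zd + (b.tp : ℝ) / b.zd * v.re := by
      rw [hζ, Complex.add_re, Complex.re_ofReal_mul]
      congr 1
      have : ((b.zp : ℂ) + (b.zq : ℂ) * Complex.I) / (b.zd : ℂ) =
          (((b.zp : ℝ) / b.zd : ℝ) : ℂ) + (((b.zq : ℝ) / b.zd : ℝ) : ℂ) * Complex.I := by
        push_cast; ring
      rw [this]; simp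
    have e2 : -1 ≤ v.re := by
      have := Complex.abs_re_le_norm v
      have := (abs_le.1 (this.trans hv)).1
      exact this
    rw [e1, sub_div]
    have : 0 < (b.tp : ℝ) / b.zd := by positivity
    nlinarith
  have hre0 : 0 ≤ ζ.re := by
    refine le_trans ?_ hre
    apply div_nonneg _ hzdr.le
    linarith
  have hW1 : ‖Complex.exp ((((b.zp : ℂ) + (b.zq : ℂ) * Complex.I) / b.zd + ((b.tp : ℝ) / b.zd : ℝ) * v) *
      (((1 - 1 : ℤ) : ℂ) * R))‖ ≤ (1 : ℕ) := by simp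
  have hW2 : ‖Complex.exp ((((b.zp : ℂ) + (b.zq : ℂ) * Complex.I) / b.zd + ((b.tp : ℝ) / b.zd : ℝ) * v) *
      (((-(1 + 1) : ℤ) : ℂ) * R))‖ ≤ (1 : ℕ) := by
    rw [← hζ]
    have e : (((-(1 + 1) : ℤ) : ℂ) * (R : ℂ)) = ((-2 * R : ℝ) : ℂ) := by push_cast; ring
    rw [e, norm_cexp_mul, Nat.cast_one, Real.exp_le_one_iff]
    nlinarith
  have hL0 := pmem_eng hv hR0 hRb hZ hT hE0 hW1 hW2
  have e : (((-1 : ℤ) : ℂ) * (R : ℂ)) = ((-R : ℝ) : ℂ) := by push_cast; ring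
  rw [← hζ, e] at hL0
  have h2 := two_ff hR0 ζ
  have hRn := real_le_of_mem hRb
  cases htwo : b.two with
  | true =>
    have hE1' : dOk 1 b.k b.L b.J1 1 b.lam b.Rb b.Z b.T = true := by
      rcases hE1 with h | h
      · rw [htwo] at h; exact absurd h (by simp)
      · exact h
    have hW3 : ‖Complex.exp ((((b.zp : ℂ) + (b.zq : ℂ) * Complex.I) / b.zd + ((b.tp : ℝ) / b.zd : ℝ) * v) *
        (((-1 : ℤ) : ℂ) * R))‖ * SC ≤ b.kb := by
      rw [← hζ, e, norm_cexp_mul]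
      have m3 : CB.mem ((Real.exp (-(((b.zp : ℝ) - b.tp) / b.zd * R)) : ℝ) : ℂ) (CB.exp b.k b.a3) := by
        apply mem_exp_real _ ha3
        have := mem_neg (mem_mul (mem_rat_real (b.zp - b.tp) hzd) hRb)
        push_cast at this ⊢; exact this
      have r3 := real_le_of_mem m3
      refine le_trans ?_ r3
      apply mul_le_mul_of_nonneg_right _ hS.le
      apply Real.exp_le_exp.2
      nlinarith
    have hL1 := pmem_engD hv hR0 hRb hZ hT hE1' hW1 hW2 hW3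
    rw [← hζ, e] at hL1
    refine ⟨Complex.exp (ζ * (-R : ℝ)) * (cT 0 R ζ + cT 0 R (-ζ)) +
      Complex.exp (ζ * (-R : ℝ)) * (cT 1 R ζ + cT 1 R (-ζ)), ?_, ?_⟩
    · rw [Box.lst, htwo]
      exact pmem_add hL0 hL1
    · rw [h2, pT_Psi hR0, pT_Psi hR0]
      have e3 : Complex.exp (ζ * (-R : ℝ)) * (cT 0 R ζ + cT 0 R (-ζ) + (cT 1 R ζ + pT Psi3 R ζ +
          (cT 1 R (-ζ) + pT Psi3 R (-ζ)))) - (Complex.exp (ζ * (-R : ℝ)) * (cT 0 R ζ + cT 0 R (-ζ)) +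
          Complex.exp (ζ * (-R : ℝ)) * (cT 1 R ζ + cT 1 R (-ζ))) =
          Complex.exp (ζ * (-R : ℝ)) * (pT Psi3 R ζ + pT Psi3 R (-ζ)) := by ring
      rw [e3]
      have e4 := pT3_le hR0 ζ hre0
      have e5 := nat_div_ceil (2 * (b.Rb.n1 + b.Rb.rad)) (10 ^ 9) (by norm_num)
      refine (mul_le_mul_of_nonneg_right e4 hS.le).trans ?_
      rw [Box.tailN, htwo]
      simp only [if_true]
      push_cast at e5 hRn ⊢
      refine le_trans ?_ e5
      calc 2 * R / 10 ^ 9 * (SC : ℝ) = 2 * (R * SC) / 10 ^ 9 := by ring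
        _ ≤ 2 * ((b.Rb.n1 : ℝ) + b.Rb.rad) / 10 ^ 9 := by gcongr
        _ = _ := by norm_num
  | false =>
    refine ⟨Complex.exp (ζ * (-R : ℝ)) * (cT 0 R ζ + cT 0 R (-ζ)),
      by rw [Box.lst, htwo]; exact hL0, ?_⟩
    have hm : ((b.x0 : ℤ) * b.zd ≤ b.zp - b.tp ∧ b.x0 ≤ 40) := by
      rcases hmode with h | h
      · rw [htwo] at h; exact absurd h (by simp)
      · exact h
    have hx : (b.x0 : ℝ) ≤ ζ.re := by
      refine le_trans ?_ hre
      rw [le_div_iff₀ hzdr]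
      exact_mod_cast hm.1
    have hx4 : (b.x0 : ℝ) ≤ 40 := by exact_mod_cast hm.2
    have e4 := pT1_le hR0 ζ (Nat.cast_nonneg b.x0) hx hx4
    rw [h2]
    have e3 : Complex.exp (ζ * (-R : ℝ)) * (cT 0 R ζ + cT 0 R (-ζ) + (pT Psi R ζ + pT Psi R (-ζ))) -
        Complex.exp (ζ * (-R : ℝ)) * (cT 0 R ζ + cT 0 R (-ζ)) =
        Complex.exp (ζ * (-R : ℝ)) * (pT Psi R ζ + pT Psi R (-ζ)) := by ring
    rw [e3]
    have mX : CB.mem ((Real.exp (-((b.x0 : ℝ) * R)) : ℝ) : ℂ) (CB.exp b.k b.eX) := by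
      apply mem_exp_real _ hX
      have := mem_neg (mem_mulInt b.x0 hRb)
      push_cast at this ⊢; exact this
    have r2 := real_le_of_mem mX
    have e5 := nat_div_ceil (2 * 98 * (b.Rb.n1 + b.Rb.rad) * ((CB.exp b.k b.eX).n1 +
      (CB.exp b.k b.eX).rad)) (10 ^ 5 * SC) (Nat.mul_pos (by norm_num) SCN_pos)
    refine (mul_le_mul_of_nonneg_right e4 hS.le).trans ?_
    rw [Box.tailN, htwo]
    simp only [Bool.false_eq_true, if_false]
    rw [Nat.cast_add, Nat.cast_one]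
    refine le_trans ?_ e5
    push_cast at hRn r2 ⊢
    rw [le_div_iff₀ (by positivity)]
    calc 2 * (98 / 10 ^ 5) * R * Real.exp (-(b.x0 * R)) * SC * (100000 * SC)
        = 196 * (R * SC) * (Real.exp (-(b.x0 * R)) * SC) := by ring
      _ ≤ 196 * ((b.Rb.n1 : ℝ) + b.Rb.rad) * (((CB.exp b.k b.eX).n1 : ℝ) +
          (CB.exp b.k b.eX).rad) := by gcongr

theorem test_spec {L : List CB} {n : ℕ} (h : Box.test L n = true) :
    ∃ h0 h1 hs, L = h0 :: h1 :: hs ∧ h1.rad + 2 * (h0.up + h0.rad) + sumUp hs + 2 * n < h1.lo := by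
  cases L with
  | nil => simp [Box.test] at h
  | cons h0 L =>
    cases L with
    | nil => simp [Box.test] at h
    | cons h1 hs => exact ⟨h0, h1, hs, rfl, of_decide_eq_true h⟩

theorem box_zero (b : Box) (h : b.ok = true) {R : ℝ}
    (hR : |R - (b.rp : ℝ) / b.rd| ≤ (b.dp : ℝ) / b.rd) : ∃ ζ : ℂ, ff R ζ = 0 ∧ 0 < ζ.re := by
  rw [Box.ok, Bool.and_eq_true] at h
  obtain ⟨hside, htest⟩ := h
  have hS := SC_pos
  obtain ⟨⟨hrd, hzd, htp, htz, hdp, h100⟩, -, -, -, -, -, -, -, ha1, ha2, -⟩ := Box.side_spec hside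
  obtain ⟨h0, h1, hs, hlst, hineq⟩ := test_spec htest
  set Ri : ℝ := (b.rp : ℝ) / b.rd with hRi
  set δ : ℝ := (b.dp : ℝ) / b.rd with hδ
  have hrdr : (0 : ℝ) < b.rd := by exact_mod_cast hrd
  have hzdr : (0 : ℝ) < b.zd := by exact_mod_cast hzd
  have htpr : (0 : ℝ) < b.tp := by exact_mod_cast htp
  have htzr : (b.tp : ℝ) < b.zp := by exact_mod_cast htz
  have hδ0 : 0 ≤ δ := by
    have : (0 : ℝ) ≤ b.dp := by exact_mod_cast hdp
    positivity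
  have ht0 : 1 / 100 ≤ Ri - δ := by
    rw [hRi, hδ, ← sub_div, le_div_iff₀ hrdr]
    have : (b.rd : ℝ) ≤ 100 * (b.rp - b.dp) := by exact_mod_cast h100
    linarith
  have hRi0 : 0 ≤ Ri := by linarith
  obtain ⟨hRa, hRb'⟩ := abs_le.1 hR
  have hR0 : 0 ≤ R := by linarith
  set zz : ℂ := ((b.zp : ℂ) + (b.zq : ℂ) * Complex.I) / b.zd with hzz
  set tt : ℝ := (b.tp : ℝ) / b.zd with htt
  have htt0 : 0 < tt := by positivity
  have hzre : zz.re = (b.zp : ℝ) / b.zd := by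
    have : zz = (((b.zp : ℝ) / b.zd : ℝ) : ℂ) + (((b.zq : ℝ) / b.zd : ℝ) : ℂ) * Complex.I := by
      rw [hzz]; push_cast; ring
    rw [this]; simp
  have hre : ∀ v : ℂ, ‖v‖ ≤ 1 → ((b.zp : ℝ) - b.tp) / b.zd ≤ (zz + tt * v).re ∧
      (zz + tt * v).re ≤ ((b.zp : ℝ) + b.tp) / b.zd := by
    intro v hv
    have e2 := abs_le.1 ((Complex.abs_re_le_norm v).trans hv)
    rw [Complex.add_re, Complex.re_ofReal_mul, hzre, sub_div, add_div]
    constructor <;> nlinarith [e2.1, e2.2]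
  have hx1 : 0 < ((b.zp : ℝ) - b.tp) / b.zd := div_pos (by linarith) hzdr
  -- the variation
  have hPB := Box.phi_bound hside
  set B : ℝ := trm 0 (Ri - δ) + 98 / 10 ^ 5 * Real.exp (-(40 * (Ri - δ))) with hB
  have hvar : ∀ v : ℂ, ‖v‖ ≤ 1 →
      ‖Complex.exp ((zz + tt * v) * (-Ri : ℝ)) * (2 * ff R (zz + tt * v)) -
        Complex.exp ((zz + tt * v) * (-Ri : ℝ)) * (2 * ff Ri (zz + tt * v))‖ * SC ≤ b.varN := by
    intro v hv
    obtain ⟨g1, g2⟩ := hre v hv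
    have g := ff_var ht0 hR (fun t ht => Phi_le_at ht0 ht) (zz + tt * v) (hx1.le.trans g1) g1 g2
    have hDm : CB.mem (δ : ℂ) b.D := mem_rat_real _ hrd
    have hRm : CB.mem (Ri : ℂ) b.Rb := mem_rat_real _ hrd
    have m1 : CB.mem ((Real.exp (((b.zp : ℝ) + b.tp) / b.zd * δ) : ℝ) : ℂ) (CB.exp b.k b.a1) := by
      apply mem_exp_real _ ha1
      have := mem_mul (mem_rat_real (b.zp + b.tp) hzd) hDm
      push_cast at this ⊢; exact this
    have m2 : CB.mem ((Real.exp (-(((b.zp : ℝ) - b.tp) / b.zd * (2 * Ri - δ))) : ℝ) : ℂ)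
        (CB.exp b.k b.a2) := by
      apply mem_exp_real _ ha2
      have := mem_neg (mem_mul (mem_rat_real (b.zp - b.tp) hzd) (mem_sub (mem_mulInt 2 hRm) hDm))
      push_cast at this ⊢; exact this
    have r1 := real_le_of_mem m1
    have r2 := real_le_of_mem m2
    have r3 := real_le_of_mem hDm
    have r4 := nat_div_ceil ((b.D.n1 + b.D.rad) * b.phB * ((CB.exp b.k b.a1).n1 +
      (CB.exp b.k b.a1).rad + ((CB.exp b.k b.a2).n1 + (CB.exp b.k b.a2).rad))) (SC ^ 2)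
      (pow_pos SCN_pos _)
    refine (mul_le_mul_of_nonneg_right g hS.le).trans ?_
    rw [Box.varN, Nat.cast_add, Nat.cast_one]
    refine le_trans ?_ r4
    push_cast at r1 r2 r3 ⊢
    rw [le_div_iff₀ (by positivity)]
    have hB0 : 0 ≤ B := by
      have := Phi_le_at ht0 (le_refl (Ri - δ))
      have h3 : 0 < Phi (Ri - δ) := Phi_pos (by linarith)
      linarith
    calc (δ * B * (Real.exp (((b.zp : ℝ) + b.tp) / b.zd * δ) +
          Real.exp (-(((b.zp : ℝ) - b.tp) / b.zd * (2 * Ri - δ))))) * SC * SC ^ 2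
        = (δ * SC) * (B * SC) * (Real.exp (((b.zp : ℝ) + b.tp) / b.zd * δ) * SC +
          Real.exp (-(((b.zp : ℝ) - b.tp) / b.zd * (2 * Ri - δ))) * SC) := by ring
      _ ≤ _ := by gcongr
  -- the function
  set F : ℂ → ℂ := fun v => Complex.exp ((zz + tt * v) * (-Ri : ℝ)) * (2 * ff R (zz + tt * v)) with hF
  have hFd : Differentiable ℂ F := by
    have h1 : Differentiable ℂ (fun v : ℂ => zz + tt * v) := by fun_prop
    have h2 : Differentiable ℂ (fun v : ℂ => ff R (zz + tt * v)) := (ff_differentiable hR0).comp h1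
    rw [hF]
    fun_prop
  have hlow : ∀ v : ℂ, ‖v‖ = 1 → (h1.lo : ℝ) - h1.rad - (h0.up + h0.rad) - sumUp hs -
      (b.varN + b.tailN) ≤ ‖F v‖ * SC := by
    intro v hv
    obtain ⟨X, hX1, hX2⟩ := Box.tail_bound hside hRi0 hRi hv.le rfl
    rw [hlst] at hX1
    have g1 := dom_low hv hX1
    have g2 := hvar v hv.le
    have g3 : ‖X‖ ≤ ‖F v‖ + ‖F v - Complex.exp ((zz + tt * v) * (-Ri : ℝ)) * (2 * ff Ri (zz + tt * v))‖ +
        ‖Complex.exp ((zz + tt * v) * (-Ri : ℝ)) * (2 * ff Ri (zz + tt * v)) - X‖ := by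
      have : X = F v - (F v - Complex.exp ((zz + tt * v) * (-Ri : ℝ)) * (2 * ff Ri (zz + tt * v))) -
        (Complex.exp ((zz + tt * v) * (-Ri : ℝ)) * (2 * ff Ri (zz + tt * v)) - X) := by ring
      calc ‖X‖ = ‖F v - (F v - Complex.exp ((zz + tt * v) * (-Ri : ℝ)) * (2 * ff Ri (zz + tt * v))) -
        (Complex.exp ((zz + tt * v) * (-Ri : ℝ)) * (2 * ff Ri (zz + tt * v)) - X)‖ := by rw [← this]
        _ ≤ _ := by
          refine (norm_sub_le _ _).trans ?_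
          gcongr
          exact norm_sub_le _ _
    have g4 : ‖Complex.exp ((zz + tt * v) * (-Ri : ℝ)) * (2 * ff Ri (zz + tt * v)) - X‖ * SC ≤
      b.tailN := hX2
    have g5 := mul_le_mul_of_nonneg_right g3 hS.le
    rw [add_mul, add_mul] at g5
    linarith
  have hcen : ‖F 0‖ * SC ≤ h0.up + h0.rad + (b.varN + b.tailN) := by
    obtain ⟨X, hX1, hX2⟩ := Box.tail_bound hside hRi0 hRi (v := 0) (by simp) rfl
    rw [hlst] at hX1
    have g1 := dom_zero hX1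
    have g2 := hvar 0 (by simp)
    have g3 : ‖F 0‖ ≤ ‖F 0 - Complex.exp ((zz + tt * 0) * (-Ri : ℝ)) * (2 * ff Ri (zz + tt * 0))‖ +
        ‖Complex.exp ((zz + tt * 0) * (-Ri : ℝ)) * (2 * ff Ri (zz + tt * 0)) - X‖ + ‖X‖ := by
      have := norm_add₃_le (a := F 0 - Complex.exp ((zz + tt * 0) * (-Ri : ℝ)) *
        (2 * ff Ri (zz + tt * 0))) (b := Complex.exp ((zz + tt * 0) * (-Ri : ℝ)) *
        (2 * ff Ri (zz + tt * 0)) - X) (c := X)
      simpa using this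
    have g4 : ‖Complex.exp ((zz + tt * 0) * (-Ri : ℝ)) * (2 * ff Ri (zz + tt * 0)) - X‖ * SC ≤
      b.tailN := hX2
    have g5 := mul_le_mul_of_nonneg_right g3 hS.le
    rw [add_mul, add_mul] at g5
    linarith
  have hineqr : (h1.rad : ℝ) + 2 * (h0.up + h0.rad) + sumUp hs + 2 * (b.varN + b.tailN) < h1.lo := by
    exact_mod_cast hineq
  obtain ⟨v, hv, hv0⟩ := exists_zero_of_min (f := F) (c := 0) one_pos hFd.diffContOnCl (by
    intro v hv
    rw [sub_zero] at hv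
    have g1 := hlow v hv
    have g2 : ‖F 0‖ * SC < ‖F v‖ * SC := by linarith
    exact lt_of_mul_lt_mul_right g2 hS.le)
  rw [sub_zero] at hv
  refine ⟨zz + tt * v, ?_, lt_of_lt_of_le hx1 (hre v hv.le).1⟩
  have : Complex.exp ((zz + tt * v) * (-Ri : ℝ)) ≠ 0 := Complex.exp_ne_zero _
  have h3 : (2 : ℂ) ≠ 0 := two_ne_zero
  simpa [hF, this, h3] using hv0

end Pool.Agent.Helper67.Xi
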