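import Pool.Agent.Helper67.XiThr2
import Pool.Agent.Helper67.XiBoxA
import Pool.Agent.Helper67.XiBoxB
import Pool.Agent.Helper67.XiBoxC
import Pool.Agent.Helper67.XiBoxD
import Pool.Agent.Helper67.XiBoxE
import Pool.Agent.Helper67.XiBoxF
import Pool.Agent.Helper62.XiB.LargeR

/-! The exact set of parameters with a zero off the real axis. -/

open Set

namespace Pool.Agent.Helper67.Xi

theorem cov_all : Cov 25850 57576 :=
  covA.trans (covB.trans (covC.trans (covD.trans (covE.trans covF))))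

theorem exp_large {R : ℝ} (h : 57576 / 100000 ≤ R) : 10 ≤ Real.exp (4 * R) := by
  have h1 : Real.exp (2.30304 : ℝ) ≤ Real.exp (4 * R) := Real.exp_le_exp.2 (by norm_num; linarith)
  refine le_trans ?_ h1
  have h2 : (2.7182818283 : ℝ) < Real.exp 1 := Real.exp_one_gt_d9
  have h3 : Real.exp (2.30304 : ℝ) = Real.exp 1 ^ 2 * Real.exp 0.30304 := by
    rw [← Real.exp_nat_mul, ← Real.exp_add]; norm_num
  have h4 : (1.35392 : ℝ) ≤ Real.exp 0.30304 := by
    have := Real.sum_le_exp_of_nonneg (x := (0.30304 : ℝ)) (by norm_num) 6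
    refine le_trans ?_ this
    norm_num [Finset.sum_range_succ, Nat.factorial]
  rw [h3]
  calc (10 : ℝ) ≤ 2.7182818283 ^ 2 * 1.35392 := by norm_num
    _ ≤ _ := by gcongr

/-- zeros off the axis above the threshold -/
theorem nonreal_above {Rs : ℝ} (h1 : 256205 / 1000000 < Rs)
    (hgt : ∀ R, Rs < R → R ≤ 256206 / 1000000 → ∀ x ∈ JJ, 0 < cosT Phi R x) {R : ℝ}
    (hR : Rs < R) : ∃ z : ℂ, H R z = 0 ∧ z.im ≠ 0 := by
  rcases le_or_gt R 0.2585 with h | h
  · exact nonreal_near h1 hgt hR h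
  rcases le_or_gt R (57576 / 100000) with h3 | h3
  · obtain ⟨ζ, hζ, hre⟩ := cov_all R (by norm_num at h ⊢; linarith) (by push_cast; exact h3)
    refine ⟨ζ * Complex.I, by rw [H_eq, hζ], ?_⟩
    rw [Complex.mul_I_im]
    exact hre.ne'
  · exact Pool.Agent.Helper62.XiB.large_R R (exp_large h3.le)

theorem deriv_zero {R c : ℝ} (hR : 0 ≤ R) (hloc : IsLocalMin (cosT Phi R) c) :
    deriv (H R) (c : ℂ) = 0 := by
  have h1 : HasDerivAt (H R) (deriv (H R) (c : ℂ)) (c : ℂ) := (H_diff hR (c : ℂ)).hasDerivAt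
  apply Complex.ext
  · have h2 := h1.real_of_complex
    have h3 : (fun x : ℝ => (H R (x : ℂ)).re) = cosT Phi R := by
      funext x; rw [H_ofReal, Complex.ofReal_re]
    rw [h3] at h2
    rw [Complex.zero_re]
    exact hloc.hasDerivAt_eq_zero h2
  · have h2 := (h1.const_mul (-Complex.I)).real_of_complex
    have h3 : (fun x : ℝ => (-Complex.I * H R (x : ℂ)).re) = fun _ => 0 := by
      funext x; rw [H_ofReal]; simp
    rw [h3] at h2
    have h4 := h2.unique (hasDerivAt_const c (0 : ℝ))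
    simpa using h4

/-- The exact set. -/
theorem exact_set : ∃ Rs c : ℝ, 0.256205 < Rs ∧ Rs < 0.256206 ∧
    (∀ R : ℝ, 0 < R → ((∃ z : ℂ, H R z = 0 ∧ z.im ≠ 0) ↔ Rs < R)) ∧
    24.85 < c ∧ c < 28.6 ∧ H Rs (c : ℂ) = 0 ∧ deriv (H Rs) (c : ℂ) = 0 ∧
    (∀ R ∈ Icc (0.19 : ℝ) 0.2585,
      ((∀ x ∈ Icc (23.725 : ℝ) 29.725, 0 ≤ (H R (x : ℂ)).re) ↔ Rs ≤ R)) := by
  obtain ⟨Rs, c, h1, h2, hc, h0, hnn, hgt⟩ := exists_Rs
  obtain ⟨c1, c2⟩ := c_range h1 h2 hc h0
  have hJ : Icc (23.725 : ℝ) 29.725 = JJ := by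
    rw [JJ]; norm_num
  refine ⟨Rs, c, by norm_num at h1 ⊢; linarith, by norm_num at h2 ⊢; linarith, ?_, c1, c2, ?_, ?_, ?_⟩
  · intro R hR
    constructor
    · rintro ⟨z, hz, him⟩
      by_contra hcon
      push Not at hcon
      exact him (real_low h1 h2 hc h0 hR hcon z hz)
    · intro h
      exact nonreal_above h1 hgt h
  · rw [H_ofReal, h0, Complex.ofReal_zero]
  · apply deriv_zero (by linarith)
    have hmem : JJ ∈ nhds c := by
      rw [JJ]
      apply Icc_mem_nhds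
      · norm_num at c1 ⊢; linarith
      · norm_num at c2 ⊢; linarith
    filter_upwards [hmem] with x hx
    rw [h0]
    exact hnn x hx
  · intro R hR
    rw [hJ]
    have he : ∀ x : ℝ, (H R (x : ℂ)).re = cosT Phi R x := by
      intro x; rw [H_ofReal, Complex.ofReal_re]
    simp only [he]
    constructor
    · intro h
      by_contra hcon
      push Not at hcon
      have := neg_below h1 h2 hc h0 hR.1 hcon
      exact absurd (h c hc) (not_le.2 this)
    · intro h x hx
      rcases lt_or_eq_of_le h with h3 | h3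
      · exact (pos_near hgt h3 hR.2 x hx).le
      · rw [← h3]; exact hnn x hx

end Pool.Agent.Helper67.Xi
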