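import Pool.Agent.Helper67.XiReal

/-! Strict versions of the ball algorithms, for evaluation by the kernel. -/

namespace Pool.Agent.Helper67.Xi

def fN {α : Type} (n : ℕ) (k : ℕ → α) : α :=
  match n with
  | 0 => k 0
  | Nat.succ m => k (Nat.succ m)

theorem fN_eq {α : Type} (n : ℕ) (k : ℕ → α) : fN n k = k n := by cases n <;> rfl

def fI {α : Type} (z : ℤ) (k : ℤ → α) : α :=
  match z with
  | Int.ofNat n => fN n fun n => k (Int.ofNat n)
  | Int.negSucc n => fN n fun n => k (Int.negSucc n)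

theorem fI_eq {α : Type} (z : ℤ) (k : ℤ → α) : fI z k = k z := by
  cases z <;> simp only [fI, fN_eq]

def fB {α : Type} (a : CB) (k : CB → α) : α :=
  fI a.re fun x => fI a.im fun y => fN a.rad fun r => k ⟨x, y, r⟩

theorem fB_eq {α : Type} (a : CB) (k : CB → α) : fB a k = k a := by
  simp only [fB, fN_eq, fI_eq]

def fL {α : Type} : List CB → (List CB → α) → α
  | [], k => k []
  | a :: L, k => fB a fun a' => fL L fun L' => k (a' :: L')

theorem fL_eq {α : Type} (L : List CB) (k : List CB → α) : fL L k = k L := by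
  induction L generalizing k with
  | nil => rfl
  | cons a L ih => rw [fL, fB_eq, ih]

def expAuxK {α : Type} (z : CB) : ℕ → CB → (CB → α) → α
  | 0, h, k => k h
  | (n + 1), h, k => fB (z.mul h) fun zh =>
      fB ((CB.ofInt 1).add (zh.divNat (n + 1))) fun h' => expAuxK z n h' k

theorem expAuxK_eq {α : Type} (z : CB) (k : CB → α) : ∀ (n : ℕ) (h : CB),
    expAuxK z n h k = k (CB.expAux z n h) := by
  intro n
  induction n with
  | zero => intro h; rfl
  | succ n ih => intro h; rw [expAuxK, fB_eq, fB_eq, ih, CB.expAux]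

def sqnK {α : Type} : ℕ → CB → (CB → α) → α
  | 0, b, k => k b
  | (n + 1), b, k => fB (b.mul b) fun c => sqnK n c k

theorem sqnK_eq {α : Type} (k : CB → α) : ∀ (n : ℕ) (b : CB), sqnK n b k = k (CB.sqn n b) := by
  intro n
  induction n with
  | zero => intro b; rfl
  | succ n ih => intro b; rw [sqnK, fB_eq, ih, CB.sqn]

def expK {α : Type} (n : ℕ) (b : CB) (k : CB → α) : α :=
  fB (b.divNat (2 ^ n)) fun z => expAuxK z 27 (CB.ofInt 1) fun h => sqnK n (h.widen 1) k

theorem expK_eq {α : Type} (n : ℕ) (b : CB) (k : CB → α) : expK n b k = k (CB.exp n b) := by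
  simp only [expK, fB_eq, expAuxK_eq, sqnK_eq, CB.exp, CB.exp1]

def tScaleK {α : Type} (c : CB) : List CB → (List CB → α) → α
  | [], k => k []
  | a :: L, k => fB (c.mul a) fun x => tScaleK c L fun M => k (x :: M)

theorem tScaleK_eq {α : Type} (c : CB) (L : List CB) (k : List CB → α) :
    tScaleK c L k = k (tScale c L) := by
  induction L generalizing k with
  | nil => rfl
  | cons a L ih => rw [tScaleK, fB_eq, ih]; rfl

def tDivK {α : Type} (ci r : CB) (q : ℕ) : CB → List CB → (List CB → α) → α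
  | _, [], k => k []
  | p, [a], k => fB (r.mul p) fun rp => fB (ci.mul (a.sub rp)) fun x =>
      fB (x.widen ((x.n1 + x.rad) * q / SC + 1)) fun y => k [y]
  | p, a :: b :: L, k => fB (r.mul p) fun rp => fB (ci.mul (a.sub rp)) fun x =>
      tDivK ci r q x (b :: L) fun M => k (x :: M)

theorem tDivK_eq {α : Type} (ci r : CB) (q : ℕ) : ∀ (L : List CB) (p : CB) (k : List CB → α),
    tDivK ci r q p L k = k (tDivLin ci r q p L) := by
  intro L
  induction L with
  | nil => intro p k; rfl
  | cons a L ih =>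
    intro p k
    cases L with
    | nil => simp only [tDivK, fB_eq, tDivLin]
    | cons b L => rw [tDivK, fB_eq, fB_eq, ih, tDivLin]

def tAddK {α : Type} : List CB → List CB → (List CB → α) → α
  | [], M, k => fL M k
  | L, [], k => fL L k
  | a :: L, b :: M, k => fB (a.add b) fun x => tAddK L M fun N => k (x :: N)

theorem tAddK_eq {α : Type} : ∀ (L M : List CB) (k : List CB → α),
    tAddK L M k = k (tAdd L M) := by
  intro L
  induction L with
  | nil => intro M k; simp only [tAddK, fL_eq, tAdd]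
  | cons a L ih =>
    intro M k
    cases M with
    | nil => simp only [tAddK, fL_eq, tAdd]
    | cons b M => rw [tAddK, fB_eq, ih, tAdd]

def tAddCK {α : Type} (c : CB) : List CB → (List CB → α) → α
  | [], k => k [c]
  | a :: L, k => fB (c.add a) fun x => k (x :: L)

theorem tAddCK_eq {α : Type} (c : CB) (L : List CB) (k : List CB → α) :
    tAddCK c L k = k (tAddC c L) := by
  cases L <;> simp only [tAddCK, fB_eq, tAddC]

def tShiftK {α : Type} : CB → List CB → (List CB → α) → α
  | _, [], k => k []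
  | p, [a], k => fB (p.widen (a.n1 + a.rad)) fun x => k [x]
  | p, a :: b :: L, k => tShiftK a (b :: L) fun M => k (p :: M)

theorem tShiftK_eq {α : Type} : ∀ (L : List CB) (p : CB) (k : List CB → α),
    tShiftK p L k = k (tShift p L) := by
  intro L
  induction L with
  | nil => intro p k; rfl
  | cons a L ih =>
    intro p k
    cases L with
    | nil => simp only [tShiftK, fB_eq, tShift]
    | cons b L => rw [tShiftK, ih, tShift]

def chainK {α : Type} (X T : CB) (len : ℕ) : CB → ℕ → (List CB → α) → α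
  | _, 0, k => k (tZero len)
  | B, (n + 1), k => fB (B.add CB.four) fun B4 => chainK X T len B4 n fun L1 =>
      tScaleK X L1 fun L2 => tAddCK CB.one L2 fun L3 => fB B.inv fun iB => fN (qv B T) fun q =>
      tDivK iB T q ⟨0, 0, 0⟩ L3 k

theorem chainK_eq {α : Type} (X T : CB) (len : ℕ) : ∀ (n : ℕ) (B : CB) (k : List CB → α),
    chainK X T len B n k = k (chainT X T len B n) := by
  intro n
  induction n with
  | zero => intro B k; rfl
  | succ n ih =>
    intro B k
    simp only [chainK, fB_eq, fN_eq, ih, tScaleK_eq, tAddCK_eq, tDivK_eq, chainT]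

def chainOkK (T : CB) : CB → ℕ → Bool
  | _, 0 => true
  | B, (n + 1) => stepOk B T && fB (B.add CB.four) fun B4 => chainOkK T B4 n

theorem chainOkK_eq (T : CB) : ∀ (n : ℕ) (B : CB), chainOkK T B n = chainOk T B n := by
  intro n
  induction n with
  | zero => intro B; rfl
  | succ n ih => intro B; simp only [chainOkK, fB_eq, ih, chainOk]

def prodBK {α : Type} (X T : CB) : CB → ℕ → (ℕ → α) → α
  | _, 0, k => k SC
  | B, (n + 1), k => fB (B.add CB.four) fun B4 => prodBK X T B4 n fun p =>
      fN (((X.n1 + X.rad) * p) / ((B.low - B.rad) - (T.n1 + T.rad)) + 1) k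

theorem prodBK_eq {α : Type} (X T : CB) : ∀ (n : ℕ) (B : CB) (k : ℕ → α),
    prodBK X T B n k = k (prodB X T B n) := by
  intro n
  induction n with
  | zero => intro B k; rfl
  | succ n ih => intro B k; simp only [prodBK, fB_eq, fN_eq, ih, prodB]

def tMulK {α : Type} (L : List CB) : List CB → (List CB → α) → α
  | [], k => k (tZero L.length)
  | b :: M, k => tMulK L M fun Q => tScaleK b L fun S => tShiftK ⟨0, 0, 0⟩ Q fun Q' =>
      tAddK S Q' k

theorem tMulK_eq {α : Type} (L M : List CB) (k : List CB → α) : tMulK L M k = k (tMul L M) := by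
  induction M generalizing k with
  | nil => rfl
  | cons b M ih => simp only [tMulK, ih, tScaleK_eq, tShiftK_eq, tAddK_eq, tMul]

def tMulLinK {α : Type} (c r : CB) (L : List CB) (k : List CB → α) : α :=
  tScaleK c L fun A => tScaleK r L fun B => tShiftK ⟨0, 0, 0⟩ B fun B' => tAddK A B' k

theorem tMulLinK_eq {α : Type} (c r : CB) (L : List CB) (k : List CB → α) :
    tMulLinK c r L k = k (tMulLin c r L) := by
  simp only [tMulLinK, tScaleK_eq, tShiftK_eq, tAddK_eq, tMulLin]

def eAK {α : Type} (X T Z : CB) (L J : ℕ) (k : List CB → α) : α :=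
  fB (Z.add (CB.ofInt (-1))) fun Z1 => fB ((CB.ofInt 5).add Z) fun Z5 =>
  chainK X T L Z5 J fun C => tMulLinK Z1 T C fun A => tAddCK (CB.ofInt (-1)) A k

theorem eAK_eq {α : Type} (X T Z : CB) (L J : ℕ) (k : List CB → α) :
    eAK X T Z L J k = k (eA X T Z L J) := by
  simp only [eAK, fB_eq, chainK_eq, tMulLinK_eq, tAddCK_eq, eA]

def expCoefK {α : Type} (b : CB) : ℕ → CB → ℕ → (List CB → α) → α
  | _, _, 0, k => k []
  | j, c, (n + 1), k => fB (c.mul b) fun cb => fB (cb.divNat (j + 1)) fun c' =>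
      expCoefK b (j + 1) c' n fun M => k (c :: M)

theorem expCoefK_eq {α : Type} (b : CB) : ∀ (n j : ℕ) (c : CB) (k : List CB → α),
    expCoefK b j c n k = k (expCoef b j c n) := by
  intro n
  induction n with
  | zero => intro j c k; rfl
  | succ n ih => intro j c k; simp only [expCoefK, fB_eq, ih, expCoef]

def tWidenK {α : Type} : List CB → ℕ → (List CB → α) → α
  | [], _, k => k []
  | a :: L, n, k => fB (a.widen n) fun x => k (x :: L)

theorem tWidenK_eq {α : Type} (L : List CB) (n : ℕ) (k : List CB → α) :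
    tWidenK L n k = k (tWiden L n) := by
  cases L <;> simp only [tWidenK, fB_eq, tWiden]

def tExpK {α : Type} (b : CB) (L : ℕ) (k : List CB → α) : α :=
  expCoefK b 0 (CB.ofInt 1) L fun C =>
  tWidenK C (2 * (b.n1 + b.rad) ^ L / (SC ^ (L - 1) * L.factorial) + 1) k

theorem tExpK_eq {α : Type} (b : CB) (L : ℕ) (k : List CB → α) : tExpK b L k = k (tExp b L) := by
  simp only [tExpK, expCoefK_eq, tWidenK_eq, tExp]

def tExK {α : Type} (s Z T : CB) (n L : ℕ) (k : List CB → α) : α :=
  fB (Z.mul s) fun zs => fB (T.mul s) fun ts => expK n zs fun e =>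
  tExpK ts L fun P => tScaleK e P k

theorem tExK_eq {α : Type} (s Z T : CB) (n L : ℕ) (k : List CB → α) :
    tExK s Z T n L k = k (tEx s Z T n L) := by
  simp only [tExK, fB_eq, expK_eq, tExpK_eq, tScaleK_eq, tEx]

def tNegK {α : Type} : List CB → (List CB → α) → α
  | [], k => k []
  | a :: L, k => fB a.neg fun x => tNegK L fun M => k (x :: M)

theorem tNegK_eq {α : Type} (L : List CB) (k : List CB → α) : tNegK L k = k (tNeg L) := by
  induction L generalizing k with
  | nil => rfl
  | cons a L ih => rw [tNegK, fB_eq, ih]; rfl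

/-- strict first engine -/
def engLK {α : Type} (n k L J : ℕ) (κ : ℤ) (W : ℕ) (R0 Z0 T0 : CB) (c : List CB → α) : α :=
  fB R0 fun R => fB Z0 fun Z => fB T0 fun T => fB Z.neg fun Zn => fB T.neg fun Tn =>
  fB (yB n) fun Y => expK k (CB.mulInt 4 R) fun N => fB (Y.mul N) fun YN =>
  fB (CB.mulInt 4 YN) fun XU => fB (CB.mulInt 4 Y) fun XL =>
  expK k ((CB.mulInt 5 R).sub YN) fun E5 => expK k Y.neg fun EL =>
  fB (CB.mulInt (1 - κ) R) fun r1 => fB (CB.mulInt (-(1 + κ)) R) fun r2 =>
  fB (CB.mulInt (-κ) R) fun r3 =>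
  fB ((CB.ofInt 5).add Z) fun Z5 => fB ((CB.ofInt 5).add Zn) fun Zn5 =>
  prodBK XU T Z5 J fun P1 => prodBK XU Tn Zn5 J fun P2 =>
  tExK r1 Z T k L fun M1 => tExK r2 Z T k L fun M2 => tExK r3 Z T k L fun M3 =>
  eAK XU T Z L J fun A1 => eAK XU Tn Zn L J fun A2 =>
  eAK XL T Z L J fun C1 => eAK XL Tn Zn L J fun C2 => tAddK C1 C2 fun C =>
  tMulK M1 A1 fun B1 => tMulK M2 A2 fun B2 => tMulK M3 C fun B3 =>
  tAddK B1 B2 fun B12 => tScaleK E5 B12 fun D1 => tScaleK EL B3 fun D2 => tNegK D2 fun D3 =>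
  tAddK D1 D3 fun D4 => fB (Y.divNat 2) fun Y2 => tScaleK Y2 D4 fun D5 =>
  tWidenK D5 (((Y.n1 + Y.rad) * ((Z.n1 + Z.rad + (T.n1 + T.rad)) / SC + 2) * (R.n1 + R.rad) *
    (E5.n1 + E5.rad) * W * (P1 + P2)) / (2 * SC ^ 3) + 1) c

theorem engLK_eq {α : Type} (n k L J : ℕ) (κ : ℤ) (W : ℕ) (R Z T : CB) (c : List CB → α) :
    engLK n k L J κ W R Z T c = c (engL n k L J κ W R Z T) := by
  simp only [engLK, fB_eq, expK_eq, prodBK_eq, tExK_eq, eAK_eq, tMulK_eq, tAddK_eq, tNegK_eq,
    tScaleK_eq, tWidenK_eq, engL, remN, xU, xL, yN, nB, e5, e5A, eL]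

end Pool.Agent.Helper67.Xi
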