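import Mathlib

/-! Interpolation formula for finite cosine transforms at the zeros of `cos (R z)`. -/

open MeasureTheory Set Real
open scoped ComplexConjugate Interval

namespace Pool.Agent.Helper67.Xi

/-- Parseval for a pair of functions on an interval. -/
theorem hasSum_prod_fourierCoeffOn {a b : ℝ} {f g : ℝ → ℂ} (hab : a < b)
    (hf : MemLp f 2 (volume.restrict (Ioc a b))) (hg : MemLp g 2 (volume.restrict (Ioc a b))) :
    HasSum (fun i => conj (fourierCoeffOn hab f i) * fourierCoeffOn hab g i)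
      ((b - a)⁻¹ • ∫ x in a..b, conj (f x) * g x) := by
  have := Fact.mk (by linarith : 0 < b - a)
  rw [← add_sub_cancel a b] at hf hg
  have h1 := hf.memLp_liftIoc.haarAddCircle
  have h2 := hg.memLp_liftIoc.haarAddCircle
  have key := (@fourierBasis (b - a) _).hasSum_inner_mul_inner h1.toLp h2.toLp
  have e1 : ∀ i : ℤ, inner ℂ h1.toLp (fourierBasis i) * inner ℂ (fourierBasis i) h2.toLp =
      conj (fourierCoeffOn hab f i) * fourierCoeffOn hab g i := by
    intro i
    rw [← HilbertBasis.repr_apply_apply, ← inner_conj_symm, ← HilbertBasis.repr_apply_apply,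
      fourierBasis_repr, fourierBasis_repr, fourierCoeff_congr_ae h1.coeFn_toLp,
      fourierCoeff_congr_ae h2.coeFn_toLp, fourierCoeff_liftIoc_eq, fourierCoeff_liftIoc_eq]
    simp
  have e2 : inner ℂ h1.toLp h2.toLp = (b - a)⁻¹ • ∫ x in a..b, conj (f x) * g x := by
    have hb : ∫ x in a..b, conj (f x) * g x = ∫ x in a..(a + (b - a)), conj (f x) * g x := by
      rw [add_sub_cancel]
    rw [L2.inner_def, hb, ← AddCircle.integral_liftIoc_eq_intervalIntegral,
      ← AddCircle.integral_haarAddCircle]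
    apply integral_congr_ae
    filter_upwards [h1.coeFn_toLp, h2.coeFn_toLp] with x hx1 hx2
    rw [hx1, hx2, RCLike.inner_apply']
    rfl
  simp only [e1, e2] at key
  exact key

/-- The zeros of `cos (R z)`. -/
noncomputable def zk (R : ℝ) (n : ℤ) : ℝ := ((n : ℝ) + 1 / 2) * π / R

/-- real cosine transform -/
noncomputable def cosT (φ : ℝ → ℝ) (R : ℝ) (x : ℝ) : ℝ := ∫ t in (0 : ℝ)..R, φ t * Real.cos (x * t)

/-- complex cosine transform -/
noncomputable def cosTC (φ : ℝ → ℝ) (R : ℝ) (z : ℂ) : ℂ :=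
  ∫ t in (0 : ℝ)..R, (φ t : ℂ) * Complex.cos (z * (t : ℂ))

theorem cosTC_ofReal (φ : ℝ → ℝ) (R x : ℝ) : cosTC φ R (x : ℂ) = ((cosT φ R x : ℝ) : ℂ) := by
  rw [cosTC, cosT, ← intervalIntegral.integral_ofReal]
  congr 1
  ext t
  push_cast
  rfl

theorem sin_zk_mul {R : ℝ} (hR : 0 < R) (n : ℤ) : Real.sin (zk R n * R) = (-1) ^ n := by
  have h1 : zk R n * R = n * π + π / 2 := by rw [zk]; field_simp
  rw [h1, Real.sin_add_pi_div_two, Real.cos_int_mul_pi]

theorem cos_zk_mul {R : ℝ} (hR : 0 < R) (n : ℤ) : Real.cos (zk R n * R) = 0 := by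
  have h1 : zk R n * R = n * π + π / 2 := by rw [zk]; field_simp
  rw [h1, Real.cos_add_pi_div_two, Real.sin_int_mul_pi, neg_zero]

theorem integral_symm {R : ℝ} (hR : 0 < R) (l : ℝ) (ψ : ℝ → ℂ) (hψ : ContinuousOn ψ (Icc (-R) R))
    (hev : ∀ x, ψ (-x) = ψ x) :
    ∫ x in (-R)..R, Complex.exp (-(Complex.I * (l * x))) * ψ x =
      2 * ∫ x in (0 : ℝ)..R, ψ x * Complex.cos (l * x) := by
  have hc : ContinuousOn (fun x : ℝ => Complex.exp (-(Complex.I * (l * x))) * ψ x)
      (Icc (-R) R) := ContinuousOn.mul (by fun_prop) hψ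
  have hi : ∀ a b : ℝ, a ∈ Icc (-R) R → b ∈ Icc (-R) R →
      IntervalIntegrable (fun x : ℝ => Complex.exp (-(Complex.I * (l * x))) * ψ x) volume a b := by
    intro a b ha hb
    apply ContinuousOn.intervalIntegrable
    apply hc.mono
    exact Set.uIcc_subset_Icc ha hb
  have m1 : -R ∈ Icc (-R) R := ⟨le_rfl, by linarith⟩
  have m2 : (0:ℝ) ∈ Icc (-R) R := ⟨by linarith, by linarith⟩
  have m3 : R ∈ Icc (-R) R := ⟨by linarith, le_rfl⟩
  rw [← intervalIntegral.integral_add_adjacent_intervals (hi _ _ m1 m2) (hi _ _ m2 m3)]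
  have e1 : ∫ x in (-R)..0, Complex.exp (-(Complex.I * (l * x))) * ψ x =
      ∫ x in (0:ℝ)..R, Complex.exp (Complex.I * (l * x)) * ψ x := by
    have := intervalIntegral.integral_comp_neg (a := 0) (b := R)
      (fun x : ℝ => Complex.exp (-(Complex.I * (l * x))) * ψ x)
    rw [neg_zero] at this
    rw [← this]
    congr 1
    ext x
    rw [hev]
    push_cast
    ring_nf
  rw [e1, ← intervalIntegral.integral_add, ← intervalIntegral.integral_const_mul]
  · congr 1
    ext x
    rw [Complex.cos]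
    ring_nf
  · apply ContinuousOn.intervalIntegrable
    rw [uIcc_of_le hR.le]
    refine ContinuousOn.mul (by fun_prop) (hψ.mono (Icc_subset_Icc (by linarith) le_rfl))
  · exact hi _ _ m2 m3

theorem integral_cos_cos {R : ℝ} (l : ℝ) (z : ℂ) (hz : (l : ℂ) ^ 2 - z ^ 2 ≠ 0) :
    ∫ x in (0 : ℝ)..R, Complex.cos (z * x) * Complex.cos (l * x) =
      (l * Complex.sin (l * R) * Complex.cos (z * R) - z * Complex.cos (l * R) *
        Complex.sin (z * R)) / ((l : ℂ) ^ 2 - z ^ 2) := by
  have hd : ∀ x : ℝ, HasDerivAt (fun x : ℝ => (l * Complex.sin (l * x) * Complex.cos (z * x)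
      - z * Complex.cos (l * x) * Complex.sin (z * x)) / ((l : ℂ) ^ 2 - z ^ 2))
      (Complex.cos (z * x) * Complex.cos (l * x)) x := by
    intro x
    have h1 : HasDerivAt (fun w : ℂ => (l : ℂ) * w) l (x : ℂ) := by
      simpa using (hasDerivAt_id (x : ℂ)).const_mul (l : ℂ)
    have h2 : HasDerivAt (fun w : ℂ => z * w) z (x : ℂ) := by
      simpa using (hasDerivAt_id (x : ℂ)).const_mul z
    have h3 := (((h1.csin).const_mul (l : ℂ)).mul h2.ccos).sub
      (((h1.ccos).const_mul z).mul h2.csin)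
    have h4 := (h3.div_const ((l : ℂ) ^ 2 - z ^ 2)).comp_ofReal
    refine h4.congr_deriv ?_
    field_simp
    ring
  rw [intervalIntegral.integral_eq_sub_of_hasDerivAt (fun x _ => hd x)]
  · simp
  · apply Continuous.intervalIntegrable
    fun_prop

theorem zk_neg (R : ℝ) (n : ℤ) : zk R (-(n + 1)) = -zk R n := by
  rw [zk, zk]; push_cast; ring

theorem interp {φ : ℝ → ℝ} {R : ℝ} (hR : 0 < R) (hφ : ContinuousOn φ (Icc 0 R)) (z : ℂ)
    (hz : ∀ n : ℤ, ((zk R n : ℝ) : ℂ) ^ 2 - z ^ 2 ≠ 0) :
    HasSum (fun k : ℕ => Complex.cos (z * R) *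
      ((((-1) ^ k * (2 * zk R k / R) * cosT φ R (zk R k) : ℝ) : ℂ) / (((zk R k : ℝ) : ℂ) ^ 2 - z ^ 2)))
      (cosTC φ R z) := by
  have hab : -R < R := by linarith
  set e : ℝ → ℂ := fun t => Complex.exp (-(Complex.I * ((π / (2 * R) : ℝ) * t))) with he
  set f : ℝ → ℂ := fun t => e t * conj (Complex.cos (z * t)) with hf
  set g : ℝ → ℂ := fun t => e t * (φ |t| : ℂ) with hg
  have hec : Continuous e := by rw [he]; fun_prop
  have hφc : ContinuousOn (fun t : ℝ => (φ |t| : ℂ)) (Icc (-R) R) := by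
    apply Complex.continuous_ofReal.comp_continuousOn
    apply hφ.comp continuous_abs.continuousOn
    intro t ht
    exact ⟨abs_nonneg _, abs_le.2 ht⟩
  have hfc : ContinuousOn f (Icc (-R) R) := by
    apply Continuous.continuousOn
    apply hec.mul
    exact Complex.continuous_conj.comp (by fun_prop)
  have hgc : ContinuousOn g (Icc (-R) R) := hec.continuousOn.mul hφc
  have hL : ∀ h : ℝ → ℂ, ContinuousOn h (Icc (-R) R) →
      MemLp h 2 (volume.restrict (Ioc (-R) R)) := by
    intro h hh
    obtain ⟨C, hC⟩ := isCompact_Icc.exists_bound_of_continuousOn hh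
    apply MemLp.of_bound ((hh.mono Ioc_subset_Icc_self).aestronglyMeasurable measurableSet_Ioc) C
    rw [ae_restrict_iff' measurableSet_Ioc]
    filter_upwards with x hx
    exact hC x (Ioc_subset_Icc_self hx)
  have key := hasSum_prod_fourierCoeffOn hab (hL f hfc) (hL g hgc)
  have hee : ∀ t, conj (e t) * e t = 1 := by
    intro t
    rw [he]
    simp only
    rw [← Complex.exp_conj, ← Complex.exp_add]
    simp only [map_neg, map_mul, Complex.conj_I, Complex.conj_ofReal]
    rw [← Complex.exp_zero]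
    congr 1
    ring
  have hsum : ∀ (n : ℤ) (x : ℝ), (fourier (-n) (x : AddCircle (R - -R)) : ℂ) * e x =
      Complex.exp (-(Complex.I * ((zk R n : ℝ) * x))) := by
    intro n x
    rw [fourier_coe_apply, he]
    simp only
    rw [← Complex.exp_add, zk]
    congr 1
    push_cast
    have hR' : (R : ℂ) ≠ 0 := by exact_mod_cast hR.ne'
    have h2 : (R : ℂ) - -R ≠ 0 := by
      intro h; apply hR'; linear_combination h / 2
    field_simp
    ring
  have cg : ∀ n : ℤ, fourierCoeffOn hab g n = (1 / R : ℝ) * ((cosT φ R (zk R n) : ℝ) : ℂ) := by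
    intro n
    rw [fourierCoeffOn_eq_integral]
    have h1 : ∫ x in (-R)..R, (fourier (-n) (x : AddCircle (R - -R)) : ℂ) • g x =
        ∫ x in (-R)..R, Complex.exp (-(Complex.I * ((zk R n : ℝ) * x))) * (φ |x| : ℂ) := by
      congr 1
      ext x
      rw [smul_eq_mul, hg, ← hsum n x]
      ring
    rw [h1, integral_symm hR (zk R n) (fun x => (φ |x| : ℂ)) hφc (by intro x; simp)]
    have h2 : ∫ x in (0:ℝ)..R, (φ |x| : ℂ) * Complex.cos (((zk R n : ℝ) : ℂ) * x) =
        ((cosT φ R (zk R n) : ℝ) : ℂ) := by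
      rw [cosT, ← intervalIntegral.integral_ofReal]
      apply intervalIntegral.integral_congr
      intro x hx
      rw [uIcc_of_le hR.le] at hx
      simp only
      rw [abs_of_nonneg hx.1]
      push_cast
      rfl
    rw [h2, Complex.real_smul]
    push_cast
    have hR' : (R : ℂ) ≠ 0 := by exact_mod_cast hR.ne'
    have h2 : (R : ℂ) - -R ≠ 0 := by
      intro h; apply hR'; linear_combination h / 2
    field_simp
    ring
  have cf : ∀ n : ℤ, conj (fourierCoeffOn hab f n) = (1 / R : ℝ) *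
      (((-1) ^ n * zk R n : ℝ) * Complex.cos (z * R) / (((zk R n : ℝ) : ℂ) ^ 2 - z ^ 2)) := by
    intro n
    rw [fourierCoeffOn_eq_integral]
    have h1 : ∫ x in (-R)..R, (fourier (-n) (x : AddCircle (R - -R)) : ℂ) • f x =
        ∫ x in (-R)..R, Complex.exp (-(Complex.I * ((zk R n : ℝ) * x))) *
          conj (Complex.cos (z * x)) := by
      congr 1
      ext x
      rw [smul_eq_mul, hf, ← hsum n x]
      ring
    rw [h1, integral_symm hR (zk R n) (fun x => conj (Complex.cos (z * x))) ?_
      (by intro x; simp)]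
    · rw [Complex.real_smul, map_mul, map_mul]
      have h3 : conj (∫ x in (0:ℝ)..R, conj (Complex.cos (z * x)) *
          Complex.cos (((zk R n : ℝ) : ℂ) * x)) =
          ∫ x in (0:ℝ)..R, Complex.cos (z * x) * Complex.cos (((zk R n : ℝ) : ℂ) * x) := by
        rw [intervalIntegral.integral_of_le hR.le, intervalIntegral.integral_of_le hR.le,
          ← integral_conj]
        congr 1
        ext x
        rw [map_mul, Complex.conj_conj, ← Complex.ofReal_mul, ← Complex.ofReal_cos,
          Complex.conj_ofReal]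
      rw [h3, integral_cos_cos _ _ (hz n)]
      have h4 : Complex.sin (((zk R n : ℝ) : ℂ) * R) = (-1) ^ n := by
        rw [← Complex.ofReal_mul, ← Complex.ofReal_sin, sin_zk_mul hR]; push_cast; rfl
      have h5 : Complex.cos (((zk R n : ℝ) : ℂ) * R) = 0 := by
        rw [← Complex.ofReal_mul, ← Complex.ofReal_cos, cos_zk_mul hR]; simp
      rw [h4, h5, Complex.conj_ofReal]
      have hR' : (R : ℂ) ≠ 0 := by exact_mod_cast hR.ne'
      have h2 : (R : ℂ) - -R ≠ 0 := by
        intro h; apply hR'; linear_combination h / 2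
      have := hz n
      have h6 : conj (2 : ℂ) = 2 := map_ofNat _ 2
      rw [h6]
      push_cast
      field_simp
      ring
    · apply Continuous.continuousOn
      exact Complex.continuous_conj.comp (by fun_prop)
  have hint : ((R - -R)⁻¹ • ∫ x in (-R)..R, conj (f x) * g x) = (1 / R : ℝ) * cosTC φ R z := by
    have h1 : ∫ x in (-R)..R, conj (f x) * g x =
        ∫ x in (-R)..R, Complex.exp (-(Complex.I * (((0:ℝ) : ℂ) * x))) *
          (Complex.cos (z * x) * (φ |x| : ℂ)) := by
      congr 1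
      ext x
      have := hee x
      rw [hf, hg]
      simp only [map_mul, Complex.conj_conj, Complex.ofReal_zero, zero_mul, mul_zero, neg_zero,
        Complex.exp_zero, one_mul]
      linear_combination (Complex.cos (z * x) * (φ |x| : ℂ)) * this
    rw [h1, integral_symm hR 0 (fun x => Complex.cos (z * x) * (φ |x| : ℂ)) ?_
      (by intro x; simp)]
    · have h2 : ∫ x in (0:ℝ)..R, Complex.cos (z * x) * (φ |x| : ℂ) *
          Complex.cos (((0:ℝ) : ℂ) * x) = cosTC φ R z := by
        rw [cosTC]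
        apply intervalIntegral.integral_congr
        intro x hx
        rw [uIcc_of_le hR.le] at hx
        simp only
        rw [abs_of_nonneg hx.1]
        simp [mul_comm]
      rw [h2, Complex.real_smul]
      push_cast
      have hR' : (R : ℂ) ≠ 0 := by exact_mod_cast hR.ne'
      have h2 : (R : ℂ) - -R ≠ 0 := by
        intro h; apply hR'; linear_combination h / 2
      field_simp
      ring
    · exact ContinuousOn.mul (by fun_prop) hφc
  rw [hint] at key
  have key2 := key.nat_add_neg_add_one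
  have hR' : (R : ℂ) ≠ 0 := by exact_mod_cast hR.ne'
  have key3 := key2.mul_left (R : ℂ)
  have e3 : (R : ℂ) * ((1 / R : ℝ) * cosTC φ R z) = cosTC φ R z := by
    push_cast; field_simp
  rw [e3] at key3
  refine key3.congr_fun ?_
  intro k
  rw [cf, cg, cf, cg, zk_neg]
  have hev : cosT φ R (-zk R k) = cosT φ R (zk R k) := by
    rw [cosT, cosT]; congr 1; ext t; rw [neg_mul, Real.cos_neg]
  rw [hev]
  have hpow : ((-1 : ℝ)) ^ (-((k : ℤ) + 1)) = -(-1) ^ k := by
    rw [zpow_neg, zpow_add₀ (by norm_num), zpow_natCast, zpow_one, mul_neg_one, inv_neg, ← inv_pow]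
    norm_num
  rw [hpow, zpow_natCast]
  have := hz k
  push_cast
  have e5 : (-((zk R k : ℝ) : ℂ)) ^ 2 = ((zk R k : ℝ) : ℂ) ^ 2 := by ring
  rw [e5]
  field_simp
  ring

end Pool.Agent.Helper67.Xi
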