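import Pool.Agent.Helper67.XiForce

/-! Numerical facts near the threshold, evaluated by the kernel. -/

open Set MeasureTheory
open scoped Interval

namespace Pool.Agent.Helper67.Xi

/-! ### kernel bound by balls -/

def phY (k : ℕ) (t0 : CB) : CB := CB.pi.mul (CB.exp k (CB.mulInt 4 t0))
def phM (k : ℕ) (t0 : CB) : CB :=
  ((CB.mulInt 2 ((phY k t0).mul (phY k t0))).sub (CB.mulInt 3 (phY k t0))).mul
    (CB.exp k (t0.sub (phY k t0)))
def phN (k : ℕ) (t0 : CB) : ℕ := (phM k t0).n1 + (phM k t0).rad +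
  (98 * ((CB.exp k (CB.mulInt (-40) t0)).n1 + (CB.exp k (CB.mulInt (-40) t0)).rad) / 10 ^ 5 + 1)
def phOk (k : ℕ) (t0 : CB) : Bool := CB.expOk k (CB.mulInt 4 t0) &&
  CB.expOk k (t0.sub (phY k t0)) && CB.expOk k (CB.mulInt (-40) t0)

theorem phN_spec {k : ℕ} {t0 : CB} {t : ℝ} (h : phOk k t0 = true) (m0 : CB.mem (t : ℂ) t0) :
    ((trm 0 t + 98 / 10 ^ 5 * Real.exp (-(40 * t))) * SC) ≤ phN k t0 := by
  simp only [phOk, Bool.and_eq_true] at h
  obtain ⟨⟨h4, hE⟩, h40⟩ := h
  have hS := SC_pos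
  have m4 : CB.mem ((Real.exp (4 * t) : ℝ) : ℂ) (CB.exp k (CB.mulInt 4 t0)) := by
    apply mem_exp_real _ h4
    have := mem_mulInt 4 m0
    push_cast at this ⊢; exact this
  have mY : CB.mem ((Real.pi * Real.exp (4 * t) : ℝ) : ℂ) (phY k t0) := by
    have := mem_mul mem_pi m4
    rw [Complex.ofReal_mul]
    exact this
  set Y : ℝ := Real.pi * Real.exp (4 * t) with hY
  have mE : CB.mem ((Real.exp (t - Y) : ℝ) : ℂ) (CB.exp k (t0.sub (phY k t0))) := by
    apply mem_exp_real _ hE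
    have := mem_sub m0 mY
    push_cast at this ⊢; exact this
  have mM : CB.mem ((trm 0 t : ℝ) : ℂ) (phM k t0) := by
    have := mem_mul (mem_sub (mem_mulInt 2 (mem_mul mY mY)) (mem_mulInt 3 mY)) mE
    have e : trm 0 t = (2 * (Y * Y) - 3 * Y) * Real.exp (t - Y) := by
      rw [trm_eq, hY, sub_eq_add_neg t, Real.exp_add]
      have : Real.exp (5 * t) = Real.exp t * Real.exp (4 * t) := by
        rw [← Real.exp_add]; ring_nf
      rw [this]
      push_cast
      ring_nf
    rw [e]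
    push_cast at this ⊢; exact this
  have m40 : CB.mem ((Real.exp (-(40 * t)) : ℝ) : ℂ) (CB.exp k (CB.mulInt (-40) t0)) := by
    apply mem_exp_real _ h40
    have := mem_mulInt (-40) m0
    push_cast at this ⊢
    rw [← neg_mul]; exact this
  have r1 := real_le_of_mem mM
  have r2 := real_le_of_mem m40
  have r3 := nat_div_ceil (98 * ((CB.exp k (CB.mulInt (-40) t0)).n1 +
    (CB.exp k (CB.mulInt (-40) t0)).rad)) (10 ^ 5) (by norm_num)
  rw [phN]
  push_cast at r1 r2 r3 ⊢
  have r4 : 98 / 10 ^ 5 * Real.exp (-(40 * t)) * SC ≤ (98 * (((CB.exp k (CB.mulInt (-40) t0)).n1 : ℝ) +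
    (CB.exp k (CB.mulInt (-40) t0)).rad)) / 10 ^ 5 := by
    rw [mul_comm (98 / 10 ^ 5 : ℝ), mul_assoc, le_div_iff₀ (by norm_num)]
    nlinarith
  linarith

def tb : CB := CB.rat 2561 0 10000

theorem phi_num : phOk 6 tb = true ∧ 1000 * phN 6 tb ≤ 27 * SC := by decide +kernel

/-- bound of the kernel beyond `0.2561` -/
theorem Phi_le_27 {t : ℝ} (ht : 0.2561 ≤ t) : Phi t ≤ 27 / 1000 := by
  have hm : CB.mem (((2561 / 10000 : ℝ) : ℝ) : ℂ) tb := by
    have := mem_rat_real 2561 (d := 10000) (by norm_num)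
    push_cast at this ⊢; exact this
  have h1 := phN_spec phi_num.1 hm
  have h2 := Phi_le_at (t0 := 2561 / 10000) (t := t) (by norm_num) (by norm_num at ht ⊢; exact ht)
  have h3 : (1000 * phN 6 tb : ℝ) ≤ 27 * SC := by exact_mod_cast phi_num.2
  have hS := SC_pos
  have h4 : (trm 0 (2561 / 10000) + 98 / 10 ^ 5 * Real.exp (-(40 * (2561 / 10000)))) * SC ≤
      27 / 1000 * SC := by linarith
  have h5 := le_of_mul_le_mul_right h4 hS
  linarith

/-! ### numerical instances -/

def s1 : RD := ⟨6, 14, 40, 95, 256206, 1000000, 26725, 3000, 1000⟩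
def s2 : RD := ⟨6, 2, 40, 95, 256205, 1000000, 26725, 0, 1000⟩
def s3 : RD := ⟨6, 10, 40, 95, 256206, 1000000, 32400, 1760, 1000⟩
def s4 : RD := ⟨6, 10, 40, 95, 2573, 10000, 26725, 3000, 1000⟩

def s4N : ℕ := s4.tailN + (48 * phN 6 tb / 10 ^ 4 + 1)

theorem s1_side : s1.side = true := by decide +kernel
theorem s2_side : s2.side = true := by decide +kernel
theorem s3_side : s3.side = true := by decide +kernel
theorem s4_side : s4.side = true := by decide +kernel

theorem s1_ok : engLK 0 6 14 40 0 3 s1.Rb s1.Z s1.T (fun A =>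
    engLK 1 6 14 95 0 3 s1.Rb s1.Z s1.T fun B => tAddK A B fun C =>
      posQ C s1.tailN && leftQ C s1.tailN) = true := by decide +kernel

theorem s2_ok : engLK 0 6 2 40 0 3 s2.Rb s2.Z s2.T (fun A =>
    engLK 1 6 2 95 0 3 s2.Rb s2.Z s2.T fun B => tAddK A B fun C =>
      negC C s2.tailN) = true := by decide +kernel

theorem s3_ok : engLK 0 6 10 40 0 3 s3.Rb s3.Z s3.T (fun A =>
    engLK 1 6 10 95 0 3 s3.Rb s3.Z s3.T fun B => tAddK A B fun C =>
      posC C s3.tailN) = true := by decide +kernel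

theorem s4_ok : engLK 0 6 10 40 0 3 s4.Rb s4.Z s4.T (fun A =>
    engLK 1 6 10 95 0 3 s4.Rb s4.Z s4.T fun B => tAddK A B fun C =>
      fN s4N fun n => domQ C n) = true := by decide +kernel

theorem s1_pos : posQ s1.lst s1.tailN = true := by
  have h := s1_ok
  rw [engLK_eq, engLK_eq, tAddK_eq, Bool.and_eq_true] at h
  exact h.1

theorem s1_left : leftQ s1.lst s1.tailN = true := by
  have h := s1_ok
  rw [engLK_eq, engLK_eq, tAddK_eq, Bool.and_eq_true] at h
  exact h.2

theorem s2_neg : negC s2.lst s2.tailN = true := by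
  have h := s2_ok
  rw [engLK_eq, engLK_eq, tAddK_eq] at h
  exact h

theorem s3_pos : posC s3.lst s3.tailN = true := by
  have h := s3_ok
  rw [engLK_eq, engLK_eq, tAddK_eq] at h
  exact h

theorem s4_dom : domQ s4.lst s4N = true := by
  have h := s4_ok
  rw [engLK_eq, engLK_eq, tAddK_eq, fN_eq] at h
  exact h

end Pool.Agent.Helper67.Xi
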