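import Pool.Agent.Helper67.XiEng9
import Pool.Agent.Helper67.XiInterp

/-! Evaluation near the real axis. -/

open Set

namespace Pool.Agent.Helper67.Xi

/-- data for an expansion around a real point: `x = (a + b v) / d`. -/
structure RD where
  k : ℕ
  L : ℕ
  J0 : ℕ
  J1 : ℕ
  rp : ℤ
  rd : ℕ
  a : ℤ
  b : ℤ
  d : ℕ

namespace RD

def Rb (s : RD) : CB := CB.rat s.rp 0 s.rd
def Z (s : RD) : CB := CB.rat 0 (-s.a) s.d
def T (s : RD) : CB := CB.rat 0 (-s.b) s.d

def lst (s : RD) : List CB :=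
  tAdd (engL 0 s.k s.L s.J0 0 3 s.Rb s.Z s.T) (engL 1 s.k s.L s.J1 0 3 s.Rb s.Z s.T)

def side (s : RD) : Bool :=
  decide (0 < s.rd ∧ 0 < s.d ∧ 0 ≤ s.rp ∧ 0 ≤ s.b ∧ s.rp * s.b ≤ s.rd * s.d) &&
  engOk 0 s.k s.L s.J0 0 s.Rb s.Z s.T && engOk 1 s.k s.L s.J1 0 s.Rb s.Z s.T

def tailN (s : RD) : ℕ := 6 * (s.Rb.n1 + s.Rb.rad) / 10 ^ 9 + 1

end RD

theorem norm_exp_le_three {w : ℂ} (h : w.re ≤ 1) : ‖Complex.exp w‖ ≤ 3 := by
  rw [Complex.norm_exp]
  have h1 : Real.exp w.re ≤ Real.exp 1 := Real.exp_le_exp.2 h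
  have := Real.exp_one_lt_d9
  linarith

theorem RD.spec {s : RD} (h : s.side = true) {R : ℝ} (hR : R = (s.rp : ℝ) / s.rd) {v : ℂ}
    (hv : ‖v‖ ≤ 1) {w : ℂ} (hw : w = ((s.a : ℝ) / s.d : ℝ) + ((s.b : ℝ) / s.d : ℝ) * v) :
    ∃ X : ℂ, PMem v X s.lst ∧ ‖2 * H R w - X‖ * SC ≤ s.tailN := by
  simp only [RD.side, Bool.and_eq_true, decide_eq_true_eq] at h
  obtain ⟨⟨⟨hrd, hd, hrp, hb, hrb⟩, hE0⟩, hE1⟩ := h
  have hS := SC_pos
  have hrdr : (0 : ℝ) < s.rd := by exact_mod_cast hrd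
  have hdr : (0 : ℝ) < s.d := by exact_mod_cast hd
  have hrpr : (0 : ℝ) ≤ s.rp := by exact_mod_cast hrp
  have hbr : (0 : ℝ) ≤ s.b := by exact_mod_cast hb
  have hR0 : 0 ≤ R := by rw [hR]; positivity
  have hRb : CB.mem (R : ℂ) s.Rb := by rw [hR]; exact mem_rat_real s.rp hrd
  set z : ℂ := (((0 : ℤ) : ℂ) + ((-s.a : ℤ) : ℂ) * Complex.I) / s.d with hz
  set t : ℂ := (((0 : ℤ) : ℂ) + ((-s.b : ℤ) : ℂ) * Complex.I) / s.d with ht
  have hZ : CB.mem z s.Z := mem_rat _ _ hd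
  have hT : CB.mem t s.T := mem_rat _ _ hd
  set ζ : ℂ := z + t * v with hζ
  have hζw : ζ = -Complex.I * w := by
    rw [hζ, hz, ht, hw]; push_cast; ring
  have hζI : ζ * Complex.I = w := by
    rw [hζw]
    have : -Complex.I * w * Complex.I = -(Complex.I * Complex.I) * w := by ring
    rw [this, Complex.I_mul_I]; ring
  have hH : H R w = ff R ζ := by rw [← hζI, H_eq]
  have hre : |ζ.re| * R ≤ 1 := by
    have e1 : ζ.re = (s.b : ℝ) / s.d * v.im := by
      rw [hζw, hw]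
      simp [Complex.mul_re, Complex.mul_im]
    have e2 : |v.im| ≤ 1 := (Complex.abs_im_le_norm v).trans hv
    rw [e1, abs_mul, abs_of_nonneg (by positivity : (0 : ℝ) ≤ (s.b : ℝ) / s.d), hR]
    have e3 : (s.rp : ℝ) * s.b ≤ s.rd * s.d := by exact_mod_cast hrb
    calc (s.b : ℝ) / s.d * |v.im| * (s.rp / s.rd) ≤ (s.b : ℝ) / s.d * 1 * (s.rp / s.rd) := by gcongr
      _ = (s.rp * s.b) / (s.rd * s.d) := by field_simp
      _ ≤ 1 := by rw [div_le_one (by positivity)]; exact e3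
  have hre1 : ζ.re * R ≤ 1 := by
    have := le_abs_self ζ.re
    nlinarith
  have hre2 : -(ζ.re * R) ≤ 1 := by
    have := neg_abs_le ζ.re
    nlinarith
  have hW1 : ‖Complex.exp (ζ * (((1 - 0 : ℤ) : ℂ) * R))‖ ≤ (3 : ℕ) := by
    apply norm_exp_le_three
    have e : (((1 - 0 : ℤ) : ℂ) * (R : ℂ)) = ((R : ℝ) : ℂ) := by push_cast; ring
    rw [e, Complex.re_mul_ofReal]; exact hre1
  have hW2 : ‖Complex.exp (ζ * (((-(1 + 0) : ℤ) : ℂ) * R))‖ ≤ (3 : ℕ) := by
    apply norm_exp_le_three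
    have e : (((-(1 + 0) : ℤ) : ℂ) * (R : ℂ)) = ((-R : ℝ) : ℂ) := by push_cast; ring
    rw [e, Complex.re_mul_ofReal]; linarith
  have hL0 := pmem_eng hv hR0 hRb hZ hT hE0 hW1 hW2
  have hL1 := pmem_eng hv hR0 hRb hZ hT hE1 hW1 hW2
  have e0 : Complex.exp (ζ * (((-0 : ℤ) : ℂ) * R)) = 1 := by simp
  rw [← hζ, e0, one_mul] at hL0 hL1
  refine ⟨_, pmem_add hL0 hL1, ?_⟩
  rw [hH, two_ff hR0, pT_Psi hR0, pT_Psi hR0]
  have e3 : cT 0 R ζ + cT 0 R (-ζ) + (cT 1 R ζ + pT Psi3 R ζ + (cT 1 R (-ζ) + pT Psi3 R (-ζ))) -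
      (cT 0 R ζ + cT 0 R (-ζ) + (cT 1 R ζ + cT 1 R (-ζ))) = pT Psi3 R ζ + pT Psi3 R (-ζ) := by ring
  rw [e3]
  have key : ∀ u : ℂ, |u.re| * R ≤ 1 → ‖pT Psi3 R u‖ ≤ 3 * R / 10 ^ 9 := by
    intro u hu
    rw [pT]
    have h := intervalIntegral.norm_integral_le_of_norm_le_const (a := (0 : ℝ)) (b := R)
      (C := 3 / 10 ^ 9) (f := fun t : ℝ => ((Psi3 t : ℂ) * Complex.exp (u * t))) (by
        intro x hx
        rw [uIoc_of_le hR0] at hx
        rw [norm_mul, Complex.norm_real, Real.norm_eq_abs, abs_of_nonneg (Psi3_nonneg hx.1.le)]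
        have h1 := Psi3_le hx.1.le
        have h3 : ‖Complex.exp (u * x)‖ ≤ 3 := by
          apply norm_exp_le_three
          rw [Complex.re_mul_ofReal]
          have i1 : u.re * x ≤ |u.re| * x := mul_le_mul_of_nonneg_right (le_abs_self _) hx.1.le
          have i2 : |u.re| * x ≤ |u.re| * R := mul_le_mul_of_nonneg_left hx.2 (abs_nonneg _)
          linarith
        calc Psi3 x * ‖Complex.exp (u * x)‖ ≤ (1 / 10 ^ 9) * 3 := by
              have := Psi3_nonneg hx.1.le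
              gcongr
          _ = _ := by ring)
    rw [sub_zero, abs_of_nonneg hR0] at h
    linarith
  have k1 := key ζ hre
  have k2 := key (-ζ) (by simpa using hre)
  have k3 := norm_add_le (pT Psi3 R ζ) (pT Psi3 R (-ζ))
  have hRn := real_le_of_mem hRb
  have e5 := nat_div_ceil (6 * (s.Rb.n1 + s.Rb.rad)) (10 ^ 9) (by norm_num)
  rw [RD.tailN, Nat.cast_add, Nat.cast_one]
  refine le_trans ?_ e5
  push_cast at hRn ⊢
  calc ‖pT Psi3 R ζ + pT Psi3 R (-ζ)‖ * (SC : ℝ) ≤ (6 * R / 10 ^ 9) * SC := by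
        have : ‖pT Psi3 R ζ + pT Psi3 R (-ζ)‖ ≤ 6 * R / 10 ^ 9 := by linarith
        gcongr
    _ = 6 * (R * SC) / 10 ^ 9 := by ring
    _ ≤ 6 * ((s.Rb.n1 : ℝ) + s.Rb.rad) / 10 ^ 9 := by gcongr
    _ = _ := by norm_num

theorem H_ofReal (R x : ℝ) : H R (x : ℂ) = ((cosT Phi R x : ℝ) : ℂ) := by
  have : H R (x : ℂ) = cosTC Phi R (x : ℂ) := rfl
  rw [this, cosTC_ofReal]

/-- real version of the specification -/
theorem RD.spec_real {s : RD} (h : s.side = true) {v : ℝ} (hv : |v| ≤ 1) :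
    ∃ X : ℂ, PMem (v : ℂ) X s.lst ∧
      |2 * cosT Phi ((s.rp : ℝ) / s.rd) ((s.a + s.b * v) / s.d) - X.re| * SC ≤ s.tailN := by
  obtain ⟨X, h1, h2⟩ := RD.spec h rfl (v := (v : ℂ)) (by rw [Complex.norm_real]; exact hv) rfl
  refine ⟨X, h1, ?_⟩
  have hS := SC_pos
  have e1 : (((s.a : ℝ) / s.d : ℝ) : ℂ) + ((s.b : ℝ) / s.d : ℝ) * (v : ℂ) =
      (((s.a + s.b * v) / s.d : ℝ) : ℂ) := by push_cast; ring
  rw [e1, H_ofReal] at h2
  refine le_trans ?_ h2
  have h3 := Complex.abs_re_le_norm (2 * ((cosT Phi ((s.rp : ℝ) / s.rd) ((s.a + s.b * v) / s.d) : ℝ) : ℂ) - X)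
  have e2 : (2 * ((cosT Phi ((s.rp : ℝ) / s.rd) ((s.a + s.b * v) / s.d) : ℝ) : ℂ) - X).re =
      2 * cosT Phi ((s.rp : ℝ) / s.rd) ((s.a + s.b * v) / s.d) - X.re := by
    simp
  rw [e2] at h3
  gcongr

/-- lower bound for the quadratic part -/
theorem quad_low {v : ℝ} (hv : |v| ≤ 1) {X : ℂ} {h0 h1 h2 : CB} {hs : List CB}
    (h : PMem (v : ℂ) X (h0 :: h1 :: h2 :: hs)) :
    (h0.re : ℝ) - h0.rad - |v| * (|(h1.re : ℝ)| + h1.rad) +
      v ^ 2 * ((h2.re : ℝ) - h2.rad - sumUp hs) ≤ X.re * SC := by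
  have hS := SC_pos
  obtain ⟨l, hl, rfl⟩ := h
  cases hl with
  | @cons a A l L ha hl =>
    cases hl with
    | @cons b B l L hb hl =>
      cases hl with
      | @cons c C l L hc hl =>
        have e1 := re_ge_of_mem ha
        have e2a := re_ge_of_mem hb
        have e2b := re_le_of_mem hb
        have e3 := re_ge_of_mem hc
        have e4 := norm_ev_le (v := (v : ℂ)) (by rw [Complex.norm_real]; exact hv) hl
        have e5 : (ev (a :: b :: c :: l) (v : ℂ)).re = a.re + v * b.re + v ^ 2 * c.re +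
            v ^ 2 * (v * (ev l (v : ℂ)).re) := by
          have : ev (a :: b :: c :: l) (v : ℂ) = a + (v : ℂ) * b + ((v ^ 2 : ℝ) : ℂ) * c +
              ((v ^ 3 : ℝ) : ℂ) * ev l (v : ℂ) := by
            simp only [ev]; push_cast; ring
          rw [this]
          simp only [Complex.add_re, Complex.re_ofReal_mul]
          ring
        rw [e5]
        have e6 : |(ev l (v : ℂ)).re| * SC ≤ sumUp hs := by
          refine le_trans ?_ e4
          have := Complex.abs_re_le_norm (ev l (v : ℂ))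
          gcongr
        have e7 : -(sumUp hs : ℝ) ≤ v * (ev l (v : ℂ)).re * SC := by
          have i1 : |v * (ev l (v : ℂ)).re * SC| ≤ sumUp hs := by
            rw [abs_mul, abs_mul, abs_of_pos hS]
            calc |v| * |(ev l (v : ℂ)).re| * SC ≤ 1 * |(ev l (v : ℂ)).re| * SC := by gcongr
              _ = |(ev l (v : ℂ)).re| * SC := by ring
              _ ≤ _ := e6
          exact (abs_le.1 i1).1
        have e8 : -(|v| * (|(h1.re : ℝ)| + h1.rad)) ≤ v * b.re * SC := by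
          have i1 : |b.re * SC| ≤ |(h1.re : ℝ)| + h1.rad := by
            rw [abs_le]
            have := neg_abs_le (h1.re : ℝ)
            have := le_abs_self (h1.re : ℝ)
            constructor <;> linarith
          have i2 : |v * (b.re * SC)| ≤ |v| * (|(h1.re : ℝ)| + h1.rad) := by
            rw [abs_mul]
            gcongr
          have := (abs_le.1 i2).1
          linarith
        have hv2 : 0 ≤ v ^ 2 := sq_nonneg v
        have e9 : v ^ 2 * ((h2.re : ℝ) - h2.rad - sumUp hs) ≤ v ^ 2 * (c.re * SC) +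
            v ^ 2 * (v * (ev l (v : ℂ)).re * SC) := by
          rw [← mul_add]
          apply mul_le_mul_of_nonneg_left _ hv2
          linarith
        linarith

/-- positivity test -/
def posQ : List CB → ℕ → Bool
  | h0 :: h1 :: h2 :: hs, n => decide (0 < h0.re - h0.rad - n ∧ 0 < h2.re - h2.rad - sumUp hs ∧
      (|h1.re| + h1.rad) ^ 2 < 4 * (h0.re - h0.rad - n) * (h2.re - h2.rad - sumUp hs))
  | _, _ => false

theorem RD.posQ_spec {s : RD} (h : s.side = true) (hp : posQ s.lst s.tailN = true) {v : ℝ}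
    (hv : |v| ≤ 1) : 0 < cosT Phi ((s.rp : ℝ) / s.rd) ((s.a + s.b * v) / s.d) := by
  have hS := SC_pos
  obtain ⟨X, h1, h2⟩ := RD.spec_real h hv
  match hl : s.lst, hp with
  | [], hp => simp [posQ] at hp
  | [_], hp => simp [posQ] at hp
  | [_, _], hp => simp [posQ] at hp
  | g0 :: g1 :: g2 :: gs, hp =>
    rw [hl] at h1
    obtain ⟨p0, p2, p1⟩ := of_decide_eq_true hp
    have q := quad_low hv h1
    have p0r : (0 : ℝ) < (g0.re : ℝ) - g0.rad - s.tailN := by exact_mod_cast p0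
    have p2r : (0 : ℝ) < (g2.re : ℝ) - g2.rad - sumUp gs := by exact_mod_cast p2
    have p1r : (|(g1.re : ℝ)| + g1.rad) ^ 2 < 4 * ((g0.re : ℝ) - g0.rad - s.tailN) *
        ((g2.re : ℝ) - g2.rad - sumUp gs) := by exact_mod_cast p1
    set A := (g0.re : ℝ) - g0.rad - s.tailN with hA
    set B := |(g1.re : ℝ)| + g1.rad with hB
    set M := (g2.re : ℝ) - g2.rad - sumUp gs with hM
    have hB0 : 0 ≤ B := by positivity
    have hpos : 0 < A - |v| * B + v ^ 2 * M := by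
      have : v ^ 2 = |v| ^ 2 := (sq_abs v).symm
      rw [this]
      nlinarith [sq_nonneg (2 * M * |v| - B)]
    have h3 : 0 < X.re * SC - s.tailN := by linarith
    have h4 := (abs_le.1 ((abs_mul _ _).trans_le (by rw [abs_of_pos hS]; exact h2 :
      |2 * cosT Phi ((s.rp : ℝ) / s.rd) ((s.a + s.b * v) / s.d) - X.re| * |(SC : ℝ)| ≤ s.tailN))).1
    have h5 : 0 < (2 * cosT Phi ((s.rp : ℝ) / s.rd) ((s.a + s.b * v) / s.d)) * SC := by
      nlinarith
    by_contra hcon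
    push Not at hcon
    have := mul_nonpos_of_nonpos_of_nonneg (by linarith :
      2 * cosT Phi ((s.rp : ℝ) / s.rd) ((s.a + s.b * v) / s.d) ≤ 0) hS.le
    linarith

theorem RD.low_spec {s : RD} (h : s.side = true) {v : ℝ} (hv : |v| ≤ 1) :
    ∃ X : ℂ, PMem (v : ℂ) X s.lst ∧
      X.re * SC - s.tailN ≤ (2 * cosT Phi ((s.rp : ℝ) / s.rd) ((s.a + s.b * v) / s.d)) * SC ∧
      (2 * cosT Phi ((s.rp : ℝ) / s.rd) ((s.a + s.b * v) / s.d)) * SC ≤ X.re * SC + s.tailN := by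
  obtain ⟨X, h1, h2⟩ := RD.spec_real h hv
  have hS := SC_pos
  refine ⟨X, h1, ?_⟩
  have h3 : |(2 * cosT Phi ((s.rp : ℝ) / s.rd) ((s.a + s.b * v) / s.d) - X.re) * SC| ≤ s.tailN := by
    rw [abs_mul, abs_of_pos hS]; exact h2
  obtain ⟨h4, h5⟩ := abs_le.1 h3
  constructor <;> linarith

/-- test on the left part `v ≤ -39/62`-like, in the form `v ^ 2 ≥ 39 / 100`. -/
def leftQ : List CB → ℕ → Bool
  | h0 :: h1 :: h2 :: hs, n => decide (0 < h2.re - h2.rad - sumUp hs ∧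
      100 * (10 ^ 6 * (h0.re - h0.rad - n) - 10 ^ 6 * (|h1.re| + h1.rad) - 2 * SC) +
      39 * 10 ^ 6 * (h2.re - h2.rad - sumUp hs) > 0)
  | _, _ => false

theorem RD.leftQ_spec {s : RD} (h : s.side = true) (hp : leftQ s.lst s.tailN = true) {v : ℝ}
    (hv : |v| ≤ 1) (hv2 : 39 / 100 ≤ v ^ 2) :
    1 / 10 ^ 6 < cosT Phi ((s.rp : ℝ) / s.rd) ((s.a + s.b * v) / s.d) := by
  have hS := SC_pos
  obtain ⟨X, h1, h2, -⟩ := RD.low_spec h hv
  match hl : s.lst, hp with
  | [], hp => simp [leftQ] at hp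
  | [_], hp => simp [leftQ] at hp
  | [_, _], hp => simp [leftQ] at hp
  | g0 :: g1 :: g2 :: gs, hp =>
    rw [hl] at h1
    obtain ⟨p2, p0⟩ := of_decide_eq_true hp
    have q := quad_low hv h1
    have p2r : (0 : ℝ) < (g2.re : ℝ) - g2.rad - sumUp gs := by exact_mod_cast p2
    have p0r : 100 * (10 ^ 6 * ((g0.re : ℝ) - g0.rad - s.tailN) -
        10 ^ 6 * (|(g1.re : ℝ)| + g1.rad) - 2 * SC) +
      39 * 10 ^ 6 * ((g2.re : ℝ) - g2.rad - sumUp gs) > 0 := by exact_mod_cast p0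
    set A := (g0.re : ℝ) - g0.rad with hA
    set B := |(g1.re : ℝ)| + g1.rad with hB
    set M := (g2.re : ℝ) - g2.rad - sumUp gs with hM
    have hB0 : 0 ≤ B := by positivity
    have i1 : |v| * B ≤ 1 * B := by gcongr
    have i2 : 39 / 100 * M ≤ v ^ 2 * M := by gcongr
    have i3 : 2 / 10 ^ 6 * (SC : ℝ) <
        (2 * cosT Phi ((s.rp : ℝ) / s.rd) ((s.a + s.b * v) / s.d)) * SC := by
      have : (2 : ℝ) / 10 ^ 6 * SC < A - B + 39 / 100 * M - s.tailN := by
        norm_num at p0r ⊢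
        linarith
      linarith
    have i4 := lt_of_mul_lt_mul_right i3 hS.le
    linarith

/-- constant domination -/
def posC : List CB → ℕ → Bool
  | h0 :: hs, n => decide (0 < h0.re - h0.rad - sumUp hs - n)
  | _, _ => false

theorem RD.posC_spec {s : RD} (h : s.side = true) (hp : posC s.lst s.tailN = true) {v : ℝ}
    (hv : |v| ≤ 1) : 0 < cosT Phi ((s.rp : ℝ) / s.rd) ((s.a + s.b * v) / s.d) := by
  have hS := SC_pos
  obtain ⟨X, h1, h2, -⟩ := RD.low_spec h hv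
  match hl : s.lst, hp with
  | [], hp => simp [posC] at hp
  | g0 :: gs, hp =>
    rw [hl] at h1
    have p0 := of_decide_eq_true hp
    have p0r : (0 : ℝ) < (g0.re : ℝ) - g0.rad - sumUp gs - s.tailN := by exact_mod_cast p0
    obtain ⟨l, hfl, rfl⟩ := h1
    cases hfl with
    | @cons a A l L ha hfl =>
      have e1 := re_ge_of_mem ha
      have e4 := norm_ev_le (v := (v : ℂ)) (by rw [Complex.norm_real]; exact hv) hfl
      have e5 : (ev (a :: l) (v : ℂ)).re = a.re + v * (ev l (v : ℂ)).re := by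
        simp only [ev, Complex.add_re, Complex.re_ofReal_mul]
      rw [e5] at h2
      have i1 : |v * (ev l (v : ℂ)).re * SC| ≤ sumUp gs := by
        rw [abs_mul, abs_mul, abs_of_pos hS]
        have := Complex.abs_re_le_norm (ev l (v : ℂ))
        calc |v| * |(ev l (v : ℂ)).re| * SC ≤ 1 * ‖ev l (v : ℂ)‖ * SC := by gcongr
          _ = ‖ev l (v : ℂ)‖ * SC := by ring
          _ ≤ _ := e4
      have i2 := (abs_le.1 i1).1
      by_contra hcon
      push Not at hcon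
      have := mul_nonpos_of_nonpos_of_nonneg (by linarith :
        2 * cosT Phi ((s.rp : ℝ) / s.rd) ((s.a + s.b * v) / s.d) ≤ 0) hS.le
      nlinarith

/-- negativity at the centre -/
def negC : List CB → ℕ → Bool
  | h0 :: _, n => decide (h0.re + h0.rad + n < 0)
  | _, _ => false

theorem RD.negC_spec {s : RD} (h : s.side = true) (hp : negC s.lst s.tailN = true) :
    cosT Phi ((s.rp : ℝ) / s.rd) (s.a / s.d) < 0 := by
  have hS := SC_pos
  obtain ⟨X, h1, -, h2⟩ := RD.low_spec h (v := 0) (by simp)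
  rw [mul_zero, add_zero] at h2
  match hl : s.lst, hp with
  | [], hp => simp [negC] at hp
  | g0 :: gs, hp =>
    rw [hl] at h1
    have p0 := of_decide_eq_true hp
    have p0r : (g0.re : ℝ) + g0.rad + s.tailN < 0 := by exact_mod_cast p0
    obtain ⟨l, hfl, rfl⟩ := h1
    cases hfl with
    | @cons a A l L ha hfl =>
      have e1 := re_le_of_mem ha
      have e5 : (ev (a :: l) ((0 : ℝ) : ℂ)).re = a.re := by simp [ev]
      rw [e5] at h2
      by_contra hcon
      push Not at hcon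
      have := mul_nonneg (by linarith :
        0 ≤ 2 * cosT Phi ((s.rp : ℝ) / s.rd) (s.a / s.d)) hS.le
      linarith

/-- domination of the second coefficient -/
def domQ : List CB → ℕ → Bool
  | h0 :: h1 :: h2 :: hs, n => decide (h2.rad + 2 * (h0.up + h0.rad) + (h1.up + h1.rad) +
      sumUp hs + 2 * n < h2.lo)
  | _, _ => false

theorem dom2_low {v x : ℂ} (hv : ‖v‖ = 1) {h0 h1 h2 : CB} {hs : List CB}
    (h : PMem v x (h0 :: h1 :: h2 :: hs)) :
    (h2.lo : ℝ) - h2.rad - (h0.up + h0.rad) - (h1.up + h1.rad) - sumUp hs ≤ ‖x‖ * (SC : ℝ) := by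
  have hS := SC_pos
  obtain ⟨l, hl, rfl⟩ := h
  cases hl with
  | @cons a A l L ha hl =>
    cases hl with
    | @cons b B l L hb hl =>
      cases hl with
      | @cons c C l L hc hl =>
        have e1 := norm_le_up ha
        have e1' := norm_le_up hb
        have e2 := lo_le_norm hc
        have e3 := norm_ev_le hv.le hl
        have e4 : ‖c‖ - ‖a‖ - ‖b‖ - ‖ev l v‖ ≤ ‖ev (a :: b :: c :: l) v‖ := by
          have i1 : v * (v * c) = ev (a :: b :: c :: l) v - a - v * b - v * (v * (v * ev l v)) := by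
            simp only [ev]; ring
          have i2 : ‖v * (v * c)‖ ≤ ‖ev (a :: b :: c :: l) v‖ + ‖a‖ + ‖v * b‖ +
              ‖v * (v * (v * ev l v))‖ := by
            rw [i1]
            refine (norm_sub_le _ _).trans ?_
            have g1 := norm_sub_le (ev (a :: b :: c :: l) v) a
            have g2 := norm_sub_le (ev (a :: b :: c :: l) v - a) (v * b)
            linarith
          simp only [norm_mul, hv, one_mul] at i2
          linarith
        nlinarith

end Pool.Agent.Helper67.Xi
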