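import Pool.Agent.Helper67.XiNum
import Pool.Agent.Helper67.XiCrit
import Pool.Agent.Helper67.XiMin
import Pool.Agent.Helper85.XiSign

/-! The threshold. -/

open Set MeasureTheory
open scoped Interval

namespace Pool.Agent.Helper67.Xi

/-! ### variation in the parameter -/

theorem ii_cos (x : ℝ) {a b : ℝ} (ha : 0 ≤ a) (hb : 0 ≤ b) :
    IntervalIntegrable (fun t => Phi t * Real.cos (x * t)) volume a b := by
  apply ContinuousOn.intervalIntegrable
  have hc : ContinuousOn Phi (uIcc a b) := by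
    apply (Phi_continuousOn (max a b)).mono
    rw [uIcc]
    intro x hx
    exact ⟨(le_min ha hb).trans hx.1, hx.2⟩
  exact hc.mul (by fun_prop)

theorem cosT_sub {R R' : ℝ} (hR : 0 ≤ R) (hR' : 0 ≤ R') (x : ℝ) :
    cosT Phi R' x - cosT Phi R x = ∫ t in R..R', Phi t * Real.cos (x * t) := by
  rw [cosT, cosT]
  exact intervalIntegral.integral_interval_sub_left (ii_cos x le_rfl hR') (ii_cos x le_rfl hR)

theorem cosT_var {R R' : ℝ} (hR : 0.2561 ≤ R) (hRR : R ≤ R') (x : ℝ) :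
    |cosT Phi R' x - cosT Phi R x| ≤ 27 / 1000 * (R' - R) := by
  have h0 : (0 : ℝ) ≤ R := le_trans (by norm_num) hR
  rw [cosT_sub h0 (h0.trans hRR)]
  have h := intervalIntegral.norm_integral_le_of_norm_le_const (a := R) (b := R')
    (C := 27 / 1000) (f := fun t : ℝ => Phi t * Real.cos (x * t)) (by
      intro t ht
      rw [uIoc_of_le hRR] at ht
      have ht0 : 0 ≤ t := h0.trans ht.1.le
      rw [Real.norm_eq_abs, abs_mul, abs_of_pos (Phi_pos ht0)]
      have h1 := Phi_le_27 (hR.trans ht.1.le)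
      have h2 := Real.abs_cos_le_one (x * t)
      have h3 := (Phi_pos ht0).le
      calc Phi t * |Real.cos (x * t)| ≤ 27 / 1000 * 1 := by gcongr
        _ = _ := by norm_num)
  rw [Real.norm_eq_abs, abs_of_nonneg (by linarith : 0 ≤ R' - R)] at h
  exact h

theorem cosT_mono {R R' x : ℝ} (hR : 0 ≤ R) (hRR : R ≤ R')
    (h : ∀ t ∈ Icc R R', 0 ≤ Real.cos (x * t)) : cosT Phi R x ≤ cosT Phi R' x := by
  have h1 := cosT_sub hR (hR.trans hRR) x
  have h2 : 0 ≤ ∫ t in R..R', Phi t * Real.cos (x * t) :=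
    intervalIntegral.integral_nonneg hRR fun t ht => mul_nonneg (Phi_pos (hR.trans ht.1)).le (h t ht)
  linarith

theorem cosT_anti {R R' x : ℝ} (hR : 0 ≤ R) (hRR : R ≤ R')
    (h : ∀ t ∈ Icc R R', Real.cos (x * t) ≤ 0) : cosT Phi R' x ≤ cosT Phi R x := by
  have h1 := cosT_sub hR (hR.trans hRR) x
  have h2 : 0 ≤ ∫ t in R..R', -(Phi t * Real.cos (x * t)) :=
    intervalIntegral.integral_nonneg hRR fun t ht => by
      have := (Phi_pos (hR.trans ht.1)).le
      have := h t ht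
      nlinarith
  rw [intervalIntegral.integral_neg] at h2
  linarith

theorem cos_nonneg_35 {y : ℝ} (h1 : 3 / 2 * Real.pi ≤ y) (h2 : y ≤ 5 / 2 * Real.pi) :
    0 ≤ Real.cos y := by
  rw [← Real.cos_sub_two_pi]
  exact Real.cos_nonneg_of_neg_pi_div_two_le_of_le (by linarith) (by linarith)

theorem cos_nonpos_57 {y : ℝ} (h1 : 5 / 2 * Real.pi ≤ y) (h2 : y ≤ 7 / 2 * Real.pi) :
    Real.cos y ≤ 0 := by
  rw [← Real.cos_sub_two_pi]
  exact Real.cos_nonpos_of_pi_div_two_le_of_le (by linarith) (by linarith)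

/-! ### regularity in the variable -/

theorem H_eq' (R : ℝ) (z : ℂ) : H R z = ff R (-Complex.I * z) := by
  rw [← H_eq]
  congr 1
  have : -Complex.I * z * Complex.I = -(Complex.I * Complex.I) * z := by ring
  rw [this, Complex.I_mul_I]; ring

theorem H_diff {R : ℝ} (hR : 0 ≤ R) : Differentiable ℂ (H R) := by
  have h : H R = fun z => ff R (-Complex.I * z) := funext (H_eq' R)
  rw [h]
  exact (ff_differentiable hR).comp (differentiable_id.const_mul _)

theorem cosT_cont {R : ℝ} (hR : 0 ≤ R) : Continuous (cosT Phi R) := by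
  have h : cosT Phi R = fun x : ℝ => (H R (x : ℂ)).re := by
    funext x
    rw [H_ofReal, Complex.ofReal_re]
  rw [h]
  exact Complex.continuous_re.comp ((H_diff hR).continuous.comp Complex.continuous_ofReal)

/-! ### the numerical facts on the interval -/

def JJ : Set ℝ := Icc (23725 / 1000) (29725 / 1000)

theorem JJ_v {x : ℝ} (hx : x ∈ JJ) : ∃ v : ℝ, |v| ≤ 1 ∧ x = (26725 + 3000 * v) / 1000 := by
  refine ⟨(1000 * x - 26725) / 3000, ?_, by ring⟩
  obtain ⟨h1, h2⟩ := hx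
  rw [abs_le]
  constructor
  · rw [le_div_iff₀ (by norm_num)]; linarith
  · rw [div_le_iff₀ (by norm_num)]; linarith

theorem pos_R1 {x : ℝ} (hx : x ∈ JJ) : 0 < cosT Phi (256206 / 1000000) x := by
  obtain ⟨v, hv, rfl⟩ := JJ_v hx
  have h := RD.posQ_spec s1_side s1_pos hv
  simpa [s1] using h

theorem left_R1 {v : ℝ} (hv : |v| ≤ 1) (h2 : 39 / 100 ≤ v ^ 2) :
    1 / 10 ^ 6 < cosT Phi (256206 / 1000000) ((26725 + 3000 * v) / 1000) := by
  have h := RD.leftQ_spec s1_side s1_left hv h2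
  simpa [s1] using h

theorem neg_R0 : cosT Phi (256205 / 1000000) (26725 / 1000) < 0 := by
  have h := RD.negC_spec s2_side s2_neg
  simpa [s2] using h

theorem pos_mid {x : ℝ} (h1 : 30.64 ≤ x) (h2 : x ≤ 34.16) : 0 < cosT Phi (256206 / 1000000) x := by
  have hv : |(1000 * x - 32400) / 1760| ≤ 1 := by
    rw [abs_le]
    constructor
    · rw [le_div_iff₀ (by norm_num)]; norm_num at h1 ⊢; linarith
    · rw [div_le_iff₀ (by norm_num)]; norm_num at h2 ⊢; linarith
  have h := RD.posC_spec s3_side s3_pos hv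
  have e : ((32400 : ℝ) + 1760 * ((1000 * x - 32400) / 1760)) / 1000 = x := by ring
  simp only [s3] at h
  push_cast at h
  rw [e] at h
  exact h

/-- the threshold -/
theorem exists_Rs : ∃ Rs c : ℝ, 256205 / 1000000 < Rs ∧ Rs < 256206 / 1000000 ∧ c ∈ JJ ∧
    cosT Phi Rs c = 0 ∧ (∀ x ∈ JJ, 0 ≤ cosT Phi Rs x) ∧
    (∀ R, Rs < R → R ≤ 256206 / 1000000 → ∀ x ∈ JJ, 0 < cosT Phi R x) := by
  set S : Set ℝ := {R | 256205 / 1000000 ≤ R ∧ R ≤ 256206 / 1000000 ∧ ∃ x ∈ JJ, cosT Phi R x ≤ 0}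
    with hS
  have hcJ : (26725 / 1000 : ℝ) ∈ JJ := by constructor <;> norm_num
  have hne : (256205 / 1000000 : ℝ) ∈ S := ⟨le_rfl, by norm_num, _, hcJ, neg_R0.le⟩
  have hbd : BddAbove S := ⟨256206 / 1000000, fun R hR => hR.2.1⟩
  set Rs := sSup S with hRs
  have ha : 256205 / 1000000 ≤ Rs := le_csSup hbd hne
  have hb : Rs ≤ 256206 / 1000000 := csSup_le ⟨_, hne⟩ fun R hR => hR.2.1
  have hRs0 : 0 ≤ Rs := le_trans (by norm_num) ha
  have hgt : ∀ R, Rs < R → R ≤ 256206 / 1000000 → ∀ x ∈ JJ, 0 < cosT Phi R x := by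
    intro R h1 h2 x hx
    by_contra hcon
    push Not at hcon
    have : R ∈ S := ⟨ha.trans h1.le, h2, x, hx, hcon⟩
    exact absurd (le_csSup hbd this) (not_le.2 h1)
  have hJc : IsCompact JJ := isCompact_Icc
  obtain ⟨c, hc, hmin⟩ := hJc.exists_isMinOn ⟨_, hcJ⟩ (cosT_cont hRs0).continuousOn
  have hc0 : cosT Phi Rs c ≤ 0 := by
    by_contra hcon
    push Not at hcon
    obtain ⟨R, hR, hlt⟩ := exists_lt_of_lt_csSup (b := Rs - cosT Phi Rs c) ⟨_, hne⟩ (by
      rw [← hRs]; linarith)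
    obtain ⟨h1, h2, x, hx, hx0⟩ := hR
    have hle : R ≤ Rs := le_csSup hbd ⟨h1, h2, x, hx, hx0⟩
    have hv := (abs_le.1 (cosT_var (by norm_num at h1 ⊢; linarith) hle x)).2
    have hm : cosT Phi Rs c ≤ cosT Phi Rs x := hmin hx
    nlinarith
  have hlt : Rs < 256206 / 1000000 := by
    rcases lt_or_eq_of_le hb with h | h
    · exact h
    · exact absurd (pos_R1 hc) (not_lt.2 (by rw [← h]; exact hc0))
  have hnn : ∀ x ∈ JJ, 0 ≤ cosT Phi Rs x := by
    intro x hx
    by_contra hcon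
    push Not at hcon
    set η := -cosT Phi Rs x with hη
    have hη0 : 0 < η := by rw [hη]; linarith
    set R := min (256206 / 1000000) (Rs + η) with hR
    have h1 : Rs < R := lt_min hlt (by linarith)
    have h2 : R ≤ 256206 / 1000000 := min_le_left _ _
    have h3 : R ≤ Rs + η := min_le_right _ _
    have hv := (abs_le.1 (cosT_var (by norm_num at ha ⊢; linarith) h1.le x)).2
    have := hgt R h1 h2 x hx
    nlinarith
  have hlt' : 256205 / 1000000 < Rs := by
    rcases lt_or_eq_of_le ha with h | h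
    · exact h
    · have := hnn _ hcJ
      rw [← h] at this
      exact absurd this (not_le.2 neg_R0)
  exact ⟨Rs, c, hlt', hlt, hc, le_antisymm hc0 (hnn c hc), hnn, hgt⟩

end Pool.Agent.Helper67.Xi
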