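import Pool.Agent.Helper67.XiThr

/-! Both sides of the threshold. -/

open Set MeasureTheory
open scoped Interval

namespace Pool.Agent.Helper67.Xi

/-- position of the double zero -/
theorem c_range {Rs c : ℝ} (h1 : 256205 / 1000000 < Rs) (h2 : Rs < 256206 / 1000000)
    (hc : c ∈ JJ) (h0 : cosT Phi Rs c = 0) : 24.85 < c ∧ c < 28.6 := by
  obtain ⟨v, hv, rfl⟩ := JJ_v hc
  have hv2 : v ^ 2 < 39 / 100 := by
    by_contra hcon
    push Not at hcon
    have h3 := left_R1 hv hcon
    have h4 := (abs_le.1 (cosT_var (R := Rs) (by norm_num at h1 ⊢; linarith) h2.le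
      ((26725 + 3000 * v) / 1000))).2
    rw [h0] at h4
    norm_num at h3 h4 h1
    linarith
  have hv3 : |v| < 0.6245 := by
    apply abs_lt_of_sq_lt_sq _ (by norm_num)
    norm_num
    linarith
  obtain ⟨h5, h6⟩ := abs_lt.1 hv3
  norm_num at h5 h6 ⊢
  constructor <;> linarith

theorem zk_two (R : ℝ) : zk R 2 = 5 / 2 * Real.pi / R := by
  rw [zk]; push_cast; ring

theorem zk_one' (R : ℝ) : zk R 1 = 3 / 2 * Real.pi / R := by
  rw [zk]; push_cast; ring

theorem zk_12 {R : ℝ} (hR : 0 < R) : zk R 1 < zk R 2 := by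
  rw [zk_two, zk_one']
  have := Real.pi_pos
  gcongr
  norm_num

/-- all zeros are real up to the threshold -/
theorem real_low {Rs c : ℝ} (h1 : 256205 / 1000000 < Rs) (h2 : Rs < 256206 / 1000000)
    (hc : c ∈ JJ) (h0 : cosT Phi Rs c = 0) {R : ℝ} (hR : 0 < R) (hRs : R ≤ Rs) (z : ℂ)
    (hz : H R z = 0) : z.im = 0 := by
  have hpi := Real.pi_gt_d4
  have hpi2 := Real.pi_lt_d4
  have hpos : ∀ t ∈ Icc 0 R, 0 < Phi t := fun t ht => Phi_pos ht.1
  have hz' : cosTC Phi R z = 0 := hz
  rcases le_or_gt R (19 / 100) with h | h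
  · refine real_of_signs hR (Phi_continuousOn R) hpos (zk R 1) le_rfl (zk_12 hR)
      (Helper85.XiSign.sign_one R hR h) (Helper85.XiSign.sign_zero R hR) ?_ z hz'
    intro k hk
    rcases Nat.lt_or_ge k 3 with h3 | h3
    · have : k = 2 := by omega
      subst this
      have := Helper85.XiSign.sign_two R hR (by linarith)
      simpa using this
    · exact Helper85.XiSign.sign_ge3 R hR (by linarith) k h3
  · obtain ⟨c1, c2⟩ := c_range h1 h2 hc h0
    have hRs0 : 0 < Rs := by linarith
    have hcR : cosT Phi R c ≤ 0 := by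
      rw [← h0]
      apply cosT_mono hR.le hRs
      intro t ht
      apply cos_nonneg_35
      · have : (24.85 : ℝ) * 0.19 ≤ c * t := by
          have := ht.1
          gcongr
          norm_num at h ⊢
          linarith
        norm_num at this hpi2
        linarith
      · have : c * t ≤ 28.6 * (256206 / 1000000) := by
          have := ht.2
          have ht0 : 0 ≤ t := hR.le.trans ht.1
          gcongr
          linarith
        norm_num at this hpi
        linarith
    refine real_of_signs hR (Phi_continuousOn R) hpos c ?_ ?_ hcR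
      (Helper85.XiSign.sign_zero R hR) ?_ z hz'
    · rw [zk_one', div_le_iff₀ hR]
      have : (24.85 : ℝ) * 0.19 ≤ c * R := by
        gcongr
        norm_num at h ⊢
        linarith
      norm_num at this hpi2
      linarith
    · rw [zk_two, lt_div_iff₀ hR]
      have : c * R ≤ 28.6 * (256206 / 1000000) := by
        gcongr
        linarith
      norm_num at this hpi
      linarith
    intro k hk
    rcases Nat.lt_or_ge k 3 with h3 | h3
    · have : k = 2 := by omega
      subst this
      rcases le_or_gt R (23 / 100) with h4 | h4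
      · have := Helper85.XiSign.sign_two R hR h4
        simpa using this
      · have e : (-1 : ℝ) ^ 2 * cosT Phi R (zk R (2 : ℕ)) = cosT Phi R (zk R 2) := by
          norm_num
        have h5 : zk R 2 * R = 5 / 2 * Real.pi := by
          rw [zk_two, div_mul_cancel₀ _ hR.ne']
        have hz0 : 0 < zk R 2 := by
          rw [zk_two]; positivity
        have h6 : 30.64 ≤ zk R 2 := by
          rw [zk_two, le_div_iff₀ hR]
          have : (30.64 : ℝ) * R ≤ 30.64 * (256206 / 1000000) := by
            gcongr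
            linarith
          norm_num at this hpi
          norm_num
          linarith
        have h7 : zk R 2 ≤ 34.16 := by
          rw [zk_two, div_le_iff₀ hR]
          have : (34.16 : ℝ) * (23 / 100) ≤ 34.16 * R := by gcongr
          norm_num at this hpi2
          norm_num
          linarith
        have h8 := pos_mid h6 h7
        have h9 : cosT Phi (256206 / 1000000) (zk R 2) ≤ cosT Phi R (zk R 2) := by
          apply cosT_anti hR.le (by linarith)
          intro t ht
          apply cos_nonpos_57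
          · rw [← h5]
            have := ht.1
            gcongr
          · have : zk R 2 * t ≤ 34.16 * (256206 / 1000000) := by
              have := ht.2
              have ht0 : 0 ≤ t := hR.le.trans ht.1
              gcongr
            norm_num at this hpi
            linarith
        rw [e]
        linarith
    · exact Helper85.XiSign.sign_ge3 R hR (by linarith) k h3

/-- strict negativity below the threshold -/
theorem neg_below {Rs c : ℝ} (h1 : 256205 / 1000000 < Rs) (h2 : Rs < 256206 / 1000000)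
    (hc : c ∈ JJ) (h0 : cosT Phi Rs c = 0) {R : ℝ} (hR : 0.19 ≤ R) (hRs : R < Rs) :
    cosT Phi R c < 0 := by
  have hpi := Real.pi_gt_d4
  have hpi2 := Real.pi_lt_d4
  obtain ⟨c1, c2⟩ := c_range h1 h2 hc h0
  have hR0 : 0 ≤ R := le_trans (by norm_num) hR
  have h3 := cosT_sub hR0 (hR0.trans hRs.le) c
  have h4 : 0 < ∫ t in R..Rs, Phi t * Real.cos (c * t) := by
    apply intervalIntegral.intervalIntegral_pos_of_pos_on (ii_cos c hR0 (hR0.trans hRs.le)) _ hRs
    intro t ht
    apply mul_pos (Phi_pos (hR0.trans ht.1.le))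
    rw [← Real.cos_sub_two_pi]
    apply Real.cos_pos_of_mem_Ioo
    constructor
    · have : (24.85 : ℝ) * 0.19 ≤ c * t := by
        have := hR.trans ht.1.le
        gcongr
      norm_num at this hpi2
      linarith
    · have : c * t ≤ 28.6 * (256206 / 1000000) := by
        have := ht.2
        have ht0 : 0 ≤ t := hR0.trans ht.1.le
        gcongr
        linarith
      norm_num at this hpi
      linarith
  rw [h0] at h3
  linarith

/-! ### just above the threshold -/

theorem norm_two_cos_le {z : ℂ} (h : |z.im| ≤ 1) : ‖2 * Complex.cos z‖ ≤ 4 := by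
  have e : 2 * Complex.cos z = Complex.exp (z * Complex.I) + Complex.exp (-z * Complex.I) := by
    rw [Complex.cos]; ring
  rw [e]
  refine (norm_add_le _ _).trans ?_
  rw [Complex.norm_exp, Complex.norm_exp]
  have e1 : (z * Complex.I).re = -z.im := by simp
  have e2 : (-z * Complex.I).re = z.im := by simp
  rw [e1, e2]
  obtain ⟨h1, h2⟩ := abs_le.1 h
  have h3 := Real.exp_one_lt_d9
  rcases le_total 0 z.im with h0 | h0
  · have i1 : Real.exp (-z.im) ≤ 1 := Real.exp_le_one_iff.2 (by linarith)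
    have i2 : Real.exp z.im ≤ Real.exp 1 := Real.exp_le_exp.2 h2
    linarith
  · have i1 : Real.exp z.im ≤ 1 := Real.exp_le_one_iff.2 h0
    have i2 : Real.exp (-z.im) ≤ Real.exp 1 := Real.exp_le_exp.2 (by linarith)
    linarith

theorem H_var {Ri R δ B : ℝ} (h0 : 0 ≤ Ri - δ) (hδ : |R - Ri| ≤ δ)
    (hB : ∀ t, Ri - δ ≤ t → Phi t ≤ B) (w : ℂ) (hw : |w.im| * (Ri + δ) ≤ 1) :
    ‖2 * H R w - 2 * H Ri w‖ ≤ 4 * B * δ := by
  have hδ0 : 0 ≤ δ := (abs_nonneg _).trans hδ
  obtain ⟨ha, hb⟩ := abs_le.1 hδ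
  have hRi : 0 ≤ Ri := by linarith
  have hR : 0 ≤ R := by linarith
  have hB0 : 0 ≤ B := (Phi_pos (by linarith)).le.trans (hB Ri (by linarith))
  have hci : ∀ a b : ℝ, 0 ≤ a → 0 ≤ b → IntervalIntegrable
      (fun t => (Phi t : ℂ) * Complex.cos (w * (t : ℂ))) volume a b := by
    intro a b ha hb
    apply ContinuousOn.intervalIntegrable
    have hc : ContinuousOn Phi (uIcc a b) := by
      apply (Phi_continuousOn (max a b)).mono
      rw [uIcc]
      intro x hx
      exact ⟨(le_min ha hb).trans hx.1, hx.2⟩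
    exact (Complex.continuous_ofReal.comp_continuousOn hc).mul (by fun_prop)
  have h1 : 2 * H R w - 2 * H Ri w =
      ∫ t in Ri..R, (Phi t : ℂ) * (2 * Complex.cos (w * (t : ℂ))) := by
    have h2 := intervalIntegral.integral_interval_sub_left (hci 0 R le_rfl hR) (hci 0 Ri le_rfl hRi)
    have h3 : (∫ t in Ri..R, (Phi t : ℂ) * (2 * Complex.cos (w * (t : ℂ)))) =
        2 * ∫ t in Ri..R, (Phi t : ℂ) * Complex.cos (w * (t : ℂ)) := by
      rw [← intervalIntegral.integral_const_mul]
      congr 1; ext t; ring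
    rw [h3, ← h2, H, H]
    ring
  rw [h1]
  have h := intervalIntegral.norm_integral_le_of_norm_le_const (a := Ri) (b := R)
      (C := B * 4) (f := fun t : ℝ => (Phi t : ℂ) * (2 * Complex.cos (w * (t : ℂ)))) (by
      intro t ht
      have ht1 : Ri - δ ≤ t ∧ t ≤ Ri + δ := by
        rcases le_total Ri R with h | h
        · rw [uIoc_of_le h] at ht; exact ⟨by linarith [ht.1], by linarith [ht.2]⟩
        · rw [uIoc_of_ge h] at ht; exact ⟨by linarith [ht.1], by linarith [ht.2]⟩
      have ht0 : 0 ≤ t := by linarith [ht1.1]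
      rw [norm_mul, Complex.norm_real, Real.norm_eq_abs, abs_of_pos (Phi_pos ht0)]
      have i1 : ‖2 * Complex.cos (w * (t : ℂ))‖ ≤ 4 := by
        apply norm_two_cos_le
        have : (w * (t : ℂ)).im = w.im * t := by simp
        rw [this, abs_mul, abs_of_nonneg ht0]
        have : |w.im| * t ≤ |w.im| * (Ri + δ) := mul_le_mul_of_nonneg_left ht1.2 (abs_nonneg _)
        linarith
      have i2 := hB t ht1.1
      have i3 := (Phi_pos ht0).le
      gcongr)
  calc _ ≤ B * 4 * |R - Ri| := h
    _ ≤ B * 4 * δ := by gcongr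
    _ = _ := by ring

theorem phN_real : (4 * (trm 0 (2561 / 10000) + 98 / 10 ^ 5 * Real.exp (-(40 * (2561 / 10000)))) *
    (12 / 10000)) * SC + s4.tailN ≤ s4N := by
  have hm : CB.mem (((2561 / 10000 : ℝ) : ℝ) : ℂ) tb := by
    have := mem_rat_real 2561 (d := 10000) (by norm_num)
    push_cast at this ⊢; exact this
  have h1 := phN_spec phi_num.1 hm
  have h2 := nat_div_ceil (48 * phN 6 tb) (10 ^ 4) (by norm_num)
  rw [s4N]
  generalize 48 * phN 6 tb / 10 ^ 4 = q at h2 ⊢
  push_cast at h2 ⊢
  linarith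

/-- domination on the circle -/
theorem circle_lt {R : ℝ} (h1 : 0.2561 ≤ R) (h2 : R ≤ 0.2585) {w : ℂ}
    (hw : ‖w - ((26725 / 1000 : ℝ) : ℂ)‖ = 3) :
    ‖H R ((26725 / 1000 : ℝ) : ℂ)‖ < ‖H R w‖ := by
  have hS := SC_pos
  set v : ℂ := (w - ((26725 / 1000 : ℝ) : ℂ)) / 3 with hv
  have hvn : ‖v‖ = 1 := by
    rw [hv, norm_div, hw]; norm_num
  have hwv : w = ((26725 / 1000 : ℝ) : ℂ) + ((3000 / 1000 : ℝ) : ℂ) * v := by
    rw [hv]; push_cast; ring
  obtain ⟨X, hX, hXn⟩ := RD.spec s4_side (R := 2573 / 10000) (by simp [s4]) hvn.le (w := w) (by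
    rw [hwv]; simp [s4])
  obtain ⟨X0, hX0, hX0n⟩ := RD.spec s4_side (R := 2573 / 10000) (by simp [s4]) (v := 0) (by simp)
    (w := ((26725 / 1000 : ℝ) : ℂ)) (by simp [s4])
  have hvar : ∀ u : ℂ, |u.im| ≤ 3 → ‖2 * H R u - 2 * H (2573 / 10000) u‖ * SC + s4.tailN ≤ s4N := by
    intro u hu
    have h := H_var (Ri := 2573 / 10000) (R := R) (δ := 12 / 10000)
      (B := trm 0 (2561 / 10000) + 98 / 10 ^ 5 * Real.exp (-(40 * (2561 / 10000))))
      (by norm_num) (by
        rw [abs_le]; norm_num at h1 h2 ⊢; constructor <;> linarith) (by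
        intro t ht
        exact Phi_le_at (by norm_num) (by norm_num at ht ⊢; exact ht)) u (by
        have : |u.im| * (2573 / 10000 + 12 / 10000) ≤ 3 * (2573 / 10000 + 12 / 10000) := by gcongr
        norm_num at this ⊢
        linarith)
    refine le_trans ?_ phN_real
    gcongr
  have him : |w.im| ≤ 3 := by
    rw [← hw]
    have : w.im = (w - ((26725 / 1000 : ℝ) : ℂ)).im := by simp
    rw [this]
    exact Complex.abs_im_le_norm _
  have hv1 := hvar w him
  have hv2 := hvar ((26725 / 1000 : ℝ) : ℂ) (by rw [Complex.ofReal_im]; norm_num)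
  match hl : s4.lst, s4_dom with
  | [], hp => simp [domQ] at hp
  | [_], hp => simp [domQ] at hp
  | [_, _], hp => simp [domQ] at hp
  | g0 :: g1 :: g2 :: gs, hp =>
    rw [hl] at hX hX0
    have p0 := of_decide_eq_true hp
    have p0r : (g2.rad : ℝ) + 2 * (g0.up + g0.rad) + (g1.up + g1.rad) + sumUp gs + 2 * s4N < g2.lo := by
      exact_mod_cast p0
    have q1 := dom2_low hvn hX
    have q2 : ‖X0‖ * SC ≤ g0.up + g0.rad := by
      obtain ⟨l, hfl, rfl⟩ := hX0
      cases hfl with
      | @cons a A l L ha hfl =>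
        have e : ev (a :: l) 0 = a := by simp [ev]
        rw [e]
        exact norm_le_up ha
    have t1 : ‖X‖ ≤ ‖2 * H R w‖ + ‖2 * H R w - 2 * H (2573 / 10000) w‖ +
        ‖2 * H (2573 / 10000) w - X‖ := by
      have e : X = 2 * H R w - (2 * H R w - 2 * H (2573 / 10000) w) -
        (2 * H (2573 / 10000) w - X) := by ring
      have g1 := norm_sub_le (2 * H R w - (2 * H R w - 2 * H (2573 / 10000) w))
        (2 * H (2573 / 10000) w - X)
      rw [← e] at g1
      have g2 := norm_sub_le (2 * H R w) (2 * H R w - 2 * H (2573 / 10000) w)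
      linarith
    have t2 : ‖2 * H R ((26725 / 1000 : ℝ) : ℂ)‖ ≤ ‖X0‖ +
        ‖2 * H R ((26725 / 1000 : ℝ) : ℂ) - 2 * H (2573 / 10000) ((26725 / 1000 : ℝ) : ℂ)‖ +
        ‖2 * H (2573 / 10000) ((26725 / 1000 : ℝ) : ℂ) - X0‖ := by
      have e : 2 * H R ((26725 / 1000 : ℝ) : ℂ) = X0 +
        (2 * H R ((26725 / 1000 : ℝ) : ℂ) - 2 * H (2573 / 10000) ((26725 / 1000 : ℝ) : ℂ)) +
        (2 * H (2573 / 10000) ((26725 / 1000 : ℝ) : ℂ) - X0) := by ring
      calc _ = ‖X0 +
        (2 * H R ((26725 / 1000 : ℝ) : ℂ) - 2 * H (2573 / 10000) ((26725 / 1000 : ℝ) : ℂ)) +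
        (2 * H (2573 / 10000) ((26725 / 1000 : ℝ) : ℂ) - X0)‖ := by rw [← e]
        _ ≤ _ := norm_add₃_le
    have t3 := mul_le_mul_of_nonneg_right t1 hS.le
    have t4 := mul_le_mul_of_nonneg_right t2 hS.le
    have t5 : ‖2 * H R ((26725 / 1000 : ℝ) : ℂ)‖ * SC < ‖2 * H R w‖ * SC := by
      rw [add_mul, add_mul] at t3 t4
      linarith
    have t6 := lt_of_mul_lt_mul_right t5 hS.le
    rw [norm_mul, norm_mul] at t6
    have : ‖(2 : ℂ)‖ = 2 := by simp
    rw [this] at t6
    linarith

/-- positivity just above the threshold -/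
theorem pos_near {Rs : ℝ}
    (hgt : ∀ R, Rs < R → R ≤ 256206 / 1000000 → ∀ x ∈ JJ, 0 < cosT Phi R x) {R : ℝ} (hR : Rs < R)
    (hR2 : R ≤ 0.2585) : ∀ x ∈ JJ, 0 < cosT Phi R x := by
  have hpi := Real.pi_gt_d4
  have hpi2 := Real.pi_lt_d4
  · intro x hx
    rcases le_or_gt R (256206 / 1000000) with h | h
    · exact hgt R hR h x hx
    · have h3 := pos_R1 hx
      refine h3.trans_le ?_
      apply cosT_mono (by norm_num) h.le
      intro t ht
      obtain ⟨x1, x2⟩ := hx
      apply cos_nonneg_35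
      · have : (23725 / 1000 : ℝ) * (256206 / 1000000) ≤ x * t := by
          have := ht.1
          gcongr
        norm_num at this hpi2
        linarith
      · have : x * t ≤ (29725 / 1000) * 0.2585 := by
          have := ht.2.trans hR2
          have ht0 : 0 ≤ t := le_trans (by norm_num) ht.1
          gcongr
        norm_num at this hpi
        linarith

/-- zeros off the axis just above the threshold -/
theorem nonreal_near {Rs : ℝ} (h1 : 256205 / 1000000 < Rs)
    (hgt : ∀ R, Rs < R → R ≤ 256206 / 1000000 → ∀ x ∈ JJ, 0 < cosT Phi R x) {R : ℝ} (hR : Rs < R)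
    (hR2 : R ≤ 0.2585) : ∃ z : ℂ, H R z = 0 ∧ z.im ≠ 0 := by
  have hpos := pos_near hgt hR hR2
  have hR0 : 0 ≤ R := by linarith
  obtain ⟨z, hz1, hz2⟩ := exists_zero_of_min (f := H R) (c := ((26725 / 1000 : ℝ) : ℂ)) (r := 3)
    (by norm_num) (H_diff hR0).diffContOnCl (fun w hw =>
      circle_lt (by norm_num at h1 ⊢; linarith) hR2 hw)
  refine ⟨z, hz2, fun him => ?_⟩
  have hzr : z = ((z.re : ℝ) : ℂ) := by
    apply Complex.ext <;> simp [him]
  rw [hzr, ← Complex.ofReal_sub, Complex.norm_real, Real.norm_eq_abs] at hz1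
  obtain ⟨i1, i2⟩ := abs_lt.1 hz1
  have hzJ : z.re ∈ JJ := by
    constructor
    · norm_num at i1 ⊢; linarith
    · norm_num at i2 ⊢; linarith
  have := hpos _ hzJ
  rw [hzr, H_ofReal] at hz2
  have h0 : cosT Phi R z.re = 0 := by exact_mod_cast hz2
  linarith

end Pool.Agent.Helper67.Xi
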